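import Pool.Agent.H.MP_374efc_lc.Bim.MalA
import Pool.Agent.H.MP_374efc_lc.Tr.Last2

/-!
# The core statement for every `H`

`Loc H b0 m`: at the ends of big tokens there is a state of `Q`, different from the base, joined to
the state of `H` and to the base of `H`. `core_all`: `CoreP` from `Loc` and acyclicity of `KK`.
`false_of_loc`: the contradiction from hypothesis (X), `NoMix`, acyclicity and `Loc`.
-/

set_option autoImplicit false

namespace D0L.Bim

open Tr

variable {n N : ℕ} {H : Fin n → List (Fin n)} {b0 : List (Fin n)} {x T y : List (Fin n)}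
  {js : List ℕ} {J : ℕ}

/-- (LOC) for the pair of `Q = (w_i, i < m)` and `H`. -/
def Loc (H : Fin n → List (Fin n)) (b0 : List (Fin n)) (m : ℕ) : Prop :=
  (∀ k, n ≤ k → ∀ s, IsSt (rH H) s → s ≠ [] → run (rH H) s (it H k b0) ≠ none →
    ∃ q, IsSt (rQ H b0 m) q ∧ q ≠ [] ∧ Tr.Rel (rQ H b0 m) (rH H) q s ∧
      Tr.Rel (rQ H b0 m) (rH H) q []) ∧
  ∀ k, n ≤ k → ∀ s0 s, IsSt (rH H) s0 → s ≠ [] → run (rH H) s0 (it H k b0) = some s →
    ∃ q, IsSt (rQ H b0 m) q ∧ q ≠ [] ∧ Tr.Rel (rQ H b0 m) (rH H) q s ∧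
      Tr.Rel (rQ H b0 m) (rH H) q []

/-- (LOC) holds for malnormal `H`: its premises are impossible. -/
theorem loc_of_mal (hnf : NF H b0 N) (hb : Bmk H) (hM : Mal (rH H))
    (hnl : ¬ ∀ i < n, (it H i b0).length = 1) (m : ℕ) : Loc H b0 m := by
  have hn := pos_n hnf
  have hH : ∀ u, run (rH H) [] (app H u) = some [] := fun u => (rH_iff hnf hb).2 ⟨u, rfl⟩
  have hD : ∀ c, run (rH H) [] (H c) = some [] := fun c => by
    rw [← app_singleton H c]
    exact hH [c]
  refine ⟨fun k hk s hs hne hr => (hne ?_).elim, fun k hk s0 s hs0 hne hr => (hne ?_).elim⟩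
  · exact lemR_mal hnf hnl (rH_bim hb) hM (occ_rH hnf hb) hD hk hs hr
  · have h1 := lemR_mal hnf hnl (rH_bim hb) hM (occ_rH hnf hb) hD hk hs0 (by rw [hr]; simp)
    rw [h1] at hr
    obtain ⟨k, rfl⟩ : ∃ j, k = j + 1 := ⟨k - 1, by omega⟩
    rw [it_succ, hH] at hr
    exact (Option.some.inj hr).symm

/-- A list of tokens as a list of options. -/
theorem exists_opt {α : Type*} {P : List α → Prop} {y : List α} {L : List (List α)}
    (hL : ∀ τ ∈ L, P τ ∨ τ = y) :
    ∃ l : List (Option {τ : List α // P τ}),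
      (l.map fun o => o.elim y Subtype.val).flatten = L.flatten ∧ (y ∈ L → none ∈ l) := by
  classical
  induction L with
  | nil => exact ⟨[], rfl, by simp⟩
  | cons τ L ih =>
    obtain ⟨l, h1, h2⟩ := ih fun τ hτ => hL τ (List.mem_cons_of_mem _ hτ)
    by_cases h : τ = y
    · refine ⟨none :: l, ?_, fun _ => List.mem_cons_self⟩
      rw [List.map_cons, List.flatten_cons, h1, List.flatten_cons, h]
      rfl
    · have hP : P τ := (hL τ List.mem_cons_self).resolve_right h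
      refine ⟨some ⟨τ, hP⟩ :: l, ?_, fun hy => ?_⟩
      · rw [List.map_cons, List.flatten_cons, h1, List.flatten_cons]
        rfl
      · rcases List.mem_cons.1 hy with hy | hy
        · exact (h hy.symm).elim
        · exact List.mem_cons_of_mem _ (h2 hy)

/-- **The core statement for every `H`.** -/
theorem core_all (hnf : NF H b0 N) (hb : Bmk H) (hx : XD H b0 n x T js) (hJ : 1 ≤ J)
    (hJn : J < n) (hy : it H J y = T) (hyn : ∀ z, app H z ≠ y) (hjs : ∀ j ∈ js, j + J < n)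
    (hk : (KK (rQ H b0 (n - J)) (rH H)).IsAcyclic) (hloc : Loc H b0 (n - J)) :
    CoreP H b0 J y := by
  classical
  intro L hL hyL z hz
  have hn := pos_n hnf
  have hm1 : 1 ≤ n - J := by omega
  have hmn : n - J ≤ n := Nat.sub_le _ _
  have hX : XH H b0 (n - J) := by
    obtain ⟨js', rfl⟩ := hx.js_cons
    refine ⟨x, js', fun j hj => ?_, by rw [hx.app_x, hx.tok]⟩
    have := hjs j (List.mem_cons_of_mem _ hj)
    omega
  have hp := pr_rose hnf hb hm1 hmn hX
  obtain ⟨a, ha, ha1, ha2, ha3, ha4⟩ := exists_fi hnf (hb.bimk hnf).1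
  obtain ⟨b, hb0, hb1, hb2, hb3, hb4⟩ := exists_la hnf (hb.bimk hnf).2
  have hfy := fst_chain hnf hx hJ hJn hy ha ha1 ha2 ha3 ha4
  have hly := lst_chain hnf hb hx hJ hJn hy hb0 hb1 hb2 hb3 hb4
  -- letters which are not read at the base
  have hout : ∀ k, n - J ≤ k → k < n → rQ H b0 (n - J) (a k) = none := by
    intro k h1 h2
    cases h3 : rQ H b0 (n - J) (a k) with
    | none => rfl
    | some l =>
      exfalso
      obtain ⟨i, hi, hw⟩ := (rQ_some hnf hmn).1 h3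
      obtain ⟨s, hs⟩ := ha i
      rw [hs] at hw
      have h4 := ha3 i k (by omega) h2 (List.cons.inj hw).1
      omega
  have hinn : ∀ k, n - J ≤ k → k < n → ∀ q, IsSt (rQ H b0 (n - J)) q →
      step (rQ H b0 (n - J)) q (b k) ≠ some [] := by
    intro k h1 h2 q hq h3
    obtain ⟨i, hi, s, hw⟩ := step_nil_last hnf hmn hq h3
    obtain ⟨t, ht⟩ := hb0 i
    rw [ht] at hw
    have h4 := hb3 i k (by omega) h2 (snoc_inj hw)
    omega
  have hQ : ∀ k, k < n - J → run (rQ H b0 (n - J)) [] (it H k b0) = some [] := by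
    intro k hk
    refine (rQ_iff hnf hmn).2 ⟨[k], by simpa using hk, ?_⟩
    simp
  have hH : ∀ u, run (rH H) [] (app H u) = some [] := fun u => (rH_iff hnf hb).2 ⟨u, rfl⟩
  have hHw : ∀ k, 1 ≤ k → run (rH H) [] (it H k b0) = some [] := by
    intro k hk
    obtain ⟨k, rfl⟩ : ∃ j, k = j + 1 := ⟨k - 1, by omega⟩
    rw [it_succ]
    exact hH _
  -- words which begin, resp. end, with such a letter
  have hrn : ∀ k s, n - J ≤ k → k < n → run (rQ H b0 (n - J)) [] (a k :: s) = none := by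
    intro k s h1 h2
    rw [run_cons, step_nil, hout k h1 h2]
    rfl
  have hrn' : ∀ k s, n - J ≤ k → k < n → ∀ q, IsSt (rQ H b0 (n - J)) q →
      run (rQ H b0 (n - J)) q (s ++ [b k]) ≠ some [] := by
    intro k s h1 h2 q hq h3
    rw [run_append, Option.bind_eq_some_iff] at h3
    obtain ⟨t, h4, h5⟩ := h3
    rw [run_cons, Option.bind_eq_some_iff] at h5
    obtain ⟨t', h6, h7⟩ := h5
    rw [run_nil] at h7
    rw [Option.some.inj h7] at h6
    exact hinn k h1 h2 t (run_isSt hq h4) h6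
  obtain ⟨P, hPdef⟩ : ∃ P : List (Fin n) → Prop,
    P = fun τ => (∃ k, τ = it H k b0) ∨ ∃ i, 1 ≤ i ∧ i < J ∧ τ = it H i y := ⟨_, rfl⟩
  have hPiff : ∀ τ, P τ ↔ (∃ k, τ = it H k b0) ∨ ∃ i, 1 ≤ i ∧ i < J ∧ τ = it H i y := by
    intro τ
    rw [hPdef]
  have hLP : ∀ τ ∈ L, P τ ∨ τ = y := by
    intro τ hτ
    rw [hPiff]
    rcases hL τ hτ with h | ⟨i, hi, rfl⟩
    · exact Or.inl (Or.inl h)
    · rcases Nat.eq_zero_or_pos i with rfl | h1
      · exact Or.inr rfl
      · exact Or.inl (Or.inr ⟨i, h1, hi, rfl⟩)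
  obtain ⟨l, hl, hnl⟩ := exists_opt hLP
  have hPτ : ∀ τ : {τ : List (Fin n) // P τ},
      (∃ k, τ.1 = it H k b0) ∨ ∃ i, 1 ≤ i ∧ i < J ∧ τ.1 = it H i y := by
    intro τ
    exact (hPiff τ.1).1 τ.2
  obtain ⟨s1, hs1⟩ := hfy 0
  obtain ⟨s2, hs2⟩ := hly 0
  have hsmall : ∀ τ : {τ : List (Fin n) // P τ}, (¬ ∃ k, n ≤ k ∧ τ.1 = it H k b0) →
      (∃ k < n, τ.1 = it H k b0) ∨ ∃ i, 1 ≤ i ∧ i < J ∧ τ.1 = it H i y := by
    intro τ hτ
    rcases hPτ τ with ⟨k, hk⟩ | h
    · rcases lt_or_ge k n with h1 | h1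
      · exact Or.inl ⟨k, h1, hk⟩
      · exact (hτ ⟨k, h1, hk⟩).elim
    · exact Or.inr h
  refine last_step2 (c := ew H b0 J) (z := fun τ : {τ : List (Fin n) // P τ} => τ.1)
    (small := fun τ => ¬ ∃ k, n ≤ k ∧ τ.1 = it H k b0) hp (hull_rose hnf hb hm1 hmn) hk
    (fun c l h => ew_zero hnf hJ h) hs1 hs2 ?_ (ew_pos hnf hx hJ hy) ?_ ?_
    (hout _ (by omega) (by omega)) (hinn _ (by omega) (by omega)) ?_ ?_ ?_ ?_ (l := l) ?_ (hnl hyL)
  · intro h
    obtain ⟨u, hu⟩ := (rH_iff hnf hb).1 h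
    exact hyn u hu.symm
  · intro τ
    rcases hPτ τ with ⟨k, h⟩ | ⟨i, h1, -, h⟩
    · change 0 ≤ wsum (ew H b0 J) τ.1
      rw [h, wsum_ew]
      exact tv_ww_nonneg hnf _ k
    · change 0 ≤ wsum (ew H b0 J) τ.1
      rw [h]
      exact ew_chain hnf hx hJ hy h1
  · intro τ
    rcases hPτ τ with ⟨k, h⟩ | ⟨i, h1, -, h⟩
    · rcases Nat.eq_zero_or_pos k with rfl | h1
      · left
        change run (rQ H b0 (n - J)) [] τ.1 = some []
        rw [h]
        exact hQ 0 (by omega)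
      · right
        change run (rH H) [] τ.1 = some []
        rw [h]
        exact hHw k h1
    · right
      change run (rH H) [] τ.1 = some []
      obtain ⟨i, rfl⟩ : ∃ j, i = j + 1 := ⟨i - 1, by omega⟩
      rw [h, it_succ]
      exact hH _
  · intro τ hτ
    change run (rQ H b0 (n - J)) [] τ.1 = some [] ∨ run (rQ H b0 (n - J)) [] τ.1 = none
    rcases hsmall τ hτ with ⟨k, h2, h⟩ | ⟨i, h1, h2, h⟩
    · rw [h]
      rcases lt_or_ge k (n - J) with h3 | h3
      · exact Or.inl (hQ k h3)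
      · obtain ⟨s, hs⟩ := ha k
        rw [hs]
        exact Or.inr (hrn k s h3 h2)
    · obtain ⟨s, hs⟩ := hfy i
      rw [h, hs]
      exact Or.inr (hrn _ s (by omega) (by omega))
  · intro τ hτ
    change run (rQ H b0 (n - J)) [] τ.1 = some [] ∨
      ∀ s, IsSt (rQ H b0 (n - J)) s → run (rQ H b0 (n - J)) s τ.1 ≠ some []
    rcases hsmall τ hτ with ⟨k, h2, h⟩ | ⟨i, h1, h2, h⟩
    · rw [h]
      rcases lt_or_ge k (n - J) with h3 | h3
      · exact Or.inl (hQ k h3)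
      · obtain ⟨s, hs⟩ := hb0 k
        rw [hs]
        exact Or.inr (hrn' k s h3 h2)
    · obtain ⟨s, hs⟩ := hly i
      rw [h, hs]
      exact Or.inr (hrn' _ s (by omega) (by omega))
  · intro τ hτ s hs hne hr
    obtain ⟨k, hk, h⟩ := not_not.1 hτ
    change run (rH H) s τ.1 ≠ none at hr
    rw [h] at hr
    exact hloc.1 k hk s hs hne hr
  · intro τ hτ s0 s hs0 hne hr
    obtain ⟨k, hk, h⟩ := not_not.1 hτ
    change run (rH H) s0 τ.1 = some s at hr
    rw [h] at hr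
    exact hloc.2 k hk s0 s hs0 hne hr
  · change run (rH H) [] (l.map fun o => o.elim y Subtype.val).flatten = some []
    rw [hl, hz]
    exact hH z

/-- **The case with cyclic letter maps, from (X), no mixing, acyclicity and (LOC).** -/
theorem false_of_loc (hnf : NF H b0 N) (hb : Bmk H) (hP : ∃ K, ∀ a, TkM H b0 (it H K [a]))
    (hX : XH H b0 n) (hmix : NoMix H b0)
    (hk : ∀ m, 1 ≤ m → m ≤ n → XH H b0 m → (KK (rQ H b0 m) (rH H)).IsAcyclic)
    (hloc : ∀ m, 1 ≤ m → m ≤ n → XH H b0 m → Loc H b0 m) : False := by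
  have hn := pos_n hnf
  obtain ⟨x, T, js, hx⟩ := exists_xd hnf hb hn le_rfl hX
  obtain ⟨J, y, hJ, hy, hyn⟩ := exists_chain hnf (hx.T_ne hnf) hx.app_x
  obtain ⟨hJn, hjs, hl⟩ := hmix x T js J y hx hJ hy
  have hX' : XH H b0 (n - J) := by
    obtain ⟨js', rfl⟩ := hx.js_cons
    refine ⟨x, js', fun j hj => ?_, by rw [hx.app_x, hx.tok]⟩
    have := hjs j (List.mem_cons_of_mem _ hj)
    omega
  exact false_of_core hnf hb hP hx
    (fun hp => amalg_ac hp (hull_rose hnf hb hn le_rfl) (hk n hn le_rfl hX)) hJ hJn hy hl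
    (core_all hnf hb hx hJ hJn hy hyn hjs (hk _ (by omega) (Nat.sub_le _ _) hX')
      (hloc _ (by omega) (Nat.sub_le _ _) hX'))

end D0L.Bim
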