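import Pool.Agent.H.MP_374efc_lc.Bim.Fun

/-!
# The end game (section 11 of h67_374efc_BIMFULL, and the version with `η` for group elements)

`NF H b0 N`; `w_i = it H i b0`; `tv H b0 0` is `η` (value `1` on `w_(n-1)`, `0` on `w_0, ..., w_(n-2)`).

* `letters_of_eta`: `η ≥ 0` on the letters => `w_0, ..., w_(n-1)` are letters.
* `letters_of_gen`: the letters are in the submonoid of the free group generated by the `w_k` and a set `X` of
  elements with `η ≥ 0` => letters.  `letters_of_gen'`: for `x ∈ X`, `h (x)` is a product of `w_0, ..., w_(n-1)`.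
* `letters_of_stages`: the same from (P1) and `{u : h^k (u) ∈ M} ⊆ ⟨M, X⟩` for all `k`.
* `letters_of_pre`: `w_0, ..., w_(n-2)` letters => letters.
* `pre_letters`: the letters are products of the words `w_k` and the words of `X` => `w_i` is a letter if
  `i + |X| < n`; `letters_of_one`: `|X| ≤ 1` => letters.
* `pre_letters_of_stages`, `letters_of_stages_one`: the same from (P1) and the stages.
-/

set_option autoImplicit false

namespace D0L.Bim

open Cdm

variable {n N : ℕ} {H : Fin n → List (Fin n)} {b0 : List (Fin n)}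

/-! ### `η ≥ 0` on the letters -/

theorem tv_word_nonneg {j : ℕ} (hpos : ∀ a, 0 ≤ tv H b0 j (FreeGroup.of a)) (u : List (Fin n)) :
    0 ≤ tv H b0 j (gw u) := by
  rw [tv_gw_sum]
  apply List.sum_nonneg
  intro x hx
  rw [List.mem_map] at hx
  obtain ⟨a, -, rfl⟩ := hx
  exact hpos a

theorem tv_mem_zero {j : ℕ} (hpos : ∀ a, 0 ≤ tv H b0 j (FreeGroup.of a)) {u : List (Fin n)}
    (h0 : tv H b0 j (gw u) = 0) {a : Fin n} (ha : a ∈ u) : tv H b0 j (FreeGroup.of a) = 0 := by
  obtain ⟨s, t, rfl⟩ := List.append_of_mem ha
  rw [gw_append, gw_cons, tv_mul, tv_mul] at h0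
  have h2 := tv_word_nonneg hpos s
  have h3 := tv_word_nonneg hpos t
  have h4 := hpos a
  omega

/-- **End game, main form.** If `η ≥ 0` on the letters then `w_0, ..., w_(n-1)` are letters. -/
theorem letters_of_eta (hnf : NF H b0 N) (hpos : ∀ a, 0 ≤ tv H b0 0 (FreeGroup.of a)) :
    ∀ i < n, (it H i b0).length = 1 := by
  have hn := pos_n hnf
  obtain ⟨f, hf, hf'⟩ := hnf.first
  obtain ⟨g, hg, hg'⟩ := hnf.last
  have hl : n - 1 < n := by omega
  set l : Fin n := ⟨n - 1, hl⟩ with hldef
  have hzero : ∀ i : Fin n, i ≠ l → tv H b0 0 (gw (it H i b0)) = 0 := by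
    intro i hi
    have h1 := tv_zero_ww hnf i.2
    rw [if_neg] at h1
    · exact h1
    · intro h1
      apply hi
      apply Fin.ext
      rw [hldef]
      change (i : ℕ) = n - 1
      omega
  have hfz : ∀ c, 0 < tv H b0 0 (FreeGroup.of c) → c = f l := by
    intro c hc
    obtain ⟨i, rfl⟩ := hf.2 c
    by_contra hne
    have hil : i ≠ l := fun h => hne (by rw [h])
    obtain ⟨s, hs⟩ := hf' i
    have h1 := tv_mem_zero hpos (hzero i hil) (a := f i) (by rw [hs]; simp)
    omega
  have hgz : ∀ c, 0 < tv H b0 0 (FreeGroup.of c) → c = g l := by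
    intro c hc
    obtain ⟨i, rfl⟩ := hg.2 c
    by_contra hne
    have hil : i ≠ l := fun h => hne (by rw [h])
    obtain ⟨s, hs⟩ := hg' i
    have h1 := tv_mem_zero hpos (hzero i hil) (a := g i) (by rw [hs]; simp)
    omega
  have hone : tv H b0 0 (gw (it H l b0)) = 1 := by
    have h1 := tv_zero_ww hnf l.2
    rw [if_pos] at h1
    · exact h1
    · change n - 1 + 1 = n
      omega
  have hex : ∃ c ∈ it H l b0, 0 < tv H b0 0 (FreeGroup.of c) := by
    by_contra hcon
    push Not at hcon
    have h1 : ∀ u : List (Fin n), (∀ c ∈ u, tv H b0 0 (FreeGroup.of c) ≤ 0) →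
        tv H b0 0 (gw u) ≤ 0 := by
      intro u hu
      induction u with
      | nil => rw [gw_nil, tv_one]
      | cons a u ih =>
        rw [gw_cons, tv_mul]
        have h2 := hu a (by simp)
        have h3 := ih fun c hc => hu c (by simp [hc])
        omega
    have h2 := h1 _ hcon
    omega
  obtain ⟨c, -, hc⟩ := hex
  have hcf := hfz c hc
  have hcg := hgz c hc
  obtain ⟨s, hs⟩ := hf' l
  obtain ⟨t, ht⟩ := hg' l
  have hlen : (it H l b0).length = 1 := by
    cases s with
    | nil => rw [hs]; rfl
    | cons d s =>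
      exfalso
      have h1 : t ≠ [] := by
        rintro rfl
        rw [hs] at ht
        simp at ht
      obtain ⟨e, t', rfl⟩ := List.exists_cons_of_ne_nil h1
      rw [hs] at ht
      have h2 : f l = e := by
        have := congrArg List.head? ht
        simpa using this
      have h3 : it H l b0 = c :: (t' ++ [c]) := by
        rw [hs, ht, ← h2, ← hcf, ← hcg]
        rfl
      rw [h3, gw_cons, gw_append, gw_singleton, tv_mul, tv_mul] at hone
      have h5 := tv_word_nonneg hpos t'
      omega
  intro i hi
  have h1 := nf_mono hnf (i := i) (j := n - 1) (by omega)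
  have h2 : (it H (n - 1) b0).length = 1 := hlen
  have h3 := List.length_pos_of_ne_nil (nf_it_ne hnf i)
  omega

/-! ### Generators in the free group -/

/-- A functional which is nonnegative on the generators is nonnegative on the submonoid. -/
theorem tv_closure_nonneg {j : ℕ} {S : Set (FreeGroup (Fin n))} (hS : ∀ g ∈ S, 0 ≤ tv H b0 j g)
    {g : FreeGroup (Fin n)} (hg : g ∈ Submonoid.closure S) : 0 ≤ tv H b0 j g := by
  induction hg using Submonoid.closure_induction with
  | mem x hx => exact hS x hx
  | one => rw [tv_one]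
  | mul x y _ _ hx hy => rw [tv_mul]; exact add_nonneg hx hy

/-- The generators: the words of the system and the elements of `X`. -/
def Gn (H : Fin n → List (Fin n)) (b0 : List (Fin n)) (X : Set (FreeGroup (Fin n))) :
    Submonoid (FreeGroup (Fin n)) := Submonoid.closure (Set.range (ww H b0) ∪ X)

theorem tv_gn_nonneg (hnf : NF H b0 N) {j : ℕ} {X : Set (FreeGroup (Fin n))}
    (hX : ∀ x ∈ X, 0 ≤ tv H b0 j x) {g : FreeGroup (Fin n)} (hg : g ∈ Gn H b0 X) :
    0 ≤ tv H b0 j g := by
  refine tv_closure_nonneg ?_ hg
  rintro x (⟨k, rfl⟩ | hx)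
  · exact tv_ww_nonneg hnf j k
  · exact hX x hx

/-- **End game, group form.** -/
theorem letters_of_gen (hnf : NF H b0 N) {X : Set (FreeGroup (Fin n))}
    (hX : ∀ x ∈ X, 0 ≤ tv H b0 0 x) (hS : ∀ a, FreeGroup.of a ∈ Gn H b0 X) :
    ∀ i < n, (it H i b0).length = 1 :=
  letters_of_eta hnf fun a => tv_gn_nonneg hnf hX (hS a)

/-- **End game, group form**: all elements of `X` have their image in `W^*`. -/
theorem letters_of_gen' (hnf : NF H b0 N) {X : Set (FreeGroup (Fin n))}
    (hX : ∀ x ∈ X, ∃ js : List ℕ, (∀ j ∈ js, j < n) ∧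
      gh H x = gw ((js.map fun j => it H j b0).flatten))
    (hS : ∀ a, FreeGroup.of a ∈ Gn H b0 X) :
    ∀ i < n, (it H i b0).length = 1 :=
  letters_of_gen hnf (fun x hx => by
    obtain ⟨js, h1, h2⟩ := hX x hx
    exact tv_nonneg_of hnf h1 h2) hS

/-- **End game from the stages, group form.** -/
theorem letters_of_stages (hnf : NF H b0 N) (hP : ∃ K, ∀ a, TkM H b0 (it H K [a]))
    {X : Set (FreeGroup (Fin n))}
    (hX : ∀ x ∈ X, ∃ js : List ℕ, (∀ j ∈ js, j < n) ∧
      gh H x = gw ((js.map fun j => it H j b0).flatten))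
    (hst : ∀ k u, TkM H b0 (it H k u) → gw u ∈ Gn H b0 X) :
    ∀ i < n, (it H i b0).length = 1 := by
  obtain ⟨K, hK⟩ := hP
  refine letters_of_gen' hnf hX fun a => ?_
  rw [← gw_singleton]
  exact hst K [a] (hK a)

/-! ### `w_0, ..., w_(n-2)` letters -/

/-- If `w_0, ..., w_(n-2)` are letters then `w_(n-1)` is a letter. -/
theorem letters_of_pre (hnf : NF H b0 N) (hl : ∀ i, i + 1 < n → (it H i b0).length = 1) :
    ∀ i < n, (it H i b0).length = 1 := by
  apply letters_of_eta hnf
  intro a
  obtain ⟨f, hf, hf'⟩ := hnf.first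
  obtain ⟨i, hi⟩ := hf.2 a
  have hall : ∀ j : Fin n, (j : ℕ) + 1 < n → tv H b0 0 (FreeGroup.of (f j)) = 0 := by
    intro j hj
    obtain ⟨s', hs'⟩ := hf' j
    have h1 := hl j hj
    rw [hs', List.length_cons] at h1
    have h2 : s' = [] := List.length_eq_zero_iff.1 (by omega)
    have h3 := tv_zero_ww hnf j.2
    rw [ww, hs', h2, if_neg (by omega), gw_singleton] at h3
    exact h3
  by_cases h1 : (i : ℕ) + 1 < n
  · rw [← hi, hall i h1]
  · have hin : (i : ℕ) + 1 = n := by have := i.2; omega
    have h2 := tv_zero_ww hnf i.2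
    rw [if_pos hin, ww, tv_gw_sum] at h2
    have h3 : ∀ u : List (Fin n), (u.map fun c => tv H b0 0 (FreeGroup.of c)).sum =
        (u.count a : ℤ) * tv H b0 0 (FreeGroup.of a) := by
      intro u
      induction u with
      | nil => simp
      | cons c u ih =>
        rw [List.map_cons, List.sum_cons, ih, List.count_cons]
        by_cases hca : c = a
        · subst hca
          simp
          ring
        · have hc0 : tv H b0 0 (FreeGroup.of c) = 0 := by
            obtain ⟨j, hj⟩ := hf.2 c
            rw [← hj]
            apply hall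
            by_contra hcon
            apply hca
            rw [← hj, ← hi]
            congr 1
            apply Fin.ext
            have := j.2
            omega
          have h4 : ¬ (c == a) = true := by simpa using hca
          rw [hc0, if_neg h4]
          ring
    rw [h3] at h2
    by_contra hneg
    push Not at hneg
    have h5 : (0 : ℤ) ≤ ((it H i b0).count a : ℤ) := Int.natCast_nonneg _
    nlinarith

/-! ### Generators which are words -/

/-- Products of the words `h^k(w)` and of words of `X`. -/
def InX (h : Fin n → List (Fin n)) (w : List (Fin n)) (X : Finset (List (Fin n)))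
    (u : List (Fin n)) : Prop :=
  ∃ L : List (List (Fin n)), (∀ v ∈ L, v ∈ X ∨ ∃ k, v = it h k w) ∧ u = L.flatten

theorem InX.mem {X : Finset (List (Fin n))} {a : Fin n} (h : InX H b0 X [a]) :
    [a] ∈ X ∨ ∃ k, [a] = it H k b0 := by
  have hone : ∀ (L : List (List (Fin n))) (a : Fin n), [a] = L.flatten → [a] ∈ L := by
    intro L
    induction L with
    | nil => intro a h; simp at h
    | cons v L ih =>
      intro a h
      rw [List.flatten_cons] at h
      cases v with
      | nil => exact List.mem_cons_of_mem _ (ih a h)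
      | cons b v =>
        rw [List.cons_append] at h
        injection h with h1 h2
        have h3 : v = [] := by
          have := congrArg List.length h2
          rw [List.length_append] at this
          exact List.length_eq_zero_iff.1 (by simp at this; omega)
        rw [h1, h3]
        simp
  obtain ⟨L, hL, hL'⟩ := h
  exact hL _ (hone L a hL')

/-- If the letters are products of the words `w_k` and of the words of `X`, then `w_i` is a letter for
`i + |X| < n`. -/
theorem pre_letters (hnf : NF H b0 N) {X : Finset (List (Fin n))} (hX : ∀ a, InX H b0 X [a])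
    {i : ℕ} (hi : i + X.card < n) : (it H i b0).length = 1 := by
  classical
  by_contra hcon
  have hlong : ∀ k, (it H k b0).length = 1 → k < i := by
    intro k hk
    by_contra hki
    have h1 := nf_mono hnf (i := i) (j := k) (by omega)
    have h2 := List.length_pos_of_ne_nil (nf_it_ne hnf i)
    omega
  have hsub : (Finset.univ.image fun a : Fin n => [a]) ⊆
      X ∪ (Finset.range i).image fun k => it H k b0 := by
    intro u hu
    rw [Finset.mem_image] at hu
    obtain ⟨a, -, rfl⟩ := hu
    rw [Finset.mem_union, Finset.mem_image]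
    rcases (hX a).mem with h | ⟨k, hk⟩
    · exact Or.inl h
    · refine Or.inr ⟨k, Finset.mem_range.2 (hlong k ?_), hk.symm⟩
      rw [← hk]
      rfl
  have h1 := Finset.card_le_card hsub
  rw [Finset.card_image_of_injective _ (fun a b h => by simpa using h), Finset.card_univ,
    Fintype.card_fin] at h1
  have h2 := (Finset.card_union_le X ((Finset.range i).image fun k => it H k b0)).trans
    (Nat.add_le_add_left Finset.card_image_le _)
  rw [Finset.card_range] at h2
  omega

/-- One extra word. -/
theorem letters_of_one (hnf : NF H b0 N) {X : Finset (List (Fin n))} (hX : ∀ a, InX H b0 X [a])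
    (hc : X.card ≤ 1) : ∀ i < n, (it H i b0).length = 1 :=
  letters_of_pre hnf fun _ hi => pre_letters hnf hX (by omega)

/-- From the stages: section 11 of BIMFULL. -/
theorem pre_letters_of_stages (hnf : NF H b0 N) (hP : ∃ K, ∀ a, TkM H b0 (it H K [a]))
    {X : Finset (List (Fin n))} (hst : ∀ k u, TkM H b0 (it H k u) → InX H b0 X u)
    {i : ℕ} (hi : i + X.card < n) : (it H i b0).length = 1 := by
  obtain ⟨K, hK⟩ := hP
  exact pre_letters hnf (fun a => hst K [a] (hK a)) hi

theorem letters_of_stages_one (hnf : NF H b0 N) (hP : ∃ K, ∀ a, TkM H b0 (it H K [a]))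
    {X : Finset (List (Fin n))} (hst : ∀ k u, TkM H b0 (it H k u) → InX H b0 X u)
    (hc : X.card ≤ 1) : ∀ i < n, (it H i b0).length = 1 :=
  letters_of_pre hnf fun _ hi => pre_letters_of_stages hnf hP hst (by omega)

/-! ### Stationary stages -/

/-- The stages are stationary as soon as one step is. -/
theorem stage_le {J : ℕ} (hst : ∀ u, TkM H b0 (it H (J + 1) u) → TkM H b0 (it H J u)) (k : ℕ)
    {u : List (Fin n)} (hu : TkM H b0 (it H k u)) : TkM H b0 (it H J u) := by
  have h1 : ∀ i u, TkM H b0 (it H (J + i) u) → TkM H b0 (it H J u) := by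
    intro i
    induction i with
    | zero => exact fun u hu => hu
    | succ i ih =>
      intro u hu
      have h2 : it H (J + (i + 1)) u = it H (J + i) (app H u) := by
        rw [← Nat.add_assoc, it_succ']
      rw [h2] at hu
      have h3 := ih _ hu
      rw [← it_succ'] at h3
      exact hst u h3
  exact h1 k u (TkM.mono hu (Nat.le_add_left k J))

end D0L.Bim
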