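import Pool.Agent.H.MP_374efc_lc.Bim.XData

/-!
# More on the data `x`, `T = h(x)`

`T` begins and ends with the token `w_0` and has at least two of them; `x` begins with the first
letter and ends with the last letter of `w_(n-1)`; the words `w_0, …, w_(m-2), x` form a bimarked
rose `C` and `h^(-1)(Q^*) = C^*`; the data for smaller `m`.
-/

set_option autoImplicit false

namespace D0L.Bim

open Tr

variable {n N m : ℕ} {H : Fin n → List (Fin n)} {b0 : List (Fin n)} {x T : List (Fin n)}
  {js : List ℕ}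

/-- `w_0` is not an image. -/
theorem b0_not_app (hnf : NF H b0 N) (hb : Bmk H) (y : List (Fin n)) : app H y ≠ b0 := by
  intro hy
  have h1 : ∀ u, run (rH H) [] u = some [] := by
    refine hull_left hnf (run_nil _ _) (fun u v hu hv => run_append_some hu hv)
      (fun u v hu huv => ?_) ((rH_iff hnf hb).2 ⟨y, hy.symm⟩) fun c =>
        (rH_iff hnf hb).2 ⟨[c], by rw [app_singleton]⟩
    rw [run_append, hu] at huv
    simpa using huv
  -- every letter is the image of a letter
  have h2 : ∀ a : Fin n, ∃ c : Fin n, H c = [a] := by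
    intro a
    obtain ⟨u, hu⟩ := (rH_iff hnf hb).1 (h1 [a])
    have h3 := length_le_app (H_ne hnf) u
    rw [← hu, List.length_singleton] at h3
    cases u with
    | nil => rw [app_nil] at hu; simp at hu
    | cons c u =>
      rw [List.length_cons] at h3
      obtain rfl : u = [] := List.length_eq_zero_iff.1 (by omega)
      exact ⟨c, by rw [hu, app_singleton]⟩
  choose f hf using h2
  have hinj : Function.Injective f := by
    intro a a' h3
    have h4 := hf a
    rw [h3, hf a'] at h4
    simpa using h4.symm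
  have hsur := Finite.injective_iff_surjective.1 hinj
  have h3 : ∀ c, (H c).length = 1 := by
    intro c
    obtain ⟨a, rfl⟩ := hsur c
    rw [hf a]
    rfl
  have h4 : ∀ u : List (Fin n), (app H u).length = u.length := by
    intro u
    induction u with
    | nil => rfl
    | cons c u ih => rw [app_cons, List.length_append, h3, ih, List.length_cons, Nat.add_comm]
  have h5 : ∀ k (u : List (Fin n)), (it H k u).length = u.length := by
    intro k
    induction k with
    | zero => intro u; rfl
    | succ k ih => intro u; rw [it_succ, h4, ih]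
  obtain ⟨a, l, hal⟩ := List.exists_cons_of_ne_nil hnf.ne
  obtain ⟨k, hk⟩ := hnf.gr a 2
  rw [h5, List.length_singleton] at hk
  omega

namespace XD

theorem T_ne (hnf : NF H b0 N) (hx : XD H b0 m x T js) : T ≠ [] := by
  intro h0
  obtain ⟨j, js', rfl⟩ : ∃ j js', js = j :: js' := by
    cases js with
    | nil => have := hx.head; simp at this
    | cons j js' => exact ⟨j, js', rfl⟩
  have h3 := hx.tok
  rw [h0, List.map_cons, List.flatten_cons] at h3
  have h4 := congrArg List.length h3
  rw [List.length_nil, List.length_append] at h4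
  have h5 := List.length_pos_of_ne_nil (it_ne hnf j)
  omega

theorem x_ne (hnf : NF H b0 N) (hx : XD H b0 m x T js) : x ≠ [] := by
  rintro rfl
  exact hx.T_ne hnf (by rw [← hx.app_x, app_nil])

theorem js_cons (hx : XD H b0 m x T js) : ∃ js', js = 0 :: js' := by
  cases js with
  | nil => have := hx.head; simp at this
  | cons j js' =>
    have := hx.head
    rw [List.head?_cons] at this
    exact ⟨js', by rw [Option.some.inj this]⟩

/-- The last token is `w_0`. -/
theorem js_last (hnf : NF H b0 N) (hx : XD H b0 m x T js) : js.getLast? = some 0 := by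
  have hne : js ≠ [] := by
    obtain ⟨js', rfl⟩ := hx.js_cons
    simp
  have h1 := List.dropLast_append_getLast hne
  rw [List.getLast?_eq_some_getLast hne]
  by_contra h2
  have h3 : js.getLast hne ≠ 0 := fun h => h2 (by rw [h])
  have hlt : js.getLast hne < m := hx.lt _ (List.getLast_mem hne)
  have h4 := hx.tok
  rw [← h1, List.map_append, List.flatten_append, List.map_singleton, List.flatten_singleton] at h4
  have hw : it H (js.getLast hne) b0 ≠ [] := it_ne hnf _
  have h5 := List.dropLast_append_getLast hw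
  rw [← h5, ← List.append_assoc] at h4
  have h6 : pP H b0 T m ⟨0, by omega⟩ = T := by
    unfold pP
    rw [if_pos rfl]
  have h7 : pP H b0 T m ⟨js.getLast hne, hlt⟩ = it H (js.getLast hne) b0 := by
    unfold pP
    rw [if_neg h3]
  have h8 := hx.li ⟨0, by omega⟩ ⟨js.getLast hne, hlt⟩ _ _ _ (h6.trans h4) (h7.trans h5.symm)
  exact h3 (by simpa using (congrArg Fin.val h8).symm)

/-- `T` has at least two tokens, so `js = 0 :: _ ++ [0]`. -/
theorem js_form (hnf : NF H b0 N) (hb : Bmk H) (hx : XD H b0 m x T js) :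
    ∃ ks, js = 0 :: (ks ++ [0]) := by
  obtain ⟨js', rfl⟩ := hx.js_cons
  have h1 := hx.js_last hnf
  by_cases h2 : js' = []
  · subst h2
    have h3 := hx.tok
    rw [List.map_singleton, List.flatten_singleton, it_zero] at h3
    exact (b0_not_app hnf hb x (by rw [hx.app_x, h3])).elim
  · rw [List.getLast?_cons_of_ne_nil h2] at h1
    have h4 := List.dropLast_append_getLast h2
    rw [List.getLast?_eq_some_getLast h2] at h1
    rw [Option.some.inj h1] at h4
    exact ⟨js'.dropLast, by rw [h4]⟩

/-- `x` begins with the first letter of `w_(n-1)`. -/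
theorem first_x (hnf : NF H b0 N) (hb : Bmk H) (hx : XD H b0 m x T js) {c : Fin n}
    {s : List (Fin n)} (hc : it H (n - 1) b0 = c :: s) : ∃ s', x = c :: s' := by
  have hn := pos_n hnf
  obtain ⟨c', s', hcs⟩ := List.exists_cons_of_ne_nil (hx.x_ne hnf)
  obtain ⟨d', t', hd'⟩ := List.exists_cons_of_ne_nil (H_ne hnf c')
  obtain ⟨d, t, hd⟩ := List.exists_cons_of_ne_nil (H_ne hnf c)
  obtain ⟨a0, l0, h0⟩ := List.exists_cons_of_ne_nil hnf.ne
  obtain ⟨js', rfl⟩ := hx.js_cons
  have h1 : d' = a0 := by
    have h2 := hx.tok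
    rw [List.map_cons, List.flatten_cons, it_zero, h0, ← hx.app_x, hcs, app_cons, hd'] at h2
    exact (List.cons.inj h2).1
  obtain ⟨i, r, hi⟩ := exists_first hnf d
  have h2 : d = a0 := by
    obtain ⟨i, hin⟩ := i
    cases i with
    | zero =>
      have h3 : b0 = d :: r := hi
      rw [h0] at h3
      exact (List.cons.inj h3).1.symm
    | succ k =>
      exfalso
      have hi' : it H (k + 1) b0 = d :: r := hi
      rw [it_succ] at hi'
      obtain ⟨e, u, he⟩ := List.exists_cons_of_ne_nil (it_ne hnf k)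
      obtain ⟨g, v, hg⟩ := List.exists_cons_of_ne_nil (H_ne hnf e)
      rw [he, app_cons, hg] at hi'
      obtain ⟨rfl, -⟩ := List.cons.inj hi'
      have h4 := hb.fst e c _ _ _ hg hd
      subst h4
      have h5 := first_unique hnf (i := ⟨k, by omega⟩) (j := ⟨n - 1, by omega⟩) he hc
      have h6 : k = n - 1 := by simpa using h5
      omega
  subst h2
  subst h1
  rw [hb.fst c' c _ _ _ hd' hd] at hcs
  exact ⟨s', hcs⟩

/-- `x` ends with the last letter of `w_(n-1)`. -/
theorem last_x (hnf : NF H b0 N) (hb : Bmk H) (hx : XD H b0 m x T js) {c : Fin n}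
    {s : List (Fin n)} (hc : it H (n - 1) b0 = s ++ [c]) : ∃ s', x = s' ++ [c] := by
  have hn := pos_n hnf
  have snoc : ∀ {u : List (Fin n)}, u ≠ [] → ∃ v a, u = v ++ [a] := fun {u} hu =>
    ⟨u.dropLast, u.getLast hu, (List.dropLast_append_getLast hu).symm⟩
  have inj : ∀ {u v : List (Fin n)} {a b : Fin n}, u ++ [a] = v ++ [b] → a = b := by
    intro u v a b h
    have h1 := (List.append_inj' h rfl).2
    simpa using h1
  obtain ⟨s', c', hcs⟩ := snoc (hx.x_ne hnf)
  obtain ⟨t', d', hd'⟩ := snoc (H_ne hnf c')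
  obtain ⟨t, d, hd⟩ := snoc (H_ne hnf c)
  obtain ⟨l0, a0, h0⟩ := snoc hnf.ne
  obtain ⟨ks, rfl⟩ := hx.js_form hnf hb
  have h1 : d' = a0 := by
    have h2 := hx.tok
    rw [← List.cons_append, List.map_append, List.flatten_append, List.map_singleton,
      List.flatten_singleton, it_zero, h0, ← hx.app_x, hcs, app_append, app_singleton, hd',
      ← List.append_assoc, ← List.append_assoc] at h2
    exact inj h2
  obtain ⟨i, r, hi⟩ := exists_last hnf d
  have h2 : d = a0 := by
    obtain ⟨i, hin⟩ := i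
    cases i with
    | zero =>
      have h3 : b0 = r ++ [d] := hi
      rw [h0] at h3
      exact (inj h3).symm
    | succ k =>
      exfalso
      have hi' : it H (k + 1) b0 = r ++ [d] := hi
      rw [it_succ] at hi'
      obtain ⟨u, e, he⟩ := snoc (it_ne hnf k)
      obtain ⟨v, g, hg⟩ := snoc (H_ne hnf e)
      rw [he, app_append, app_singleton, hg, ← List.append_assoc] at hi'
      obtain rfl := inj hi'
      have h4 := hb.lst e c _ _ _ hg hd
      subst h4
      have h5 := last_unique hnf (i := ⟨k, by omega⟩) (j := ⟨n - 1, by omega⟩) he hc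
      have h6 : k = n - 1 := by simpa using h5
      omega
  subst h2
  subst h1
  rw [hb.lst c' c _ _ _ hd' hd] at hcs
  exact ⟨s', hcs⟩

theorem pC_ne (hnf : NF H b0 N) (hx : XD H b0 m x T js) (i : Fin m) : pC H b0 x m i ≠ [] := by
  unfold pC
  split_ifs
  · exact hx.x_ne hnf
  · exact it_ne hnf _

theorem pP_ne (hnf : NF H b0 N) (hx : XD H b0 m x T js) (i : Fin m) : pP H b0 T m i ≠ [] := by
  unfold pP
  split_ifs
  · exact hx.T_ne hnf
  · exact it_ne hnf _

theorem fi_pC (hnf : NF H b0 N) (hx : XD H b0 m x T js) : FI (pC H b0 x m) := by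
  intro i j a l l' h1 h2
  obtain ⟨d, t, hd⟩ := List.exists_cons_of_ne_nil (H_ne hnf a)
  have h3 := app_pC (b0 := b0) hx.app_x i
  have h4 := app_pC (b0 := b0) hx.app_x j
  rw [h1, app_cons, hd, List.cons_append] at h3
  rw [h2, app_cons, hd, List.cons_append] at h4
  exact hx.fi i j d _ _ h3.symm h4.symm

theorem li_pC (hnf : NF H b0 N) (hx : XD H b0 m x T js) : LI (pC H b0 x m) := by
  intro i j a l l' h1 h2
  have h5 : ∃ v g, H a = v ++ [g] :=
    ⟨_, _, (List.dropLast_append_getLast (H_ne hnf a)).symm⟩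
  obtain ⟨v, g, hg⟩ := h5
  have h3 := app_pC (b0 := b0) hx.app_x i
  have h4 := app_pC (b0 := b0) hx.app_x j
  rw [h1, app_append, app_singleton, hg, ← List.append_assoc] at h3
  rw [h2, app_append, app_singleton, hg, ← List.append_assoc] at h4
  exact hx.li i j g _ _ h3.symm h4.symm

theorem app_flat (hx : XD H b0 m x T js) (L : List (Fin m)) :
    app H (L.map (pC H b0 x m)).flatten = (L.map (pP H b0 T m)).flatten := by
  rw [app_flatten, List.map_map]
  congr 1
  exact List.map_congr_left fun i _ => app_pC hx.app_x i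

/-- `Q^* ∩ H^* = P^*`. -/
theorem inter_iff (hnf : NF H b0 N) (hb : Bmk H) (h1 : 1 ≤ m) (hm : m ≤ n) (hX : XH H b0 m)
    (hx : XD H b0 m x T js) {u : List (Fin n)} :
    (run (rQ H b0 m) [] u = some [] ∧ run (rH H) [] u = some []) ↔
      ∃ L : List (Fin m), u = (L.map (pP H b0 T m)).flatten := by
  constructor
  · rintro ⟨e1, e2⟩
    obtain ⟨r, hr, hr2⟩ := ps_run (pr_rose hnf hb h1 hm hX) e1 e2
    obtain rfl := hr2.nil_iff.2 ⟨rfl, rfl⟩
    rw [hx.ps] at hr
    exact run_mkR_inv hx.fi hr
  · rintro ⟨L, rfl⟩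
    have h2 : run (Ps (rQ H b0 m) (rH H)) [] (L.map (pP H b0 T m)).flatten = some [] := by
      rw [hx.ps]
      exact mkR_flat hx.fi fun i _ => hx.pP_ne hnf i
    obtain ⟨q, s, e1, e2, e3⟩ := run_ps h2
    obtain ⟨rfl, rfl⟩ := e3.nil_iff.1 rfl
    exact ⟨e1, e2⟩

/-- `h^(-1)(Q^*) = C^*`. -/
theorem pre_iff (hnf : NF H b0 N) (hb : Bmk H) (h1 : 1 ≤ m) (hm : m ≤ n) (hX : XH H b0 m)
    (hx : XD H b0 m x T js) {y : List (Fin n)} :
    (∃ ks : List ℕ, (∀ k ∈ ks, k < m) ∧ app H y = (ks.map fun j => it H j b0).flatten) ↔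
      ∃ L : List (Fin m), y = (L.map (pC H b0 x m)).flatten := by
  rw [← rQ_iff hnf hm]
  constructor
  · intro e1
    obtain ⟨L, hL⟩ := (hx.inter_iff hnf hb h1 hm hX).1 ⟨e1, (rH_iff hnf hb).2 ⟨y, rfl⟩⟩
    refine ⟨L, hnf.inj ?_⟩
    rw [hL, hx.app_flat]
  · rintro ⟨L, rfl⟩
    rw [hx.app_flat]
    exact ((hx.inter_iff hnf hb h1 hm hX).2 ⟨L, rfl⟩).1

theorem xh (hx : XD H b0 m x T js) : XH H b0 m := by
  obtain ⟨js', rfl⟩ := hx.js_cons
  exact ⟨x, js', fun j hj => hx.lt j (List.mem_cons_of_mem _ hj), by rw [hx.app_x, hx.tok]⟩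

/-- The data for smaller `m`. -/
theorem mono (hnf : NF H b0 N) (hb : Bmk H) {m' : ℕ} (h1 : 1 ≤ m') (hmm : m' ≤ m) (hm : m ≤ n)
    (hx : XD H b0 m x T js) (hjs : ∀ j ∈ js, j < m') : XD H b0 m' x T js := by
  have hX' : XH H b0 m' := by
    obtain ⟨js', rfl⟩ := hx.js_cons
    exact ⟨x, js', fun j hj => hjs j (List.mem_cons_of_mem _ hj), by rw [hx.app_x, hx.tok]⟩
  obtain ⟨x', T', js', hx'⟩ := exists_xd hnf hb h1 (hmm.trans hm) hX'
  have e1 : run (rQ H b0 m') [] T = some [] := (rQ_iff hnf (hmm.trans hm)).2 ⟨js, hjs, hx.tok⟩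
  have e2 : run (rH H) [] T = some [] := (rH_iff hnf hb).2 ⟨x, hx.app_x.symm⟩
  obtain ⟨L, hL⟩ := (hx'.inter_iff hnf hb h1 (hmm.trans hm) hX').1 ⟨e1, e2⟩
  have hpre : T' <+: T := by
    cases L with
    | nil => exact (hx.T_ne hnf (by rw [hL]; rfl)).elim
    | cons i L =>
      rw [List.map_cons, List.flatten_cons] at hL
      have h2 : i = ⟨0, h1⟩ := by
        obtain ⟨a0, l0, h0⟩ := List.exists_cons_of_ne_nil hnf.ne
        obtain ⟨js1, rfl⟩ := hx.js_cons
        obtain ⟨js2, rfl⟩ := hx'.js_cons
        have h3 := hx.tok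
        rw [List.map_cons, List.flatten_cons, it_zero, h0, hL] at h3
        obtain ⟨c, l, hc⟩ := List.exists_cons_of_ne_nil (hx'.pP_ne hnf i)
        rw [hc] at h3
        obtain ⟨rfl, -⟩ := List.cons.inj h3
        have h4 := hx'.tok
        rw [List.map_cons, List.flatten_cons, it_zero, h0] at h4
        refine hx'.fi i ⟨0, h1⟩ c _ (l0 ++ (js2.map fun j => it H j (c :: l0)).flatten) hc ?_
        unfold pP
        rw [if_pos rfl, h4]
        rfl
      rw [h2] at hL
      unfold pP at hL
      rw [if_pos rfl] at hL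
      exact ⟨_, hL.symm⟩
  have hT : T' = T := by
    have h3 := hx.min x' js' (by rw [hx'.app_x]; exact hx'.T_ne hnf) (by rw [hx'.app_x]; exact hpre)
      (fun k hk => lt_of_lt_of_le (hx'.lt k hk) hmm) (by rw [hx'.app_x]; exact hx'.tok)
    rw [hx'.app_x] at h3
    exact h3
  rw [hT] at hx'
  exact ⟨hx.app_x, hx.tok, hjs, hx.head, hx'.fi, hx'.li, hx'.ps, hx'.min⟩

/-- The counts of `T`. -/
theorem count_flat (H : Fin n → List (Fin n)) (b0 : List (Fin n)) {js : List ℕ} {m : ℕ}
    (hjs : ∀ j ∈ js, j < m) (a : Fin n) : ((js.map fun j => it H j b0).flatten).count a =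
      ∑ i ∈ Finset.range m, js.count i * (it H i b0).count a := by
  induction js with
  | nil => simp
  | cons j js ih =>
    rw [List.map_cons, List.flatten_cons, List.count_append,
      ih fun i hi => hjs i (List.mem_cons_of_mem _ hi)]
    have h1 : ∀ i, (j :: js).count i * (it H i b0).count a =
        js.count i * (it H i b0).count a + if i = j then (it H i b0).count a else 0 := by
      intro i
      rw [List.count_cons, Nat.add_mul]
      by_cases h : i = j
      · subst h
        simp
      · have h' : ¬ j = i := fun e => h e.symm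
        simp [h, h']
    rw [Finset.sum_congr rfl fun i _ => h1 i, Finset.sum_add_distrib,
      Finset.sum_ite_eq' (Finset.range m) j fun i => (it H i b0).count a,
      if_pos (Finset.mem_range.2 (hjs j List.mem_cons_self)), Nat.add_comm]

theorem count_T (hx : XD H b0 m x T js) (a : Fin n) :
    T.count a = ∑ i ∈ Finset.range m, js.count i * (it H i b0).count a := by
  rw [hx.tok]
  exact count_flat H b0 hx.lt a

end XD

end D0L.Bim
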