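import Pool.Agent.H.MP_374efc_lc.Asm.Top
import Pool.Agent.H.MP_374efc_lc.Bim.XData2
import Pool.Agent.H.MP_374efc_lc.Bim.End
import Pool.Agent.H.MP_374efc_lc.Tr.Ch1

/-!
# The case with cyclic letter maps: assembly

`exists_chain`: the longest chain `T = h^J (y)`. `CoreP`: no product of tokens `w_k`, `h^i (y)`,
`i < J`, with a factor `y` is an image. `false_of_core`: the contradiction from `CoreP`, the amalgam
property of the pair (W, H) and the statement that `w_(n-1-J)` is not a letter.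
-/

set_option autoImplicit false

namespace D0L.Bim

open Tr

variable {n N : ℕ} {H : Fin n → List (Fin n)} {b0 : List (Fin n)} {x T y : List (Fin n)}
  {js : List ℕ} {J : ℕ}

theorem snoc_inj {α : Type*} {s t : List α} {c d : α} (h : s ++ [c] = t ++ [d]) : c = d := by
  have h2 := (List.append_inj' h rfl).2
  simpa using h2

theorem bmk_of (hb : Bimk H) : Bmk H where
  fst c d a l l' h1 h2 := hb.1 c d (by rw [h1, h2]; rfl)
  lst c d a s s' h1 h2 := hb.2 c d (by rw [h1, h2]; simp)

theorem Bmk.bimk (hnf : NF H b0 N) (hb : Bmk H) : Bimk H := by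
  refine ⟨fun c d h => ?_, fun c d h => ?_⟩
  · obtain ⟨a, s, hs⟩ := List.exists_cons_of_ne_nil (H_ne hnf c)
    obtain ⟨a', s', hs'⟩ := List.exists_cons_of_ne_nil (H_ne hnf d)
    rw [hs, hs'] at h
    obtain rfl : a = a' := by simpa using h
    exact hb.fst c d a s s' hs hs'
  · have h1 := List.dropLast_append_getLast (H_ne hnf c)
    have h2 := List.dropLast_append_getLast (H_ne hnf d)
    rw [List.getLast?_eq_some_getLast (H_ne hnf c), List.getLast?_eq_some_getLast (H_ne hnf d)] at h
    have h3 : (H c).getLast (H_ne hnf c) = (H d).getLast (H_ne hnf d) := by simpa using h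
    rw [h3] at h1
    exact hb.lst c d _ _ _ h1.symm h2.symm

theorem xh_of (h : HasX H b0) : XH H b0 n := by
  obtain ⟨x, js, hjs, hx⟩ := h
  exact ⟨x, js, hjs, by rw [hx, List.map_cons, List.flatten_cons, it_zero]⟩

/-- **The longest chain.** -/
theorem exists_chain (hnf : NF H b0 N) (hT : T ≠ []) (hx : app H x = T) :
    ∃ (J : ℕ) (y : List (Fin n)), 1 ≤ J ∧ it H J y = T ∧ ∀ z, app H z ≠ y := by
  classical
  have hne : ∀ c, H c ≠ [] := H_ne hnf
  -- long images
  have hK : ∃ K, ∀ a : Fin n, T.length < (it H K [a]).length := by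
    choose k hk using fun a : Fin n => hnf.gr a (T.length + 1)
    refine ⟨∑ a, k a, fun a => ?_⟩
    have h1 := length_it_mono hne [a] (Finset.single_le_sum (f := k) (fun i _ => Nat.zero_le _)
      (Finset.mem_univ a))
    have h2 := hk a
    omega
  obtain ⟨K, hK⟩ := hK
  have hex : ∃ J, ¬ ∃ y, it H (J + 1) y = T := by
    refine ⟨K, ?_⟩
    rintro ⟨y, hy⟩
    cases y with
    | nil =>
      rw [it_nil] at hy
      exact hT hy.symm
    | cons a y =>
      have h1 : it H (K + 1) (a :: y) = it H (K + 1) [a] ++ it H (K + 1) y := by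
        rw [← it_append]
        rfl
      have h2 := congrArg List.length hy
      rw [h1, List.length_append] at h2
      have h3 := length_it_mono hne [a] (Nat.le_succ K)
      have h4 := hK a
      have h5 : (it H K.succ [a]).length = (it H (K + 1) [a]).length := rfl
      omega
  have hJ := Nat.find_spec hex
  have hmin : ∀ J' < Nat.find hex, ∃ y, it H (J' + 1) y = T := fun J' hJ' =>
    not_not.1 (Nat.find_min hex hJ')
  have h1 : 1 ≤ Nat.find hex := by
    by_contra h0
    have h2 : Nat.find hex = 0 := by omega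
    rw [h2] at hJ
    exact hJ ⟨x, hx⟩
  obtain ⟨y, hy⟩ := hmin (Nat.find hex - 1) (by omega)
  have h2 : Nat.find hex - 1 + 1 = Nat.find hex := by omega
  rw [h2] at hy
  refine ⟨Nat.find hex, y, h1, hy, fun z hz => hJ ⟨z, ?_⟩⟩
  rw [it_succ', hz, hy]

/-- No product of tokens with a factor `y` is an image. -/
def CoreP (H : Fin n → List (Fin n)) (b0 : List (Fin n)) (J : ℕ) (y : List (Fin n)) : Prop :=
  ∀ L : List (List (Fin n)), (∀ τ ∈ L, (∃ k, τ = it H k b0) ∨ ∃ i < J, τ = it H i y) → y ∈ L →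
    ∀ z, L.flatten ≠ app H z

open Classical in
/-- The words `h^i (y)`, `i < J`. -/
noncomputable def chX (H : Fin n → List (Fin n)) (J : ℕ) (y : List (Fin n)) :
    Finset (List (Fin n)) := (Finset.range J).image fun i => it H i y

theorem mem_chX {τ : List (Fin n)} : τ ∈ chX H J y ↔ ∃ i < J, it H i y = τ := by
  classical
  unfold chX
  rw [Finset.mem_image]
  simp

theorem card_chX : (chX H J y).card ≤ J := by
  classical
  unfold chX
  exact Finset.card_image_le.trans_eq (Finset.card_range J)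

theorem InX.nil {X : Finset (List (Fin n))} : InX H b0 X [] := ⟨[], by simp, rfl⟩

theorem InX.mul {X : Finset (List (Fin n))} {u v : List (Fin n)} (hu : InX H b0 X u)
    (hv : InX H b0 X v) : InX H b0 X (u ++ v) := by
  obtain ⟨L, hL, rfl⟩ := hu
  obtain ⟨L', hL', rfl⟩ := hv
  exact ⟨L ++ L', fun v hv => (List.mem_append.1 hv).elim (hL v) (hL' v), by
    rw [List.flatten_append]⟩

theorem InX.tok {X : Finset (List (Fin n))} (k : ℕ) : InX H b0 X (it H k b0) :=
  ⟨[it H k b0], by simpa using Or.inr ⟨k, rfl⟩, by simp⟩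

theorem InX.ext {X : Finset (List (Fin n))} {u : List (Fin n)} (hu : u ∈ X) : InX H b0 X u :=
  ⟨[u], by simpa using Or.inl hu, by simp⟩

theorem InX.flat {X : Finset (List (Fin n))} {L : List (List (Fin n))}
    (hL : ∀ u ∈ L, InX H b0 X u) : InX H b0 X L.flatten := by
  induction L with
  | nil => exact InX.nil
  | cons u L ih =>
    rw [List.flatten_cons]
    exact (hL u List.mem_cons_self).mul (ih fun v hv => hL v (List.mem_cons_of_mem _ hv))

theorem InX.of_tkM {X : Finset (List (Fin n))} {u : List (Fin n)} (hu : TkM H b0 u) :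
    InX H b0 X u := by
  obtain ⟨js, rfl⟩ := hu
  refine InX.flat fun v hv => ?_
  obtain ⟨j, -, rfl⟩ := List.mem_map.1 hv
  exact InX.tok j

/-- **One stage**: the words `w_k`, `h^i (y)` generate a monoid `B` with `h^(-1)(B) ⊆ B`. -/
theorem inX_step (hnf : NF H b0 N) (hb : Bmk H) (hx : XD H b0 n x T js)
    (hA : ∀ hp : Pr (rQ H b0 n) (rH H), Amalg (gQ hp) (gH hp)) (hJ : 1 ≤ J) (hy : it H J y = T)
    (hcore : CoreP H b0 J y) {z : List (Fin n)} (hz : InX H b0 (chX H J y) (app H z)) :
    InX H b0 (chX H J y) z := by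
  have hn := pos_n hnf
  obtain ⟨L, hL, hLz⟩ := hz
  have hL' : ∀ τ ∈ L, (∃ k, τ = it H k b0) ∨ ∃ i < J, τ = it H i y := by
    intro τ hτ
    rcases hL τ hτ with h | h
    · obtain ⟨i, hi, rfl⟩ := mem_chX.1 h
      exact Or.inr ⟨i, hi, rfl⟩
    · exact Or.inl h
  have hyL : y ∉ L := fun h => hcore L hL' h z hLz.symm
  have hxy : x = it H (J - 1) y := by
    apply hnf.inj
    rw [hx.app_x, ← it_succ, ← hy]
    congr 1
    omega
  have hX := hx.xh
  refine chain_step (pr_rose hnf hb hn le_rfl hX) (hA _) (h := app H) (app_nil H)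
    (fun u v => app_append H u v) hnf.inj (fun u => (rH_iff hnf hb).2 ⟨u, rfl⟩) InX.nil
    (fun u v hu hv => hu.mul hv) (fun v hv => (rH_iff hnf hb).1 hv) ?_ (L := L) ?_ hLz.symm
  · intro u hu
    obtain ⟨ks, hks, he⟩ := (rQ_iff hnf le_rfl).1 hu
    obtain ⟨M, rfl⟩ := (hx.pre_iff hnf hb hn le_rfl hX).1 ⟨ks, hks, he⟩
    refine InX.flat fun v hv => ?_
    obtain ⟨i, -, rfl⟩ := List.mem_map.1 hv
    unfold pC
    split_ifs
    · rw [hxy]
      exact InX.ext (mem_chX.2 ⟨J - 1, by omega, rfl⟩)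
    · exact InX.tok _
  · intro τ hτ
    rcases hL' τ hτ with ⟨k, rfl⟩ | ⟨i, hi, rfl⟩
    · cases k with
      | zero =>
        left
        refine (rQ_iff hnf le_rfl).2 ⟨[0], by simpa using hn, ?_⟩
        simp
      | succ k => exact Or.inr ⟨it H k b0, InX.tok k, it_succ H k b0⟩
    · cases i with
      | zero => exact (hyL hτ).elim
      | succ i =>
        exact Or.inr ⟨it H i y, InX.ext (mem_chX.2 ⟨i, by omega, rfl⟩), it_succ H i y⟩

/-- **The contradiction from the core statement.** -/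
theorem false_of_core (hnf : NF H b0 N) (hb : Bmk H) (hP : ∃ K, ∀ a, TkM H b0 (it H K [a]))
    (hx : XD H b0 n x T js)
    (hA : ∀ hp : Pr (rQ H b0 n) (rH H), Amalg (gQ hp) (gH hp)) (hJ : 1 ≤ J) (hJn : J < n)
    (hy : it H J y = T) (hnl : (it H (n - 1 - J) b0).length ≠ 1)
    (hcore : CoreP H b0 J y) : False := by
  refine hnl (pre_letters_of_stages hnf hP (X := chX H J y) ?_ ?_)
  · intro k u hu
    have h1 : ∀ k u, InX H b0 (chX H J y) (it H k u) → InX H b0 (chX H J y) u := by
      intro k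
      induction k with
      | zero => exact fun u hu => hu
      | succ k ih =>
        intro u hu
        rw [it_succ] at hu
        exact ih u (inX_step hnf hb hx hA hJ hy hcore hu)
    exact h1 k u (InX.of_tkM hu)
  · have h1 := card_chX (H := H) (J := J) (y := y)
    omega

/-! ### first and last letters of the chain -/

/-- The first letters of the words `h^i (y)`. -/
theorem fst_chain (hnf : NF H b0 N) (hx : XD H b0 n x T js) (hJ : 1 ≤ J) (hJn : J < n)
    (hy : it H J y = T) {a : ℕ → Fin n} (ha : ∀ i, ∃ s, it H i b0 = a i :: s)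
    (ha1 : ∀ i, ∃ s, H (a i) = a (i + 1) :: s) (ha2 : ∀ i, a (i + n) = a i)
    (ha3 : ∀ i j, i < n → j < n → a i = a j → i = j) (ha4 : ∀ c, ∃ i < n, a i = c) (i : ℕ) :
    ∃ s, it H i y = a (n - J + i) :: s := by
  have hTne := hx.T_ne hnf
  have hyne : y ≠ [] := by
    rintro rfl
    rw [it_nil] at hy
    exact hTne hy.symm
  obtain ⟨c, s, hcs⟩ := List.exists_cons_of_ne_nil hyne
  obtain ⟨k, hk, rfl⟩ := ha4 c
  have key : ∀ i, ∃ s, it H i y = a (k + i) :: s := by
    intro i
    induction i with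
    | zero => exact ⟨s, hcs⟩
    | succ i ih =>
      obtain ⟨t, ht⟩ := ih
      obtain ⟨t', ht'⟩ := ha1 (k + i)
      rw [it_succ, ht, app_cons, ht']
      exact ⟨_, rfl⟩
  obtain ⟨s1, hs1⟩ := key J
  obtain ⟨js', rfl⟩ := hx.js_cons
  obtain ⟨s2, hs2⟩ := ha 0
  have h1 := hx.tok
  rw [List.map_cons, List.flatten_cons, hs2, ← hy, hs1] at h1
  have h2 : a (k + J) = a 0 := (List.cons.inj h1).1
  have h3 : k = n - J := by
    rcases lt_or_ge (k + J) n with h4 | h4
    · have := ha3 (k + J) 0 h4 (by omega) h2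
      omega
    · obtain ⟨d, hd⟩ : ∃ d, k + J = d + n := ⟨k + J - n, by omega⟩
      rw [hd, ha2] at h2
      have := ha3 d 0 (by omega) (by omega) h2
      omega
  rw [← h3]
  exact key i

/-- The last letters of the words `h^i (y)`. -/
theorem lst_chain (hnf : NF H b0 N) (hb : Bmk H) (hx : XD H b0 n x T js) (hJ : 1 ≤ J)
    (hJn : J < n)
    (hy : it H J y = T) {b : ℕ → Fin n} (ha : ∀ i, ∃ s, it H i b0 = s ++ [b i])
    (ha1 : ∀ i, ∃ s, H (b i) = s ++ [b (i + 1)]) (ha2 : ∀ i, b (i + n) = b i)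
    (ha3 : ∀ i j, i < n → j < n → b i = b j → i = j) (ha4 : ∀ c, ∃ i < n, b i = c) (i : ℕ) :
    ∃ s, it H i y = s ++ [b (n - J + i)] := by
  have hTne := hx.T_ne hnf
  have hyne : y ≠ [] := by
    rintro rfl
    rw [it_nil] at hy
    exact hTne hy.symm
  obtain ⟨s, c, hcs⟩ : ∃ s c, y = s ++ [c] :=
    ⟨_, _, (List.dropLast_append_getLast hyne).symm⟩
  obtain ⟨k, hk, rfl⟩ := ha4 c
  have key : ∀ i, ∃ s, it H i y = s ++ [b (k + i)] := by
    intro i
    induction i with
    | zero => exact ⟨s, hcs⟩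
    | succ i ih =>
      obtain ⟨t, ht⟩ := ih
      obtain ⟨t', ht'⟩ := ha1 (k + i)
      rw [it_succ, ht, app_append, app_singleton, ht', ← List.append_assoc]
      exact ⟨_, rfl⟩
  obtain ⟨s1, hs1⟩ := key J
  obtain ⟨ks, rfl⟩ := hx.js_form hnf hb
  obtain ⟨s2, hs2⟩ := ha 0
  have h1 := hx.tok
  rw [← List.cons_append, List.map_append, List.flatten_append, List.map_singleton,
    List.flatten_singleton, hs2, ← hy, hs1, ← List.append_assoc] at h1
  have h2 : b (k + J) = b 0 := snoc_inj h1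
  have h3 : k = n - J := by
    rcases lt_or_ge (k + J) n with h4 | h4
    · have := ha3 (k + J) 0 h4 (by omega) h2
      omega
    · obtain ⟨d, hd⟩ : ∃ d, k + J = d + n := ⟨k + J - n, by omega⟩
      rw [hd, ha2] at h2
      have := ha3 d 0 (by omega) (by omega) h2
      omega
  rw [← h3]
  exact key i

end D0L.Bim
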