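import Pool.Agent.H.MP_374efc_lc.Bim.ExX1

/-!
# BIMFULL section 5, part 2: existence of `x` (5.3 - 5.5) and `x` is a prefix of `w_(n-1)` (5.6)

`HulS H b0` is the statement of the hull lemma (5.1).
-/

set_option autoImplicit false

namespace D0L.Bim

open Tr

variable {n N : ℕ} {H : Fin n → List (Fin n)} {b0 : List (Fin n)}

/-- The statement of the hull lemma (5.1). -/
def HulS (H : Fin n → List (Fin n)) (b0 : List (Fin n)) : Prop :=
  ∀ (U V q : List (Fin n)) (b : Fin n), it H (n - 1) b0 = U ++ b :: V → U ≠ [] →
    run (rQ H b0 n) [] (app H U) = some q → q ≠ [] →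
    (∀ c l, H b = c :: l → step (rQ H b0 n) q c = none) →
    (∀ v, v ≠ [] → v <+: U → run (rQ H b0 n) [] (app H v) ≠ some []) → False

/-! ### (5.3) -/

theorem letter_tok (hnf : NF H b0 N) {a : Fin n} {js : List ℕ}
    (h : (js.map fun j => it H j b0).flatten = [a]) : ∃ j ∈ js, it H j b0 = [a] := by
  cases js with
  | nil => cases h
  | cons j js =>
    refine ⟨j, by simp, ?_⟩
    rw [List.map_cons, List.flatten_cons] at h
    have h1 := congrArg List.length h
    rw [List.length_append] at h1
    have h2 := List.length_pos_of_ne_nil (it_ne hnf j)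
    have h3 : (js.map fun j => it H j b0).flatten = [] := by
      apply List.length_eq_zero_iff.1
      simp only [List.length_singleton] at h1
      omega
    rw [h3, List.append_nil] at h
    exact h

/-- If all letters are products of words of the system then the words `w_0, …, w_(n-1)` are letters. -/
theorem lett_of_letters (hnf : NF H b0 N) (h : ∀ a : Fin n, TkM H b0 [a]) : Lett H b0 := by
  have h1 : ∀ a : Fin n, ∃ j, it H j b0 = [a] := by
    intro a
    obtain ⟨js, hjs⟩ := h a
    obtain ⟨j, _, hj⟩ := letter_tok hnf hjs.symm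
    exact ⟨j, hj⟩
  choose f hf using h1
  have hinj : Function.Injective f := by
    intro a a' haa
    have h2 := hf a
    rw [haa, hf a'] at h2
    exact (List.cons.inj h2).1.symm
  have hn := pos_n hnf
  -- some index is at least `n - 1`
  obtain ⟨a, ha⟩ : ∃ a, n - 1 ≤ f a := by
    by_contra hcon
    push Not at hcon
    let g : Fin n → Fin (n - 1) := fun a => ⟨f a, hcon a⟩
    have hg : Function.Injective g := by
      intro a a' h2
      exact hinj (congrArg Fin.val h2)
    have h3 := Fintype.card_le_of_injective g hg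
    simp only [Fintype.card_fin] at h3
    omega
  intro i hi
  have h2 := length_it_mono (H_ne hnf) b0 (show i ≤ f a by omega)
  rw [hf a] at h2
  have h3 := List.length_pos_of_ne_nil (it_ne hnf i)
  simp only [List.length_singleton] at h2
  omega

/-- **(5.3)**: there is a product of words of the system which is an image and begins with the
token `w_0`. -/
theorem exists_V (hnf : NF H b0 N) (hb : Bmk H) (hK : ∃ K, ∀ a, TkM H b0 (it H K [a]))
    (hl : ¬ Lett H b0) : ∃ (z : List (Fin n)) (js : List ℕ),
      app H z = b0 ++ (js.map fun j => it H j b0).flatten := by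
  classical
  have h1 : ∃ z, TkM H b0 (app H z) ∧ ¬ TkM H b0 z := by
    by_contra hcon
    push Not at hcon
    refine hl (lett_of_letters hnf fun a => ?_)
    obtain ⟨K, hK⟩ := hK
    have h2 : ∀ (k : ℕ) (x : List (Fin n)), TkM H b0 (it H k x) → TkM H b0 x := by
      intro k
      induction k with
      | zero => exact fun x hx => hx
      | succ k ih =>
        intro x hx
        rw [it_succ] at hx
        exact ih x (hcon _ hx)
    exact h2 K [a] (hK a)
  -- minimal length
  have h2 : ∃ m, ∃ z : List (Fin n), z.length = m ∧ TkM H b0 (app H z) ∧ ¬ TkM H b0 z := by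
    obtain ⟨z, hz⟩ := h1
    exact ⟨z.length, z, rfl, hz⟩
  obtain ⟨z, hz1, hz2, hz3⟩ := Nat.find_spec h2
  have hmin := fun m => Nat.find_min (H := h2) (m := m)
  obtain ⟨js, hjs⟩ := hz2
  cases js with
  | nil =>
    exfalso
    rw [List.map_nil, List.flatten_nil] at hjs
    have h4 : z = [] := by
      by_contra h5
      exact app_ne hnf h5 hjs
    rw [h4] at hz3
    exact hz3 (TkM.nil H b0)
  | cons j js =>
    cases j with
    | zero => exact ⟨z, js, by rw [hjs, List.map_cons, List.flatten_cons, it_zero]⟩
    | succ j =>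
      exfalso
      rw [List.map_cons, List.flatten_cons, it_succ] at hjs
      obtain ⟨u, u', h5, h6, h7⟩ := D_prefix hnf hb hjs (run_D_app hnf hb _)
      have h8 : u = it H j b0 := (hnf.inj h5).symm
      have h9 : TkM H b0 u' := by
        by_contra h10
        refine hmin u'.length ?_ ⟨u', rfl, ⟨js, h6.symm⟩, h10⟩
        rw [← hz1, h7, List.length_append]
        have := List.length_pos_of_ne_nil (it_ne hnf j)
        rw [h8]
        omega
      refine hz3 ?_
      rw [h7, h8]
      exact TkM.mul (TkM.tok H b0 j) h9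

/-! ### (5.4) -/

/-- **(5.4)**: a prefix of `w_n` which is read in the rose `W` gives, for every `j ≥ n`, a prefix of
`w_j` which is not shorter and is read in the rose. -/
theorem rho_claim (hnf : NF H b0 N) {E s : List (Fin n)} (hE : E <+: it H n b0)
    (hr : run (rQ H b0 n) [] E = some s) (j : ℕ) (hj : n ≤ j) :
    ∃ e t, e <+: it H j b0 ∧ run (rQ H b0 n) [] e = some t ∧ E.length ≤ e.length := by
  obtain ⟨fs, hfs, π, hEπ, hπ⟩ := parse_W hnf hr
  -- the last petal
  obtain ⟨f, hf, hπf⟩ : ∃ f < n, π <+: it H f b0 := by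
    rcases hπ with ⟨h1, _⟩ | ⟨f, hf, _, h2⟩
    · exact ⟨0, pos_n hnf, by rw [h1]; exact List.nil_prefix⟩
    · exact ⟨f, hf, ⟨s, h2⟩⟩
  have hmono : ∀ (i : ℕ) (u : List (Fin n)), u.length ≤ (it H i u).length := by
    intro i u
    have := length_it_mono (H_ne hnf) u (Nat.zero_le i)
    rwa [it_zero] at this
  induction j using Nat.strong_induction_on with
  | _ j ih =>
    obtain ⟨i, rfl⟩ := Nat.exists_eq_add_of_le hj
    -- `w_(n+i) = h^i(w_n)` begins with `h^i(E)`
    have hpre : it H i E <+: it H (n + i) b0 := by
      obtain ⟨r, hr'⟩ := hE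
      refine ⟨it H i r, ?_⟩
      rw [← it_append, hr', ← it_add, Nat.add_comm]
    have hiE : it H i E = (fs.map fun j => it H (j + i) b0).flatten ++ it H i π := by
      rw [hEπ, it_append, it_flatten, List.map_map]
      congr 2
      apply List.map_congr_left
      intro j _
      simp only [Function.comp]
      rw [← it_add, Nat.add_comm]
    by_cases hall : ∀ x ∈ fs, x + i < n
    · -- all tokens before the last prefix are petals
      have hread : ∀ u : List (Fin n), run (rQ H b0 n) []
          ((fs.map fun j => it H (j + i) b0).flatten ++ u) = run (rQ H b0 n) [] u := by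
        intro u
        have h1 : (fs.map fun j => it H (j + i) b0) =
            ((fs.map fun j => j + i).map fun j => it H j b0) := by
          rw [List.map_map]
          rfl
        rw [h1]
        refine run_W_prod hnf ?_ u
        intro x hx
        obtain ⟨y, hy, rfl⟩ := List.mem_map.1 hx
        exact hall y hy
      have hreadp : ∀ u : List (Fin n), ∀ x < n, u <+: it H x b0 →
          ∃ t, run (rQ H b0 n) [] u = some t := by
        intro u x hx hu
        by_cases hu0 : u = []
        · exact ⟨[], by rw [hu0, run_nil]⟩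
        · obtain ⟨r, hr'⟩ := hu
          exact ⟨r, run_W_pre hnf hx hr'.symm hu0⟩
      have hπi : it H i π <+: it H (f + i) b0 := by
        obtain ⟨r, hr'⟩ := hπf
        refine ⟨it H i r, ?_⟩
        rw [← it_append, hr', ← it_add, Nat.add_comm]
      by_cases hfi : f + i < n
      · obtain ⟨t, ht⟩ := hreadp _ _ hfi hπi
        refine ⟨it H i E, t, hpre, ?_, hmono i E⟩
        rw [hiE, hread, ht]
      · obtain ⟨e', t', he1, he2, he3⟩ := ih (f + i) (by omega) (by omega)
        rcases List.prefix_or_prefix_of_prefix he1 hπi with h1 | h1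
        · refine ⟨(fs.map fun j => it H (j + i) b0).flatten ++ e', t', ?_, ?_, ?_⟩
          · refine List.IsPrefix.trans ?_ hpre
            rw [hiE]
            exact (List.prefix_append_right_inj _).2 h1
          · rw [hread, he2]
          · rw [List.length_append]
            omega
        · obtain ⟨r, hr'⟩ := h1
          rw [← hr', run_append, Option.bind_eq_some_iff] at he2
          obtain ⟨t, ht, _⟩ := he2
          refine ⟨it H i E, t, hpre, ?_, hmono i E⟩
          rw [hiE, hread, ht]
    · -- the first big token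
      push Not at hall
      obtain ⟨x, hx, hxi⟩ := hall
      obtain ⟨fs1, y, fs2, hsplit, hy, hfs1⟩ : ∃ fs1 y fs2, fs = fs1 ++ y :: fs2 ∧ n ≤ y + i ∧
          ∀ z ∈ fs1, z + i < n := by
        clear hEπ hiE hfs
        induction fs with
        | nil => cases hx
        | cons z fs ihf =>
          by_cases hz : n ≤ z + i
          · exact ⟨[], z, fs, rfl, hz, by simp⟩
          · rcases List.mem_cons.1 hx with rfl | hx
            · exact absurd hxi hz
            · obtain ⟨fs1, y, fs2, h1, h2, h3⟩ := ihf hx
              refine ⟨z :: fs1, y, fs2, by rw [h1]; rfl, h2, ?_⟩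
              intro z' hz'
              rcases List.mem_cons.1 hz' with rfl | hz'
              · omega
              · exact h3 z' hz'
      have hyn : y < n := hfs y (by rw [hsplit]; simp)
      obtain ⟨e', t', he1, he2, he3⟩ := ih (y + i) (by omega) hy
      have hread : run (rQ H b0 n) [] ((fs1.map fun j => it H (j + i) b0).flatten ++ e') =
          some t' := by
        have h1 : (fs1.map fun j => it H (j + i) b0) =
            ((fs1.map fun j => j + i).map fun j => it H j b0) := by
          rw [List.map_map]
          rfl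
        rw [h1, run_W_prod hnf ?_ e', he2]
        intro x hx
        obtain ⟨y, hy, rfl⟩ := List.mem_map.1 hx
        exact hfs1 y hy
      refine ⟨_, t', ?_, hread, ?_⟩
      · refine List.IsPrefix.trans ?_ hpre
        rw [hiE, hsplit]
        simp only [List.map_append, List.map_cons, List.flatten_append, List.flatten_cons,
          List.append_assoc]
        refine (List.prefix_append_right_inj _).2 (he1.trans (List.prefix_append _ _))
      · rw [List.length_append]
        omega

/-! ### (5.5) -/

/-- Two words which are read in both roses and meet the pair of the bases only at their begin, with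
the same first letter, are comparable. -/
theorem comparable {α : Type*} [DecidableEq α] {Q D : Rose α} : ∀ {q σ : List α} (x y : List α)
    {q1 q2 σ1 σ2 : List α}, (q ≠ [] ∨ σ ≠ []) →
    run Q q x = some q1 → run D σ x = some σ1 → run Q q y = some q2 → run D σ y = some σ2 →
    (∀ u, u <+: x → run Q q u = some [] → run D σ u ≠ some []) → x <+: y ∨ y <+: x := by
  intro q σ x
  induction x generalizing q σ with
  | nil => intro y q1 q2 σ1 σ2 _ _ _ _ _ _; exact Or.inl List.nil_prefix
  | cons a x ih =>
    intro y q1 q2 σ1 σ2 h1 h2 h3 h4 h5 h6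
    cases y with
    | nil => exact Or.inr List.nil_prefix
    | cons b y =>
      rw [run_cons, Option.bind_eq_some_iff] at h2 h3 h4 h5
      obtain ⟨q', k2, h2⟩ := h2
      obtain ⟨σ', k3, h3⟩ := h3
      obtain ⟨q'', k4, h4⟩ := h4
      obtain ⟨σ'', k5, h5⟩ := h5
      have hab : a = b := by
        rcases h1 with h1 | h1
        · obtain ⟨c, r, rfl⟩ := List.exists_cons_of_ne_nil h1
          rw [(step_unique k2).1, (step_unique k4).1]
        · obtain ⟨c, r, rfl⟩ := List.exists_cons_of_ne_nil h1
          rw [(step_unique k3).1, (step_unique k5).1]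
      subst hab
      rw [k2] at k4
      rw [k3] at k5
      obtain rfl := Option.some.inj k4
      obtain rfl := Option.some.inj k5
      have h7 : q' ≠ [] ∨ σ' ≠ [] := by
        by_contra h8
        push Not at h8
        refine h6 [a] ⟨x, rfl⟩ ?_ ?_
        · rw [run_cons, k2, h8.1]
          rfl
        · rw [run_cons, k3, h8.2]
          rfl
      have h9 : ∀ u, u <+: x → run Q q' u = some [] → run D σ' u ≠ some [] := by
        intro u hu hu1 hu2
        refine h6 (a :: u) (List.cons_prefix_cons.2 ⟨rfl, hu⟩) ?_ ?_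
        · rw [run_cons, k2]
          exact hu1
        · rw [run_cons, k3]
          exact hu2
      rcases ih y h7 h2 h3 h4 h5 h9 with h8 | h8
      · exact Or.inl (List.cons_prefix_cons.2 ⟨rfl, h8⟩)
      · exact Or.inr (List.cons_prefix_cons.2 ⟨rfl, h8⟩)

/-- Same from the bases, with the same first letter. -/
theorem comparable' {α : Type*} [DecidableEq α] {Q D : Rose α} {c : α} {x y : List α}
    {q1 q2 σ1 σ2 : List α} (h2 : run Q [] (c :: x) = some q1) (h3 : run D [] (c :: x) = some σ1)
    (h4 : run Q [] (c :: y) = some q2) (h5 : run D [] (c :: y) = some σ2)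
    (h6 : ∀ u, u ≠ [] → u <+: c :: x → run Q [] u = some [] → run D [] u ≠ some []) :
    c :: x <+: c :: y ∨ c :: y <+: c :: x := by
  rw [run_cons, Option.bind_eq_some_iff] at h2 h3 h4 h5
  obtain ⟨q', k2, h2⟩ := h2
  obtain ⟨σ', k3, h3⟩ := h3
  obtain ⟨q'', k4, h4⟩ := h4
  obtain ⟨σ'', k5, h5⟩ := h5
  rw [k2] at k4
  rw [k3] at k5
  obtain rfl := Option.some.inj k4
  obtain rfl := Option.some.inj k5
  have h7 : q' ≠ [] ∨ σ' ≠ [] := by
    by_contra h8
    push Not at h8
    refine h6 [c] (by simp) ⟨x, rfl⟩ ?_ ?_
    · rw [run_cons, k2, h8.1]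
      rfl
    · rw [run_cons, k3, h8.2]
      rfl
  have h9 : ∀ u, u <+: x → run Q q' u = some [] → run D σ' u ≠ some [] := by
    intro u hu hu1 hu2
    refine h6 (c :: u) (by simp) (List.cons_prefix_cons.2 ⟨rfl, hu⟩) ?_ ?_
    · rw [run_cons, k2]
      exact hu1
    · rw [run_cons, k3]
      exact hu2
  rcases comparable x y h7 h2 h3 h4 h5 h9 with h8 | h8
  · exact Or.inl (List.cons_prefix_cons.2 ⟨rfl, h8⟩)
  · exact Or.inr (List.cons_prefix_cons.2 ⟨rfl, h8⟩)

/-- The first tokens: a product of petals which begins with the first letter of `w_0` begins with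
`w_0`. -/
theorem first_tok (hnf : NF H b0 N) {js : List ℕ} (hjs : ∀ j ∈ js, j < n) {a : Fin n}
    {l t : List (Fin n)} (hw0 : b0 = a :: l)
    (h : (js.map fun j => it H j b0).flatten = a :: t) :
    ∃ js', js = 0 :: js' := by
  cases js with
  | nil => cases h
  | cons j js =>
    obtain ⟨c, r, hc⟩ := List.exists_cons_of_ne_nil (it_ne hnf j)
    rw [List.map_cons, List.flatten_cons, hc] at h
    have h1 : c = a := (List.cons.inj h).1
    rw [h1] at hc
    have h2 := first_unique hnf (i := ⟨0, pos_n hnf⟩) (j := ⟨j, hjs j (by simp)⟩) hw0 hc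
    have h3 : (0 : ℕ) = j := congrArg Fin.val h2
    exact ⟨js, by rw [← h3]⟩

/-- **(5.5): hypothesis (X).** -/
theorem hasX_of_hul (hnf : NF H b0 N) (hb : Bmk H) (hK : ∃ K, ∀ a, TkM H b0 (it H K [a]))
    (hul : HulS H b0) (hl : ¬ Lett H b0) : HasX H b0 := by
  classical
  by_contra hX
  have hn := pos_n hnf
  -- first letters
  obtain ⟨a, ha, hstep, hper, hinj, _⟩ := exists_fi hnf (fun c d h => by
    obtain ⟨e, l, he⟩ := List.exists_cons_of_ne_nil (H_ne hnf c)
    obtain ⟨e', l', he'⟩ := List.exists_cons_of_ne_nil (H_ne hnf d)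
    rw [he, he'] at h
    have h1 : e = e' := by simpa using h
    rw [← h1] at he'
    exact hb.fst c d e l l' he he')
  obtain ⟨l0, hl0⟩ := ha 0
  rw [it_zero] at hl0
  -- no image which begins with the first letter of `w_0` is in `W^*`
  have hno : ∀ u v : List (Fin n), app H u = a 0 :: v → run (rQ H b0 n) [] (app H u) ≠ some [] := by
    intro u v h1 h2
    obtain ⟨js, h3, h4⟩ := (rQ_iff hnf le_rfl).1 h2
    rw [h1] at h4
    obtain ⟨js', rfl⟩ := first_tok hnf h3 hl0 h4.symm
    refine hX ⟨u, js', fun j hj => h3 j (by simp [hj]), ?_⟩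
    rw [h1, h4, List.map_cons, List.flatten_cons, it_zero]
  have hwn : it H n b0 = app H (it H (n - 1) b0) := by
    rw [← it_succ]
    congr 1
    omega
  obtain ⟨ln, hln⟩ := ha n
  have han : a n = a 0 := by
    have := hper 0
    rwa [Nat.zero_add] at this
  rw [han] at hln
  -- images of prefixes of `w_(n-1)` are not in `W^*`
  have hpre : ∀ v, v ≠ [] → v <+: it H (n - 1) b0 → run (rQ H b0 n) [] (app H v) ≠ some [] := by
    intro v hv hv'
    obtain ⟨c, v', rfl⟩ := List.exists_cons_of_ne_nil hv
    obtain ⟨r, hr⟩ := hv'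
    obtain ⟨d, t, hd⟩ := List.exists_cons_of_ne_nil (H_ne hnf c)
    have h1 : d = a 0 := by
      rw [hwn, ← hr, List.cons_append, app_cons, hd] at hln
      exact (List.cons.inj hln).1
    refine hno (c :: v') (t ++ app H v') ?_
    rw [app_cons, hd, h1]
    rfl
  -- the words which are read in both roses
  have hcomp : ∀ x y : List (Fin n), ∀ q1 q2 σ1 σ2,
      run (rQ H b0 n) [] (a 0 :: x) = some q1 → run (rH H) [] (a 0 :: x) = some σ1 →
      run (rQ H b0 n) [] (a 0 :: y) = some q2 → run (rH H) [] (a 0 :: y) = some σ2 →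
      a 0 :: x <+: a 0 :: y ∨ a 0 :: y <+: a 0 :: x := by
    intro x y q1 q2 σ1 σ2 h1 h2 h3 h4
    refine comparable' h1 h2 h3 h4 ?_
    intro u hu hu' hu1 hu2
    obtain ⟨c, u', rfl⟩ := List.exists_cons_of_ne_nil hu
    have h5 := (List.cons_prefix_cons.1 hu').1
    obtain ⟨y', hy'⟩ := (rH_iff hnf hb).1 hu2
    refine hno y' u' ?_ ?_
    · rw [← hy', h5]
    · rw [← hy']
      exact hu1
  -- the maximal prefix of `w_n` which is read
  obtain ⟨E, s, hE, hEr, hmax⟩ : ∃ E s, E <+: it H n b0 ∧ run (rQ H b0 n) [] E = some s ∧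
      ∀ c t, it H n b0 = E ++ c :: t → step (rQ H b0 n) s c = none := by
    have key : ∀ (v u : List (Fin n)) (s : List (Fin n)), it H n b0 = u ++ v →
        run (rQ H b0 n) [] u = some s → ∃ E s, E <+: it H n b0 ∧
          run (rQ H b0 n) [] E = some s ∧
          ∀ c t, it H n b0 = E ++ c :: t → step (rQ H b0 n) s c = none := by
      intro v
      induction v with
      | nil =>
        intro u s h1 h2
        refine ⟨u, s, by rw [h1, List.append_nil], h2, ?_⟩
        intro c t h3
        rw [h1, List.append_nil] at h3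
        have := congrArg List.length h3
        simp at this
      | cons c v ih =>
        intro u s h1 h2
        cases h3 : step (rQ H b0 n) s c with
        | none =>
          refine ⟨u, s, ⟨_, h1.symm⟩, h2, ?_⟩
          intro c' t h4
          rw [h1] at h4
          rw [← (List.cons.inj (List.append_cancel_left h4)).1]
          exact h3
        | some s' =>
          refine ih (u ++ [c]) s' (by rw [h1]; simp) (run_append_some h2 ?_)
          rw [run_cons, h3]
          rfl
    exact key _ [] [] rfl (run_nil _ _)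
  -- it begins with the first letter of `w_0`
  have hfull : ∀ c, ∃ t, rQ H b0 n c = some t := by
    intro c
    obtain ⟨i, r, hr⟩ := exists_first hnf c
    exact ⟨r, (rQ_some hnf le_rfl).2 ⟨i, i.2, hr⟩⟩
  have hE0 : ∃ E', E = a 0 :: E' := by
    cases E with
    | nil =>
      exfalso
      rw [run_nil] at hEr
      obtain rfl := Option.some.inj hEr
      have h1 := hmax (a 0) ln (by rw [hln]; rfl)
      obtain ⟨t, ht⟩ := hfull (a 0)
      rw [step_nil, ht] at h1
      cases h1
    | cons c E' =>
      refine ⟨E', ?_⟩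
      obtain ⟨r, hr⟩ := hE
      rw [hln] at hr
      rw [(List.cons.inj hr).1]
  obtain ⟨E', hE'⟩ := hE0
  -- the longer common word `Z`
  obtain ⟨z, js, hz⟩ := exists_V hnf hb hK hl
  have hZ : ∃ Z q σ, run (rQ H b0 n) [] (a 0 :: Z) = some q ∧ run (rH H) [] (a 0 :: Z) = some σ ∧
      E.length < (a 0 :: Z).length := by
    -- the first big token
    have hex : ∃ ks j ls, js = ks ++ j :: ls ∧ (∀ k ∈ ks, k < n) ∧ n ≤ j := by
      by_contra hcon
      push Not at hcon
      refine hX ⟨z, js, ?_, hz⟩
      have key : ∀ ls ks : List ℕ, js = ks ++ ls → (∀ k ∈ ks, k < n) → ∀ j ∈ js, j < n := by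
        intro ls
        induction ls with
        | nil =>
          intro ks h1 h2
          rw [h1, List.append_nil]
          exact h2
        | cons j ls ih =>
          intro ks h1 h2
          have h3 := hcon ks j ls h1 h2
          refine ih (ks ++ [j]) (by rw [h1]; simp) ?_
          intro k hk
          rcases List.mem_append.1 hk with hk | hk
          · exact h2 k hk
          · rw [List.mem_singleton.1 hk]
            exact h3
      exact key js [] rfl (by simp)
    obtain ⟨ks, j, ls, hjs, hks, hj⟩ := hex
    obtain ⟨e, t, he1, he2, he3⟩ := rho_claim hnf hE hEr j hj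
    have hV : app H z = (((0 :: ks).map fun j => it H j b0).flatten ++ it H j b0) ++
        (ls.map fun j => it H j b0).flatten := by
      rw [hz, hjs]
      simp [it_zero]
    have h1 : run (rQ H b0 n) [] (((0 :: ks).map fun j => it H j b0).flatten ++ e) = some t := by
      rw [run_W_prod hnf ?_ e, he2]
      intro k hk
      rcases List.mem_cons.1 hk with rfl | hk
      · exact hn
      · exact hks k hk
    have h2 : ∃ σ, run (rH H) [] (((0 :: ks).map fun j => it H j b0).flatten ++ e) = some σ := by
      obtain ⟨r, hr⟩ := he1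
      have h3 := run_D_app hnf hb z
      have h4 : app H z = (((0 :: ks).map fun j => it H j b0).flatten ++ e) ++
          (r ++ (ls.map fun j => it H j b0).flatten) := by
        rw [hV, ← hr]
        simp
      rw [h4, run_append, Option.bind_eq_some_iff] at h3
      obtain ⟨σ, h5, _⟩ := h3
      exact ⟨σ, h5⟩
    obtain ⟨σ, h2⟩ := h2
    have h3 : ((0 :: ks).map fun j => it H j b0).flatten ++ e =
        a 0 :: (l0 ++ (ks.map fun j => it H j b0).flatten ++ e) := by
      rw [List.map_cons, List.flatten_cons, it_zero, hl0]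
      simp
    rw [h3] at h1 h2
    refine ⟨_, t, σ, h1, h2, ?_⟩
    simp only [List.length_cons, List.length_append]
    omega
  obtain ⟨Z, q, σ, hZ1, hZ2, hZ3⟩ := hZ
  -- reading `E` in the rose of `H`
  have hEσ : ∃ τ, run (rH H) [] E = some τ := by
    obtain ⟨r, hr⟩ := hE
    have h1 := run_D_app hnf hb (it H (n - 1) b0)
    rw [← hwn, ← hr, run_append, Option.bind_eq_some_iff] at h1
    obtain ⟨τ, h2, _⟩ := h1
    exact ⟨τ, h2⟩
  obtain ⟨τ, hτ⟩ := hEσ
  have hEZ : E <+: a 0 :: Z := by
    rw [hE'] at hEr hτ ⊢
    rcases hcomp E' Z s q τ σ hEr hτ hZ1 hZ2 with h1 | h1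
    · exact h1
    · have h2 := h1.length_le
      rw [hE'] at hZ3
      omega
  obtain ⟨R, hR⟩ := hEZ
  obtain ⟨c2, R', rfl⟩ : ∃ c R', R = c :: R' := by
    cases R with
    | nil =>
      rw [List.append_nil] at hR
      rw [← hR] at hZ3
      omega
    | cons c R' => exact ⟨c, R', rfl⟩
  obtain ⟨S, hS⟩ := hE
  cases S with
  | nil =>
    rw [List.append_nil] at hS
    rw [hS] at hEr
    exact pig hnf hb hEr hpre
  | cons c1 S' =>
    have h1 := hmax c1 S' hS.symm
    rw [← hR, run_append, hEr] at hZ1
    rw [← hR, run_append, hτ] at hZ2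
    change run (rQ H b0 n) s (c2 :: R') = some q at hZ1
    change run (rH H) τ (c2 :: R') = some σ at hZ2
    rw [run_cons, Option.bind_eq_some_iff] at hZ1 hZ2
    obtain ⟨s', k1, _⟩ := hZ1
    obtain ⟨τ', k2, _⟩ := hZ2
    have hne : c1 ≠ c2 := by
      rintro rfl
      rw [h1] at k1
      cases k1
    have hrn := run_D_app hnf hb (it H (n - 1) b0)
    rw [← hwn, ← hS, run_append, hτ] at hrn
    change run (rH H) τ (c1 :: S') = some [] at hrn
    rw [run_cons, Option.bind_eq_some_iff] at hrn
    obtain ⟨τ'', k3, _⟩ := hrn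
    have hτ0 : τ = [] := by
      by_contra h2
      obtain ⟨b, r, rfl⟩ := List.exists_cons_of_ne_nil h2
      exact hne ((step_unique k3).1.trans (step_unique k2).1.symm)
    rw [hτ0] at hτ
    obtain ⟨U, U', h2, h3, h4⟩ := D_prefix hnf hb (hwn.symm.trans hS.symm) hτ
    have hU : U ≠ [] := by
      rintro rfl
      rw [hE'] at h2
      cases h2
    obtain ⟨b, V, rfl⟩ : ∃ b V, U' = b :: V := by
      cases U' with
      | nil => cases h3
      | cons b V => exact ⟨b, V, rfl⟩
    have hs0 : s ≠ [] := by
      rintro rfl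
      obtain ⟨t, ht⟩ := hfull c1
      rw [step_nil, ht] at h1
      cases h1
    refine hul U V s b h4 hU (by rw [← h2]; exact hEr) hs0 ?_ ?_
    · intro c l hbl
      rw [app_cons, hbl] at h3
      rw [← (List.cons.inj h3).1]
      exact h1
    · intro v hv hv'
      exact hpre v hv (hv'.trans ⟨b :: V, h4.symm⟩)

/-! ### (5.6) -/

/-- **(5.6)**: `x` is a prefix of `w_(n-1)`. -/
theorem x_prefix (hnf : NF H b0 N) (hb : Bmk H) (hul : HulS H b0) {x : List (Fin n)} {a : Fin n}
    {x' l : List (Fin n)} (hxa : x = a :: x') (hwa : it H (n - 1) b0 = a :: l)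
    (hx : run (rQ H b0 n) [] (app H x) = some [])
    (hmin : ∀ v, v ≠ [] → v <+: x → v ≠ x → run (rQ H b0 n) [] (app H v) ≠ some [])
    (h06 : run (rQ H b0 n) [] (it H n b0) ≠ some []) : x <+: it H (n - 1) b0 := by
  have hn := pos_n hnf
  have hwn : it H n b0 = app H (it H (n - 1) b0) := by
    rw [← it_succ]
    congr 1
    omega
  -- the common prefix
  have key : ∀ u v : List (Fin n), (u <+: v) ∨ (v <+: u) ∨
      ∃ U b b' s t, u = U ++ b :: s ∧ v = U ++ b' :: t ∧ b ≠ b' := by
    intro u
    induction u with
    | nil => intro v; exact Or.inl List.nil_prefix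
    | cons c u ih =>
      intro v
      cases v with
      | nil => exact Or.inr (Or.inl List.nil_prefix)
      | cons d v =>
        by_cases hcd : c = d
        · subst hcd
          rcases ih v with h | h | ⟨U, b, b', s, t, h1, h2, h3⟩
          · exact Or.inl (List.cons_prefix_cons.2 ⟨rfl, h⟩)
          · exact Or.inr (Or.inl (List.cons_prefix_cons.2 ⟨rfl, h⟩))
          · exact Or.inr (Or.inr ⟨c :: U, b, b', s, t, by rw [h1]; rfl, by rw [h2]; rfl, h3⟩)
        · exact Or.inr (Or.inr ⟨[], c, d, u, v, rfl, rfl, hcd⟩)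
  rcases key x (it H (n - 1) b0) with h | h | ⟨U, b', b, s, t, h1, h2, h3⟩
  · exact h
  · exfalso
    have hne : it H (n - 1) b0 ≠ x := by
      intro h1
      rw [hwn, h1] at h06
      exact h06 hx
    have hno : ∀ v, v ≠ [] → v <+: it H (n - 1) b0 →
        run (rQ H b0 n) [] (app H v) ≠ some [] := by
      intro v hv hv'
      refine hmin v hv (hv'.trans h) ?_
      rintro rfl
      exact hne (h.eq_of_length (le_antisymm h.length_le hv'.length_le))
    obtain ⟨r, hr⟩ := h
    rw [← hr, app_append, ← hwn, run_append, Option.bind_eq_some_iff] at hx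
    obtain ⟨q, hq, _⟩ := hx
    exact pig hnf hb hq hno
  · exfalso
    have hU : U ≠ [] := by
      rintro rfl
      rw [hxa] at h1
      rw [hwa] at h2
      exact h3 ((List.cons.inj h1).1.symm.trans (List.cons.inj h2).1)
    have hno : ∀ v, v ≠ [] → v <+: U → run (rQ H b0 n) [] (app H v) ≠ some [] := by
      intro v hv hv'
      refine hmin v hv (hv'.trans ⟨b' :: s, h1.symm⟩) ?_
      rintro rfl
      have h4 := hv'.length_le
      rw [h1] at h4
      simp at h4
    have h4 := hx
    rw [h1, app_append, app_cons, run_append, Option.bind_eq_some_iff] at h4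
    obtain ⟨q, hq, h5⟩ := h4
    have hq0 : q ≠ [] := by
      rintro rfl
      exact hno U hU (List.prefix_refl _) hq
    refine hul U t q b h2 hU hq hq0 ?_ hno
    intro c r hbc
    obtain ⟨d, r', hd⟩ := List.exists_cons_of_ne_nil (H_ne hnf b')
    rw [hd, List.cons_append, run_cons, Option.bind_eq_some_iff] at h5
    obtain ⟨q', hq', _⟩ := h5
    obtain ⟨e, r'', rfl⟩ := List.exists_cons_of_ne_nil hq0
    have h6 := (step_unique hq').1
    rw [step_cons, if_neg]
    intro h7
    rw [h7, ← h6] at hbc
    exact h3 (hb.fst b' b d r' r hd hbc)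

end D0L.Bim
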