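import Pool.Agent.H.MP_374efc_lc.Bim.HullL
import Pool.Agent.H.MP_374efc_lc.Bim.ExX2
import Pool.Agent.H.MP_374efc_lc.Bim.Asb
import Pool.Agent.H.MP_374efc_lc.Asm.Rev

/-!
# The hull lemma (BIMFULL 5.1) in the form `HulS`, its mirror image, and existence of (X)

`hulS`, `hulS_rev`; `hasX_bim`: (X) holds for every bimarked normal form whose words of the system are
not all letters (given P1); `caseX_of_p1`.
-/

set_option autoImplicit false

namespace D0L.Bim

open Tr

variable {n N : ℕ} {H : Fin n → List (Fin n)} {b0 : List (Fin n)}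

/-- The hull lemma. -/
theorem hulS (hnf : NF H b0 N) (hb : Bmk H) : HulS H b0 := by
  intro U V q c h1 h2 h3 h4 h5 h6
  exact hul hnf hb h1 h2 h3 h4 h5 h6

theorem Bmk.reverse (hnf : NF H b0 N) (hb : Bmk H) : Bmk (rev H) := bmk_of (hb.bimk hnf).reverse

/-- The mirror image of the hull lemma. -/
theorem hulS_rev (hnf : NF H b0 N) (hb : Bmk H) : HulS (rev H) b0.reverse :=
  hulS hnf.reverse (hb.reverse hnf)

/-- **(5.5)**: (X) holds. -/
theorem hasX_bim (hnf : NF H b0 N) (hb : Bmk H) (hK : ∃ K, ∀ a, TkM H b0 (it H K [a]))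
    (hl : ¬ Lett H b0) : HasX H b0 := hasX_of_hul hnf hb hK (hulS hnf hb) hl

end D0L.Bim

namespace D0L

/-- Existence of (X) in the bimarked case. -/
theorem caseX_of_p1 (hp : P1st) : CaseX := fun n N H b0 hnf hb hl =>
  Bim.hasX_bim hnf (Bim.bmk_of hb) (hp n N H b0 hnf) hl

end D0L
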