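import Pool.Agent.H.MP_374efc_lc.Bim.XData2
import Pool.Agent.H.MP_374efc_lc.Tr.Key
import Pool.Agent.H.MP_374efc_lc.Tr.Sub
import Pool.Agent.H.MP_374efc_lc.Tr.Last2

/-!
# Exactness for every `H` (BIMFULL 3.4): the key lemma for the roses of a normal form

`key_nf : Key (rQ H b0 m) (rH H)`, `kk_nf : (KK (rQ H b0 m) (rH H)).IsAcyclic` for every `m ≤ n`,
given `XD H b0 n x T js` (hypothesis (X)).
-/

set_option autoImplicit false

namespace D0L.Bim

open Tr

variable {n N m : ℕ} {H : Fin n → List (Fin n)} {b0 : List (Fin n)} {x T : List (Fin n)}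
  {js : List ℕ}

/-- The first letter of `w_j`. -/
noncomputable def fl (hnf : NF H b0 N) (j : ℕ) : Fin n := (it H j b0).head (it_ne hnf j)

theorem fl_cons (hnf : NF H b0 N) (j : ℕ) : it H j b0 = fl hnf j :: (it H j b0).tail :=
  (List.cons_head_tail (it_ne hnf j)).symm

theorem fl_eq (hnf : NF H b0 N) {j : ℕ} {a : Fin n} {l : List (Fin n)} (h : it H j b0 = a :: l) :
    fl hnf j = a := by
  have h1 := fl_cons hnf j
  rw [h] at h1
  exact (List.cons.inj h1).1.symm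

theorem fl_inj (hnf : NF H b0 N) {i j : ℕ} (hi : i < n) (hj : j < n) (h : fl hnf i = fl hnf j) :
    i = j := by
  have h1 := fl_cons hnf i
  have h2 := fl_cons hnf j
  rw [h] at h1
  have h3 := first_unique hnf (i := ⟨i, hi⟩) (j := ⟨j, hj⟩) h1 h2
  exact Fin.mk.inj h3

theorem rQ_fl (hnf : NF H b0 N) (hm : m ≤ n) {j : ℕ} (hj : j < m) :
    rQ H b0 m (fl hnf j) = some (it H j b0).tail :=
  (rQ_some hnf hm).2 ⟨j, hj, fl_cons hnf j⟩

theorem pet_fl (hnf : NF H b0 N) (hm : m ≤ n) {j : ℕ} (hj : j < m) :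
    pet (rQ H b0 m) (fl hnf j) = it H j b0 := by
  unfold pet
  rw [rQ_fl hnf hm hj, Option.getD_some, ← fl_cons]

theorem flat_fl (hnf : NF H b0 N) (hm : m ≤ n) {ks : List ℕ} (hk : ∀ j ∈ ks, j < m) :
    flat (rQ H b0 m) (ks.map (fl hnf)) = (ks.map fun j => it H j b0).flatten := by
  unfold flat
  rw [List.map_map]
  congr 1
  apply List.map_congr_left
  intro j hj
  exact pet_fl hnf hm (hk j hj)

theorem tok_of (hnf : NF H b0 N) (hm : m ≤ n) {ks : List ℕ} (hk : ∀ j ∈ ks, j < m) :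
    Tok (rQ H b0 m) (ks.map (fl hnf)) := by
  intro a ha
  obtain ⟨j, hj, rfl⟩ := List.mem_map.1 ha
  exact ⟨_, rQ_fl hnf hm (hk j hj)⟩

theorem tok_fl (hnf : NF H b0 N) (hm : m ≤ n) {τ : List (Fin n)} (h : Tok (rQ H b0 m) τ) :
    ∃ ks : List ℕ, (∀ j ∈ ks, j < m) ∧ τ = ks.map (fl hnf) := by
  induction τ with
  | nil => exact ⟨[], by simp, rfl⟩
  | cons a τ ih =>
    obtain ⟨ks, h1, rfl⟩ := ih fun b hb => h b (List.mem_cons_of_mem _ hb)
    obtain ⟨l, hl⟩ := h a List.mem_cons_self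
    obtain ⟨i, hi, hw⟩ := (rQ_some hnf hm).1 hl
    refine ⟨i :: ks, ?_, by rw [List.map_cons, fl_eq hnf hw]⟩
    intro j hj
    rcases List.mem_cons.1 hj with rfl | hj
    · exact hi
    · exact h1 j hj

theorem rQ_sub (hnf : NF H b0 N) {m m' : ℕ} (hmm : m ≤ m') (hm : m' ≤ n) :
    SubR (rQ H b0 m) (rQ H b0 m') := by
  intro a l h
  obtain ⟨i, hi, hw⟩ := (rQ_some hnf (hmm.trans hm)).1 h
  exact (rQ_some hnf hm).2 ⟨i, by omega, hw⟩

/-- The token data of the pair. -/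
theorem td_nf (hnf : NF H b0 N) (hb : Bmk H) (hm : m ≤ n) {js' : List ℕ}
    (hx : XD H b0 m x T (0 :: js')) :
    TD (rQ H b0 m) (rH H) (fl hnf 0) (js'.map (fl hnf)) where
  one a l ha h := by
    obtain ⟨i, hi, hw⟩ := (rQ_some hnf hm).1 h
    cases i with
    | zero => exact (ha (fl_eq hnf hw).symm).elim
    | succ i => exact (rH_iff hnf hb).2 ⟨it H i b0, by rw [← hw, it_succ]⟩
  tok := by
    rw [← List.map_cons]
    exact tok_of hnf hm hx.lt
  big := by
    rw [← List.map_cons, flat_fl hnf hm hx.lt, ← hx.tok]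
    exact (rH_iff hnf hb).2 ⟨x, hx.app_x.symm⟩
  pre p hp hne h := by
    obtain ⟨ks, hks⟩ : ∃ ks, ks <+: js' ∧ p = ks.map (fl hnf) := by
      refine ⟨js'.take p.length, List.take_prefix _ _, ?_⟩
      rw [List.map_take]
      exact List.prefix_iff_eq_take.1 hp
    obtain ⟨hk1, rfl⟩ := hks
    have hlt : ∀ k ∈ 0 :: ks, k < m := by
      intro k hk
      refine hx.lt k ?_
      rcases List.mem_cons.1 hk with rfl | hk
      · exact List.mem_cons_self
      · exact List.mem_cons_of_mem _ (hk1.subset hk)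
    rw [← List.map_cons] at h
    obtain ⟨y, hy⟩ := (rH_iff hnf hb).1 h
    have h1 : flat (rQ H b0 m) ((0 :: js').map (fl hnf)) = T := by
      rw [flat_fl hnf hm hx.lt, ← hx.tok]
    have h2 : app H y = T := by
      refine hx.min y (0 :: ks) ?_ ?_ hlt ?_
      · rw [← hy]
        exact flat_ne_nil (by simp)
      · rw [← hy, ← h1]
        obtain ⟨r, rfl⟩ := hk1
        refine ⟨flat (rQ H b0 m) (r.map (fl hnf)), ?_⟩
        rw [← flat_append, ← List.map_append]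
        rfl
      · rw [← hy, flat_fl hnf hm hlt]
    rw [← hy, ← h1] at h2
    have h3 := flat_inj h2
    rw [List.map_cons, List.map_cons] at h3
    exact hne (List.cons.inj h3).2

theorem span_nf (hnf : NF H b0 N) (p : ℕ) (hp : p.Prime) (c : Fin n → ZMod p)
    (hc : ∀ a l, rQ H b0 n a = some l → ((a :: l).map c).sum = 0) : c = 0 := by
  haveI : Fact p.Prime := ⟨hp⟩
  have h1 : IsUnit ((Matrix.of fun (i : Fin n) => cnt (it H i b0)).map
      (Int.castRingHom (ZMod p))).det := by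
    have h2 := (det_words hnf).map (Int.castRingHom (ZMod p))
    rwa [RingHom.map_det] at h2
  apply Matrix.eq_zero_of_mulVec_eq_zero h1.ne_zero
  funext i
  have h3 := hc (fl hnf i) _ (rQ_fl hnf le_rfl i.2)
  rw [← fl_cons, sum_map_eq] at h3
  rw [Pi.zero_apply]
  refine Eq.trans ?_ h3
  simp [Matrix.mulVec, dotProduct, cnt]

/-- **The key lemma for a normal form.** -/
theorem key_nf (hnf : NF H b0 N) (hb : Bmk H) (hx : XD H b0 n x T js) (hm : m ≤ n) :
    Key (rQ H b0 m) (rH H) := by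
  refine Key.mono (rQ_sub hnf hm le_rfl) ?_
  obtain ⟨ks, hks⟩ := hx.js_form hnf hb
  subst hks
  refine key_pair (rQ_bim hnf le_rfl) ?_ (span_nf hnf) (rH_bim hb) (td_nf hnf hb le_rfl hx) ?_
  · intro a
    obtain ⟨i, s, hs⟩ := exists_first hnf a
    exact ⟨s, (rQ_some hnf le_rfl).2 ⟨i, i.2, hs⟩⟩
  · rw [List.map_append, List.getLast?_append]
    simp

/-- **Exactness for every `H`.** -/
theorem kk_nf (hnf : NF H b0 N) (hb : Bmk H) (hx : XD H b0 n x T js) (h1 : 1 ≤ m) (hm : m ≤ n)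
    (hX : XH H b0 m) : (KK (rQ H b0 m) (rH H)).IsAcyclic :=
  kk_acyclic_key (pr_rose hnf hb h1 hm hX) (key_nf hnf hb hx hm)

/-- **The amalgam for every `H`.** -/
theorem amalg_nf (hnf : NF H b0 N) (hb : Bmk H) (hx : XD H b0 n x T js) (h1 : 1 ≤ m) (hm : m ≤ n)
    (hp : Pr (rQ H b0 m) (rH H)) : Amalg (gQ hp) (gH hp) :=
  amalg_ac hp (hull_rose hnf hb h1 hm) (kk_acyclic_key hp (key_nf hnf hb hx hm))

/-- (X) with few tokens is (X). -/
theorem xh_mono {m m' : ℕ} (hmm : m ≤ m') (hX : XH H b0 m) : XH H b0 m' := by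
  obtain ⟨y, js, h1, h2⟩ := hX
  exact ⟨y, js, fun j hj => (h1 j hj).trans_le hmm, h2⟩

/-- **Exactness for every `H`**, in the form of the assembly. -/
theorem kk_xh (hnf : NF H b0 N) (hb : Bmk H) (m : ℕ) (h1 : 1 ≤ m) (hm : m ≤ n)
    (hX : XH H b0 m) : (KK (rQ H b0 m) (rH H)).IsAcyclic := by
  obtain ⟨x, T, js, hx⟩ := exists_xd hnf hb (h1.trans hm) le_rfl (xh_mono hm hX)
  exact kk_nf hnf hb hx h1 hm hX

end D0L.Bim
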