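import Pool.Agent.H.MP_374efc_lc.Bim.HC
import Pool.Agent.H.MP_374efc_lc.Bim.KeyN
import Pool.Agent.H.MP_374efc_lc.Bim.HullS
import Pool.Agent.H.MP_374efc_lc.Bim.AllA

/-!
# `Loc` for normal forms

`wn_not`: `w_n` is no product of `w_0, …, w_(n-1)` (0.6). `T_pre`, `T_suf`: `T` is a prefix and a suffix
of `w_n` (5.6 and its mirror image). `loc_nf`: the statement `Loc H b0 m` of the assembly.
-/

set_option autoImplicit false

namespace D0L.Bim

open D0L.Tr (Bim Rose IsSt run Key TD flat pet Tok Ret wpow FI LI mkR SubR)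

variable {n N m : ℕ} {H : Fin n → List (Fin n)} {b0 x T : List (Fin n)} {js : List ℕ}

theorem rQ_full (hnf : NF H b0 N) (a : Fin n) : ∃ l, rQ H b0 n a = some l := by
  obtain ⟨i, s, hs⟩ := exists_first hnf a
  exact ⟨s, (rQ_some hnf le_rfl).2 ⟨i, i.2, hs⟩⟩

/-- (0.6) -/
theorem wn_not (hnf : NF H b0 N) (hl : ¬ Lett H b0) :
    run (rQ H b0 n) [] (it H n b0) ≠ some [] := by
  intro hwn
  apply hl
  have hW : ∀ i, i ≤ n → run (rQ H b0 n) [] (it H i b0) = some [] := by
    intro i hi
    rcases Nat.lt_or_ge i n with h | h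
    · exact (rQ_iff hnf le_rfl).2 ⟨[i], by simpa using h, by simp⟩
    · rw [le_antisymm hi h]
      exact hwn
  have happ : ∀ y, run (rQ H b0 n) [] y = some [] → run (rQ H b0 n) [] (app H y) = some [] := by
    intro y hy
    obtain ⟨js, h1, rfl⟩ := (rQ_iff hnf le_rfl).1 hy
    clear hy
    induction js with
    | nil => rfl
    | cons j js ih =>
      rw [List.map_cons, List.flatten_cons, app_append, ← it_succ]
      exact Tr.run_append_some (hW (j + 1) (h1 j List.mem_cons_self))
        (ih fun i hi => h1 i (List.mem_cons_of_mem _ hi))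
  have hall : ∀ i, run (rQ H b0 n) [] (it H i b0) = some [] := by
    intro i
    induction i with
    | zero => exact hW 0 (Nat.zero_le _)
    | succ i ih =>
      rw [it_succ]
      exact happ _ ih
  have hG := hnf.hull (fun y => run (rQ H b0 n) [] y = some []) rfl
    (fun y z hy hz => Tr.run_append_some hy hz)
    (fun y z t hy _ hyt _ => by
      have h1 : run (rQ H b0 n) [] (y ++ t) = some [] := hyt
      have h2 : run (rQ H b0 n) [] y = some [] := hy
      rw [Tr.run_append, h2] at h1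
      exact h1)
    (fun i _ => hall i)
  refine lett_of_letters hnf fun a => ?_
  obtain ⟨js, -, h1⟩ := (rQ_iff hnf le_rfl).1 (hG [a])
  exact ⟨js, h1⟩

/-- (5.6): `x` is a prefix of `w_(n-1)`. -/
theorem x_pre (hnf : NF H b0 N) (hb : Bmk H) (hl : ¬ Lett H b0) (hx : XD H b0 n x T js) :
    x <+: it H (n - 1) b0 := by
  obtain ⟨a, l, hal⟩ := List.exists_cons_of_ne_nil (it_ne hnf (n - 1))
  obtain ⟨x', hx'⟩ := hx.first_x hnf hb hal
  refine x_prefix hnf hb (hulS hnf hb) hx' hal ?_ ?_ (wn_not hnf hl)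
  · rw [hx.app_x]
    exact (rQ_iff hnf le_rfl).2 ⟨js, hx.lt, hx.tok⟩
  · intro v hv hvx hne hrun
    obtain ⟨ks, h1, h2⟩ := (rQ_iff hnf le_rfl).1 hrun
    have h3 : app H v <+: T := by
      rw [← hx.app_x]
      obtain ⟨t, rfl⟩ := hvx
      rw [app_append]
      exact List.prefix_append _ _
    have h4 := hx.min v ks (app_ne hnf hv) h3 h1 h2
    rw [← hx.app_x] at h4
    exact hne (hnf.inj h4)

theorem rQ_rev (hnf : NF H b0 N) {u : List (Fin n)} :
    run (rQ (rev H) b0.reverse n) [] u.reverse = some [] ↔ run (rQ H b0 n) [] u = some [] := by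
  rw [rQ_iff hnf.reverse le_rfl, rQ_iff hnf le_rfl]
  constructor
  · rintro ⟨ks, h1, h2⟩
    refine ⟨ks.reverse, fun k hk => h1 k (List.mem_reverse.1 hk), ?_⟩
    have h3 := prod_rev H b0 ks.reverse
    rw [List.reverse_reverse, ← h2] at h3
    exact List.reverse_injective h3
  · rintro ⟨ks, h1, h2⟩
    refine ⟨ks.reverse, fun k hk => h1 k (List.mem_reverse.1 hk), ?_⟩
    rw [prod_rev, ← h2]

/-- The mirror image of (5.6): `x` is a suffix of `w_(n-1)`. -/
theorem x_suf (hnf : NF H b0 N) (hb : Bmk H) (hl : ¬ Lett H b0) (hx : XD H b0 n x T js) :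
    x <:+ it H (n - 1) b0 := by
  have hnf' := hnf.reverse
  obtain ⟨a, l, hal⟩ := List.exists_cons_of_ne_nil (it_ne hnf' (n - 1))
  rw [it_rev] at hal
  have hal' : it H (n - 1) b0 = l.reverse ++ [a] := by
    rw [← List.reverse_reverse (it H (n - 1) b0), hal, List.reverse_cons]
  obtain ⟨x', hx'⟩ := hx.last_x hnf hb hal'
  have hxr : x.reverse = a :: x'.reverse := by rw [hx']; simp
  have hrunx : run (rQ H b0 n) [] (app H x) = some [] := by
    rw [hx.app_x]
    exact (rQ_iff hnf le_rfl).2 ⟨js, hx.lt, hx.tok⟩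
  have key : x.reverse <+: it (rev H) (n - 1) b0.reverse := by
    refine x_prefix hnf' (hb.reverse hnf) (hulS_rev hnf hb) hxr (by rw [it_rev]; exact hal) ?_ ?_ ?_
    · rw [app_rev, rQ_rev hnf]
      exact hrunx
    · intro v hv hvx hne hrun
      have h1 : v.reverse <:+ x := by
        rw [← List.reverse_prefix, List.reverse_reverse]
        exact hvx
      have h2 : run (rQ H b0 n) [] (app H v.reverse) = some [] := by
        rw [← rQ_rev hnf, ← app_rev, List.reverse_reverse]
        exact hrun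
      obtain ⟨u, hu⟩ := h1
      have h3 := hrunx
      rw [← hu, app_append, Tr.run_append, Option.bind_eq_some_iff] at h3
      obtain ⟨t, h4, h5⟩ := h3
      have h6 : t = [] := Tr.run_inj (rQ_bim hnf le_rfl) (Tr.run_isSt (Tr.isSt_nil _) h4)
        (Tr.isSt_nil _) h5 h2
      subst h6
      have hu0 : u ≠ [] := by
        rintro rfl
        apply hne
        rw [← hu]
        simp
      obtain ⟨ks, h7, h8⟩ := (rQ_iff hnf le_rfl).1 h4
      have h9 : app H u <+: T := by
        rw [← hx.app_x, ← hu, app_append]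
        exact List.prefix_append _ _
      have h10 := hx.min u ks (app_ne hnf hu0) h9 h7 h8
      rw [← hx.app_x] at h10
      have h11 := hnf.inj h10
      rw [h11] at hu
      have h12 := congrArg List.length hu
      rw [List.length_append, List.length_reverse] at h12
      exact hv (List.length_eq_zero_iff.1 (by omega))
    · rw [it_rev, Ne, rQ_rev hnf]
      exact wn_not hnf hl
  rw [it_rev, List.reverse_prefix] at key
  exact key

theorem T_pre (hnf : NF H b0 N) (hb : Bmk H) (hl : ¬ Lett H b0) (hx : XD H b0 n x T js) :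
    T <+: it H n b0 := by
  obtain ⟨t, ht⟩ := x_pre hnf hb hl hx
  have hn := pos_n hnf
  have h1 : it H n b0 = app H (it H (n - 1) b0) := by
    rw [← it_succ]
    congr 1
    omega
  rw [h1, ← ht, app_append, hx.app_x]
  exact List.prefix_append _ _

theorem T_suf (hnf : NF H b0 N) (hb : Bmk H) (hl : ¬ Lett H b0) (hx : XD H b0 n x T js) :
    T <:+ it H n b0 := by
  obtain ⟨t, ht⟩ := x_suf hnf hb hl hx
  have hn := pos_n hnf
  have h1 : it H n b0 = app H (it H (n - 1) b0) := by
    rw [← it_succ]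
    congr 1
    omega
  rw [h1, ← ht, app_append, hx.app_x]
  exact List.suffix_append _ _

/-- **(LOC) for normal forms.** -/
theorem loc_nf (hnf : NF H b0 N) (hb : Bmk H) (hl : ¬ Lett H b0) (m : ℕ) (h1 : 1 ≤ m)
    (hm : m ≤ n) (hX : XH H b0 m) : Loc H b0 m := by
  obtain ⟨x, T, js, hx⟩ := exists_xd hnf hb (h1.trans hm) le_rfl (xh_mono hm hX)
  obtain ⟨ks, hks⟩ := hx.js_form hnf hb
  have hpre := T_pre hnf hb hl hx
  have hsuf := T_suf hnf hb hl hx
  have hkey : Key (rQ H b0 m) (rH H) := key_nf hnf hb hx hm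
  have hkk := kk_nf hnf hb hx h1 hm hX
  subst hks
  have hlast : (ks ++ [0]).getLast? = some 0 := by simp
  have hfl : ∀ j, ∃ l, it H j b0 = fl hnf j :: l := fun j => ⟨_, fl_cons hnf j⟩
  have hTe : T = flw (wd H b0) (0 :: (ks ++ [0])) := hx.tok
  have hT := td_nf hnf hb le_rfl hx
  have hn : ∀ E : List ℕ, (∀ e ∈ E, e < n) → it H n b0 ≠ flw (wd H b0) E := by
    intro E hE h
    exact wn_not hnf hl ((rQ_iff hnf le_rfl).2 ⟨E, hE, h⟩)
  have hp := pr_rose hnf hb h1 hm hX
  have hh := hull_rose hnf hb h1 hm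
  have hz : ∀ k, n ≤ k → run (rH H) [] (it H k b0) = some [] := by
    intro k hk
    have := pos_n hnf
    obtain ⟨i, rfl⟩ : ∃ i, k = i + 1 := ⟨k - 1, by omega⟩
    rw [it_succ]
    exact (rH_iff hnf hb).2 ⟨_, rfl⟩
  have hsub := rQ_sub hnf hm le_rfl
  have hR : ∀ k, n ≤ k → ∀ s s' t t', IsSt (rH H) s → IsSt (rH H) s' → s ≠ s' →
      run (rH H) s (it H k b0) = some t → run (rH H) s' (it H k b0) = some t' →
      ∃ v, v ≠ [] ∧ run (rH H) s v = some s ∧ run (rH H) s' v = some s' :=
    fun k hk s s' t t' hs hs' hne h h' =>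
      lemR_loop hnf hl (rH_bim hb) (occ_rH hnf hb) hk hs hs' hne h h'
  refine ⟨fun k hk s hs hne hr => ?_, fun k hk s0 s hs0 hne hr => ?_⟩
  · refine Tr.loc_out hp hh hkk hkey (hz k hk) (hR k hk) ?_ hs hne hr
    intro s' v i hs' hne' hrel hv hv1 hv2 hv3
    exact hC_right hnf hb hfl hx.lt hlast hTe hT (rQ_full hnf) (span_nf hnf) hpre hsuf hn hs' hne'
      (hrel.mono hsub) hv (Tr.run_mono hsub hv1) hv2 hv3 hk i
  · refine Tr.loc_in hp hh hkk hkey (hz k hk) (hR k hk) ?_ hs0 hne hr
    intro s' v i hs' hne' hrel hv hv1 hv2 hv3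
    exact hC_left hnf hb hfl hx.lt hlast hTe hT (rQ_full hnf) (span_nf hnf) hpre hsuf hn hs' hne'
      (hrel.mono hsub) hv (Tr.run_mono hsub hv1) hv2 hv3 hk i

end D0L.Bim
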