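import Pool.Agent.H.MP_374efc_lc.Bim.LemR
import Pool.Agent.H.MP_374efc_lc.Tr.Z2

/-!
# Lemma R: the words `w_j`, `j ≥ n`, are read only from the base

Let `D` be the rose of the words `H a` (only `Bim D` and `occ D a = ∑ c, (H c).count a` are used).
If `w_j`, `j ≥ n`, is read from two different states `s, s'` of `D` then the pair `s, s'` lies on a
loop (`lemR_loop`). For malnormal `D`: `w_j` is read only from the base (`lemR_mal`, `lemR_cut`).
-/

set_option autoImplicit false

namespace D0L.Bim

open Finset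

variable {n N : ℕ} {H : Fin n → List (Fin n)} {b0 : List (Fin n)}

/-- Lemma R: if `w_j`, `j ≥ n`, is read from two different states of the rose `D` of the words `H a`
then this pair of states lies on a loop. -/
theorem lemR_loop (hnf : NF H b0 N) (hnl : ¬ ∀ i < n, (it H i b0).length = 1)
    {D : Tr.Rose (Fin n)} (hB : Tr.Bim D) (hocc : ∀ a, Tr.occ D a = ∑ c, (H c).count a)
    {j : ℕ} (hj : n ≤ j) {s s' t t' : List (Fin n)} (hs : Tr.IsSt D s) (hs' : Tr.IsSt D s')
    (hne : s ≠ s') (h : Tr.run D s (it H j b0) = some t) (h' : Tr.run D s' (it H j b0) = some t') :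
    ∃ v, v ≠ [] ∧ Tr.run D s v = some s ∧ Tr.run D s' v = some s' := by
  by_contra hcon
  have hF : ∀ v, v ≠ [] → Tr.run D s v = some s → Tr.run D s' v = some s' → False :=
    fun v h1 h2 h3 => hcon ⟨v, h1, h2, h3⟩
  refine lemR hnf hnl hj fun a => ?_
  rw [← hocc]
  rcases Nat.eq_zero_or_pos ((it H j b0).count a) with h0 | h0
  · have h2 : 0 < Tr.occ D a := by
      rcases Nat.eq_zero_or_pos (Tr.occ D a) with h3 | h3
      · exfalso
        rw [hocc, Finset.sum_eq_zero_iff] at h3
        apply det_inc hnf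
        refine Matrix.det_eq_zero_of_row_eq_zero a fun c => ?_
        simp only [inc, Matrix.of_apply]
        exact_mod_cast h3 c (Finset.mem_univ c)
      · exact h3
    omega
  · exact Tr.lemmaZ hB hs hs' hne hF h h' a h0

/-- For malnormal `D` (and `w_j` in the image of `H`): `w_j`, `j ≥ n`, is read only from the base. -/
theorem lemR_mal (hnf : NF H b0 N) (hnl : ¬ ∀ i < n, (it H i b0).length = 1)
    {D : Tr.Rose (Fin n)} (hB : Tr.Bim D) (hM : Tr.Mal D)
    (hocc : ∀ a, Tr.occ D a = ∑ c, (H c).count a)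
    (hD : ∀ c, Tr.run D [] (H c) = some []) {j : ℕ} (hj : n ≤ j) {s : List (Fin n)}
    (hs : Tr.IsSt D s) (h : Tr.run D s (it H j b0) ≠ none) : s = [] := by
  by_contra hne
  have happ : ∀ x, Tr.run D [] (app H x) = some [] := by
    intro x
    induction x with
    | nil => rfl
    | cons c x ih =>
      rw [app_cons]
      exact Tr.run_append_some (hD c) ih
  have hn : 0 < n := pos_n hnf
  obtain ⟨i, rfl⟩ : ∃ i, j = i + 1 := ⟨j - 1, by omega⟩
  obtain ⟨t, ht⟩ := Option.ne_none_iff_exists'.1 h
  have h2 : Tr.run D [] (it H (i + 1) b0) = some [] := by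
    rw [it_succ]
    exact happ _
  obtain ⟨v, hv, h3, h4⟩ := lemR_loop hnf hnl hB hocc hj hs (Tr.isSt_nil D) hne ht h2
  exact hne (hM s [] v hs (Tr.isSt_nil D) hv h3 h4)

/-- The same for words: a word `w_j`, `j ≥ n`, in a product of the words `H a` begins at a cut. -/
theorem lemR_cut (hnf : NF H b0 N) (hnl : ¬ ∀ i < n, (it H i b0).length = 1)
    {D : Tr.Rose (Fin n)} (hB : Tr.Bim D) (hM : Tr.Mal D)
    (hocc : ∀ a, Tr.occ D a = ∑ c, (H c).count a)
    (hD : ∀ c, Tr.run D [] (H c) = some []) {j : ℕ} (hj : n ≤ j) {u v : List (Fin n)}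
    (h : Tr.run D [] (u ++ it H j b0 ++ v) = some []) : Tr.run D [] u = some [] := by
  rw [List.append_assoc, Tr.run_append] at h
  cases hu : Tr.run D [] u with
  | none => rw [hu] at h; simp at h
  | some s =>
    rw [hu] at h
    have h1 : Tr.run D s (it H j b0 ++ v) = some [] := by simpa using h
    rw [Tr.run_append] at h1
    have h2 : Tr.run D s (it H j b0) ≠ none := by
      intro h3
      rw [h3] at h1
      simp at h1
    rw [lemR_mal hnf hnl hB hM hocc hD hj (Tr.run_isSt (Tr.isSt_nil D) hu) h2]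

end D0L.Bim
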