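import Pool.Agent.H.MP_374efc_lc.Bim.Asb
import Pool.Agent.H.MP_374efc_lc.Bim.LemRD
import Pool.Agent.H.MP_374efc_lc.Tr.Height3

/-!
# The core statement for malnormal `H`

`core_mal`: `CoreP` for malnormal `H` (`rose_claim` for the pair `(Q_J, H)`, `Q_J = (w_i, i < n - J)`).
`false_of_mal`: the contradiction in the malnormal case from hypothesis (X) and `NoMix`.
-/

set_option autoImplicit false

namespace D0L.Bim

open Tr

variable {n N : ℕ} {H : Fin n → List (Fin n)} {b0 : List (Fin n)} {x T y : List (Fin n)}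
  {js : List ℕ} {J : ℕ}

/-- The letter weights. -/
noncomputable def ew (H : Fin n → List (Fin n)) (b0 : List (Fin n)) (J : ℕ) (a : Fin n) : ℤ :=
  tv H b0 (J - 1) (FreeGroup.of a)

theorem wsum_ew (u : List (Fin n)) : wsum (ew H b0 J) u = tv H b0 (J - 1) (gw u) := by
  rw [tv_gw_sum]
  rfl

/-- The weights vanish on the petals. -/
theorem ew_zero (hnf : NF H b0 N) (hJ : 1 ≤ J) {a : Fin n} {l : List (Fin n)}
    (h : rQ H b0 (n - J) a = some l) : wsum (ew H b0 J) (a :: l) = 0 := by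
  obtain ⟨i, hi, hw⟩ := (rQ_some hnf (Nat.sub_le _ _)).1 h
  rw [← hw, wsum_ew]
  exact tv_ww_zero hnf (k := i) (j := J - 1) (by omega)

/-- The weights are nonnegative on the chain. -/
theorem ew_chain (hnf : NF H b0 N) (hx : XD H b0 n x T js) (hJ : 1 ≤ J) (hy : it H J y = T)
    {i : ℕ} (hi : 1 ≤ i) : 0 ≤ wsum (ew H b0 J) (it H i y) := by
  rw [wsum_ew]
  have h1 := tv_gh_it (H := H) (b0 := b0) 0 (J - 1) (gw (it H i y))
  rw [Nat.add_zero, gh_it] at h1
  rw [← h1]
  have h2 : it H (J - 1) (it H i y) = it H (i - 1) T := by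
    rw [← hy, ← it_add, ← it_add]
    congr 1
    omega
  rw [h2]
  obtain ⟨ks, hks⟩ := TkM.it (H := H) (b0 := b0) (x := T) ⟨js, hx.tok⟩ (i - 1)
  rw [hks]
  exact tv_prod_nonneg hnf 0 ks

/-- The weight of `y` is positive. -/
theorem ew_pos (hnf : NF H b0 N) (hx : XD H b0 n x T js) (hJ : 1 ≤ J) (hy : it H J y = T) :
    0 < wsum (ew H b0 J) y := by
  rw [wsum_ew]
  have hxy : it H (J - 1) y = x := by
    apply hnf.inj
    rw [hx.app_x, ← it_succ, ← hy]
    congr 1
    omega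
  obtain ⟨js', hjs'⟩ := hx.js_cons
  refine tv_chain_pos hnf (x := gw x) (js := js) hx.lt (by rw [hjs']; simp) ?_ ?_
  · rw [gh_gw, hx.app_x, hx.tok]
  · rw [gh_it, hxy]

/-- The last letters of petals. -/
theorem step_nil_last (hnf : NF H b0 N) {m : ℕ} (hm : m ≤ n) {q : List (Fin n)} {c : Fin n}
    (hq : IsSt (rQ H b0 m) q) (h : step (rQ H b0 m) q c = some []) :
    ∃ i < m, ∃ s, it H i b0 = s ++ [c] := by
  cases q with
  | nil =>
    rw [step_nil] at h
    obtain ⟨i, hi, hw⟩ := (rQ_some hnf hm).1 h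
    exact ⟨i, hi, [], hw⟩
  | cons d r =>
    obtain ⟨rfl, rfl⟩ := step_unique h
    rcases hq with hq | ⟨a, l, hal, s, hs⟩
    · simp at hq
    · obtain ⟨i, hi, hw⟩ := (rQ_some hnf hm).1 hal
      exact ⟨i, hi, a :: s, by rw [hw, ← hs]; rfl⟩

theorem occ_rH (hnf : NF H b0 N) (hb : Bmk H) (a : Fin n) : occ (rH H) a = ∑ c, (H c).count a := by
  unfold rH
  rw [occ_mkR hb.fst (H_ne hnf)]

/-- **The core statement for malnormal `H`.** -/
theorem core_mal (hnf : NF H b0 N) (hb : Bmk H) (hM : Mal (rH H))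
    (hnl : ¬ ∀ i < n, (it H i b0).length = 1) (hx : XD H b0 n x T js) (hJ : 1 ≤ J) (hJn : J < n)
    (hy : it H J y = T) (hyn : ∀ z, app H z ≠ y) (hjs : ∀ j ∈ js, j + J < n) :
    CoreP H b0 J y := by
  intro L hL hyL z hz
  have hn := pos_n hnf
  have hm1 : 1 ≤ n - J := by omega
  have hmn : n - J ≤ n := Nat.sub_le _ _
  have hX : XH H b0 (n - J) := by
    obtain ⟨js', rfl⟩ := hx.js_cons
    refine ⟨x, js', fun j hj => ?_, by rw [hx.app_x, hx.tok]⟩
    have := hjs j (List.mem_cons_of_mem _ hj)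
    omega
  have hp := pr_rose hnf hb hm1 hmn hX
  obtain ⟨a, ha, ha1, ha2, ha3, ha4⟩ := exists_fi hnf (hb.bimk hnf).1
  obtain ⟨b, hb0, hb1, hb2, hb3, hb4⟩ := exists_la hnf (hb.bimk hnf).2
  have hfy := fst_chain hnf hx hJ hJn hy ha ha1 ha2 ha3 ha4
  have hly := lst_chain hnf hb hx hJ hJn hy hb0 hb1 hb2 hb3 hb4
  -- letters which are not read at the base
  have hout : ∀ k, n - J ≤ k → k < n → rQ H b0 (n - J) (a k) = none := by
    intro k h1 h2
    cases h3 : rQ H b0 (n - J) (a k) with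
    | none => rfl
    | some l =>
      exfalso
      obtain ⟨i, hi, hw⟩ := (rQ_some hnf hmn).1 h3
      obtain ⟨s, hs⟩ := ha i
      rw [hs] at hw
      have h4 := ha3 i k (by omega) h2 (List.cons.inj hw).1
      omega
  have hinn : ∀ k, n - J ≤ k → k < n → ∀ q, IsSt (rQ H b0 (n - J)) q →
      step (rQ H b0 (n - J)) q (b k) ≠ some [] := by
    intro k h1 h2 q hq h3
    obtain ⟨i, hi, s, hw⟩ := step_nil_last hnf hmn hq h3
    obtain ⟨t, ht⟩ := hb0 i
    rw [ht] at hw
    have h4 := hb3 i k (by omega) h2 (snoc_inj hw)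
    omega
  have hQ : ∀ k, k < n - J → run (rQ H b0 (n - J)) [] (it H k b0) = some [] := by
    intro k hk
    refine (rQ_iff hnf hmn).2 ⟨[k], by simpa using hk, ?_⟩
    simp
  have hH : ∀ u, run (rH H) [] (app H u) = some [] := fun u => (rH_iff hnf hb).2 ⟨u, rfl⟩
  have hHw : ∀ k, 1 ≤ k → run (rH H) [] (it H k b0) = some [] := by
    intro k hk
    obtain ⟨k, rfl⟩ : ∃ j, k = j + 1 := ⟨k - 1, by omega⟩
    rw [it_succ]
    exact hH _
  have hD : ∀ c, run (rH H) [] (H c) = some [] := fun c => by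
    rw [← app_singleton H c]
    exact hH [c]
  have key : TkR (rQ H b0 (n - J)) (rH H) (ew H b0 J)
      {τ | (∃ k, 1 ≤ k ∧ k < n ∧ τ = it H k b0) ∨ ∃ i, 1 ≤ i ∧ i < J ∧ τ = it H i y}
      {b0} {τ | ∃ k, n ≤ k ∧ τ = it H k b0} y (a (n - J)) (b (n - J)) :=
    { hsm := by
        rintro τ (⟨k, h1, -, rfl⟩ | ⟨i, h1, -, rfl⟩)
        · exact hHw k h1
        · obtain ⟨i, rfl⟩ : ∃ j, i = j + 1 := ⟨i - 1, by omega⟩
          rw [it_succ]
          exact hH _
      hsm' := by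
        rintro τ (⟨k, -, -, rfl⟩ | ⟨i, h1, -, rfl⟩)
        · rw [wsum_ew]
          exact tv_ww_nonneg hnf _ k
        · exact ew_chain hnf hx hJ hy h1
      hqt := by
        intro τ hτ
        rw [Set.mem_singleton_iff] at hτ
        rw [hτ]
        exact hQ 0 (by omega)
      hbg := by
        rintro τ ⟨k, hk, rfl⟩
        exact hHw k (by omega)
      big := by
        rintro τ ⟨k, hk, rfl⟩ u v huv
        exact lemR_cut hnf hnl (rH_bim hb) hM (occ_rH hnf hb) hD hk huv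
      yH := by
        intro h
        obtain ⟨u, hu⟩ := (rH_iff hnf hb).1 h
        exact hyn u hu.symm
      yη := ew_pos hnf hx hJ hy
      fst := by
        obtain ⟨s, hs⟩ := hfy 0
        exact ⟨s, hs⟩
      lst := by
        obtain ⟨s, hs⟩ := hly 0
        exact ⟨s, hs⟩
      out := by
        rintro τ (⟨k, -, h2, rfl⟩ | ⟨i, h1, h2, rfl⟩)
        · rcases lt_or_ge k (n - J) with h3 | h3
          · exact Or.inl (hQ k h3)
          · obtain ⟨s, hs⟩ := ha k
            exact Or.inr ⟨a k, s, hs, hout k h3 h2⟩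
        · obtain ⟨s, hs⟩ := hfy i
          exact Or.inr ⟨_, s, hs, hout _ (by omega) (by omega)⟩
      inn := by
        rintro τ (⟨k, -, h2, rfl⟩ | ⟨i, h1, h2, rfl⟩)
        · rcases lt_or_ge k (n - J) with h3 | h3
          · exact Or.inl (hQ k h3)
          · obtain ⟨s, hs⟩ := hb0 k
            exact Or.inr ⟨s, b k, hs, hinn k h3 h2⟩
        · obtain ⟨s, hs⟩ := hly i
          exact Or.inr ⟨s, _, hs, hinn _ (by omega) (by omega)⟩
      out₀ := hout _ le_rfl (by omega)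
      inn₀ := hinn _ le_rfl (by omega) }
  refine rose_claim hp (hull_rose hnf hb hm1 hmn) hM (fun c l h => ew_zero hnf hJ h) key L ?_ hyL ?_
  · intro τ hτ
    rcases hL τ hτ with ⟨k, rfl⟩ | ⟨i, hi, rfl⟩
    · rcases Nat.eq_zero_or_pos k with rfl | h1
      · exact Or.inr (Or.inl rfl)
      · rcases lt_or_ge k n with h2 | h2
        · exact Or.inl (Or.inl ⟨k, h1, h2, rfl⟩)
        · exact Or.inr (Or.inr (Or.inl ⟨k, h2, rfl⟩))
    · rcases Nat.eq_zero_or_pos i with rfl | h1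
      · exact Or.inr (Or.inr (Or.inr rfl))
      · exact Or.inl (Or.inr ⟨i, h1, hi, rfl⟩)
  · rw [hz]
    exact hH z

/-- **No mixing** (section 6): the chain is short and `T` uses only short tokens. -/
def NoMix (H : Fin n → List (Fin n)) (b0 : List (Fin n)) : Prop :=
  ∀ (x T : List (Fin n)) (js : List ℕ) (J : ℕ) (y : List (Fin n)), XD H b0 n x T js → 1 ≤ J →
    it H J y = T → J < n ∧ (∀ j ∈ js, j + J < n) ∧ (it H (n - 1 - J) b0).length ≠ 1

/-- **The malnormal case.** -/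
theorem false_of_mal (hnf : NF H b0 N) (hb : Bmk H) (hP : ∃ K, ∀ a, TkM H b0 (it H K [a]))
    (hM : Mal (rH H)) (hnl : ¬ ∀ i < n, (it H i b0).length = 1) (hX : XH H b0 n)
    (hmix : NoMix H b0) : False := by
  have hn := pos_n hnf
  obtain ⟨x, T, js, hx⟩ := exists_xd hnf hb hn le_rfl hX
  obtain ⟨J, y, hJ, hy, hyn⟩ := exists_chain hnf (hx.T_ne hnf) hx.app_x
  obtain ⟨hJn, hjs, hl⟩ := hmix x T js J y hx hJ hy
  exact false_of_core hnf hb hP hx
    (fun hp => amalg_rose hp (hull_rose hnf hb hn le_rfl) hM) hJ hJn hy hl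
    (core_mal hnf hb hM hnl hx hJ hJn hy hyn hjs)

end D0L.Bim
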