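import Pool.Agent.H.MP_374efc_lc.Asm.Top

/-!
# (6.4) (II) of BIMFULL: `T` is a product of `w_0, .., w_p` with exactly one token `w_p`

Only exactness is used. `L` = the letters `w_0, .., w_(p-1)`. Every letter outside `L` occurs exactly once in the words
`H d`, `d` outside `L`. It follows that each of these words has exactly one letter outside `L`, so the number of letters
outside `L` modulo that of `w_p` vanishes on all `w_i`; they are a basis, so `w_p` has one letter outside `L`, but it
begins and ends with such letters.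
-/

set_option autoImplicit false

namespace D0L.Bim.N1

variable {n N : ℕ} {H : Fin n → List (Fin n)} {b0 : List (Fin n)}

/-- The sum of `f` over the letters of `u`. -/
def ws {α : Type} (f : α → ℤ) (u : List α) : ℤ := (u.map f).sum

theorem ws_nil {α : Type} (f : α → ℤ) : ws f [] = 0 := rfl

theorem ws_cons {α : Type} (f : α → ℤ) (a : α) (u : List α) :
    ws f (a :: u) = f a + ws f u := by
  simp [ws]

theorem ws_append {α : Type} (f : α → ℤ) (u v : List α) :
    ws f (u ++ v) = ws f u + ws f v := by
  simp [ws]

theorem ws_singleton {α : Type} (f : α → ℤ) (a : α) : ws f [a] = f a := by simp [ws]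

theorem ws_app {α : Type} (f : α → ℤ) (h : α → List α) (u : List α) :
    ws f (app h u) = ws (fun a => ws f (h a)) u := by
  induction u with
  | nil => rfl
  | cons a u ih => rw [app_cons, ws_append, ws_cons, ih]

theorem ws_flatten {α : Type} (f : α → ℤ) (L : List (List α)) :
    ws f L.flatten = (L.map (ws f)).sum := by
  induction L with
  | nil => rfl
  | cons x L ih => rw [List.flatten_cons, ws_append, ih, List.map_cons, List.sum_cons]

theorem ws_nonneg {α : Type} {f : α → ℤ} (hf : ∀ a, 0 ≤ f a) (u : List α) : 0 ≤ ws f u := by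
  induction u with
  | nil => exact le_rfl
  | cons a u ih => rw [ws_cons]; exact add_nonneg (hf a) ih

theorem ws_ge {α : Type} {f : α → ℤ} (hf : ∀ a, 0 ≤ f a) {u : List α} {c : α} (hc : c ∈ u) :
    f c ≤ ws f u := by
  obtain ⟨s, t, rfl⟩ := List.append_of_mem hc
  rw [ws_append, ws_cons]
  have h1 := ws_nonneg hf s
  have h2 := ws_nonneg hf t
  omega

theorem ws_eq_sum (f : Fin n → ℤ) (u : List (Fin n)) :
    ws f u = ∑ c, (u.count c : ℤ) * f c := by
  induction u with
  | nil => simp [ws]
  | cons a u ih =>
    rw [ws_cons, ih]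
    have h1 : ∀ c, (((a :: u).count c : ℕ) : ℤ) * f c =
        (if a = c then f c else 0) + (u.count c : ℤ) * f c := by
      intro c
      rw [List.count_cons]
      by_cases h : a = c
      · subst h
        simp
        ring
      · simp [h]
    simp only [h1, Finset.sum_add_distrib]
    simp

theorem count_tokens (w : ℕ → List (Fin n)) (c : Fin n) {js : List ℕ} {m : ℕ}
    (hjs : ∀ j ∈ js, j < m) : (js.map w).flatten.count c =
      ∑ i ∈ Finset.range m, js.count i * (w i).count c := by
  induction js with
  | nil => simp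
  | cons j js ih =>
    rw [List.map_cons, List.flatten_cons, List.count_append, ih fun i hi => hjs i (by simp [hi])]
    have h1 : ∀ i ∈ Finset.range m, (j :: js).count i * (w i).count c =
        (if j = i then (w i).count c else 0) + js.count i * (w i).count c := by
      intro i _
      rw [List.count_cons]
      by_cases h : j = i
      · subst h
        simp
        ring
      · simp [h]
    rw [Finset.sum_congr rfl h1, Finset.sum_add_distrib, Finset.sum_ite_eq, if_pos]
    exact Finset.mem_range.2 (hjs j (by simp))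

/-- Two different places of a letter. -/
theorem two_le_count {u s t : List (Fin n)} {c : Fin n} (h1 : u = c :: s)
    (h2 : u = t ++ [c]) (h3 : u ≠ [c]) : 2 ≤ u.count c := by
  subst h1
  cases t with
  | nil => exact absurd h2 h3
  | cons d t =>
    rw [List.cons_append] at h2
    obtain ⟨rfl, h4⟩ := List.cons.inj h2
    rw [h4]
    simp

/-- The sequences of the first and of the last letters, and the letters `w_0, .., w_(p-1)`. -/
structure SD (H : Fin n → List (Fin n)) (b0 : List (Fin n)) (p : ℕ) (a b : ℕ → Fin n) : Prop where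
  p0 : 0 < p
  pn : p < n
  wa : ∀ i, ∃ s, it H i b0 = a i :: s
  wb : ∀ i, ∃ s, it H i b0 = s ++ [b i]
  Ha : ∀ i, ∃ s, H (a i) = a (i + 1) :: s
  Hb : ∀ i, ∃ s, H (b i) = s ++ [b (i + 1)]
  pa : ∀ i, a (i + n) = a i
  pb : ∀ i, b (i + n) = b i
  ia : ∀ i j, i < n → j < n → a i = a j → i = j
  ib : ∀ i j, i < n → j < n → b i = b j → i = j
  sa : ∀ c, ∃ i < n, a i = c
  sb : ∀ c, ∃ i < n, b i = c
  lett : ∀ i < p, (it H i b0).length = 1
  nlett : (it H p b0).length ≠ 1

namespace SD

variable {p : ℕ} {a b : ℕ → Fin n}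

theorem w_eq (h : SD H b0 p a b) {i : ℕ} (hi : i < p) : it H i b0 = [a i] := by
  obtain ⟨s, hs⟩ := h.wa i
  have h1 := h.lett i hi
  rw [hs] at h1 ⊢
  simp only [List.length_cons, Nat.add_eq_right, List.length_eq_zero_iff] at h1
  rw [h1]

theorem b_eq (h : SD H b0 p a b) {i : ℕ} (hi : i < p) : b i = a i := by
  obtain ⟨s, hs⟩ := h.wb i
  rw [h.w_eq hi] at hs
  cases s with
  | nil => exact (List.cons.inj hs).1.symm
  | cons c s => simp at hs

theorem H_eq (h : SD H b0 p a b) {i : ℕ} (hi : i < p) : H (a i) = it H (i + 1) b0 := by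
  rw [it_succ, h.w_eq hi, app_singleton]

/-- the letters outside `L` -/
theorem out_iff (h : SD H b0 p a b) {k : ℕ} (hk : k < n) : (∃ i < p, a i = a k) ↔ k < p := by
  constructor
  · rintro ⟨i, hi, hik⟩
    have := h.ia i k (by have := h.pn; omega) hk hik
    omega
  · intro hk'
    exact ⟨k, hk', rfl⟩

theorem out_iff' (h : SD H b0 p a b) {k : ℕ} (hk : k < n) : (∃ i < p, a i = b k) ↔ k < p := by
  constructor
  · rintro ⟨i, hi, hik⟩
    rw [← h.b_eq hi] at hik
    have := h.ib i k (by have := h.pn; omega) hk hik
    omega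
  · intro hk'
    exact ⟨k, hk', (h.b_eq hk').symm⟩

/-- sums over the letters -/
theorem sum_eq {M : Type*} [AddCommMonoid M] (h : SD H b0 p a b) (f : Fin n → M) :
    ∑ c, f c = ∑ k ∈ Finset.range n, f (a k) := by
  symm
  refine Finset.sum_bij (fun k _ => a k) (fun k _ => Finset.mem_univ _) ?_ ?_ fun k _ => rfl
  · intro i hi j hj hij
    exact h.ia i j (Finset.mem_range.1 hi) (Finset.mem_range.1 hj) hij
  · intro c _
    obtain ⟨i, hi, hc⟩ := h.sa c
    exact ⟨i, Finset.mem_range.2 hi, hc⟩

theorem sum_split {M : Type*} [AddCommMonoid M] (h : SD H b0 p a b) (f : Fin n → M) :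
    ∑ c, f c = ∑ k ∈ Finset.range p, f (a k) + ∑ k ∈ Finset.Ico p n, f (a k) := by
  rw [h.sum_eq f, Finset.sum_range_add_sum_Ico _ h.pn.le]

/-- the words of the letters of `L`, at a letter outside `L` -/
theorem sum_L (h : SD H b0 p a b) {l : ℕ} (hl : p ≤ l) (hln : l < n) :
    ∑ k ∈ Finset.range p, (H (a k)).count (a l) = (it H p b0).count (a l) := by
  obtain ⟨q, rfl⟩ : ∃ q, p = q + 1 := ⟨p - 1, by have := h.p0; omega⟩
  rw [Finset.sum_range_succ, h.H_eq (by omega : q < q + 1)]
  rw [Finset.sum_eq_zero, zero_add]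
  intro k hk
  have hk' := Finset.mem_range.1 hk
  rw [h.H_eq (by omega : k < q + 1), h.w_eq (by omega : k + 1 < q + 1)]
  rw [List.count_eq_zero]
  intro hmem
  have h1 := h.ia l (k + 1) hln (by omega) (List.mem_singleton.1 hmem)
  omega

end SD

/-- The number of letters outside `L`. -/
noncomputable def psi (p : ℕ) (a : ℕ → Fin n) (c : Fin n) : ℤ :=
  open Classical in if ∃ i < p, a i = c then 0 else 1

theorem psi_nonneg (p : ℕ) (a : ℕ → Fin n) (c : Fin n) : 0 ≤ psi p a c := by
  unfold psi
  split_ifs <;> decide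

namespace SD

variable {p : ℕ} {a b : ℕ → Fin n}

theorem psi_a (h : SD H b0 p a b) {k : ℕ} (hk : k < n) :
    psi p a (a k) = if k < p then 0 else 1 := by
  unfold psi
  simp only [h.out_iff hk]

theorem psi_b (h : SD H b0 p a b) {k : ℕ} (hk : k < n) :
    psi p a (b k) = if k < p then 0 else 1 := by
  unfold psi
  simp only [h.out_iff' hk]

/-- **Key.** Every letter outside `L` occurs once in the words of the letters outside `L`; then each of these words
has exactly one letter outside `L`. -/
theorem one (h : SD H b0 p a b)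
    (hone : ∀ l, p ≤ l → l < n → ∑ k ∈ Finset.Ico p n, (H (a k)).count (a l) = 1) :
    ∀ k, p ≤ k → k < n → ws (psi p a) (H (a k)) = 1 := by
  have hpn := h.pn
  have hp0 := h.p0
  have hψ := psi_nonneg p a
  -- the total number
  have htot : ∑ k ∈ Finset.Ico p n, ws (psi p a) (H (a k)) = ((n - p : ℕ) : ℤ) := by
    have h1 : ∀ k ∈ Finset.Ico p n, ws (psi p a) (H (a k)) =
        ∑ l ∈ Finset.Ico p n, ((H (a k)).count (a l) : ℤ) := by
      intro k _
      rw [ws_eq_sum, h.sum_split]
      rw [Finset.sum_eq_zero, zero_add]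
      · refine Finset.sum_congr rfl fun l hl => ?_
        have hl' := Finset.mem_Ico.1 hl
        rw [h.psi_a hl'.2, if_neg (by omega), mul_one]
      · intro l hl
        have hl' := Finset.mem_range.1 hl
        rw [h.psi_a (by omega), if_pos hl', mul_zero]
    rw [Finset.sum_congr rfl h1, Finset.sum_comm]
    have h2 : ∀ l ∈ Finset.Ico p n, ∑ k ∈ Finset.Ico p n, ((H (a k)).count (a l) : ℤ) = 1 := by
      intro l hl
      have hl' := Finset.mem_Ico.1 hl
      have := hone l hl'.1 hl'.2
      exact_mod_cast this
    rw [Finset.sum_congr rfl h2]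
    simp
  -- places
  have hplace : ∀ {l k k' : ℕ}, p ≤ l → l < n → p ≤ k → k < n → p ≤ k' → k' < n →
      a l ∈ H (a k) → a l ∈ H (a k') → k = k' := by
    intro l k k' hl hln hk hkn hk' hkn' h1 h2
    by_contra hne
    have h3 := hone l hl hln
    have h4 : ({k, k'} : Finset ℕ) ⊆ Finset.Ico p n := by
      intro j hj
      simp only [Finset.mem_insert, Finset.mem_singleton] at hj
      rcases hj with rfl | rfl
      · exact Finset.mem_Ico.2 ⟨hk, hkn⟩
      · exact Finset.mem_Ico.2 ⟨hk', hkn'⟩
    have h5 := Finset.sum_le_sum_of_subset_of_nonneg (f := fun k => (H (a k)).count (a l)) h4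
      fun j _ _ => Nat.zero_le _
    rw [Finset.sum_pair hne, h3] at h5
    have h6 : 1 ≤ (H (a k)).count (a l) := List.count_pos_iff.2 h1
    have h7 : 1 ≤ (H (a k')).count (a l) := List.count_pos_iff.2 h2
    omega
  have hfirst : ∀ k, a (k + 1) ∈ H (a k) := by
    intro k
    obtain ⟨s, hs⟩ := h.Ha k
    rw [hs]
    simp
  have hge : ∀ k, p ≤ k → k + 1 < n → 1 ≤ ws (psi p a) (H (a k)) := by
    intro k hk hk1
    have h1 := ws_ge hψ (hfirst k)
    rw [h.psi_a hk1, if_neg (by omega)] at h1
    exact h1
  have hlast : 1 ≤ ws (psi p a) (H (a (n - 1))) := by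
    by_contra hlt
    have hz : ws (psi p a) (H (a (n - 1))) = 0 := by
      have := ws_nonneg hψ (H (a (n - 1)))
      omega
    have hz' : ∀ c ∈ H (a (n - 1)), psi p a c = 0 := by
      intro c hc
      have h1 := ws_ge hψ hc
      have h2 := hψ c
      omega
    -- `a (n-1) = b (n-1)`
    have hab : a (n - 1) = b (n - 1) := by
      obtain ⟨l, hl, hbl⟩ := h.sb (a (n - 1))
      obtain ⟨s, hs⟩ := h.Hb l
      rw [hbl] at hs
      have h1 := hz' (b (l + 1)) (by rw [hs]; simp)
      by_cases hl1 : l + 1 < n
      · rw [h.psi_b hl1] at h1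
        have h2 : l + 1 < p := by
          by_contra h3
          rw [if_neg h3] at h1
          omega
        rw [h.b_eq (by omega : l < p)] at hbl
        have h3 := h.ia l (n - 1) hl (by omega) hbl
        omega
      · have h2 : l = n - 1 := by omega
        rw [← h2, hbl, ← h2]
    -- the place of `a p`
    obtain ⟨i, hi, hin, hai⟩ : ∃ i, p ≤ i ∧ i < n ∧ a p ∈ H (a i) := by
      by_contra hcon
      push Not at hcon
      have h1 := hone p le_rfl hpn
      rw [Finset.sum_eq_zero] at h1
      · omega
      · intro k hk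
        have hk' := Finset.mem_Ico.1 hk
        exact List.count_eq_zero.2 (hcon k hk'.1 hk'.2)
    have hi1 : i + 1 < n := by
      by_contra h1
      have h2 : i = n - 1 := by omega
      rw [h2] at hai
      have h3 := hz' _ hai
      rw [h.psi_a hpn, if_neg (by omega)] at h3
      omega
    -- the letters outside `L` in `H (a k)`
    have hin' : ∀ {k l : ℕ}, p ≤ k → k + 1 < n → p ≤ l → l < n → a l ∈ H (a k) →
        l = k + 1 ∨ (l = p ∧ k = i) := by
      intro k l hk hk1 hl hln hmem
      by_cases hlp : l = p
      · right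
        subst hlp
        exact ⟨rfl, hplace le_rfl hpn hk (by omega) hi hin hmem hai⟩
      · left
        obtain ⟨l', rfl⟩ : ∃ l', l = l' + 1 := ⟨l - 1, by omega⟩
        have := hplace hl hln hk (by omega) (by omega : p ≤ l') (by omega) hmem (hfirst l')
        omega
    -- the last letters
    have hstep : ∀ {k l : ℕ}, p ≤ k → k + 1 < n → p ≤ l → l + 1 < n → b l = a k →
        (k ≠ i → b (l + 1) = a (k + 1)) ∧ (k = i → b (l + 1) = a p) := by
      intro k l hk hk1 hl hl1 hbl
      obtain ⟨t, ht⟩ := h.Hb l
      rw [hbl] at ht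
      obtain ⟨j, hj, hjb⟩ := h.sa (b (l + 1))
      have hjp : p ≤ j := by
        by_contra hjp
        have h1 : ∃ i < p, a i = b (l + 1) := ⟨j, by omega, hjb⟩
        have := (h.out_iff' hl1).1 h1
        omega
      have hmem : a j ∈ H (a k) := by
        rw [hjb, ht]
        simp
      have h1 := hin' hk hk1 hjp hj hmem
      refine ⟨fun hki => ?_, fun hki => ?_⟩
      · rcases h1 with h1 | ⟨-, h1⟩
        · rw [← hjb, h1]
        · exact absurd h1 hki
      · rcases h1 with h1 | ⟨h1, -⟩
        · exfalso
          subst h1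
          obtain ⟨s, hs⟩ := h.Ha k
          rw [← hjb] at ht
          have h2 : H (a k) = [a (k + 1)] := by
            by_contra h3
            have h4 := two_le_count hs ht h3
            have h5 := hone (k + 1) (by omega) hk1
            have h6 := Finset.single_le_sum (f := fun k' => (H (a k')).count (a (k + 1)))
              (fun _ _ => Nat.zero_le _) (Finset.mem_Ico.2 ⟨hk, (by omega : k < n)⟩)
            rw [h5] at h6
            have h7 : (H (a k)).count (a (k + 1)) ≤ 1 := h6
            omega
          rw [← hki, h2] at hai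
          have h3 := h.ia p (k + 1) hpn hk1 (List.mem_singleton.1 hai)
          omega
        · rw [← hjb, h1]
    -- the first letter `b p`
    have hbp : b p = a (i + 1) := by
      obtain ⟨l', hl', hbl'⟩ := h.sb (a (i + 1))
      have hl'p : p ≤ l' := by
        by_contra h1
        have h2 : ∃ j < p, a j = a (i + 1) := ⟨l', by omega, by
          rw [← hbl']
          exact (h.b_eq (by omega)).symm⟩
        have := (h.out_iff hi1).1 h2
        omega
      by_cases hlp : l' = p
      · rw [← hlp, hbl']
      · exfalso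
        obtain ⟨l, rfl⟩ : ∃ l, l' = l + 1 := ⟨l' - 1, by omega⟩
        obtain ⟨k, hk, hak⟩ := h.sa (b l)
        have hkp : p ≤ k := by
          by_contra h1
          have h2 : ∃ j < p, a j = b l := ⟨k, by omega, hak⟩
          have := (h.out_iff' (by omega)).1 h2
          omega
        have hk1 : k + 1 < n := by
          by_contra h1
          have h2 : k = n - 1 := by omega
          rw [h2, hab] at hak
          have := h.ib (n - 1) l (by omega) (by omega) hak
          omega
        have h1 := hstep hkp hk1 (by omega : p ≤ l) hl' hak.symm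
        by_cases hki : k = i
        · have h2 := h1.2 hki
          rw [hbl'] at h2
          have := h.ia (i + 1) p hi1 hpn h2
          omega
        · have h2 := h1.1 hki
          rw [hbl'] at h2
          have := h.ia (i + 1) (k + 1) hi1 hk1 h2
          omega
    -- the walk
    have hwalk : ∀ t, i + 1 + t < n → b (p + t) = a (i + 1 + t) := by
      intro t
      induction t with
      | zero => intro _; exact hbp
      | succ t ih =>
        intro ht
        have h1 := ih (by omega)
        have h2 := (hstep (by omega : p ≤ i + 1 + t) (by omega) (by omega : p ≤ p + t) (by omega)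
          h1).1 (by omega)
        have e1 : p + (t + 1) = p + t + 1 := by omega
        have e2 : i + 1 + (t + 1) = i + 1 + t + 1 := by omega
        rw [e1, e2]
        exact h2
    have h1 := hwalk (n - 2 - i) (by omega)
    have e1 : i + 1 + (n - 2 - i) = n - 1 := by omega
    rw [e1, hab] at h1
    have := h.ib _ _ (by omega) (by omega) h1
    omega
  intro k hk hkn
  have hall : ∀ j ∈ Finset.Ico p n, (1 : ℤ) ≤ ws (psi p a) (H (a j)) := by
    intro j hj
    have hj' := Finset.mem_Ico.1 hj
    by_cases h1 : j + 1 < n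
    · exact hge j hj'.1 h1
    · have h2 : j = n - 1 := by omega
      rw [h2]
      exact hlast
  have hsum : ∑ j ∈ Finset.Ico p n, (1 : ℤ) = ∑ j ∈ Finset.Ico p n, ws (psi p a) (H (a j)) := by
    rw [htot]
    simp
  exact ((Finset.sum_eq_sum_iff_of_le hall).1 hsum k (Finset.mem_Ico.2 ⟨hk, hkn⟩)).symm

end SD

end D0L.Bim.N1

namespace D0L.Bim

open N1

variable {n N : ℕ} {H : Fin n → List (Fin n)} {b0 : List (Fin n)}

/-- **`T` cannot be a product of `w_0, .., w_p` with exactly one token `w_p`.** -/
theorem no_one (hnf : NF H b0 N) (hb : Bimk H) {p : ℕ} (hp0 : 0 < p) (hp : p < n)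
    (hlet : ∀ i < p, (it H i b0).length = 1) (hnl : (it H p b0).length ≠ 1)
    {T : List (Fin n)} {js : List ℕ} (hT : T = (js.map fun j => it H j b0).flatten)
    (hjs : ∀ j ∈ js, j ≤ p) (hN : js.count p = 1)
    (hE : ∀ c, T.count c + 1 = b0.count c + ∑ d, (H d).count c) : False := by
  obtain ⟨a, wa, Ha, pa, ia, sa⟩ := exists_fi hnf hb.1
  obtain ⟨b, wb, Hb, pb, ib, sb⟩ := exists_la hnf hb.2
  have h : SD H b0 p a b :=
    ⟨hp0, hp, wa, wb, Ha, Hb, pa, pb, ia, ib, sa, sb, hlet, hnl⟩
  have hw0 : b0 = [a 0] := h.w_eq (i := 0) hp0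
  -- each letter outside `L` occurs once
  have hone : ∀ l, p ≤ l → l < n → ∑ k ∈ Finset.Ico p n, (H (a k)).count (a l) = 1 := by
    intro l hl hln
    have h1 := hE (a l)
    rw [h.sum_split, h.sum_L hl hln, hT, count_tokens (fun j => it H j b0) (a l) (m := p + 1)
      (fun j hj => Nat.lt_succ_of_le (hjs j hj)), Finset.sum_range_succ, hN, one_mul] at h1
    rw [Finset.sum_eq_zero] at h1
    · have h2 : b0.count (a l) = 0 := by
        rw [hw0, List.count_eq_zero]
        intro hmem
        have := ia l 0 hln (by omega) (List.mem_singleton.1 hmem)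
        omega
      omega
    · intro i hi
      have hi' := Finset.mem_range.1 hi
      rw [h.w_eq hi']
      have h2 : ([a i] : List (Fin n)).count (a l) = 0 := by
        rw [List.count_eq_zero]
        intro hmem
        have := ia l i hln (by omega) (List.mem_singleton.1 hmem)
        omega
      rw [h2, mul_zero]
  have hψ := psi_nonneg p a
  have hK1 := h.one hone
  -- the number of letters outside `L` of `w_p`
  obtain ⟨K, hK⟩ : ∃ K : ℤ, K = ws (psi p a) (it H p b0) := ⟨_, rfl⟩
  have hK2 : 2 ≤ K := by
    obtain ⟨s, hs⟩ := wa p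
    obtain ⟨t, ht⟩ := wb p
    have h1 : t ≠ [] := by
      rintro rfl
      rw [ht] at hnl
      simp at hnl
    obtain ⟨c, t', rfl⟩ := List.exists_cons_of_ne_nil h1
    rw [hs, List.cons_append] at ht
    obtain ⟨rfl, ht⟩ := List.cons.inj ht
    rw [hK, hs, ht, ws_cons, ws_append, ws_singleton, h.psi_a hp, h.psi_b hp, if_neg (by omega)]
    have := ws_nonneg hψ t'
    omega
  have hmod : ∀ d : Fin n, K ∣ ws (psi p a) (H d) - psi p a d := by
    intro d
    obtain ⟨k, hk, rfl⟩ := sa d
    by_cases hkp : k < p
    · rw [h.psi_a hk, if_pos hkp, h.H_eq hkp, sub_zero]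
      by_cases hk1 : k + 1 < p
      · rw [h.w_eq hk1, ws_singleton, h.psi_a (by omega), if_pos hk1]
        exact dvd_zero K
      · have e1 : k + 1 = p := by omega
        rw [e1, ← hK]
    · rw [h.psi_a hk, if_neg hkp, hK1 k (by omega) hk, sub_self]
      exact dvd_zero K
  have hmodw : ∀ u : List (Fin n), K ∣ ws (psi p a) (app H u) - ws (psi p a) u := by
    intro u
    induction u with
    | nil =>
      rw [app_nil, sub_self]
      exact dvd_zero K
    | cons d u ih =>
      rw [app_cons, ws_append, ws_cons]
      have h1 := dvd_add (hmod d) ih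
      have e1 : ws (psi p a) (H d) + ws (psi p a) (app H u) - (psi p a d + ws (psi p a) u) =
          ws (psi p a) (H d) - psi p a d + (ws (psi p a) (app H u) - ws (psi p a) u) := by ring
      rw [e1]
      exact h1
  have hw : ∀ i, K ∣ ws (psi p a) (it H i b0) := by
    intro i
    induction i with
    | zero =>
      rw [it_zero, hw0, ws_singleton, h.psi_a (by omega), if_pos hp0]
      exact dvd_zero K
    | succ i ih =>
      rw [it_succ]
      have h1 := dvd_add (hmodw (it H i b0)) ih
      rwa [sub_add_cancel] at h1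
  -- the words are a basis
  obtain ⟨M, hM⟩ : ∃ M : Matrix (Fin n) (Fin n) ℤ,
      M = Matrix.of fun (i c : Fin n) => ((it H i b0).count c : ℤ) := ⟨_, rfl⟩
  have hunit : IsUnit M.det := by rw [hM]; exact hnf.unit
  have hinv : M⁻¹ * M = 1 := Matrix.nonsing_inv_mul M hunit
  have hpsi : M.mulVec (psi p a) = fun i : Fin n => ws (psi p a) (it H i b0) := by
    funext i
    rw [ws_eq_sum, hM]
    rfl
  have h1 : psi p a = M⁻¹.mulVec fun i : Fin n => ws (psi p a) (it H i b0) := by
    rw [← hpsi, Matrix.mulVec_mulVec, hinv, Matrix.one_mulVec]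
  have h2 : psi p a (a p) = 1 := by rw [h.psi_a hp, if_neg (by omega)]
  have h3 : psi p a (a p) = ∑ i : Fin n, M⁻¹ (a p) i * ws (psi p a) (it H i b0) :=
    congrFun h1 (a p)
  have h3 : K ∣ 1 := by
    rw [← h2, h3]
    refine Finset.dvd_sum fun i _ => ?_
    exact Dvd.dvd.mul_left (hw i) _
  have h4 := Int.le_of_dvd (by norm_num) h3
  omega

end D0L.Bim
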