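import Pool.Agent.H.MP_374efc_lc.Bim.MixII
import Pool.Agent.H.MP_374efc_lc.Bim.MixN1
import Pool.Agent.H.MP_374efc_lc.Bim.MalA

/-!
# MP_374efc_lc: `NoMix` for every bimarked normal form

`noMix`: `NoMix` from acyclicity (exactness `(E)`). `noMix_mal`: `NoMix` for malnormal `H`.
-/

set_option autoImplicit false

namespace D0L.Bim

open Tr

variable {n N : ℕ} {H : Fin n → List (Fin n)} {b0 : List (Fin n)}

/-- The case of exactly one token `w_p` is impossible. -/
def NoOne (H : Fin n → List (Fin n)) (b0 : List (Fin n)) : Prop :=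
  ∀ (p : ℕ) (T : List (Fin n)) (js : List ℕ), 0 < p → p < n →
    (∀ i < p, (it H i b0).length = 1) → (it H p b0).length ≠ 1 →
    T = (js.map fun j => it H j b0).flatten → (∀ j ∈ js, j ≤ p) → js.count p = 1 →
    (∀ c, T.count c + 1 = b0.count c + ∑ d, (H d).count c) → False

theorem noMix_of (hnf : NF H b0 N) (hb : Bmk H) (hnl : ¬ ∀ i < n, (it H i b0).length = 1)
    (hone : NoOne H b0) (hac : XH H b0 n → (KK (rQ H b0 n) (rH H)).IsAcyclic) : NoMix H b0 := by
  classical
  intro x T js J y0 hx hJ hy
  have hn := pos_n hnf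
  have hne : ∀ c, H c ≠ [] := fun c => ne_of_inj hnf.inj c
  have hE : ∀ c, T.count c + 1 = b0.count c + ∑ d, (H d).count c :=
    exact_E hnf hb hn le_rfl hx (hac hx.xh) hx.xh
  have hy1 : (fun i => it H (J - i) y0) 1 = x := by
    apply hnf.inj
    change app H (it H (J - 1) y0) = app H x
    rw [hx.app_x, ← it_succ, ← hy]
    congr 1
    omega
  have hys : ∀ i, 1 ≤ i → i < J →
      app H ((fun i => it H (J - i) y0) (i + 1)) = (fun i => it H (J - i) y0) i := by
    intro i h1 h2
    change app H (it H (J - (i + 1)) y0) = it H (J - i) y0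
    rw [← it_succ]
    congr 1
    omega
  obtain ⟨ks, hks⟩ := hx.js_form hnf hb
  have hhead : js.head? = some 0 := hx.head
  have hlast : js.getLast? = some 0 := hx.js_last hnf
  have htwo : 0 ∈ js.tail := by
    rw [hks, List.tail_cons]
    simp
  obtain ⟨a, b, h⟩ := exists_md (y := fun i => it H (J - i) y0) (J := J) hnf (hb.bimk hnf) hnl
    hx.app_x hx.tok hhead hlast hE hy1 hys
  have hex : ∃ i, i < n ∧ (it H i b0).length ≠ 1 := by
    by_contra hcon
    push Not at hcon
    exact hnl hcon
  obtain ⟨p, ⟨hpn, hpl⟩, hmin⟩ : ∃ p, (p < n ∧ (it H p b0).length ≠ 1) ∧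
      ∀ i < p, (it H i b0).length = 1 := by
    refine ⟨Nat.find hex, Nat.find_spec hex, fun i hi => ?_⟩
    by_contra h1
    exact Nat.find_min hex hi ⟨lt_trans hi (Nat.find_spec hex).1, h1⟩
  have hp2 : 2 ≤ (it H p b0).length := by
    have := List.length_pos_of_ne_nil (h.it_ne p)
    omega
  have hq : ∀ i, p ≤ i → i < n → ∀ c, it H i b0 ≠ [c] := fun i hi _ =>
    not_letter_mono hne hp2 hi
  have hJp : J + p < n := by
    by_contra hcon
    rcases Nat.eq_zero_or_pos p with rfl | hp
    · have h1 := (h.no_mix_zero hx.tok hx.lt hhead htwo fun i hi => hq i (Nat.zero_le i) hi).1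
      omega
    · have h1 := h.tok_lt hx.tok hx.lt hhead hq (j := n - p - 1) (by omega) (by omega)
      have hle : ∀ j ∈ js, j ≤ p := by
        intro j hj
        have := h1 j hj
        omega
      have hlet : ∀ i < p, it H i b0 = [a i] := by
        intro i hi
        obtain ⟨s, hs⟩ := h.wa i
        have h2 := hmin i hi
        rw [hs, List.length_cons] at h2
        have h3 : s = [] := List.length_eq_zero_iff.1 (by omega)
        rw [hs, h3]
      have h2 : M2 H b0 x T a b (fun i => it H (J - i) y0) J p js :=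
        { toMD := h
          p1 := hp
          pn := hpn
          lett := hlet
          nl := hq p le_rfl hpn
          tok := hx.tok
          le := hle
          head := hhead
          two := htwo }
      rcases Nat.lt_or_ge (js.count p) 2 with h3 | h3
      · rcases Nat.eq_zero_or_pos (js.count p) with h4 | h4
        · exact h2.case_zero h4
        · exact hone p T js hp hpn hmin hpl hx.tok hle (by omega) hE
      · exact h2.case_two (by omega) h3
  refine ⟨by omega, ?_, ?_⟩
  · intro j hj
    have := h.tok_lt hx.tok hx.lt hhead hq (j := J) le_rfl hJp j hj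
    omega
  · intro h1
    have h2 := length_it_mono hne b0 (show p ≤ n - 1 - J by omega)
    omega

theorem noOne (hnf : NF H b0 N) (hb : Bimk H) : NoOne H b0 :=
  fun _ _ _ hp0 hp hlet hnl hT hjs hN hE => no_one hnf hb hp0 hp hlet hnl hT hjs hN hE

/-- **No mixing.** -/
theorem noMix (hnf : NF H b0 N) (hb : Bmk H) (hnl : ¬ Lett H b0)
    (hac : XH H b0 n → (KK (rQ H b0 n) (rH H)).IsAcyclic) : NoMix H b0 :=
  noMix_of hnf hb hnl (noOne hnf (hb.bimk hnf)) hac

/-- **No mixing for malnormal `H`.** -/
theorem noMix_mal (hnf : NF H b0 N) (hb : Bmk H) (hnl : ¬ Lett H b0) (hM : Mal (rH H)) :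
    NoMix H b0 :=
  noMix hnf hb hnl fun hX => kk_acyclic (pr_rose hnf hb (pos_n hnf) le_rfl hX) hM

end D0L.Bim
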