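import Pool.Agent.H.MP_374efc_lc.Asm.Gap

/-!
# MP_374efc_lc: normal forms, the group side

`gw x` is the element of the free group given by the word `x`, `gh H` the endomorphism with
`gh H (gw x) = gw (app H x)`, `ww H b0 i = gw (it H i b0)`. For a normal form: the words of the system generate the
free group, `w_0` and the image of `gh H` generate it, the incidence matrix of `H` is nonsingular, and the counts of the
first `n` words are a basis of `ℤ ^ n`.
-/

set_option autoImplicit false

namespace D0L.Bim

variable {n N : ℕ} {H : Fin n → List (Fin n)} {b0 : List (Fin n)}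

/-- The element of the free group given by a word. -/
def gw {α : Type} (x : List α) : FreeGroup α := (x.map FreeGroup.of).prod

@[simp] theorem gw_nil {α : Type} : gw ([] : List α) = 1 := rfl

@[simp] theorem gw_append {α : Type} (x y : List α) : gw (x ++ y) = gw x * gw y := by
  simp [gw]

@[simp] theorem gw_cons {α : Type} (a : α) (x : List α) :
    gw (a :: x) = FreeGroup.of a * gw x := by
  simp [gw]

theorem gw_singleton {α : Type} (a : α) : gw [a] = FreeGroup.of a := by
  simp [gw]

theorem gw_flatten {α : Type} (L : List (List α)) : gw L.flatten = (L.map gw).prod := by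
  induction L with
  | nil => rfl
  | cons x L ih => rw [List.flatten_cons, gw_append, ih, List.map_cons, List.prod_cons]

theorem gw_eq_mk {α : Type} (x : List α) : gw x = FreeGroup.mk (x.map fun a => (a, true)) := by
  induction x with
  | nil => rfl
  | cons a x ih =>
    rw [gw_cons, ih, FreeGroup.of, FreeGroup.mul_mk]
    rfl

/-- Different words give different elements. -/
theorem gw_inj {α : Type} [DecidableEq α] : Function.Injective (gw (α := α)) := by
  have key : ∀ x : List α, FreeGroup.reduce (x.map fun a => (a, true)) =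
      x.map fun a => (a, true) := by
    intro x
    induction x with
    | nil => rfl
    | cons a x ih =>
      rw [List.map_cons, FreeGroup.reduce.cons, ih]
      cases x with
      | nil => rfl
      | cons b x => simp
  intro x y hxy
  rw [gw_eq_mk, gw_eq_mk] at hxy
  have h1 := congrArg FreeGroup.toWord hxy
  rw [FreeGroup.toWord_mk, FreeGroup.toWord_mk, key, key] at h1
  exact List.map_injective_iff.2 (fun a b hab => (Prod.mk.inj hab).1) h1

/-- The endomorphism of the free group. -/
def gh {α β : Type} (h : α → List β) : FreeGroup α →* FreeGroup β := FreeGroup.lift fun a => gw (h a)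

theorem gh_gw {α β : Type} (h : α → List β) (x : List α) : gh h (gw x) = gw (app h x) := by
  induction x with
  | nil => rfl
  | cons a x ih =>
    rw [gw_cons, map_mul, ih, app_cons, gw_append, gh, FreeGroup.lift_apply_of]

theorem gh_it {α : Type} (h : α → List α) (k : ℕ) (x : List α) :
    (gh h)^[k] (gw x) = gw (it h k x) := by
  induction k with
  | zero => rfl
  | succ k ih => rw [Function.iterate_succ_apply', ih, gh_gw, it_succ]

/-- The words of the system in the group. -/
def ww (H : Fin n → List (Fin n)) (b0 : List (Fin n)) (i : ℕ) : FreeGroup (Fin n) := gw (it H i b0)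

theorem gh_ww (H : Fin n → List (Fin n)) (b0 : List (Fin n)) (i : ℕ) :
    gh H (ww H b0 i) = ww H b0 (i + 1) := by
  rw [ww, gh_gw, ← it_succ]
  rfl

/-- A hom to a group which has only nonnegative values on the letters, in additive form. -/
theorem eta_gw {α : Type} (η : FreeGroup α →* Multiplicative ℤ) (x : List α) :
    Multiplicative.toAdd (η (gw x)) = (x.map fun a => Multiplicative.toAdd (η (FreeGroup.of a))).sum := by
  induction x with
  | nil => simp
  | cons a x ih => rw [gw_cons, map_mul, toAdd_mul, ih, List.map_cons, List.sum_cons]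

/-- The count vector. -/
def cnt (x : List (Fin n)) : Fin n → ℤ := fun a => (x.count a : ℤ)

theorem cnt_nil : cnt ([] : List (Fin n)) = 0 := by
  funext a
  simp [cnt]

theorem cnt_append (x y : List (Fin n)) : cnt (x ++ y) = cnt x + cnt y := by
  funext a
  simp [cnt]

/-- The incidence matrix: `inc H a c` is the number of `a` in `H c`. -/
def inc (H : Fin n → List (Fin n)) : Matrix (Fin n) (Fin n) ℤ :=
  Matrix.of fun a c => ((H c).count a : ℤ)

theorem cnt_app (H : Fin n → List (Fin n)) (x : List (Fin n)) :
    cnt (app H x) = (inc H).mulVec (cnt x) := by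
  induction x with
  | nil =>
    rw [app_nil, cnt_nil, Matrix.mulVec_zero]
  | cons c x ih =>
    have h1 : cnt (c :: x) = Pi.single c 1 + cnt x := by
      funext a
      rw [Pi.add_apply, cnt, cnt, List.count_cons, Pi.single_apply]
      by_cases hac : a = c
      · subst hac
        simp [add_comm]
      · have : ¬ c = a := fun h => hac h.symm
        simp [hac, this]
    rw [app_cons, cnt_append, ih, h1, Matrix.mulVec_add, Matrix.mulVec_single_one]
    rfl

theorem cnt_it (H : Fin n → List (Fin n)) (k : ℕ) (x : List (Fin n)) :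
    cnt (it H k x) = ((inc H) ^ k).mulVec (cnt x) := by
  induction k with
  | zero => simp [it_zero]
  | succ k ih => rw [it_succ, cnt_app, ih, Matrix.mulVec_mulVec, ← pow_succ']

/-! ### normal forms -/

theorem pos_n (hnf : NF H b0 N) : 0 < n := by
  obtain ⟨a, s, hs⟩ := List.exists_cons_of_ne_nil hnf.ne
  exact Fin.pos a

/-- A subgroup which contains the words `w_i`, `i < N`, is everything. -/
theorem top_of_words (hnf : NF H b0 N) {G : Subgroup (FreeGroup (Fin n))}
    (hG : ∀ i < N, ww H b0 i ∈ G) : G = ⊤ := by
  have hall := hnf.hull (fun x => gw x ∈ G) (by simp [G.one_mem])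
    (fun x y hx hy => by
      rw [gw_append]
      exact G.mul_mem hx hy)
    (fun x y z hx hy hxz hzy => by
      rw [gw_append] at hxz
      exact (G.mul_mem_cancel_left hx).1 hxz)
    hG
  rw [Subgroup.eq_top_iff']
  intro g
  induction g using FreeGroup.induction_on with
  | C1 => exact G.one_mem
  | of a =>
    have := hall [a]
    rwa [gw_singleton] at this
  | inv_of a h => exact G.inv_mem h
  | mul x y hx hy => exact G.mul_mem hx hy

/-- The words `w_i`, `i < N`, generate the free group. -/
theorem closure_words (hnf : NF H b0 N) :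
    Subgroup.closure {g | ∃ i < N, g = ww H b0 i} = ⊤ :=
  top_of_words hnf fun i hi => Subgroup.subset_closure ⟨i, hi, rfl⟩

theorem ww_succ_mem (i : ℕ) : ww H b0 (i + 1) ∈ (gh H).range := ⟨ww H b0 i, gh_ww H b0 i⟩

/-- `w_0` and the image of `H` generate the free group. -/
theorem top_of_w0_range (hnf : NF H b0 N) {G : Subgroup (FreeGroup (Fin n))}
    (h0 : ww H b0 0 ∈ G) (h1 : (gh H).range ≤ G) : G = ⊤ := by
  apply top_of_words hnf
  intro i _
  cases i with
  | zero => exact h0
  | succ i => exact h1 (ww_succ_mem i)

/-- `w_0` and the image words `H c` generate the free group. -/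
theorem top_of_w0_letters (hnf : NF H b0 N) {G : Subgroup (FreeGroup (Fin n))}
    (h0 : ww H b0 0 ∈ G) (h1 : ∀ c, gw (H c) ∈ G) : G = ⊤ := by
  apply top_of_w0_range hnf h0
  rintro _ ⟨g, rfl⟩
  induction g using FreeGroup.induction_on with
  | C1 => rw [map_one]; exact G.one_mem
  | of a =>
    rw [gh, FreeGroup.lift_apply_of]
    exact h1 a
  | inv_of a h => rw [map_inv]; exact G.inv_mem h
  | mul x y hx hy => rw [map_mul]; exact G.mul_mem hx hy

/-- Left-unitary submonoids which contain `w_0` and the words `H c` are everything (the form of the hull used in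
Tr/Fib.lean). -/
theorem hull_left (hnf : NF H b0 N) {G : List (Fin n) → Prop} (h0 : G [])
    (hm : ∀ x y, G x → G y → G (x ++ y)) (hu : ∀ x y, G x → G (x ++ y) → G y)
    (hw : G b0) (hH : ∀ c, G (H c)) : ∀ x, G x := by
  have happ : ∀ x, G (app H x) := by
    intro x
    induction x with
    | nil => exact h0
    | cons c x ih => exact hm _ _ (hH c) ih
  refine hnf.hull G h0 hm (fun x y z hx _ hxz _ => hu x z hx hxz) ?_
  intro i _
  cases i with
  | zero => exact hw
  | succ i =>
    rw [it_succ]
    exact happ _

/-- The first letters of `w_0, .., w_(n-1)` are all letters. -/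
theorem exists_first (hnf : NF H b0 N) (a : Fin n) : ∃ i : Fin n, ∃ s, it H i b0 = a :: s := by
  obtain ⟨f, hf, hf'⟩ := hnf.first
  obtain ⟨i, rfl⟩ := hf.2 a
  exact ⟨i, hf' i⟩

theorem exists_last (hnf : NF H b0 N) (a : Fin n) : ∃ i : Fin n, ∃ s, it H i b0 = s ++ [a] := by
  obtain ⟨f, hf, hf'⟩ := hnf.last
  obtain ⟨i, rfl⟩ := hf.2 a
  exact ⟨i, hf' i⟩

theorem first_unique (hnf : NF H b0 N) {i j : Fin n} {a : Fin n} {s t : List (Fin n)}
    (h1 : it H i b0 = a :: s) (h2 : it H j b0 = a :: t) : i = j := by
  obtain ⟨f, hf, hf'⟩ := hnf.first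
  obtain ⟨s', hs⟩ := hf' i
  obtain ⟨t', ht⟩ := hf' j
  rw [h1] at hs
  rw [h2] at ht
  exact hf.1 ((List.cons.inj hs).1.symm.trans (List.cons.inj ht).1)

theorem last_unique (hnf : NF H b0 N) {i j : Fin n} {a : Fin n} {s t : List (Fin n)}
    (h1 : it H i b0 = s ++ [a]) (h2 : it H j b0 = t ++ [a]) : i = j := by
  obtain ⟨f, hf, hf'⟩ := hnf.last
  obtain ⟨s', hs⟩ := hf' i
  obtain ⟨t', ht⟩ := hf' j
  rw [h1] at hs
  rw [h2] at ht
  have h3 := (List.append_inj' hs rfl).2
  have h4 := (List.append_inj' ht rfl).2
  simp only [List.cons.injEq, and_true] at h3 h4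
  exact hf.1 (h3.symm.trans h4)

/-- The counts of the first `n` words, as a matrix with unit determinant (row `i` is the vector of `w_i`). -/
theorem det_words (hnf : NF H b0 N) :
    IsUnit (Matrix.of fun (i : Fin n) => cnt (it H i b0)).det := hnf.unit

/-- The incidence matrix is nonsingular. -/
theorem det_inc (hnf : NF H b0 N) : (inc H).det ≠ 0 := by
  have h1 := det_of_unit hnf.inj hnf.rel hnf.least hnf.unit
  intro h2
  apply h1
  have h3 : (Matrix.of fun (j i : Fin n) => ((H i).count j : ℚ)) =
      (inc H).map (Int.castRingHom ℚ) := by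
    ext j i
    simp [inc]
  rw [h3, ← RingHom.mapMatrix_apply, ← RingHom.map_det, h2]
  simp

/-- The relation of the least level uses `w_0`. -/
theorem rel_zero (hnf : NF H b0 N) : ∃ js : List ℕ, 0 ∈ js ∧ (∀ j ∈ js, j < N) ∧
    it H N b0 = (js.map fun j => it H j b0).flatten := by
  obtain ⟨js, h1, h2, h3⟩ := hnf.rel
  exact ⟨js, zero_mem_least hnf.inj hnf.least h1 h2 h3, h2, h3⟩

/-- All words of the system are products of `w_0, .., w_(N-1)`. -/
theorem word_prod (hnf : NF H b0 N) (k : ℕ) : ∃ js : List ℕ, (∀ j ∈ js, j < N) ∧
    it H k b0 = (js.map fun j => it H j b0).flatten := by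
  induction k using Nat.strong_induction_on with
  | _ k ih =>
    by_cases hk : k < N
    · exact ⟨[k], by simpa using hk, by simp⟩
    · obtain ⟨js, h0, h2, h3⟩ := rel_zero hnf
      obtain ⟨d, rfl⟩ : ∃ d, k = d + N := ⟨k - N, by omega⟩
      have h4 : it H (d + N) b0 = (js.map fun j => it H (d + j) b0).flatten := by
        rw [it_add, h3, it_flatten, List.map_map]
        congr 1
        apply List.map_congr_left
        intro j _
        simp only [Function.comp]
        rw [← it_add]
      have h5 : ∀ j ∈ js, ∃ ks : List ℕ, (∀ i ∈ ks, i < N) ∧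
          it H (d + j) b0 = (ks.map fun i => it H i b0).flatten := fun j hj =>
        ih (d + j) (by have := h2 j hj; omega)
      choose! g hg1 hg2 using h5
      refine ⟨(js.map g).flatten, ?_, ?_⟩
      · intro i hi
        rw [List.mem_flatten] at hi
        obtain ⟨L, hL, hiL⟩ := hi
        rw [List.mem_map] at hL
        obtain ⟨j, hj, rfl⟩ := hL
        exact hg1 j hj i hiL
      · rw [h4, List.map_flatten, List.flatten_flatten, List.map_map, List.map_map]
        congr 1
        apply List.map_congr_left
        intro j hj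
        simp only [Function.comp]
        exact hg2 j hj

end D0L.Bim
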