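import Pool.Agent.H.MP_374efc_lc.Bim.Roses
import Pool.Agent.H.MP_374efc_lc.Asm.Top

/-!
# BIMFULL section 5, part 1: reading in the rose of `w_0, …, w_(n-1)`, pigeonhole (5.2)

`parse_W`: a word which is read in the rose `W` of `w_0, …, w_(n-1)` is a product of petals and a prefix
of a petal.  `back_eq`: going back from a pair of states.  `pig`: (5.2).
-/

set_option autoImplicit false

namespace D0L.Tr

variable {α : Type*} [DecidableEq α]

/-- A state of a rose is at a place of a petal which it determines. -/
theorem pred_petal {R : Rose α} {r s : List α} {c : α} (hr : IsSt R r)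
    (h : step R r c = some s) : ∃ a l p, R a = some l ∧ a :: l = p ++ c :: s := by
  cases r with
  | nil => exact ⟨c, s, [], h, rfl⟩
  | cons b r =>
    obtain ⟨rfl, rfl⟩ := step_unique h
    rcases hr with hr | ⟨a, l, h1, p, h2⟩
    · cases hr
    · exact ⟨a, l, a :: p, h1, by rw [← h2]; rfl⟩

/-- A state which is not the base has one in-letter. -/
theorem inlet_unique {R : Rose α} (hR : Bim R) {r r' s : List α} {c c' : α} (hr : IsSt R r)
    (hr' : IsSt R r') (hs : s ≠ []) (h : step R r c = some s) (h' : step R r' c' = some s) :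
    c = c' := by
  obtain ⟨a, l, p, h1, h2⟩ := pred_petal hr h
  obtain ⟨a', l', p', h3, h4⟩ := pred_petal hr' h'
  have h5 : ∀ (q : List α) (e : α), (q ++ e :: s).getLast? = s.getLast? := by
    intro q e
    obtain ⟨b, t, rfl⟩ := List.exists_cons_of_ne_nil hs
    rw [List.getLast?_append, List.getLast?_cons_cons]
    cases h6 : (b :: t).getLast? with
    | none => simp at h6
    | some x => rfl
  have h6 : a = a' := by
    refine hR a a' l l' h1 h3 ?_
    rw [h2, h4, h5, h5]
  subst h6
  rw [h1] at h3
  rw [Option.some.inj h3, h4] at h2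
  have h7 := (List.append_inj' h2 (by simp)).2
  exact (List.cons.inj h7).1.symm

/-- Going back from a pair of states: two words which lead to the same pair of states and meet the
pair of the bases only at their begin are equal. -/
theorem back_eq {Q H : Rose α} (hQ : Bim Q) (hH : Bim H) : ∀ (x x' s σ : List α),
    run Q [] x = some s → run Q [] x' = some s → run H [] x = some σ → run H [] x' = some σ →
    (s ≠ [] ∨ σ ≠ []) →
    (∀ y, y ≠ [] → y <+: x → y ≠ x → run Q [] y = some [] → run H [] y ≠ some []) →
    (∀ y, y ≠ [] → y <+: x' → y ≠ x' → run Q [] y = some [] → run H [] y ≠ some []) → x = x' := by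
  intro x
  induction x using List.reverseRecOn with
  | nil =>
    intro x' s σ h1 _ h3 _ h5
    rw [run_nil] at h1 h3
    rcases h5 with h5 | h5
    · exact absurd (Option.some.inj h1).symm h5
    · exact absurd (Option.some.inj h3).symm h5
  | append_singleton y c ih =>
    intro x' s σ h1 h2 h3 h4 h5 h6 h7
    rcases List.eq_nil_or_concat x' with hx' | ⟨y', c', hx'⟩
    · exfalso
      rw [hx', run_nil] at h2 h4
      rcases h5 with h5 | h5
      · exact absurd (Option.some.inj h2).symm h5
      · exact absurd (Option.some.inj h4).symm h5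
    · rw [List.concat_eq_append] at hx'
      subst hx'
      rw [run_append, Option.bind_eq_some_iff] at h1 h2 h3 h4
      obtain ⟨q, h1, g1⟩ := h1
      obtain ⟨q', h2, g2⟩ := h2
      obtain ⟨τ, h3, g3⟩ := h3
      obtain ⟨τ', h4, g4⟩ := h4
      have hstep : ∀ {R : Rose α} {r t : List α} {e : α}, run R r [e] = some t →
          step R r e = some t := by
        intro R r t e h
        rw [run_cons, Option.bind_eq_some_iff] at h
        obtain ⟨t', h8, h9⟩ := h
        rw [run_nil] at h9
        rw [h8, h9]
      have g1 := hstep g1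
      have g2 := hstep g2
      have g3 := hstep g3
      have g4 := hstep g4
      have k1 := run_isSt (isSt_nil Q) h1
      have k2 := run_isSt (isSt_nil Q) h2
      have k3 := run_isSt (isSt_nil H) h3
      have k4 := run_isSt (isSt_nil H) h4
      have hc : c = c' := by
        rcases h5 with h5 | h5
        · exact inlet_unique hQ k1 k2 h5 g1 g2
        · exact inlet_unique hH k3 k4 h5 g3 g4
      subst hc
      have e1 := step_inj hQ k1 k2 g1 g2
      have e2 := step_inj hH k3 k4 g3 g4
      subst e1
      subst e2
      by_cases h8 : q ≠ [] ∨ τ ≠ []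
      · rw [ih y' q τ h1 h2 h3 h4 h8 ?_ ?_]
        · intro z hz hz' hz'' 
          refine h6 z hz (hz'.trans (List.prefix_append _ _)) ?_
          rintro rfl
          have := hz'.length_le
          simp at this
        · intro z hz hz' hz''
          refine h7 z hz (hz'.trans (List.prefix_append _ _)) ?_
          rintro rfl
          have := hz'.length_le
          simp at this
      · push Not at h8
        obtain ⟨rfl, rfl⟩ := h8
        have e3 : y = [] := by
          by_contra h9
          exact h6 y h9 (List.prefix_append _ _) (by simp) h1 h3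
        have e4 : y' = [] := by
          by_contra h9
          exact h7 y' h9 (List.prefix_append _ _) (by simp) h2 h4
        rw [e3, e4]

end D0L.Tr

namespace D0L.Bim

open Tr

variable {n N : ℕ} {H : Fin n → List (Fin n)} {b0 : List (Fin n)}

/-- Products of petals are read from the base to the base. -/
theorem run_W_prod (hnf : NF H b0 N) {js : List ℕ} (hjs : ∀ j ∈ js, j < n) (u : List (Fin n)) :
    run (rQ H b0 n) [] ((js.map fun j => it H j b0).flatten ++ u) = run (rQ H b0 n) [] u := by
  rw [run_append, (rQ_iff hnf le_rfl).2 ⟨js, hjs, rfl⟩]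
  rfl

/-- Prefixes of petals are read. -/
theorem run_W_pre (hnf : NF H b0 N) {j : ℕ} (hj : j < n) {v s : List (Fin n)}
    (h : it H j b0 = v ++ s) (hv : v ≠ []) : run (rQ H b0 n) [] v = some s := by
  obtain ⟨c, v', rfl⟩ := List.exists_cons_of_ne_nil hv
  have h1 : rQ H b0 n c = some (v' ++ s) := (rQ_some hnf le_rfl).2 ⟨j, hj, h⟩
  rw [run_cons, step_nil, h1]
  exact run_self_append _ _ _

/-- A word which is read is a product of petals and a prefix of a petal. -/
theorem parse_W (hnf : NF H b0 N) {u s : List (Fin n)} (h : run (rQ H b0 n) [] u = some s) :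
    ∃ js : List ℕ, (∀ j ∈ js, j < n) ∧ ∃ π, u = (js.map fun j => it H j b0).flatten ++ π ∧
      (π = [] ∧ s = [] ∨ ∃ j < n, π ≠ [] ∧ π ++ s = it H j b0) := by
  induction u using List.reverseRecOn generalizing s with
  | nil =>
    rw [run_nil] at h
    exact ⟨[], by simp, [], rfl, Or.inl ⟨rfl, (Option.some.inj h).symm⟩⟩
  | append_singleton u c ih =>
    rw [run_append, Option.bind_eq_some_iff] at h
    obtain ⟨t, h1, h2⟩ := h
    rw [run_cons, Option.bind_eq_some_iff] at h2
    obtain ⟨s', h3, h4⟩ := h2
    rw [run_nil] at h4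
    rw [Option.some.inj h4] at h3
    obtain ⟨js, hjs, π, hu, hπ⟩ := ih h1
    cases t with
    | nil =>
      obtain ⟨i, hi, hw⟩ := (rQ_some hnf le_rfl).1 h3
      rcases hπ with ⟨rfl, _⟩ | ⟨j, hj, hne, hw'⟩
      · refine ⟨js, hjs, [c], by rw [hu, List.append_nil], Or.inr ⟨i, hi, by simp, ?_⟩⟩
        rw [hw]
        rfl
      · rw [List.append_nil] at hw'
        refine ⟨js ++ [j], ?_, [c], ?_, Or.inr ⟨i, hi, by simp, ?_⟩⟩
        · intro k hk
          rcases List.mem_append.1 hk with hk | hk
          · exact hjs k hk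
          · rw [List.mem_singleton.1 hk]
            exact hj
        · rw [hu, hw']
          simp
        · rw [hw]
          rfl
    | cons c' r =>
      obtain ⟨rfl, rfl⟩ := step_unique h3
      rcases hπ with ⟨_, h5⟩ | ⟨j, hj, hne, hw'⟩
      · cases h5
      · refine ⟨js, hjs, π ++ [c], by rw [hu, List.append_assoc], Or.inr ⟨j, hj, by simp, ?_⟩⟩
        rw [← hw']
        simp

theorem run_D_app (hnf : NF H b0 N) (hb : Bmk H) (u : List (Fin n)) :
    run (rH H) [] (app H u) = some [] := (rH_iff hnf hb).2 ⟨u, rfl⟩

/-- A prefix of an image which is read to the base in the rose of `H` is an image. -/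
theorem D_prefix (hnf : NF H b0 N) (hb : Bmk H) {x y z : List (Fin n)} (h : app H z = x ++ y)
    (hx : run (rH H) [] x = some []) : ∃ u u', x = app H u ∧ y = app H u' ∧ z = u ++ u' := by
  obtain ⟨u, rfl⟩ := (rH_iff hnf hb).1 hx
  have h1 := run_D_app hnf hb z
  rw [h, run_append, hx] at h1
  obtain ⟨u', hu'⟩ := (rH_iff hnf hb).1 h1
  refine ⟨u, u', rfl, hu', hnf.inj ?_⟩
  rw [h, hu', app_append]

/-- In an image the proper prefixes at the pair of the bases are images of proper prefixes. -/
theorem pre_good (hnf : NF H b0 N) (hb : Bmk H) {v : List (Fin n)}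
    (hv : ∀ u, u ≠ [] → u <+: v → u ≠ v → run (rQ H b0 n) [] (app H u) ≠ some []) :
    ∀ y, y ≠ [] → y <+: app H v → y ≠ app H v → run (rQ H b0 n) [] y = some [] →
      run (rH H) [] y ≠ some [] := by
  intro y hy1 hy2 hy3 hy4 hy5
  obtain ⟨t, ht⟩ := hy2
  obtain ⟨u, u', h1, _, h3⟩ := D_prefix hnf hb ht.symm hy5
  refine hv u ?_ ⟨u', h3.symm⟩ ?_ (by rw [← h1]; exact hy4)
  · rintro rfl
    exact hy1 h1
  · rintro rfl
    exact hy3 h1

/-- Two words whose images lead to the same state and have no earlier image in `W^*` are equal. -/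
theorem back_inj (hnf : NF H b0 N) (hb : Bmk H) {v v' s : List (Fin n)} (hs : s ≠ [])
    (h1 : run (rQ H b0 n) [] (app H v) = some s) (h2 : run (rQ H b0 n) [] (app H v') = some s)
    (hv : ∀ u, u ≠ [] → u <+: v → u ≠ v → run (rQ H b0 n) [] (app H u) ≠ some [])
    (hv' : ∀ u, u ≠ [] → u <+: v' → u ≠ v' → run (rQ H b0 n) [] (app H u) ≠ some []) :
    v = v' := by
  refine hnf.inj (back_eq (rQ_bim hnf le_rfl) (rH_bim hb) _ _ s [] h1 h2 (run_D_app hnf hb v)
    (run_D_app hnf hb v') (Or.inl hs) (pre_good hnf hb hv) (pre_good hnf hb hv'))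

/-- Proper prefixes of petals have no image in `W^*`, if the petal is not the last one. -/
theorem pre_petal (hnf : NF H b0 N) {i : ℕ} (hi : i + 1 < n) {u : List (Fin n)} (hu : u ≠ [])
    (h1 : u <+: it H i b0) (h2 : u ≠ it H i b0) :
    ∃ s, s ≠ [] ∧ run (rQ H b0 n) [] (app H u) = some s := by
  obtain ⟨t, ht⟩ := h1
  have h3 : it H (i + 1) b0 = app H u ++ app H t := by
    rw [it_succ, ← ht, app_append]
  refine ⟨app H t, ?_, run_W_pre hnf hi h3 (app_ne hnf hu)⟩
  refine app_ne hnf ?_
  rintro rfl
  rw [List.append_nil] at ht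
  exact h2 ht

/-- **(5.2) PIGEONHOLE.** -/
theorem pig (hnf : NF H b0 N) (hb : Bmk H) {q : List (Fin n)}
    (hr : run (rQ H b0 n) [] (it H n b0) = some q)
    (hno : ∀ v, v ≠ [] → v <+: it H (n - 1) b0 → run (rQ H b0 n) [] (app H v) ≠ some []) :
    False := by
  classical
  have hn := pos_n hnf
  have hwn : it H n b0 = app H (it H (n - 1) b0) := by
    rw [← it_succ]
    congr 1
    omega
  have hq : q ≠ [] := by
    rintro rfl
    refine hno _ (it_ne hnf _) (List.prefix_refl _) ?_
    rw [← hwn]
    exact hr
  let A := Σ i : Fin n, Fin ((it H i b0).length - 1)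
  let B := {s : List (Fin n) // IsSt (rQ H b0 n) s ∧ s ≠ []}
  -- the states are suffixes of the petals
  let f : A → B := fun x => ⟨(it H x.1 b0).drop (x.2 + 1), by
    obtain ⟨i, k⟩ := x
    obtain ⟨c, l, hl⟩ := List.exists_cons_of_ne_nil (it_ne hnf (i : ℕ))
    refine ⟨Or.inr ⟨c, l, (rQ_some hnf le_rfl).2 ⟨i, i.2, hl⟩, ?_⟩, ?_⟩
    · simp only [hl, List.drop_succ_cons]
      exact List.drop_suffix _ _
    · intro h
      have h1 := congrArg List.length h
      have h2 := k.2
      simp only [List.length_drop, List.length_nil] at h1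
      omega⟩
  have hf : Function.Surjective f := by
    rintro ⟨s, h1, h2⟩
    rcases h1 with h1 | ⟨c, l, h1, p, h3⟩
    · exact absurd h1 h2
    · obtain ⟨i, hi, hw⟩ := (rQ_some hnf le_rfl).1 h1
      have hs := List.length_pos_of_ne_nil h2
      refine ⟨⟨⟨i, hi⟩, ⟨p.length, ?_⟩⟩, ?_⟩
      · simp only [hw, ← h3, List.length_cons, List.length_append]
        omega
      · apply Subtype.ext
        simp only [f, hw, List.drop_succ_cons, ← h3, List.drop_left]
  -- the words of the positions
  let vw : Option A → List (Fin n) := fun o => match o with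
    | none => it H (n - 1) b0
    | some x => (it H x.1 b0).take (x.2 + 1)
  have hvw : ∀ o, vw o ≠ [] ∧ ∃ s, s ≠ [] ∧ run (rQ H b0 n) [] (app H (vw o)) = some s ∧
      ∀ u, u ≠ [] → u <+: vw o → u ≠ vw o → run (rQ H b0 n) [] (app H u) ≠ some [] := by
    intro o
    cases o with
    | none =>
      refine ⟨it_ne hnf _, q, hq, ?_, fun u hu1 hu2 _ => hno u hu1 hu2⟩
      change run (rQ H b0 n) [] (app H (it H (n - 1) b0)) = some q
      rw [← hwn]
      exact hr
    | some x =>
      obtain ⟨i, k⟩ := x
      have hk := k.2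
      have hv0 : (it H (i : ℕ) b0).take ((k : ℕ) + 1) ≠ [] := by
        intro h
        have h1 := congrArg List.length h
        simp only [List.length_take, List.length_nil] at h1
        omega
      have hpre : (it H (i : ℕ) b0).take ((k : ℕ) + 1) <+: it H (i : ℕ) b0 := List.take_prefix _ _
      have hne : (it H (i : ℕ) b0).take ((k : ℕ) + 1) ≠ it H (i : ℕ) b0 := by
        intro h
        have h1 := congrArg List.length h
        simp only [List.length_take] at h1
        omega
      refine ⟨hv0, ?_⟩
      change ∃ s, s ≠ [] ∧ run (rQ H b0 n) [] (app H ((it H (i : ℕ) b0).take ((k : ℕ) + 1))) =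
        some s ∧ _
      have hgood : ∀ u, u ≠ [] → u <+: (it H (i : ℕ) b0).take ((k : ℕ) + 1) →
          run (rQ H b0 n) [] (app H u) ≠ some [] := by
        intro u hu1 hu2
        by_cases hi : (i : ℕ) + 1 < n
        · obtain ⟨s, h1, h2⟩ := pre_petal hnf hi hu1 (hu2.trans hpre) (by
            intro h
            have h3 := hu2.length_le
            have h4 := congrArg List.length h
            simp only [List.length_take] at h3
            omega)
          rw [h2]
          intro h
          exact h1 (Option.some.inj h)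
        · have h1 : (i : ℕ) = n - 1 := by omega
          refine hno u hu1 ?_
          rw [← h1]
          exact hu2.trans hpre
      by_cases hi : (i : ℕ) + 1 < n
      · obtain ⟨s, h1, h2⟩ := pre_petal hnf hi hv0 hpre hne
        exact ⟨s, h1, h2, fun u hu1 hu2 _ => hgood u hu1 hu2⟩
      · have h1 : (i : ℕ) = n - 1 := by omega
        have h2 : it H n b0 = app H ((it H (i : ℕ) b0).take ((k : ℕ) + 1)) ++
            app H ((it H (i : ℕ) b0).drop ((k : ℕ) + 1)) := by
          rw [← app_append, List.take_append_drop, h1]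
          exact hwn
        rw [h2, run_append, Option.bind_eq_some_iff] at hr
        obtain ⟨s, h3, h4⟩ := hr
        refine ⟨s, ?_, h3, fun u hu1 hu2 _ => hgood u hu1 hu2⟩
        rintro rfl
        exact hgood _ hv0 (List.prefix_refl _) h3
  choose hv1 st hst1 hst2 hst3 using hvw
  let g : Option A → B := fun o => ⟨st o, run_isSt (isSt_nil _) (hst2 o), hst1 o⟩
  have hinjw : Function.Injective vw := by
    have hfirst : ∀ {i : ℕ} {v : List (Fin n)}, v ≠ [] → v <+: it H i b0 →
        ∃ c t s, v = c :: t ∧ it H i b0 = c :: s := by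
      intro i v hv hp
      obtain ⟨c, t, rfl⟩ := List.exists_cons_of_ne_nil hv
      obtain ⟨r, hr⟩ := hp
      exact ⟨c, t, t ++ r, rfl, by rw [← hr]; rfl⟩
    have hpre : ∀ x : A, vw (some x) <+: it H x.1 b0 := fun x => List.take_prefix _ _
    have hlen : ∀ x : A, (vw (some x)).length = x.2 + 1 := by
      rintro ⟨i, k⟩
      have := k.2
      change ((it H (i : ℕ) b0).take ((k : ℕ) + 1)).length = (k : ℕ) + 1
      rw [List.length_take]
      omega
    have hone : ∀ (i j : Fin n) (v : List (Fin n)), v ≠ [] → v <+: it H (i : ℕ) b0 →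
        v <+: it H (j : ℕ) b0 → i = j := by
      intro i j v hv hi hj
      obtain ⟨c, t, s, h1, h2⟩ := hfirst hv hi
      obtain ⟨c', t', s', h3, h4⟩ := hfirst hv hj
      rw [h1] at h3
      rw [← (List.cons.inj h3).1] at h4
      exact first_unique hnf h2 h4
    intro o o' h
    cases o with
    | none =>
      cases o' with
      | none => rfl
      | some x =>
        exfalso
        have h1 := hone ⟨n - 1, by omega⟩ x.1 (vw none) (hv1 none) (List.prefix_refl _)
          (by rw [h]; exact hpre x)
        have h2 := hlen x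
        rw [← h] at h2
        have h3 := x.2.2
        change (it H (n - 1) b0).length = (x.2 : ℕ) + 1 at h2
        have h4 : (x.1 : ℕ) = n - 1 := by rw [← h1]
        have h5 : (it H (x.1 : ℕ) b0).length = (it H (n - 1) b0).length := by rw [h4]
        omega
    | some x =>
      cases o' with
      | none =>
        exfalso
        have h1 := hone ⟨n - 1, by omega⟩ x.1 (vw none) (hv1 none) (List.prefix_refl _)
          (by rw [← h]; exact hpre x)
        have h2 := hlen x
        rw [h] at h2
        have h3 := x.2.2
        change (it H (n - 1) b0).length = (x.2 : ℕ) + 1 at h2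
        have h4 : (x.1 : ℕ) = n - 1 := by rw [← h1]
        have h5 : (it H (x.1 : ℕ) b0).length = (it H (n - 1) b0).length := by rw [h4]
        omega
      | some y =>
        have h1 := hone x.1 y.1 (vw (some x)) (hv1 (some x)) (hpre x) (by rw [h]; exact hpre y)
        obtain ⟨i, k⟩ := x
        obtain ⟨j, l⟩ := y
        have h1' : i = j := h1
        subst h1'
        have h2 : (vw (some ⟨i, k⟩)).length = (k : ℕ) + 1 := hlen ⟨i, k⟩
        have h3 : (vw (some ⟨i, l⟩)).length = (l : ℕ) + 1 := hlen ⟨i, l⟩
        rw [h] at h2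
        rw [h2] at h3
        have h4 : k = l := Fin.ext (by omega)
        rw [h4]
  have hg : Function.Injective g := by
    intro o o' h
    have h1 : st o = st o' := congrArg Subtype.val h
    have h2 := hst2 o'
    rw [← h1] at h2
    exact hinjw (back_inj hnf hb (hst1 o) (hst2 o) h2 (hst3 o) (hst3 o'))
  have : Finite B := Finite.of_surjective f hf
  have h1 := Nat.card_le_card_of_injective g hg
  have h2 := Nat.card_le_card_of_surjective f hf
  rw [Finite.card_option] at h1
  omega

end D0L.Bim
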