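import Pool.Agent.H.MP_374efc_lc.Bim.Setup
import Pool.Agent.H.MP_374efc_lc.Asm.Bridge

/-!
# Functionals on a normal form ((0.7), (0.8) and section 7 of h67_374efc_BIMFULL)

`NF H b0 N`; `w_i = it H i b0`; `η = Cdm.eta H b0` is the last coordinate in the basis `w_0, ..., w_(n-1)` of `ℤ^n`.

* `s0_pos`: `s_0 = - χ (0) > 0` (Descartes).
* `th H b0 j : FreeGroup (Fin n) →* Multiplicative ℤ` is `η A^j`.  `th_ww_nonneg`: `≥ 0` on all `w_k`; `th_ww_zero`:
  `= 0` on `w_k`, `k + j + 1 < n`; `th_ww_one`: `= 1` on `w_(n-1-j)`; `th_gh`: `th (j+1) g = th j (h g)`.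
* `s0_mul_th`: if `h (x)` is the product of the words `w_j`, `j ∈ js`, `j < n` then `s_0 η (x) = #{j ∈ js : j = 0}`;
  so `th_pos`: `0 < η (x)` if `0 ∈ js`.
* `th_chain_pos`, `th_chain_zero`: (7.3).
-/

set_option autoImplicit false

namespace D0L.Bim

open Cdm

variable {n N : ℕ} {H : Fin n → List (Fin n)} {b0 : List (Fin n)}

/-! ### facts from the normal form -/

theorem nf_ne (hnf : NF H b0 N) (a : Fin n) : H a ≠ [] := ne_of_inj hnf.inj a

theorem nf_it_ne (hnf : NF H b0 N) (i : ℕ) : it H i b0 ≠ [] := by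
  intro h0
  have h1 := length_it_mono (nf_ne hnf) b0 (Nat.zero_le i)
  rw [h0, it_zero] at h1
  exact hnf.ne (List.length_eq_zero_iff.1 (by simpa using h1))

theorem nf_mono (hnf : NF H b0 N) {i j : ℕ} (hij : i ≤ j) :
    (it H i b0).length ≤ (it H j b0).length := length_it_mono (nf_ne hnf) b0 hij

theorem nf_unit (hnf : NF H b0 N) : IsUnit (WM H b0).det := by
  have h4 : WM H b0 =
      (Matrix.of fun (i a : Fin n) => ((it H i b0).count a : ℤ)).transpose := by
    ext a i
    simp only [WM, par, Matrix.transpose_apply, Matrix.of_apply]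
    rw [sq_eq]
  rw [h4, Matrix.det_transpose]
  exact hnf.unit

theorem nf_lc (hnf : NF H b0 N) : Cdm.LC H b0 N := by
  obtain ⟨js, h1, h2, h3⟩ := hnf.rel
  have h0 := zero_mem_least hnf.inj hnf.least h1 h2 h3
  refine ⟨js, h2, h0, ?_, ?_⟩
  · by_contra hlen
    have hlen1 : js.length = 1 := by
      have := List.length_pos_of_ne_nil h1
      omega
    obtain ⟨j, rfl⟩ := List.length_eq_one_iff.1 hlen1
    have hj : j < N := h2 j (by simp)
    apply it_ne_of_gr (nf_ne hnf) hnf.gr hnf.ne hj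
    rw [h3]
    simp
  · rw [sq_eq, pw_eq, h3]

/-! ### `χ (0) < 0` -/

/-- The coefficient of `w_0` in `w_n`. -/
noncomputable def s0 (H : Fin n → List (Fin n)) : ℤ := -((mat H).charpoly.eval 0)

/-- (0.7): `s_0 > 0`.  `χ (1) < 0` and `χ (0) > 0` would give two positive roots of the polynomial of the
formula. -/
theorem s0_pos (hnf : NF H b0 N) : 0 < s0 H := by
  obtain ⟨J, hJ1, hJ2, hJ3, hJ4⟩ := nf_lc hnf
  have hn := pos_n hnf
  have hdvd := chi_dvd H b0 (nf_unit hnf) N J hJ4
  have h1 := chi_one_neg hn (mat H) (ab2_mat_nonneg H) N J hJ1 hJ2 hJ3 hdvd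
  set χ := (mat H).charpoly with hχ
  have hN : 0 < N := hJ1 0 hJ2
  have hne : J ≠ [] := by rintro rfl; simp at hJ2
  obtain ⟨q, hq⟩ := hdvd
  set φ := Int.castRingHom ℝ with hφ
  have hP : ∀ x : ℝ, x ^ N - (J.map (fun j => x ^ j)).sum =
      (χ.map φ).eval x * (q.map φ).eval x := by
    intro x
    have h4 := congrArg (fun r : Polynomial ℤ => (r.map φ).eval x) hq
    simp only [Polynomial.map_sub, Polynomial.map_pow, Polynomial.map_X, Polynomial.eval_sub,
      Polynomial.eval_pow, Polynomial.eval_X, Polynomial.map_mul, Polynomial.eval_mul] at h4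
    rw [pf2_eval] at h4
    exact h4
  have hroot : ∀ x : ℝ, (χ.map φ).eval x = 0 → (J.map (fun j => x ^ j)).sum = x ^ N := by
    intro x hx
    have h2 := hP x
    rw [hx, zero_mul] at h2
    linarith
  have e1 : (χ.map φ).eval 1 = ((χ.eval 1 : ℤ) : ℝ) := by
    rw [Polynomial.eval_map, Polynomial.eval₂_at_one]
    rfl
  have e0 : (χ.map φ).eval 0 = ((χ.eval 0 : ℤ) : ℝ) := by
    rw [Polynomial.eval_map, Polynomial.eval₂_at_zero]
    rw [← Polynomial.coeff_zero_eq_eval_zero]
    rfl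
  have h1' : (χ.map φ).eval 1 < 0 := by
    rw [e1]
    exact_mod_cast h1
  have hmon : (χ.map φ).Monic := ((mat H).charpoly_monic).map φ
  -- a root larger than one
  have hbig : ∃ y : ℝ, 1 < y ∧ (χ.map φ).eval y = 0 := by
    have hdeg : 0 < (χ.map φ).degree := by
      by_contra hd
      have h4 : (χ.map φ).natDegree = 0 :=
        Polynomial.natDegree_eq_zero_iff_degree_le_zero.2 (not_lt.1 hd)
      have h5 : χ.map φ = 1 := hmon.natDegree_eq_zero.1 h4
      rw [h5, Polynomial.eval_one] at h1'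
      linarith
    have ht := Polynomial.tendsto_atTop_of_leadingCoeff_nonneg (χ.map φ) hdeg
      (by rw [hmon.leadingCoeff]; exact zero_le_one)
    obtain ⟨y, hy1, hy2⟩ := ((ht.eventually (Filter.eventually_gt_atTop (0 : ℝ))).and
      (Filter.eventually_ge_atTop (1 : ℝ))).exists
    have hc : ContinuousOn (fun x => (χ.map φ).eval x) (Set.Icc 1 y) :=
      (Polynomial.continuous _).continuousOn
    obtain ⟨z, hz, hz0⟩ := intermediate_value_Icc hy2 hc ⟨h1'.le, hy1.le⟩
    have hz0' : (χ.map φ).eval z = 0 := hz0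
    refine ⟨z, lt_of_le_of_ne hz.1 ?_, hz0'⟩
    intro h1z
    rw [← h1z] at hz0'
    rw [hz0'] at h1'
    exact lt_irrefl _ h1'
  obtain ⟨y, hy1, hy0⟩ := hbig
  have h0ne : (χ.map φ).eval 0 ≠ 0 := by
    intro h0
    have h2 := hP 0
    rw [h0, zero_mul, zero_pow hN.ne', zero_sub, neg_eq_zero] at h2
    exact absurd h2 (pf2_zero J hJ2).ne'
  have h0neg : (χ.map φ).eval 0 < 0 := by
    by_contra hpos
    have h0 : 0 < (χ.map φ).eval 0 := lt_of_le_of_ne (not_lt.1 hpos) (Ne.symm h0ne)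
    have hc : ContinuousOn (fun x => (χ.map φ).eval x) (Set.Icc 0 1) :=
      (Polynomial.continuous _).continuousOn
    obtain ⟨z, hz, hz0⟩ := intermediate_value_Icc' zero_le_one hc ⟨h1'.le, h0.le⟩
    have hz1 : 0 < z := by
      refine lt_of_le_of_ne hz.1 ?_
      rintro rfl
      exact h0ne hz0
    have h3 := pf2_grow N J hJ1 hne z y hz1 (lt_of_le_of_lt hz.2 hy1) (hroot z hz0)
    rw [hroot y hy0] at h3
    exact lt_irrefl _ h3
  rw [e0] at h0neg
  have h2 : χ.eval 0 < 0 := by exact_mod_cast h0neg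
  unfold s0
  rw [← hχ]
  omega

/-! ### abelianisation -/

/-- The abelianisation. -/
noncomputable def gab : FreeGroup (Fin n) →* Multiplicative (Lam n) :=
  FreeGroup.lift fun a => Multiplicative.ofAdd (par [a])

theorem gab_gw (u : List (Fin n)) : gab (gw u) = Multiplicative.ofAdd (par u) := by
  induction u with
  | nil =>
    rw [gw_nil, map_one, par_nil]
    rfl
  | cons a u ih =>
    have h1 : par (a :: u) = par [a] + par u := by
      rw [← par_append]
      rfl
    rw [gw_cons, map_mul, ih, h1, ofAdd_add, gab, FreeGroup.lift_apply_of]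

/-- The image in `ℤ^n`. -/
noncomputable def ab (g : FreeGroup (Fin n)) : Lam n := Multiplicative.toAdd (gab g)

theorem ab_one : ab (1 : FreeGroup (Fin n)) = 0 := by
  rw [ab, map_one]
  rfl

theorem ab_mul (g g' : FreeGroup (Fin n)) : ab (g * g') = ab g + ab g' := by
  rw [ab, map_mul]
  rfl

theorem ab_inv (g : FreeGroup (Fin n)) : ab g⁻¹ = -ab g := by
  rw [ab, map_inv]
  rfl

theorem ab_gw (u : List (Fin n)) : ab (gw u) = par u := by
  rw [ab, gab_gw]
  rfl

theorem ab_of (a : Fin n) : ab (FreeGroup.of a) = par [a] := by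
  rw [← gw_singleton, ab_gw]

theorem ext_eq (H : Fin n → List (Fin n)) (u : List (Fin n)) : ext H u = app H u := rfl

theorem ab_gh (H : Fin n → List (Fin n)) (g : FreeGroup (Fin n)) :
    ab (gh H g) = mh H (ab g) := by
  induction g using FreeGroup.induction_on with
  | C1 => rw [map_one, ab_one, map_zero]
  | of a =>
    rw [ab_of, gh, FreeGroup.lift_apply_of, ab_gw, ← par_ext]
    congr 1
    simp [ext]
  | inv_of a h => rw [map_inv, ab_inv, ab_inv, map_neg, h]
  | mul x y hx hy => rw [map_mul, ab_mul, ab_mul, map_add, hx, hy]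

/-! ### the functionals -/

/-- `η A^j` on the free group. -/
noncomputable def th (H : Fin n → List (Fin n)) (b0 : List (Fin n)) (j : ℕ) :
    FreeGroup (Fin n) →* Multiplicative ℤ :=
  (AddMonoidHom.toMultiplicative (etj H b0 j)).comp gab

/-- The value of `η A^j`. -/
noncomputable def tv (H : Fin n → List (Fin n)) (b0 : List (Fin n)) (j : ℕ)
    (g : FreeGroup (Fin n)) : ℤ := etj H b0 j (ab g)

theorem th_eq (H : Fin n → List (Fin n)) (b0 : List (Fin n)) (j : ℕ) (g : FreeGroup (Fin n)) :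
    Multiplicative.toAdd (th H b0 j g) = tv H b0 j g := rfl

theorem tv_one (j : ℕ) : tv H b0 j 1 = 0 := by
  rw [tv, ab_one, map_zero]

theorem tv_mul (j : ℕ) (g g' : FreeGroup (Fin n)) :
    tv H b0 j (g * g') = tv H b0 j g + tv H b0 j g' := by
  rw [tv, ab_mul, map_add]
  rfl

theorem tv_inv (j : ℕ) (g : FreeGroup (Fin n)) : tv H b0 j g⁻¹ = -tv H b0 j g := by
  rw [tv, ab_inv, map_neg]
  rfl

theorem tv_gw (j : ℕ) (u : List (Fin n)) : tv H b0 j (gw u) = etj H b0 j (par u) := by
  rw [tv, ab_gw]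

theorem tv_gw_sum (j : ℕ) (u : List (Fin n)) :
    tv H b0 j (gw u) = (u.map fun a => tv H b0 j (FreeGroup.of a)).sum := by
  induction u with
  | nil => rw [gw_nil, tv_one]; rfl
  | cons a u ih => rw [gw_cons, tv_mul, ih, List.map_cons, List.sum_cons]

theorem tv_gh (j : ℕ) (g : FreeGroup (Fin n)) : tv H b0 j (gh H g) = tv H b0 (j + 1) g := by
  rw [tv, ab_gh]
  rfl

theorem tv_gh_it (j i : ℕ) (g : FreeGroup (Fin n)) :
    tv H b0 j ((gh H)^[i] g) = tv H b0 (i + j) g := by
  induction i generalizing j with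
  | zero => rw [Nat.zero_add]; rfl
  | succ i ih =>
    rw [Function.iterate_succ_apply', tv_gh, ih]
    congr 1
    omega

theorem tv_ww (j k : ℕ) : tv H b0 j (ww H b0 k) = tv H b0 0 (ww H b0 (k + j)) := by
  rw [ww, tv_gw, ww, tv_gw, ← sq_eq, etj_tok, sq_eq]
  rfl

theorem tv_zero_ww (hnf : NF H b0 N) {i : ℕ} (hi : i < n) :
    tv H b0 0 (ww H b0 i) = if i + 1 = n then 1 else 0 := by
  rw [ww, tv_gw, ← sq_eq]
  exact eta_tok H b0 (nf_unit hnf) i hi

/-- (0.8): `η A^j` is nonnegative on all words of the system. -/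
theorem tv_ww_nonneg (hnf : NF H b0 N) (j k : ℕ) : 0 ≤ tv H b0 j (ww H b0 k) := by
  rw [tv_ww, ww, tv_gw, ← sq_eq]
  exact eta_nonneg (pos_n hnf) (nf_unit hnf) (k + j)

theorem tv_ww_zero (hnf : NF H b0 N) {j k : ℕ} (hk : k + j + 1 < n) :
    tv H b0 j (ww H b0 k) = 0 := by
  rw [tv_ww, tv_zero_ww hnf (by omega), if_neg (by omega)]

theorem tv_ww_one (hnf : NF H b0 N) {j k : ℕ} (hk : k + j + 1 = n) :
    tv H b0 j (ww H b0 k) = 1 := by
  rw [tv_ww, tv_zero_ww hnf (by omega), if_pos (by omega)]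

theorem tv_prod (j : ℕ) (js : List ℕ) :
    tv H b0 j (gw ((js.map fun i => it H i b0).flatten)) =
      (js.map fun i => tv H b0 j (ww H b0 i)).sum := by
  induction js with
  | nil =>
    rw [List.map_nil, List.flatten_nil, gw_nil, tv_one]
    rfl
  | cons i js ih =>
    rw [List.map_cons, List.flatten_cons, gw_append, tv_mul, ih, List.map_cons, List.sum_cons]
    rfl

/-- (0.8): `η A^j` is nonnegative on all products of words of the system. -/
theorem tv_prod_nonneg (hnf : NF H b0 N) (j : ℕ) (js : List ℕ) :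
    0 ≤ tv H b0 j (gw ((js.map fun i => it H i b0).flatten)) := by
  rw [tv_prod]
  apply List.sum_nonneg
  intro x hx
  rw [List.mem_map] at hx
  obtain ⟨i, -, rfl⟩ := hx
  exact tv_ww_nonneg hnf j i

/-- (7.2): `η A^j` is zero on the products of `w_0, ..., w_(n-2-j)`. -/
theorem tv_prod_zero (hnf : NF H b0 N) {j : ℕ} {js : List ℕ} (hjs : ∀ i ∈ js, i + j + 1 < n) :
    tv H b0 j (gw ((js.map fun i => it H i b0).flatten)) = 0 := by
  rw [tv_prod]
  apply List.sum_eq_zero
  intro x hx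
  rw [List.mem_map] at hx
  obtain ⟨i, hi, rfl⟩ := hx
  exact tv_ww_zero hnf (hjs i hi)

/-! ### the first coordinate -/

/-- The first coordinate. -/
noncomputable def c0 (H : Fin n → List (Fin n)) (b0 : List (Fin n)) (hn : 0 < n) :
    Lam n →+ ℤ where
  toFun v := coo H b0 v ⟨0, hn⟩
  map_zero' := by simp
  map_add' u v := by simp

theorem c0_tok (hnf : NF H b0 N) (hn : 0 < n) {i : ℕ} (hi : i < n) :
    c0 H b0 hn (par (sq H b0 i)) = if i = 0 then 1 else 0 := by
  have h1 := coo_tok H b0 (nf_unit hnf) ⟨i, hi⟩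
  show coo H b0 (par (sq H b0 i)) ⟨0, hn⟩ = _
  rw [h1]
  by_cases h0 : i = 0
  · subst h0
    rw [if_pos rfl, Pi.single_eq_same]
  · rw [if_neg h0, Pi.single_eq_of_ne]
    intro h2
    apply h0
    have := congrArg Fin.val h2
    simpa using this.symm

/-- The coefficient of `w_0` in `A v` is `s_0 η (v)`. -/
theorem c0_mh (hnf : NF H b0 N) (hn : 0 < n) (v : Lam n) :
    c0 H b0 hn (mh H v) = s0 H * eta H b0 v := by
  have hfg : (c0 H b0 hn).comp (mh H) = s0 H • eta H b0 := by
    refine hom_ext_tok H b0 (nf_unit hnf) _ _ fun i hi => ?_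
    simp only [AddMonoidHom.comp_apply, AddMonoidHom.smul_apply, smul_eq_mul]
    rw [← par_sq_succ, eta_tok H b0 (nf_unit hnf) i hi]
    by_cases hin : i + 1 = n
    · rw [if_pos hin, mul_one]
      have hc := congrArg (c0 H b0 hn) (cayley H b0 0)
      rw [map_sum, map_zero, Finset.sum_range_succ] at hc
      simp only [map_zsmul, smul_eq_mul, add_zero] at hc
      have h4 : ∑ l ∈ Finset.range n, (mat H).charpoly.coeff l * c0 H b0 hn (par (sq H b0 l)) =
          (mat H).charpoly.coeff 0 := by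
        rw [Finset.sum_eq_single 0]
        · rw [c0_tok hnf hn hn, if_pos rfl, mul_one]
        · intro l hl hl0
          rw [c0_tok hnf hn (Finset.mem_range.1 hl), if_neg hl0, mul_zero]
        · intro h5
          exact absurd (Finset.mem_range.2 hn) h5
      rw [h4, ab1b_top, one_mul] at hc
      rw [hin, s0, ← Polynomial.coeff_zero_eq_eval_zero]
      linarith
    · rw [if_neg hin, mul_zero, c0_tok hnf hn (by omega), if_neg (by omega)]
  have h6 := DFunLike.congr_fun hfg v
  simpa only [AddMonoidHom.comp_apply, AddMonoidHom.smul_apply, smul_eq_mul] using h6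

theorem c0_prod (hnf : NF H b0 N) (hn : 0 < n) {js : List ℕ} (hjs : ∀ j ∈ js, j < n) :
    c0 H b0 hn (par ((js.map fun j => it H j b0).flatten)) = (js.count 0 : ℤ) := by
  induction js with
  | nil => simp [par_nil]
  | cons j js ih =>
    rw [List.map_cons, List.flatten_cons, par_append, map_add,
      ih (fun i hi => hjs i (List.mem_cons_of_mem _ hi)), ← sq_eq,
      c0_tok hnf hn (hjs j (List.mem_cons_self ..)), List.count_cons]
    by_cases h0 : j = 0
    · subst h0
      simp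
      ring
    · rw [if_neg h0]
      simp [h0]

/-- (7.1): `s_0 η (x) = ` number of tokens `w_0` in `h (x)`. -/
theorem s0_mul_tv (hnf : NF H b0 N) {x : FreeGroup (Fin n)} {js : List ℕ}
    (hjs : ∀ j ∈ js, j < n) (hx : gh H x = gw ((js.map fun j => it H j b0).flatten)) :
    s0 H * tv H b0 0 x = (js.count 0 : ℤ) := by
  have hn := pos_n hnf
  have h1 := c0_mh hnf hn (ab x)
  rw [← ab_gh, hx, ab_gw, c0_prod hnf hn hjs] at h1
  rw [h1]
  rfl

theorem tv_nonneg_of (hnf : NF H b0 N) {x : FreeGroup (Fin n)} {js : List ℕ}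
    (hjs : ∀ j ∈ js, j < n) (hx : gh H x = gw ((js.map fun j => it H j b0).flatten)) :
    0 ≤ tv H b0 0 x := by
  have h1 := s0_mul_tv hnf hjs hx
  have h2 := s0_pos hnf
  by_contra h3
  push Not at h3
  have h4 : (0 : ℤ) ≤ (js.count 0 : ℤ) := Int.natCast_nonneg _
  nlinarith

/-- (7.1): `η (x) > 0` if `h (x) ∈ W^*` has a token `w_0`. -/
theorem tv_pos_of (hnf : NF H b0 N) {x : FreeGroup (Fin n)} {js : List ℕ}
    (hjs : ∀ j ∈ js, j < n) (h0 : 0 ∈ js)
    (hx : gh H x = gw ((js.map fun j => it H j b0).flatten)) :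
    0 < tv H b0 0 x := by
  have h1 := s0_mul_tv hnf hjs hx
  have h2 := s0_pos hnf
  by_contra h3
  push Not at h3
  have h4 : (0 : ℤ) < (js.count 0 : ℤ) := by
    exact_mod_cast List.count_pos_iff.2 h0
  nlinarith

/-- (7.3), last element of the chain: `h^j (y) = x`, `θ = η A^j`. -/
theorem tv_chain_pos (hnf : NF H b0 N) {x y : FreeGroup (Fin n)} {js : List ℕ} {j : ℕ}
    (hjs : ∀ j ∈ js, j < n) (h0 : 0 ∈ js)
    (hx : gh H x = gw ((js.map fun j => it H j b0).flatten)) (hy : (gh H)^[j] y = x) :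
    0 < tv H b0 j y := by
  have h1 := tv_gh_it (H := H) (b0 := b0) 0 j y
  rw [hy, Nat.add_zero] at h1
  rw [← h1]
  exact tv_pos_of hnf hjs h0 hx

/-- (7.3), the other elements: `h^i (y) = T` is a product of `w_0, ..., w_(n-2-j)`, `i ≤ j`, `1 ≤ i`:
`θ (y) = 0` for `θ = η A^j`. -/
theorem tv_chain_zero (hnf : NF H b0 N) {y : FreeGroup (Fin n)} {js : List ℕ} {i j : ℕ}
    (hij : i ≤ j) (hjs : ∀ l ∈ js, l + j + 1 < n + i)
    (hy : (gh H)^[i] y = gw ((js.map fun j => it H j b0).flatten)) :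
    tv H b0 j y = 0 := by
  have h1 := tv_gh_it (H := H) (b0 := b0) (j - i) i y
  have h2 : i + (j - i) = j := by omega
  rw [hy, h2] at h1
  rw [← h1]
  exact tv_prod_zero hnf fun l hl => by
    have := hjs l hl
    omega

end D0L.Bim
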