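import Pool.Agent.H.MP_374efc_lc.Bim.Setup
import Pool.Agent.H.MP_374efc_lc.Tr.MkR
import Pool.Agent.H.MP_374efc_lc.Tr.Exact

/-!
# The roses of a normal form with cyclic first and last letter maps

`rQ H b0 m`: petals `w_0, …, w_(m-1)`; `rH H`: petals `H c`. `Bmk H`: the words `H c` have different
first letters and different last letters. `XH H b0 m`: hypothesis (X), `x` exists (tokens `w_j`,
`j < m`). `XD`: the data `x`, `T = h(x)`, the token indices of `T`.
-/

set_option autoImplicit false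

namespace D0L.Bim

open Tr

variable {n N m : ℕ} {H : Fin n → List (Fin n)} {b0 : List (Fin n)}

/-- The words `H c` have different first letters and different last letters. -/
structure Bmk (H : Fin n → List (Fin n)) : Prop where
  fst : FI H
  lst : LI H

/-- The rose of the tokens `w_0, …, w_(m-1)`. -/
noncomputable def rQ (H : Fin n → List (Fin n)) (b0 : List (Fin n)) (m : ℕ) : Rose (Fin n) :=
  mkR fun i : Fin m => it H i b0

/-- The rose of the words `H c`. -/
noncomputable def rH (H : Fin n → List (Fin n)) : Rose (Fin n) := mkR H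

theorem H_ne (hnf : NF H b0 N) (c : Fin n) : H c ≠ [] := by
  intro h0
  obtain ⟨q, hq, hc⟩ := hnf.irr c c
  obtain ⟨q, rfl⟩ : ∃ k, q = k + 1 := ⟨q - 1, by omega⟩
  rw [it_succ', app_singleton, h0, it_nil] at hc
  simp at hc

theorem app_ne (hnf : NF H b0 N) {u : List (Fin n)} (hu : u ≠ []) : app H u ≠ [] := by
  intro h0
  have h1 := length_le_app (H_ne hnf) u
  rw [h0, List.length_nil] at h1
  have h2 := List.length_pos_of_ne_nil hu
  omega

theorem it_ne (hnf : NF H b0 N) (i : ℕ) : it H i b0 ≠ [] := by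
  induction i with
  | zero => exact hnf.ne
  | succ i ih => rw [it_succ]; exact app_ne hnf ih

theorem fi_w (hnf : NF H b0 N) (hm : m ≤ n) : FI fun i : Fin m => it H i b0 := by
  intro i j a l l' h1 h2
  have h3 := first_unique hnf (i := ⟨i, by omega⟩) (j := ⟨j, by omega⟩) h1 h2
  exact Fin.ext (by simpa using h3)

theorem li_w (hnf : NF H b0 N) (hm : m ≤ n) : LI fun i : Fin m => it H i b0 := by
  intro i j a l l' h1 h2
  have h3 := last_unique hnf (i := ⟨i, by omega⟩) (j := ⟨j, by omega⟩) h1 h2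
  exact Fin.ext (by simpa using h3)

theorem rQ_bim (hnf : NF H b0 N) (hm : m ≤ n) : Bim (rQ H b0 m) :=
  mkR_bim (fi_w hnf hm) (li_w hnf hm)

theorem rH_bim (hb : Bmk H) : Bim (rH H) := mkR_bim hb.fst hb.lst

theorem app_eq_flat (u : List (Fin n)) : app H u = (u.map H).flatten := by
  rw [app, List.flatMap_def]

theorem rH_iff (hnf : NF H b0 N) (hb : Bmk H) {u : List (Fin n)} :
    run (rH H) [] u = some [] ↔ ∃ y, u = app H y := by
  unfold rH
  rw [run_mkR_iff hb.fst (H_ne hnf)]
  constructor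
  · rintro ⟨y, hy⟩
    exact ⟨y, by rw [hy, app_eq_flat]⟩
  · rintro ⟨y, hy⟩
    exact ⟨y, by rw [hy, app_eq_flat]⟩

theorem lift_fin : ∀ {js : List ℕ}, (∀ j ∈ js, j < m) → ∃ L : List (Fin m), L.map Fin.val = js := by
  intro js
  induction js with
  | nil => intro _; exact ⟨[], rfl⟩
  | cons j js ih =>
    intro h
    obtain ⟨L, hL⟩ := ih fun i hi => h i (List.mem_cons_of_mem _ hi)
    exact ⟨⟨j, h j List.mem_cons_self⟩ :: L, by rw [List.map_cons, hL]⟩

theorem rQ_iff (hnf : NF H b0 N) (hm : m ≤ n) {u : List (Fin n)} :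
    run (rQ H b0 m) [] u = some [] ↔
      ∃ js : List ℕ, (∀ j ∈ js, j < m) ∧ u = (js.map fun j => it H j b0).flatten := by
  unfold rQ
  rw [run_mkR_iff (fi_w hnf hm) fun i => it_ne hnf i]
  constructor
  · rintro ⟨L, hL⟩
    refine ⟨L.map Fin.val, ?_, by rw [hL, List.map_map]; rfl⟩
    intro j hj
    obtain ⟨i, -, rfl⟩ := List.mem_map.1 hj
    exact i.2
  · rintro ⟨js, hjs, hu⟩
    obtain ⟨L, rfl⟩ := lift_fin hjs
    exact ⟨L, by rw [hu, List.map_map]; rfl⟩

theorem rQ_some (hnf : NF H b0 N) (hm : m ≤ n) {a : Fin n} {l : List (Fin n)} :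
    rQ H b0 m a = some l ↔ ∃ i < m, it H i b0 = a :: l := by
  unfold rQ
  rw [mkR_iff (fi_w hnf hm)]
  constructor
  · rintro ⟨i, hi⟩
    exact ⟨i, i.2, hi⟩
  · rintro ⟨i, hi, h⟩
    exact ⟨⟨i, hi⟩, h⟩

theorem rH_some (hb : Bmk H) {a : Fin n} {l : List (Fin n)} :
    rH H a = some l ↔ ∃ c, H c = a :: l := mkR_iff hb.fst

/-- `H` is a full rose. -/
theorem rH_full (hnf : NF H b0 N) (hb : Bmk H) (a : Fin n) : ∃ l, rH H a = some l := by
  choose f hf using fun c => List.exists_cons_of_ne_nil (H_ne hnf c)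
  have hinj : Function.Injective f := by
    intro c c' hcc
    obtain ⟨l, hl⟩ := hf c
    obtain ⟨l', hl'⟩ := hf c'
    rw [← hcc] at hl'
    exact hb.fst c c' _ _ _ hl hl'
  obtain ⟨c, rfl⟩ := (Finite.injective_iff_surjective.1 hinj) a
  obtain ⟨l, hl⟩ := hf c
  exact ⟨l, (rH_some hb).2 ⟨c, hl⟩⟩

theorem hull_rose (hnf : NF H b0 N) (hb : Bmk H) (h1 : 1 ≤ m) (hm : m ≤ n) :
    Hull (rQ H b0 m) (rH H) := by
  intro G h0 hmul hu hQ hH x
  refine hull_left hnf h0 hmul hu ?_ (fun c => ?_) x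
  · obtain ⟨a, l, hal⟩ := List.exists_cons_of_ne_nil hnf.ne
    rw [hal]
    exact hQ a l ((rQ_some hnf hm).2 ⟨0, h1, hal⟩)
  · obtain ⟨a, l, hal⟩ := List.exists_cons_of_ne_nil (H_ne hnf c)
    rw [hal]
    exact hH a l ((rH_some hb).2 ⟨c, hal⟩)

/-- Hypothesis (X) with the tokens `w_j`, `j < m`. -/
def XH (H : Fin n → List (Fin n)) (b0 : List (Fin n)) (m : ℕ) : Prop :=
  ∃ (y : List (Fin n)) (js : List ℕ), (∀ j ∈ js, j < m) ∧
    app H y = ((0 :: js).map fun j => it H j b0).flatten

theorem pr_rose (hnf : NF H b0 N) (hb : Bmk H) (h1 : 1 ≤ m) (hm : m ≤ n) (hX : XH H b0 m) :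
    Pr (rQ H b0 m) (rH H) where
  q := rQ_bim hnf hm
  h := rH_bim hb
  full := rH_full hnf hb
  pure a l hal := by
    obtain ⟨i, hi, hw⟩ := (rQ_some hnf hm).1 hal
    cases i with
    | zero =>
      obtain ⟨y, js, hjs, hy⟩ := hX
      rw [List.map_cons, List.flatten_cons, hw] at hy
      refine ⟨l ++ (js.map fun j => it H j b0).flatten, ?_, ?_⟩
      · refine (rQ_iff hnf hm).2 ⟨0 :: js, ?_, ?_⟩
        · intro j hj
          rcases List.mem_cons.1 hj with rfl | hj
          · exact h1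
          · exact hjs j hj
        · rw [List.map_cons, List.flatten_cons, hw]
          rfl
      · exact (rH_iff hnf hb).2 ⟨y, hy.symm⟩
    | succ i =>
      refine ⟨l, run_petal hal, (rH_iff hnf hb).2 ⟨it H i b0, ?_⟩⟩
      rw [← hw, it_succ]

/-- The petals of the intersection. -/
def pP (H : Fin n → List (Fin n)) (b0 T : List (Fin n)) (m : ℕ) (i : Fin m) : List (Fin n) :=
  if (i : ℕ) = 0 then T else it H i b0

/-- The petals of the preimage of the intersection. -/
def pC (H : Fin n → List (Fin n)) (b0 x : List (Fin n)) (m : ℕ) (i : Fin m) : List (Fin n) :=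
  if (i : ℕ) = 0 then x else it H (i - 1) b0

theorem app_pC {x T : List (Fin n)} (hx : app H x = T) (i : Fin m) :
    app H (pC H b0 x m i) = pP H b0 T m i := by
  unfold pC pP
  split_ifs with h
  · exact hx
  · rw [← it_succ]
    congr 1
    omega

/-- The data: `T = h(x)` is the word of first return that begins with the token `w_0`; `js` are its
token indices. -/
structure XD (H : Fin n → List (Fin n)) (b0 : List (Fin n)) (m : ℕ) (x T : List (Fin n))
    (js : List ℕ) : Prop where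
  app_x : app H x = T
  tok : T = (js.map fun j => it H j b0).flatten
  lt : ∀ j ∈ js, j < m
  head : js.head? = some 0
  fi : FI (pP H b0 T m)
  li : LI (pP H b0 T m)
  ps : Ps (rQ H b0 m) (rH H) = mkR (pP H b0 T m)
  min : ∀ (y : List (Fin n)) (ks : List ℕ), app H y ≠ [] → app H y <+: T → (∀ k ∈ ks, k < m) →
    app H y = (ks.map fun j => it H j b0).flatten → app H y = T

end D0L.Bim
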