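import Pool.Agent.H.MP_374efc_lc.Bim.StepA2

/-!
# Step A when `w_0` may be a letter (helper49, TAU section 7)

The first letter map and the last letter map of `h` are `n`-cycles, `n = card α`, exactness holds
(as an inequality) and the columns of `w_0, …, w_(n-1)` are primitive (no `k ≥ 2` divides all entries
of a column, in particular if the determinant is `± 1`). If `w_(n-1)` is used in `T` then `w_(n-1)` is
a letter, and so are all `w_j`, `j < n`.
-/

set_option autoImplicit false

namespace D0L.Bim

open Finset

variable {α : Type*} [Fintype α] [DecidableEq α]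

omit [Fintype α] [DecidableEq α] in
theorem head_it {h : α → List α} {f : α → α} (hf : ∀ a, (h a).head? = some (f a)) {w : List α}
    {a : α} (hw : w.head? = some a) (j : ℕ) : (it h j w).head? = some (f^[j] a) := by
  induction j with
  | zero => exact hw
  | succ j ih =>
    rw [it_succ, Function.iterate_succ_apply']
    cases hj : it h j w with
    | nil => rw [hj] at ih; simp at ih
    | cons b t =>
      rw [hj] at ih
      obtain rfl : b = f^[j] a := by simpa using ih
      rw [app_cons, List.head?_append, hf]
      rfl

omit [Fintype α] [DecidableEq α] in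
theorem last_it {h : α → List α} {g : α → α} (hg : ∀ a, (h a).getLast? = some (g a)) {w : List α}
    {a : α} (hw : w.getLast? = some a) (j : ℕ) : (it h j w).getLast? = some (g^[j] a) := by
  induction j with
  | zero => exact hw
  | succ j ih =>
    rw [it_succ, Function.iterate_succ_apply']
    have h1 : it h j w = (it h j w).dropLast ++ [g^[j] a] := by
      have h2 : it h j w ≠ [] := by
        intro h0
        rw [h0] at ih
        simp at ih
      have h3 := List.dropLast_append_getLast h2
      rw [List.getLast?_eq_some_getLast h2] at ih
      have h4 : (it h j w).getLast h2 = g^[j] a := by simpa using ih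
      rw [h4] at h3
      exact h3.symm
    rw [h1, app_append, app_singleton, List.getLast?_append, hg]
    rfl

omit [Fintype α] in
/-- A word with exactly one `c`, which begins and ends with `c`, is a letter. -/
theorem length_one_of {w : List α} {c : α} (h1 : w.head? = some c) (h2 : w.getLast? = some c)
    (h3 : w.count c = 1) : w.length = 1 := by
  cases w with
  | nil => simp at h1
  | cons b t =>
    obtain rfl : b = c := by simpa using h1
    cases t with
    | nil => rfl
    | cons d t =>
      exfalso
      rw [List.count_cons_self] at h3
      have h4 : b ∈ d :: t := by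
        have h5 : (d :: t).getLast? = some b := by
          rw [List.getLast?_cons_cons] at h2
          exact h2
        exact List.mem_of_getLast? h5
      have h6 := List.one_le_count_iff.2 h4
      omega

/-- **Step A**, BIM, `w_0` arbitrary. -/
theorem stepA_bim {h : α → List α} {w : List α} {f g : α → α}
    (hf : ∀ a, (h a).head? = some (f a)) (hg : ∀ a, (h a).getLast? = some (g a))
    (hcf : ∀ a b, ∃ k < Fintype.card α, f^[k] a = b)
    (hcg : ∀ a b, ∃ k < Fintype.card α, g^[k] a = b) (hw : w ≠ []) {μ : ℕ → ℕ}
    (hex : ∀ a, 1 + ∑ i ∈ Finset.range (Fintype.card α - 1), μ i * (it h (i + 1) w).count a ≤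
      ∑ d, (h d).count a)
    (hn : 2 ≤ Fintype.card α) (hμ : μ (Fintype.card α - 2) ≠ 0)
    (hgcd : ∀ c k, (∀ i < Fintype.card α, k ∣ (it h i w).count c) → k = 1) :
    (it h (Fintype.card α - 1) w).length = 1 := by
  haveI : Nonempty α := Fintype.card_pos_iff.1 (by omega)
  obtain ⟨c, hc⟩ := Pth.exists_of (h := h) (stepA2_cover hex) (Fintype.card α - 2)
  have hnot : ∀ j ≤ Fintype.card α - 2, c ∉ it h j w := by
    intro j hj hcj
    obtain ⟨c', h3, h4⟩ := Pth.reach (hc.anti' (Nat.sub_le (Fintype.card α - 2) j)) hcj
    have h5 : j + (Fintype.card α - 2 - j) = Fintype.card α - 2 := by omega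
    rw [h5] at h4
    exact h3 (Fintype.card α - 2) (by omega) hμ h4
  obtain ⟨a, ha⟩ : ∃ a, w.head? = some a := by
    cases w with
    | nil => exact (hw rfl).elim
    | cons a t => exact ⟨a, rfl⟩
  obtain ⟨b, hb⟩ : ∃ b, w.getLast? = some b :=
    ⟨w.getLast hw, List.getLast?_eq_some_getLast hw⟩
  have h1 : (it h (Fintype.card α - 1) w).head? = some c := by
    obtain ⟨k, hk, hkc⟩ := hcf a c
    have h2 := head_it hf ha k
    rw [hkc] at h2
    have h3 : k = Fintype.card α - 1 := by
      by_contra hne
      exact hnot k (by omega) (List.mem_of_mem_head? (by rw [h2]; rfl))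
    rw [← h3]
    exact h2
  have h2 : (it h (Fintype.card α - 1) w).getLast? = some c := by
    obtain ⟨k, hk, hkc⟩ := hcg b c
    have h2 := last_it hg hb k
    rw [hkc] at h2
    have h3 : k = Fintype.card α - 1 := by
      by_contra hne
      exact hnot k (by omega) (List.mem_of_getLast? h2)
    rw [← h3]
    exact h2
  refine length_one_of h1 h2 (hgcd c _ fun i hi => ?_)
  by_cases hi' : i = Fintype.card α - 1
  · rw [hi']
  · rw [List.count_eq_zero.2 (hnot i (by omega))]
    exact dvd_zero _

omit [Fintype α] [DecidableEq α] in
/-- If `w_m` is a letter, so are all earlier `w_j`. -/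
theorem length_it_one {h : α → List α} (hne : ∀ a, h a ≠ []) {w : List α} (hw : w ≠ []) {m : ℕ}
    (hm : (it h m w).length = 1) {j : ℕ} (hj : j ≤ m) : (it h j w).length = 1 := by
  have h1 : ∀ j, 1 ≤ (it h j w).length := by
    intro j
    induction j with
    | zero => exact List.length_pos_of_ne_nil hw
    | succ j ih =>
      rw [it_succ]
      exact ih.trans (length_le_app hne _)
  have h2 : ∀ d, (it h j w).length ≤ (it h (j + d) w).length := by
    intro d
    induction d with
    | zero => exact le_refl _
    | succ d ih =>
      refine ih.trans ?_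
      rw [← Nat.add_assoc, it_succ]
      exact length_le_app hne _
  have h3 := h2 (m - j)
  rw [Nat.add_sub_cancel' hj, hm] at h3
  have h4 := h1 j
  omega

end D0L.Bim
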