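import Pool.Agent.H.MP_374efc_lc.Bim.NoP
import Pool.Agent.H.MP_374efc_lc.Bim.Roses
import Pool.Agent.H.MP_374efc_lc.Tr.Root3
import Pool.Agent.H.MP_374efc_lc.Bim.StepA3

/-!
# MP_374efc_lc, BIM 9.2: the form used for the non-malnormal case, and its mirror

`noP_right`: `T = flat tT` is a left factor and a suffix of `w_n`, the token word `tT` begins with `om`, the word of `om` is
primitive, `w_n` is no product of tokens with index `< n`.  Then for every nonempty token word `ta` which is a power of a
rotation of `om`, with first token `c`, the word `w_(c+n)` is not a left factor of a power of the word of `ta`.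
`noP_left`: the mirror image (`tT` ends with a rotation of `om`, `c` the last token of `ta`, suffix).
-/

set_option autoImplicit false

namespace D0L.Bim

open Tr

section words

variable {α : Type*}

theorem pw_eq_wpow (M : ℕ) (x : List α) : pw M x = wpow x M := rfl

theorem wpow_zero' (x : List α) : wpow x 0 = [] := by simp [wpow]

theorem wpow_shift (a b : List α) (d : ℕ) : wpow (a ++ b) d ++ a = a ++ wpow (b ++ a) d := by
  induction d with
  | zero => simp [wpow]
  | succ d ih => rw [wpow_succ, wpow_succ, List.append_assoc, ih]; simp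

theorem wpow_rotate (z : List α) (d k : ℕ) : (wpow z d).rotate k = wpow (z.rotate k) d := by
  induction k generalizing z with
  | zero => simp
  | succ k ih =>
    cases z with
    | nil => simp [wpow]
    | cons c z =>
      cases d with
      | zero => simp [wpow]
      | succ d =>
        have h1 : (c :: z).rotate (k + 1) = (z ++ [c]).rotate k := by
          rw [List.rotate_cons_succ]
        rw [h1, ← ih, wpow_succ, List.cons_append, List.rotate_cons_succ, List.append_assoc]
        have h2 := wpow_shift [c] z d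
        rw [List.singleton_append, List.singleton_append] at h2
        rw [h2, wpow_succ]
        simp

theorem wpow_reverse (z : List α) (d : ℕ) : (wpow z d).reverse = wpow z.reverse d := by
  unfold wpow
  rw [List.reverse_flatten]
  simp

/-- Primitive words. -/
def Pm (x : List α) : Prop := ∀ z d, x = wpow z d → d ≤ 1

theorem Pm.rotate {x : List α} (hx : Pm x) (k : ℕ) : Pm (x.rotate k) := by
  intro z d h
  refine hx (z.rotate (x.length - k % x.length)) d ?_
  rw [← wpow_rotate, ← h]
  rw [List.rotate_rotate]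
  by_cases h0 : x.length = 0
  · rw [List.length_eq_zero_iff.1 h0]; simp
  have h1 : k % x.length < x.length := Nat.mod_lt _ (by omega)
  have h2 : (k + (x.length - k % x.length)) % x.length = 0 := by
    have h3 := Nat.div_add_mod k x.length
    have h4 : k + (x.length - k % x.length) = x.length * (k / x.length + 1) := by
      rw [Nat.mul_add, Nat.mul_one]
      omega
    rw [h4, Nat.mul_mod_right]
  rw [← List.rotate_mod, h2, List.rotate_zero]

theorem Pm.reverse {x : List α} (hx : Pm x) : Pm x.reverse := by
  intro z d h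
  refine hx z.reverse d ?_
  rw [← wpow_reverse, ← h, List.reverse_reverse]

/-- Commuting words are powers of one word. -/
theorem comm_wpow : ∀ (k : ℕ) (u v : List α), u.length + v.length = k → u ++ v = v ++ u →
    ∃ (z : List α) (a b : ℕ), u = wpow z a ∧ v = wpow z b := by
  intro k
  induction k using Nat.strong_induction_on with
  | _ k ih =>
    intro u v hk h
    by_cases hu : u = []
    · exact ⟨v, 0, 1, by rw [hu, wpow_zero'], (wpow_one v).symm⟩
    by_cases hv : v = []
    · exact ⟨u, 1, 0, (wpow_one u).symm, by rw [hv, wpow_zero']⟩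
    have hu1 := List.length_pos_of_ne_nil hu
    have hv1 := List.length_pos_of_ne_nil hv
    rcases List.append_eq_append_iff.1 h with ⟨t, h1, h2⟩ | ⟨t, h1, h2⟩
    · -- `v = u ++ t`, `v = t ++ u`
      have h3 : u ++ t = t ++ u := by rw [← h1, h2]
      have h4 := congrArg List.length h1
      rw [List.length_append] at h4
      obtain ⟨z, a, b, h5, h6⟩ := ih (u.length + t.length) (by omega) u t rfl h3
      exact ⟨z, a, a + b, h5, by rw [h1, wpow_add, ← h5, ← h6]⟩
    · -- `u = v ++ t`, `u = t ++ v`
      have h3 : v ++ t = t ++ v := by rw [← h1, h2]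
      have h4 := congrArg List.length h1
      rw [List.length_append] at h4
      obtain ⟨z, a, b, h5, h6⟩ := ih (v.length + t.length) (by omega) v t rfl h3
      exact ⟨z, a + b, a, by rw [h1, wpow_add, ← h5, ← h6], h5⟩

theorem Pm.comm {x : List α} (hx : Pm x) (u v : List α) (h : x = u ++ v) (h' : v ++ u = u ++ v) :
    u = [] ∨ v = [] := by
  obtain ⟨z, a, b, h1, h2⟩ := comm_wpow _ u v rfl h'.symm
  have h3 := hx z (a + b) (by rw [h, wpow_add, ← h1, ← h2])
  rcases Nat.eq_zero_or_pos a with h4 | h4
  · left
    rw [h1, h4, wpow_zero']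
  · right
    have h5 : b = 0 := by omega
    rw [h2, h5, wpow_zero']

theorem flw_rotate (w : ℕ → List α) (E : List ℕ) (k : ℕ) :
    ∃ k', flw w (E.rotate k) = (flw w E).rotate k' := by
  induction k generalizing E with
  | zero => exact ⟨0, by simp⟩
  | succ k ih =>
    cases E with
    | nil => exact ⟨0, by simp⟩
    | cons e E =>
      obtain ⟨k', hk'⟩ := ih (E ++ [e])
      refine ⟨(w e).length + k', ?_⟩
      rw [List.rotate_cons_succ, hk', ← List.rotate_rotate, flw_cons, flw_append,
        List.rotate_append_length_eq]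
      simp [flw]

theorem flw_rotate_pm {w : ℕ → List α} {E : List ℕ} (h : Pm (flw w E)) (k : ℕ) :
    Pm (flw w (E.rotate k)) := by
  obtain ⟨k', hk'⟩ := flw_rotate w E k
  rw [hk']
  exact h.rotate k'

/-- `noP` for the powers of the rotations. -/
theorem noP_rotate {w : ℕ → List α} {n : ℕ} (hne : ∀ i, w i ≠ [])
    (hinj : ∀ i < n, ∀ j < n, (w i).head? = (w j).head? → i = j)
    (hper : ∀ i, (w (i + n)).head? = (w i).head?)
    (hsh : ∀ (E : List ℕ) (c j : ℕ), flw w E <+: w j → flw w (E.map (· + c)) <+: w (j + c))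
    {tT om : List ℕ} (htT : ∀ e ∈ tT, e < n) (hom : om ≠ []) (hTom : om <+: tT)
    (hprim : Pm (flw w om))
    (hpre : flw w tT <+: w n) (hsuf : flw w tT <:+ w n)
    (hn : ∀ E : List ℕ, (∀ e ∈ E, e < n) → w n ≠ flw w E)
    {c r : ℕ} (hc : (om.rotate r).head? = some c) (M : ℕ) :
    ¬ w (c + n) <+: flw w (wpow (om.rotate r) M) := by
  obtain ⟨t', rfl⟩ := hTom
  have hlen : 0 < om.length := List.length_pos_of_ne_nil hom
  have hr : om.rotate r = om.drop (r % om.length) ++ om.take (r % om.length) := by
    rw [← List.rotate_eq_drop_append_take (Nat.mod_lt _ hlen).le, List.rotate_mod]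
  obtain ⟨p, hp⟩ : ∃ p, p = om.take (r % om.length) := ⟨_, rfl⟩
  obtain ⟨s, hs⟩ : ∃ s, s = om.drop (r % om.length) := ⟨_, rfl⟩
  have hps : om = p ++ s := by rw [hp, hs, List.take_append_drop]
  rw [← hp, ← hs] at hr
  have hs0 : s ≠ [] := by
    intro h0
    rw [hs, List.drop_eq_nil_iff] at h0
    have := Nat.mod_lt r hlen
    omega
  rw [hr] at hc ⊢
  rw [head_append hs0] at hc
  have hcn : c < n := by
    refine htT c (List.mem_append_left _ ?_)
    rw [hps]
    refine List.mem_append_right _ ?_
    rw [Option.mem_def.symm.eq] at hc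
    exact List.mem_of_mem_head? hc
  intro hpr
  cases M with
  | zero =>
    rw [wpow_zero'] at hpr
    exact hne _ (List.prefix_nil.1 hpr)
  | succ M =>
    refine noP hne hinj hper hsh htT hom rfl hprim.comm hpre hsuf hn c p s (M + 1) hcn hps hc ?_
    refine hpr.trans ?_
    rw [wpow_succ, List.append_assoc]
    have h1 : p ++ wpow (s ++ p) M <+: wpow (p ++ s) (M + 1) := by
      rw [← wpow_shift, wpow_add, wpow_one]
      exact (List.prefix_append_right_inj _).2 (List.prefix_append _ _)
    have h2 : s ++ (p ++ wpow (s ++ p) M) <+: s ++ pw (M + 1) om := by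
      rw [pw_eq_wpow, hps]
      exact (List.prefix_append_right_inj _).2 h1
    obtain ⟨t, ht⟩ := h2
    refine ⟨flw w t, ?_⟩
    rw [← flw_append, ht]

end words

variable {n N : ℕ} {H : Fin n → List (Fin n)} {b0 : List (Fin n)}

/-- The words of the system. -/
def wd (H : Fin n → List (Fin n)) (b0 : List (Fin n)) (i : ℕ) : List (Fin n) := it H i b0

theorem flw_wd (E : List ℕ) : flw (wd H b0) E = (E.map fun j => it H j b0).flatten := rfl

theorem flw_wd_shift (E : List ℕ) (c : ℕ) :
    flw (wd H b0) (E.map (· + c)) = it H c (flw (wd H b0) E) := by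
  rw [flw, flw, it_flatten, List.map_map, List.map_map]
  congr 1
  apply List.map_congr_left
  intro j _
  simp only [Function.comp, wd]
  rw [Nat.add_comm j c, it_add]

theorem wd_shift (j c : ℕ) : wd H b0 (j + c) = it H c (wd H b0 j) := by
  rw [wd, wd, Nat.add_comm, it_add]

theorem wd_sh (E : List ℕ) (c j : ℕ) (h : flw (wd H b0) E <+: wd H b0 j) :
    flw (wd H b0) (E.map (· + c)) <+: wd H b0 (j + c) := by
  obtain ⟨t, ht⟩ := h
  exact ⟨it H c t, by rw [flw_wd_shift, wd_shift, ← it_append, ht]⟩

theorem wd_sh' (E : List ℕ) (c j : ℕ) (h : flw (wd H b0) E <:+ wd H b0 j) :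
    flw (wd H b0) (E.map (· + c)) <:+ wd H b0 (j + c) := by
  obtain ⟨t, ht⟩ := h
  exact ⟨it H c t, by rw [flw_wd_shift, wd_shift, ← it_append, ht]⟩

/-- The orbit of an injective map of a set with `n` elements, whose first `n` points are different, has period `n`. -/
theorem period_of_inj {β : Type*} [Fintype β] {φ : β → β} (hφ : Function.Injective φ) {x : β}
    {n : ℕ} (hcard : Fintype.card β = n) (hn : 0 < n)
    (hinj : ∀ i < n, ∀ j < n, φ^[i] x = φ^[j] x → i = j) : φ^[n] x = x := by
  have h1 : ¬ Function.Injective (fun i : Fin (n + 1) => φ^[(i : ℕ)] x) := by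
    intro h
    have h2 := Fintype.card_le_of_injective _ h
    rw [Fintype.card_fin, hcard] at h2
    omega
  rw [Function.Injective] at h1
  push Not at h1
  obtain ⟨a, b, hab, hne⟩ := h1
  have key : ∀ i j : ℕ, i < j → j ≤ n → φ^[i] x = φ^[j] x → φ^[n] x = x := by
    intro i j hij hj h
    obtain ⟨k, rfl⟩ := Nat.exists_eq_add_of_lt hij
    have h2 : φ^[i] x = φ^[i] (φ^[k + 1] x) := by
      rw [← Function.iterate_add_apply]
      exact h
    have h3 : x = φ^[k + 1] x := (hφ.iterate i) h2
    rcases Nat.lt_or_ge (k + 1) n with h4 | h4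
    · have h5 := hinj 0 hn (k + 1) h4 h3
      omega
    · have h5 : k + 1 = n := by omega
      rw [← h5, ← h3]
  rcases Nat.lt_or_ge (a : ℕ) (b : ℕ) with h | h
  · exact key a b h (by omega) hab
  · refine key b a ?_ (by omega) hab.symm
    rcases Nat.lt_or_ge (b : ℕ) (a : ℕ) with h' | h'
    · exact h'
    · exact absurd (Fin.ext (by omega)) hne

theorem head_per (hnf : NF H b0 N) (hb : Bmk H) (i : ℕ) :
    (it H (i + n) b0).head? = (it H i b0).head? := by
  have hn := pos_n hnf
  choose φ l hφ using fun a => List.exists_cons_of_ne_nil (H_ne hnf a)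
  obtain ⟨a0, l0, ha0⟩ := List.exists_cons_of_ne_nil hnf.ne
  have h1 : ∀ k, (it H k b0).head? = some (φ^[k] a0) := fun k =>
    head_it (fun a => by rw [hφ a]; rfl) (by rw [ha0]; rfl) k
  have h2 : Function.Injective φ := by
    intro a b hab
    have h3 := hφ a
    rw [hab] at h3
    exact hb.fst a b _ _ _ h3 (hφ b)
  have h3 : φ^[n] a0 = a0 := by
    refine period_of_inj h2 (Fintype.card_fin n) hn ?_
    intro i hi j hj hij
    have h4 : ∀ k, ∃ s, it H k b0 = φ^[k] a0 :: s := by
      intro k
      have h5 := h1 k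
      obtain ⟨b, s, hs⟩ := List.exists_cons_of_ne_nil (it_ne hnf k)
      rw [hs, List.head?_cons] at h5
      exact ⟨s, by rw [hs, Option.some.inj h5]⟩
    obtain ⟨s, hs⟩ := h4 i
    obtain ⟨t, ht⟩ := h4 j
    rw [hij] at hs
    have h6 := first_unique hnf (i := ⟨i, hi⟩) (j := ⟨j, hj⟩) hs ht
    exact congrArg Fin.val h6
  rw [h1, h1, Function.iterate_add_apply, h3]

theorem last_per (hnf : NF H b0 N) (hb : Bmk H) (i : ℕ) :
    (it H (i + n) b0).getLast? = (it H i b0).getLast? := by
  have hn := pos_n hnf
  have hsplit : ∀ x : List (Fin n), x ≠ [] → ∃ (a : Fin n) (l : List (Fin n)), x = l ++ [a] :=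
    fun x hx => ⟨x.getLast hx, x.dropLast, (List.dropLast_append_getLast hx).symm⟩
  choose φ l hφ using fun a => hsplit (H a) (H_ne hnf a)
  obtain ⟨a0, l0, ha0⟩ := hsplit b0 hnf.ne
  have h1 : ∀ k, (it H k b0).getLast? = some (φ^[k] a0) := fun k =>
    last_it (fun a => by rw [hφ a]; simp) (by rw [ha0]; simp) k
  have h2 : Function.Injective φ := by
    intro a b hab
    have h3 := hφ a
    rw [hab] at h3
    exact hb.lst a b _ _ _ h3 (hφ b)
  have h3 : φ^[n] a0 = a0 := by
    refine period_of_inj h2 (Fintype.card_fin n) hn ?_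
    intro i hi j hj hij
    have h4 : ∀ k, ∃ s, it H k b0 = s ++ [φ^[k] a0] := by
      intro k
      have h5 := h1 k
      obtain ⟨b, s, hs⟩ := hsplit _ (it_ne hnf k)
      rw [hs, List.getLast?_append] at h5
      have h6 : b = φ^[k] a0 := by simpa using h5
      exact ⟨s, by rw [hs, h6]⟩
    obtain ⟨s, hs⟩ := h4 i
    obtain ⟨t, ht⟩ := h4 j
    rw [hij] at hs
    have h6 := last_unique hnf (i := ⟨i, hi⟩) (j := ⟨j, hj⟩) hs ht
    exact congrArg Fin.val h6
  rw [h1, h1, Function.iterate_add_apply, h3]

theorem head_inj (hnf : NF H b0 N) (i : ℕ) (hi : i < n) (j : ℕ) (hj : j < n)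
    (h : (it H i b0).head? = (it H j b0).head?) : i = j := by
  obtain ⟨a, s, hs⟩ := List.exists_cons_of_ne_nil (it_ne hnf i)
  obtain ⟨b, t, ht⟩ := List.exists_cons_of_ne_nil (it_ne hnf j)
  rw [hs, ht, List.head?_cons, List.head?_cons] at h
  rw [← Option.some.inj h] at ht
  exact congrArg Fin.val (first_unique hnf (i := ⟨i, hi⟩) (j := ⟨j, hj⟩) hs ht)

theorem last_inj (hnf : NF H b0 N) (i : ℕ) (hi : i < n) (j : ℕ) (hj : j < n)
    (h : (it H i b0).getLast? = (it H j b0).getLast?) : i = j := by
  have hs := List.dropLast_append_getLast (it_ne hnf i)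
  have ht := List.dropLast_append_getLast (it_ne hnf j)
  rw [List.getLast?_eq_some_getLast (it_ne hnf i), List.getLast?_eq_some_getLast (it_ne hnf j)] at h
  rw [← Option.some.inj h] at ht
  exact congrArg Fin.val (last_unique hnf (i := ⟨i, hi⟩) (j := ⟨j, hj⟩) hs.symm ht.symm)

/-- **9.2 (P)**, right form. -/
theorem noP_right (hnf : NF H b0 N) (hb : Bmk H) {tT om : List ℕ} (htT : ∀ e ∈ tT, e < n)
    (hom : om ≠ []) (hTom : om <+: tT) (hprim : Pm (flw (wd H b0) om))
    (hpre : flw (wd H b0) tT <+: it H n b0) (hsuf : flw (wd H b0) tT <:+ it H n b0)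
    (hn : ∀ E : List ℕ, (∀ e ∈ E, e < n) → it H n b0 ≠ flw (wd H b0) E)
    {ta : List ℕ} {r e c : ℕ} (hta : ta = wpow (om.rotate r) e) (hc : ta.head? = some c) (M : ℕ) :
    ¬ it H (c + n) b0 <+: wpow (flw (wd H b0) ta) M := by
  have hne : ∀ i, wd H b0 i ≠ [] := it_ne hnf
  have h0 : om.rotate r ≠ [] := by
    intro h
    exact hom (List.rotate_eq_nil_iff.1 h)
  have hc' : (om.rotate r).head? = some c := by
    cases e with
    | zero =>
      rw [hta, wpow_zero'] at hc
      simp at hc
    | succ e =>
      rw [hta, wpow_succ, head_append h0] at hc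
      exact hc
  have h1 := noP_rotate hne (head_inj hnf) (head_per hnf hb) wd_sh htT hom hTom hprim hpre hsuf hn
    hc' (e * M)
  rw [← pw_eq_wpow, ← flw_pw, pw_eq_wpow, hta, wpow_wpow]
  exact h1

theorem flw_reverse (w : ℕ → List (Fin n)) (E : List ℕ) :
    flw (fun i => (w i).reverse) E.reverse = (flw w E).reverse := by
  induction E with
  | nil => rfl
  | cons e E ih =>
    rw [List.reverse_cons, flw_append, ih, flw_cons, flw_nil, flw_cons w, List.reverse_append,
      List.append_nil]

theorem flw_reverse' (w : ℕ → List (Fin n)) (E : List ℕ) :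
    flw (fun i => (w i).reverse) E = (flw w E.reverse).reverse := by
  rw [← flw_reverse, List.reverse_reverse]

theorem head?_rev {α : Type*} (x : List α) : x.reverse.head? = x.getLast? := by
  simp

/-- **9.2 (P)**, left form. -/
theorem noP_left (hnf : NF H b0 N) (hb : Bmk H) {tT om : List ℕ} {q : ℕ} (htT : ∀ e ∈ tT, e < n)
    (hom : om ≠ []) (hTom : om.rotate q <:+ tT) (hprim : Pm (flw (wd H b0) om))
    (hpre : flw (wd H b0) tT <+: it H n b0) (hsuf : flw (wd H b0) tT <:+ it H n b0)
    (hn : ∀ E : List ℕ, (∀ e ∈ E, e < n) → it H n b0 ≠ flw (wd H b0) E)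
    {ta : List ℕ} {r e c : ℕ} (hta : ta = wpow (om.rotate r) e) (hc : ta.getLast? = some c)
    (M : ℕ) : ¬ it H (c + n) b0 <:+ wpow (flw (wd H b0) ta) M := by
  have hlen : 0 < om.length := List.length_pos_of_ne_nil hom
  have h0 : om.rotate r ≠ [] := by
    intro h
    exact hom (List.rotate_eq_nil_iff.1 h)
  have hom' : (om.rotate q).reverse ≠ [] := by
    intro h
    exact hom (List.rotate_eq_nil_iff.1 (List.reverse_eq_nil_iff.1 h))
  -- the rotation
  obtain ⟨r', hr'⟩ : ∃ r', (om.rotate r).reverse = (om.rotate q).reverse.rotate r' := by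
    have h1 : om.rotate r = (om.rotate q).rotate (r + (om.length - q % om.length)) := by
      rw [List.rotate_rotate]
      have h2 : q % om.length < om.length := Nat.mod_lt _ hlen
      have h3 := Nat.div_add_mod q om.length
      have h4 : q + (r + (om.length - q % om.length)) = r + om.length * (q / om.length + 1) := by
        rw [Nat.mul_add, Nat.mul_one]
        omega
      rw [h4, ← List.rotate_mod om (r + om.length * (q / om.length + 1)), Nat.add_mul_mod_self_left,
        List.rotate_mod]
    rw [h1, List.reverse_rotate]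
    exact ⟨_, rfl⟩
  have hc' : ((om.rotate q).reverse.rotate r').head? = some c := by
    rw [← hr', head?_rev]
    cases e with
    | zero =>
      rw [hta, wpow_zero'] at hc
      simp at hc
    | succ e =>
      rw [hta, wpow_add, wpow_one, List.getLast?_append] at hc
      rw [List.getLast?_eq_some_getLast h0] at hc ⊢
      exact hc
  have hne : ∀ i, (fun i => (wd H b0 i).reverse) i ≠ [] := by
    intro i h
    exact it_ne hnf i (List.reverse_eq_nil_iff.1 h)
  have h1 := noP_rotate (w := fun i => (wd H b0 i).reverse) (n := n) hne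
    (fun i hi j hj h => by
      simp only [head?_rev] at h
      exact last_inj hnf i hi j hj h)
    (fun i => by
      simp only [head?_rev]
      exact last_per hnf hb i)
    (fun E c j h => by
      rw [flw_reverse'] at h ⊢
      have h2 : flw (wd H b0) E.reverse <:+ wd H b0 j := List.reverse_prefix.1 h
      have h3 := wd_sh' E.reverse c j h2
      rw [← List.map_reverse]
      exact List.reverse_prefix.2 h3)
    (tT := tT.reverse) (om := (om.rotate q).reverse)
    (fun e he => htT e (List.mem_reverse.1 he)) hom' (List.reverse_prefix.2 hTom)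
    (by
      rw [flw_reverse]
      exact (flw_rotate_pm hprim q).reverse)
    (by
      rw [flw_reverse]
      exact List.reverse_prefix.2 hsuf)
    (by
      rw [flw_reverse]
      exact List.reverse_suffix.2 hpre)
    (fun E hE h => by
      rw [flw_reverse'] at h
      exact hn E.reverse (fun e he => hE e (List.mem_reverse.1 he)) (List.reverse_injective h))
    hc' (e * M)
  intro h2
  apply h1
  rw [← hr', ← wpow_reverse, flw_reverse, ← wpow_wpow, ← hta]
  have h3 : flw (wd H b0) (wpow ta M) = wpow (flw (wd H b0) ta) M := by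
    rw [← pw_eq_wpow, flw_pw, pw_eq_wpow]
  rw [h3]
  exact List.reverse_prefix.2 h2

/-- The form of `T` in (4.3): `T = (x u)^(k+1) x`. -/
theorem tT_form {x u : List ℕ} {k : ℕ} {tT : List ℕ} (h : tT = wpow (x ++ u) (k + 1) ++ x) :
    (x ++ u) <+: tT ∧ (x ++ u).rotate x.length <:+ tT := by
  constructor
  · rw [h, wpow_succ, List.append_assoc]
    exact List.prefix_append _ _
  · rw [List.rotate_append_length_eq, h, wpow_shift, Nat.add_comm k 1, Nat.add_comm 1 k, wpow_add,
      wpow_one, ← List.append_assoc]
    exact List.suffix_append _ _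

end D0L.Bim
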