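import Pool.Agent.H.MP_374efc_lc.Tr.Loc
import Pool.Agent.H.MP_374efc_lc.Tr.Key
import Pool.Agent.H.MP_374efc_lc.Tr.Sub
import Pool.Agent.H.MP_374efc_lc.Bim.NoP2
import Pool.Agent.H.MP_374efc_lc.Bim.XData2

/-!
# (C): big tokens are no prefixes / suffixes of powers of bad token words

`fl j` is the first letter of `w_j`. A nonempty word `v` which is a product of tokens `w_i`, `i < n`, and
a loop at two different states of the rose of `H` (one of them the base, the other one joined to the base of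
`W`) is the word of a power of a rotation of the token word `om` of the circle combinatorics
(`bad_index`). By 9.2 no `w_j`, `j ≥ n`, is a prefix or a suffix of a power of `v` (`hC_right`,
`hC_left`).
-/

set_option autoImplicit false

namespace D0L.Bim

open D0L.Tr (Bim Rose IsSt run Key TD flat pet Tok Ret wpow FI LI mkR BadT BadW)

variable {n N m : ℕ} {H : Fin n → List (Fin n)} {b0 x T : List (Fin n)} {js : List ℕ}
  {fl : ℕ → Fin n}

theorem hc_pet (hnf : NF H b0 N) (hfl : ∀ j, ∃ l, it H j b0 = fl j :: l) {j : ℕ} (hj : j < n) :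
    pet (rQ H b0 n) (fl j) = it H j b0 := by
  obtain ⟨l, hl⟩ := hfl j
  have h1 : rQ H b0 n (fl j) = some l := (rQ_some hnf le_rfl).2 ⟨j, hj, hl⟩
  rw [pet, h1, hl]
  rfl

theorem hc_flat (hnf : NF H b0 N) (hfl : ∀ j, ∃ l, it H j b0 = fl j :: l) {ks : List ℕ}
    (hks : ∀ j ∈ ks, j < n) : flat (rQ H b0 n) (ks.map fl) = flw (wd H b0) ks := by
  unfold flat flw
  rw [List.map_map]
  congr 1
  exact List.map_congr_left fun j hj => hc_pet hnf hfl (hks j hj)

theorem hc_inj (hnf : NF H b0 N) (hfl : ∀ j, ∃ l, it H j b0 = fl j :: l) {i j : ℕ} (hi : i < n)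
    (hj : j < n) (h : fl i = fl j) : i = j := by
  obtain ⟨l, hl⟩ := hfl i
  obtain ⟨l', hl'⟩ := hfl j
  refine head_inj hnf i hi j hj ?_
  rw [hl, hl', h]
  rfl

theorem hc_ix (hnf : NF H b0 N) (hfl : ∀ j, ∃ l, it H j b0 = fl j :: l) :
    ∃ ix : Fin n → ℕ, (∀ a, ix a < n) ∧ (∀ a, fl (ix a) = a) ∧ ∀ j, j < n → ix (fl j) = j := by
  have h1 : ∀ a : Fin n, ∃ i : ℕ, i < n ∧ fl i = a := by
    intro a
    obtain ⟨i, s, hs⟩ := exists_first hnf a
    obtain ⟨l, hl⟩ := hfl i
    refine ⟨i, i.2, ?_⟩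
    rw [hl] at hs
    exact (List.cons.inj hs).1
  choose ix h2 h3 using h1
  exact ⟨ix, h2, h3, fun j hj => hc_inj hnf hfl (h2 _) hj (h3 _)⟩

theorem hc_wpow_map {α β : Type*} (g : α → β) (z : List α) (d : ℕ) :
    (wpow z d).map g = wpow (z.map g) d := by
  unfold wpow
  rw [List.map_flatten, List.map_replicate]

/-- The bad token words, in indices. -/
theorem bad_index (hnf : NF H b0 N) (hb : Bmk H) (hfl : ∀ j, ∃ l, it H j b0 = fl j :: l)
    {js' : List ℕ} (hjs : ∀ j ∈ 0 :: js', j < n) (hlast : js'.getLast? = some 0)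
    (hT : TD (rQ H b0 n) (rH H) (fl 0) (js'.map fl))
    (hfull : ∀ a, ∃ l, rQ H b0 n a = some l)
    (hspan : ∀ p : ℕ, p.Prime → ∀ c : Fin n → ZMod p,
      (∀ a l, rQ H b0 n a = some l → ((a :: l).map c).sum = 0) → c = 0)
    {s v : List (Fin n)} (hs : IsSt (rH H) s) (hne : s ≠ [])
    (hrel : Tr.Rel (rQ H b0 n) (rH H) [] s) (hv : v ≠ []) (hv1 : run (rQ H b0 n) [] v = some [])
    (hv2 : run (rH H) s v = some s) (hv3 : run (rH H) [] v = some []) :
    ∃ (om ta : List ℕ) (r e q : ℕ), om ≠ [] ∧ om <+: 0 :: js' ∧ om.rotate q <:+ 0 :: js' ∧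
      Pm (flw (wd H b0) om) ∧ ta = wpow (om.rotate r) e ∧ v = flw (wd H b0) ta ∧ ta ≠ [] ∧
      ∀ i ∈ ta, i < n := by
  have hW : Bim (rQ H b0 n) := rQ_bim hnf le_rfl
  have hrel0 : Tr.Rel (rQ H b0 n) (rH H) [] [] := ⟨[], rfl, rfl⟩
  obtain ⟨τ, p, p', h1, h2, h3, h4, h5, h6, h7, h8, -, -⟩ :=
    hT.bad_of (rH_bim hb) hv hs (Tr.isSt_nil _) hrel hrel0 hne hv1 hv2 hv3
  have hbad : BadW (fl 0) (js'.map fl) τ p p' := ⟨h3, h4, h5, h6, h7, h8⟩
  have hl : (js'.map fl).getLast? = some (fl 0) := by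
    rw [List.getLast?_map, hlast]
    rfl
  rcases Tr.circ hl with hno | ⟨x, u, k, hrep, hprim, hall⟩
  · exact (hno τ p p' hbad).elim
  obtain ⟨r, e, -, he, hτ⟩ := hall τ p p' hbad
  obtain ⟨ix, hix, hfi, hif⟩ := hc_ix hnf hfl
  have hmapix : ∀ ks : List ℕ, (∀ j ∈ ks, j < n) → (ks.map fl).map ix = ks := by
    intro ks hks
    rw [List.map_map]
    conv_rhs => rw [← List.map_id ks]
    exact List.map_congr_left fun j hj => hif j (hks j hj)
  have hmapfl : ∀ τ : List (Fin n), (τ.map ix).map fl = τ := by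
    intro τ
    rw [List.map_map]
    conv_rhs => rw [← List.map_id τ]
    exact List.map_congr_left fun a _ => hfi a
  have hix' : ∀ (τ : List (Fin n)), ∀ i ∈ τ.map ix, i < n := by
    intro τ i hi
    obtain ⟨a, -, rfl⟩ := List.mem_map.1 hi
    exact hix a
  -- the token word of `T`
  obtain ⟨k', hk'⟩ : ∃ k', k = k' + 2 := ⟨k - 2, by have := hrep.two; omega⟩
  have hTe : (0 :: js') = wpow (x.map ix ++ u.map ix) (k' + 1) ++ x.map ix := by
    have h9 := congrArg (List.map ix) hrep.eq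
    rw [← List.map_cons (f := fl), hmapix _ hjs, hk', List.map_append, hc_wpow_map,
      List.map_append] at h9
    exact h9
  obtain ⟨ho1, ho2⟩ := tT_form hTe
  have hxne : x ≠ [] := by
    intro h0
    have := hrep.head
    rw [h0] at this
    simp at this
  have hone : x.map ix ++ u.map ix ≠ [] := by
    intro h0
    have h9 := (List.append_eq_nil_iff.1 h0).1
    rw [List.map_eq_nil_iff] at h9
    exact hxne h9
  have hmap : (x ++ u).map ix = x.map ix ++ u.map ix := List.map_append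
  refine ⟨x.map ix ++ u.map ix, τ.map ix, r, e, _, hone, ho1, ho2, ?_, ?_, ?_, ?_, hix' τ⟩
  · -- primitivity of the word of `om`
    intro y d hy
    rcases Nat.eq_zero_or_pos d with h0 | h0
    · omega
    have h9 : flw (wd H b0) (x.map ix ++ u.map ix) = flat (rQ H b0 n) (x ++ u) := by
      rw [← hmap, ← hc_flat hnf hfl (hix' _), hmapfl]
    have htok : Tok (rQ H b0 n) (x ++ u) := fun a _ => hfull a
    have h10 : run (rQ H b0 n) [] (wpow y d) = some [] := by
      rw [← hy, h9]
      exact Tr.run_flat htok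
    obtain ⟨τy, h11, -⟩ := Tr.exists_tok (Tr.root_closure hW hfull hspan h0 h10)
    rw [h9, h11, ← Tr.flat_wpow] at hy
    exact (hprim τy d (Tr.flat_inj hy)).le
  · rw [hτ, hc_wpow_map, List.map_rotate, hmap]
  · rw [h1, ← hc_flat hnf hfl (hix' _), hmapfl]
  · intro h0
    rw [List.map_eq_nil_iff] at h0
    exact h3 h0

/-- `w_i` is a prefix of `w_(i + n l)`. -/
theorem pre_mul (h0 : b0 <+: it H n b0) (i l : ℕ) : it H i b0 <+: it H (i + n * l) b0 := by
  have h1 : ∀ l, b0 <+: it H (n * l) b0 := by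
    intro l
    induction l with
    | zero => simp [it_zero]
    | succ l ih =>
      have h2 : it H (n * (l + 1)) b0 = it H n (it H (n * l) b0) := by
        rw [← it_add]
        congr 1
        ring
      rw [h2]
      obtain ⟨t, ht⟩ := ih
      rw [← ht, it_append]
      exact h0.trans (List.prefix_append _ _)
  obtain ⟨t, ht⟩ := h1 l
  rw [it_add, ← ht, it_append]
  exact List.prefix_append _ _

/-- `w_i` is a suffix of `w_(i + n l)`. -/
theorem suf_mul (h0 : b0 <:+ it H n b0) (i l : ℕ) : it H i b0 <:+ it H (i + n * l) b0 := by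
  have h1 : ∀ l, b0 <:+ it H (n * l) b0 := by
    intro l
    induction l with
    | zero => simp [it_zero]
    | succ l ih =>
      have h2 : it H (n * (l + 1)) b0 = it H n (it H (n * l) b0) := by
        rw [← it_add]
        congr 1
        ring
      rw [h2]
      obtain ⟨t, ht⟩ := ih
      rw [← ht, it_append]
      exact h0.trans (List.suffix_append _ _)
  obtain ⟨t, ht⟩ := h1 l
  rw [it_add, ← ht, it_append]
  exact List.suffix_append _ _

theorem head_mod (hnf : NF H b0 N) (hb : Bmk H) (i l : ℕ) :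
    (it H (i + n * l) b0).head? = (it H i b0).head? := by
  induction l with
  | zero => simp
  | succ l ih =>
    rw [← ih, ← head_per hnf hb (i + n * l), Nat.mul_succ, Nat.add_assoc]

theorem last_mod (hnf : NF H b0 N) (hb : Bmk H) (i l : ℕ) :
    (it H (i + n * l) b0).getLast? = (it H i b0).getLast? := by
  induction l with
  | zero => simp
  | succ l ih =>
    rw [← ih, ← last_per hnf hb (i + n * l), Nat.mul_succ, Nat.add_assoc]

section

variable (hnf : NF H b0 N) (hb : Bmk H) (hfl : ∀ j, ∃ l, it H j b0 = fl j :: l)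
    {js' : List ℕ} (hjs : ∀ j ∈ 0 :: js', j < n) (hlast : js'.getLast? = some 0)
    (hTe : T = flw (wd H b0) (0 :: js'))
    (hT : TD (rQ H b0 n) (rH H) (fl 0) (js'.map fl))
    (hfull : ∀ a, ∃ l, rQ H b0 n a = some l)
    (hspan : ∀ p : ℕ, p.Prime → ∀ c : Fin n → ZMod p,
      (∀ a l, rQ H b0 n a = some l → ((a :: l).map c).sum = 0) → c = 0)
    (hpre : T <+: it H n b0) (hsuf : T <:+ it H n b0)
    (hn : ∀ E : List ℕ, (∀ e ∈ E, e < n) → it H n b0 ≠ flw (wd H b0) E)

include hnf hb hfl hjs hlast hTe hT hfull hspan hpre hsuf hn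

theorem hC_right {s v : List (Fin n)} (hs : IsSt (rH H) s) (hne : s ≠ [])
    (hrel : Tr.Rel (rQ H b0 n) (rH H) [] s) (hv : v ≠ []) (hv1 : run (rQ H b0 n) [] v = some [])
    (hv2 : run (rH H) s v = some s) (hv3 : run (rH H) [] v = some []) {j : ℕ} (hj : n ≤ j)
    (k : ℕ) : ¬ it H j b0 <+: wpow v k := by
  obtain ⟨om, ta, r, e, q, h1, h2, h3, h4, h5, h6, h7, h8⟩ :=
    bad_index hnf hb hfl hjs hlast hT hfull hspan hs hne hrel hv hv1 hv2 hv3
  intro hcon
  obtain ⟨c, ta', rfl⟩ := List.exists_cons_of_ne_nil h7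
  have hc : c < n := h8 c List.mem_cons_self
  have hn0 : 0 < n := pos_n hnf
  have hjd := Nat.div_add_mod j n
  have hl : 1 ≤ j / n := (Nat.one_le_div_iff hn0).2 hj
  have hjm : j % n < n := Nat.mod_lt _ hn0
  -- first letters
  have hk : k ≠ 0 := by
    rintro rfl
    have h9 : wpow v 0 = [] := by simp [wpow]
    rw [h9, List.prefix_nil] at hcon
    exact it_ne hnf j hcon
  obtain ⟨k', rfl⟩ : ∃ k', k = k' + 1 := ⟨k - 1, by omega⟩
  have h10 : (it H c b0).head? = (it H (j % n) b0).head? := by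
    have h11 := head_of_prefix hcon (it_ne hnf j)
    have h12 : (wpow v (k' + 1)).head? = (it H c b0).head? := by
      rw [Tr.wpow_succ, head_append hv, h6, flw_cons]
      exact head_append (it_ne hnf c)
    rw [h12] at h11
    rw [h11]
    conv_lhs => rw [← hjd, Nat.add_comm]
    exact head_mod hnf hb (j % n) (j / n)
  have hcj : c = j % n := head_inj hnf c hc (j % n) hjm h10
  have hb0 : b0 <+: it H n b0 := by
    refine List.IsPrefix.trans ?_ hpre
    rw [hTe, flw_cons]
    exact List.prefix_append _ _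
  have hpj : it H (c + n) b0 <+: it H j b0 := by
    have h11 := pre_mul hb0 (c + n) (j / n - 1)
    have h12 : c + n + n * (j / n - 1) = j := by
      obtain ⟨l, hl'⟩ : ∃ l, j / n = l + 1 := ⟨j / n - 1, by omega⟩
      rw [hl'] at hjd ⊢
      rw [Nat.add_sub_cancel, hcj]
      rw [Nat.mul_add, Nat.mul_one] at hjd
      omega
    rwa [h12] at h11
  refine noP_right hnf hb hjs h1 h2 h4 (by rw [← hTe]; exact hpre) (by rw [← hTe]; exact hsuf) hn h5
    (c := c) rfl (k' + 1) ?_
  rw [← h6]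
  exact hpj.trans hcon

theorem hC_left {s v : List (Fin n)} (hs : IsSt (rH H) s) (hne : s ≠ [])
    (hrel : Tr.Rel (rQ H b0 n) (rH H) [] s) (hv : v ≠ []) (hv1 : run (rQ H b0 n) [] v = some [])
    (hv2 : run (rH H) s v = some s) (hv3 : run (rH H) [] v = some []) {j : ℕ} (hj : n ≤ j)
    (k : ℕ) : ¬ it H j b0 <:+ wpow v k := by
  obtain ⟨om, ta, r, e, q, h1, h2, h3, h4, h5, h6, h7, h8⟩ :=
    bad_index hnf hb hfl hjs hlast hT hfull hspan hs hne hrel hv hv1 hv2 hv3
  intro hcon
  obtain ⟨ta', c, rfl⟩ : ∃ ta' c, ta = ta' ++ [c] :=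
    ⟨_, _, (List.dropLast_append_getLast h7).symm⟩
  have hc : c < n := h8 c (by simp)
  have hn0 : 0 < n := pos_n hnf
  have hjd := Nat.div_add_mod j n
  have hl : 1 ≤ j / n := (Nat.one_le_div_iff hn0).2 hj
  have hjm : j % n < n := Nat.mod_lt _ hn0
  have hk : k ≠ 0 := by
    rintro rfl
    have h9 : wpow v 0 = [] := by simp [wpow]
    rw [h9, List.suffix_nil] at hcon
    exact it_ne hnf j hcon
  obtain ⟨k', rfl⟩ : ∃ k', k = k' + 1 := ⟨k - 1, by omega⟩
  have hlastapp : ∀ {x y : List (Fin n)}, y ≠ [] → (x ++ y).getLast? = y.getLast? := by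
    intro x y hy
    rw [List.getLast?_append, List.getLast?_eq_some_getLast hy]
    rfl
  have h10 : (it H c b0).getLast? = (it H (j % n) b0).getLast? := by
    have h11 : (wpow v (k' + 1)).getLast? = (it H j b0).getLast? := by
      obtain ⟨t, ht⟩ := hcon
      rw [← ht]
      exact hlastapp (it_ne hnf j)
    have h12 : (wpow v (k' + 1)).getLast? = (it H c b0).getLast? := by
      rw [Tr.wpow_add, Tr.wpow_one, hlastapp hv, h6, flw_append, hlastapp]
      · simp [flw, wd]
      · simp [flw, wd, it_ne hnf c]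
    rw [← h12, h11]
    conv_lhs => rw [← hjd, Nat.add_comm]
    exact last_mod hnf hb (j % n) (j / n)
  have hcj : c = j % n := last_inj hnf c hc (j % n) hjm h10
  have hb0 : b0 <:+ it H n b0 := by
    refine List.IsSuffix.trans ?_ hsuf
    have h11 : js' ≠ [] := by
      rintro rfl
      simp at hlast
    have h12 := List.dropLast_append_getLast h11
    have h13 : js'.getLast h11 = 0 := by
      rw [List.getLast?_eq_some_getLast h11] at hlast
      exact Option.some.inj hlast
    rw [h13] at h12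
    rw [hTe, ← h12, flw_cons, flw_append]
    refine ⟨wd H b0 0 ++ flw (wd H b0) js'.dropLast, ?_⟩
    simp [flw, wd, it_zero]
  have hpj : it H (c + n) b0 <:+ it H j b0 := by
    have h11 := suf_mul hb0 (c + n) (j / n - 1)
    have h12 : c + n + n * (j / n - 1) = j := by
      obtain ⟨l, hl'⟩ : ∃ l, j / n = l + 1 := ⟨j / n - 1, by omega⟩
      rw [hl'] at hjd ⊢
      rw [Nat.add_sub_cancel, hcj]
      rw [Nat.mul_add, Nat.mul_one] at hjd
      omega
    rwa [h12] at h11
  refine noP_left hnf hb hjs h1 h3 h4 (by rw [← hTe]; exact hpre) (by rw [← hTe]; exact hsuf) hn h5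
    (c := c) (by simp) (k' + 1) ?_
  rw [← h6]
  exact hpj.trans hcon

end

end D0L.Bim
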