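import Pool.Agent.H.MP_374efc_lc.Bim.ExX1
import Pool.Agent.H.MP_374efc_lc.Tr.HullA

/-!
# BIMFULL (5.1): the hull lemma

`hul`: let `w_(n-1) = U c V` with `U ≠ []`. It is impossible that `h(U)` is read in the rose `W` of
`w_0, …, w_(n-1)` up to a state which is not the base and does not have the first letter of `H c` as
out-letter, while `h(v)` is not in `W^*` for the nonempty prefixes `v` of `U`.
-/

set_option autoImplicit false

namespace D0L.Bim

open Tr

variable {n N : ℕ} {H : Fin n → List (Fin n)} {b0 : List (Fin n)}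

/-- The transitions of the rose as a relation. -/
def rst (R : Rose (Fin n)) (s : List (Fin n)) (a : Fin n) (t : List (Fin n)) : Prop :=
  step R s a = some t

theorem rn_run {R : Rose (Fin n)} {s t u : List (Fin n)} :
    Rn (rst R) s u t ↔ run R s u = some t := by
  induction u generalizing s with
  | nil =>
    rw [run_nil]
    exact ⟨fun h => congrArg some h, fun h => Option.some.inj h⟩
  | cons a u ih =>
    rw [run_cons, Option.bind_eq_some_iff]
    constructor
    · rintro ⟨m, h1, h2⟩
      exact ⟨m, h1, ih.1 h2⟩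
    · rintro ⟨m, h1, h2⟩
      exact ⟨m, h1, ih.2 h2⟩

/-- The map of the states of the first petals and of the part `U` of the last petal. -/
def Phi (H : Fin n → List (Fin n)) (b0 U : List (Fin n)) (s t : List (Fin n)) : Prop :=
  (s = [] ∧ t = []) ∨ ∃ v, v ≠ [] ∧ s ≠ [] ∧
    ((∃ i, i + 1 < n ∧ v ++ s = it H i b0) ∨ (v ++ s = it H (n - 1) b0 ∧ v <+: U)) ∧
    run (rQ H b0 n) [] (app H v) = some t

/-- The in-letter of a word `u ++ [x]` that is read up to `t`. -/
theorem in_of_run {R : Rose (Fin n)} {u t : List (Fin n)} {x : Fin n}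
    (h : run R [] (u ++ [x]) = some t) : ∃ s, IsSt R s ∧ step R s x = some t := by
  obtain ⟨s, h1, h2⟩ := run_snoc.1 h
  exact ⟨s, run_isSt (isSt_nil R) h1, h2⟩

/-- The letter sequences determine their indices modulo `n`. -/
theorem dvd_of_seq {b : ℕ → Fin n} (hn : 0 < n) (hper : ∀ i, b (i + n) = b i)
    (hinj : ∀ i j, i < n → j < n → b i = b j → i = j) {k j : ℕ} (h : b (k + j) = b k) : n ∣ j := by
  have hmod : ∀ i, b i = b (i % n) := by
    intro i
    have h1 : ∀ q r, b (r + n * q) = b r := by
      intro q
      induction q with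
      | zero => intro r; simp
      | succ q ih =>
        intro r
        have : r + n * (q + 1) = (r + n * q) + n := by ring
        rw [this, hper, ih]
    have h2 := h1 (i / n) (i % n)
    rw [Nat.mod_add_div] at h2
    exact h2
  have h1 : (k + j) % n = k % n := by
    apply hinj _ _ (Nat.mod_lt _ hn) (Nat.mod_lt _ hn)
    rw [← hmod, ← hmod, h]
  have h2 : k + j ≡ k + 0 [MOD n] := by simpa [Nat.ModEq] using h1
  have h3 := Nat.ModEq.add_left_cancel' k h2
  exact (Nat.modEq_zero_iff_dvd).1 h3

theorem seq_of_dvd {a : ℕ → Fin n} (hper : ∀ i, a (i + n) = a i) {k j : ℕ} (h : n ∣ j) :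
    a (k + j) = a k := by
  obtain ⟨q, rfl⟩ := h
  induction q with
  | zero => simp
  | succ q ih =>
    have : k + n * (q + 1) = (k + n * q) + n := by ring
    rw [this, hper, ih]

/-- **(5.1) THE HULL LEMMA.** -/
theorem hul (hnf : NF H b0 N) (hb : Bmk H) {U V q1 : List (Fin n)} {c : Fin n}
    (hw : it H (n - 1) b0 = U ++ c :: V) (hU : U ≠ [])
    (hq : run (rQ H b0 n) [] (app H U) = some q1) (hq1 : q1 ≠ [])
    (hd : ∀ d l, H c = d :: l → step (rQ H b0 n) q1 d = none)
    (hv : ∀ v, v ≠ [] → v <+: U → run (rQ H b0 n) [] (app H v) ≠ some []) : False := by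
  classical
  have hn := pos_n hnf
  have hbq : Bim (rQ H b0 n) := rQ_bim hnf le_rfl
  -- letter sequences
  obtain ⟨a, ha1, ha2, haper, hainj, hasur⟩ := exists_fi hnf (by
    intro x y hxy
    obtain ⟨x1, x2, hx⟩ := List.exists_cons_of_ne_nil (H_ne hnf x)
    obtain ⟨y1, y2, hy⟩ := List.exists_cons_of_ne_nil (H_ne hnf y)
    rw [hx, hy] at hxy
    obtain rfl : x1 = y1 := by simpa using hxy
    exact hb.fst x y _ _ _ hx hy)
  obtain ⟨b, hb1, hb2, hbper, hbinj, hbsur⟩ := exists_la hnf (by
    intro x y hxy
    rcases List.eq_nil_or_concat' (H x) with hx | ⟨x1, x2, hx⟩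
    · exact (H_ne hnf x hx).elim
    rcases List.eq_nil_or_concat' (H y) with hy | ⟨y1, y2, hy⟩
    · exact (H_ne hnf y hy).elim
    rw [hx, hy] at hxy
    obtain rfl : x2 = y2 := by simpa using hxy
    exact hb.lst x y _ _ _ hx hy)
  -- first letters
  have hfi : ∃ fi : Fin n → Fin n, ∃ tl : Fin n → List (Fin n), ∀ x, H x = fi x :: tl x := by
    choose fi hfi using fun x => List.exists_cons_of_ne_nil (H_ne hnf x)
    choose tl htl using hfi
    exact ⟨fi, tl, htl⟩
  obtain ⟨fi, tl, hh⟩ := hfi
  have hfinj : Function.Injective fi := by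
    intro x y hxy
    have h1 := hh x
    rw [hxy] at h1
    exact hb.fst x y _ _ _ h1 (hh y)
  have hfa : ∀ i, fi (a i) = a (i + 1) := by
    intro i
    obtain ⟨s, hs⟩ := ha2 i
    rw [hh] at hs
    exact (List.cons.inj hs).1
  -- the letter `b'` with `fi b' =` own letter of `q1`
  obtain ⟨o, q1', rfl⟩ := List.exists_cons_of_ne_nil hq1
  obtain ⟨b', hb'⟩ := (Finite.injective_iff_surjective.1 hfinj) o
  obtain ⟨i0, -, hi0⟩ := hasur b'
  obtain ⟨i1, -, hi1⟩ := hasur c
  have hne : b' ≠ c := by
    rintro rfl
    have h1 := hd _ _ (hh b')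
    rw [hb', step_cons_self] at h1
    cases h1
  -- the last letter of `U`
  rcases List.eq_nil_or_concat' U with rfl | ⟨U0, β, rfl⟩
  · exact hU rfl
  obtain ⟨k0, -, hk0⟩ := hbsur β
  have hla : ∀ k, ∃ s, H (b k) = s ++ [b (k + 1)] := hb2
  -- the petals
  have hpet : ∀ {i : ℕ} {v s : List (Fin n)}, i < n → v ++ s = it H i b0 → v ≠ [] →
      run (rQ H b0 n) [] v = some s := fun hi h hv0 => run_W_pre hnf hi h.symm hv0
  have hUlen : (U0 ++ [β]) <+: it H (n - 1) b0 := ⟨c :: V, hw.symm⟩
  -- second kind: the image is readable and not the base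
  have hkind : ∀ {v s : List (Fin n)}, v ≠ [] → s ≠ [] →
      ((∃ i, i + 1 < n ∧ v ++ s = it H i b0) ∨ (v ++ s = it H (n - 1) b0 ∧ v <+: U0 ++ [β])) →
      ∀ u, u ≠ [] → u <+: v → ∃ t, t ≠ [] ∧ run (rQ H b0 n) [] (app H u) = some t := by
    intro v s hv0 hs0 hk u hu0 hu
    rcases hk with ⟨i, hi, he⟩ | ⟨he, hvU⟩
    · refine pre_petal hnf hi hu0 (hu.trans ⟨s, he⟩) ?_
      intro h1
      have h2 := hu.length_le
      have h3 := congrArg List.length he
      rw [h1] at h2
      rw [List.length_append] at h3
      have h4 := List.length_pos_of_ne_nil hs0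
      omega
    · obtain ⟨x, hx⟩ := hu.trans hvU
      rw [← hx, app_append, run_append, Option.bind_eq_some_iff] at hq
      obtain ⟨t, ht, -⟩ := hq
      refine ⟨t, ?_, ht⟩
      rintro rfl
      exact hv u hu0 (hu.trans hvU) ht
  -- the place of a state is unique
  have hplace : ∀ {v v' s : List (Fin n)} {i j : ℕ}, i < n → j < n → s ≠ [] →
      v ++ s = it H i b0 → v' ++ s = it H j b0 → i = j ∧ v = v' := by
    intro v v' s i j hi hj hs0 h1 h2
    rcases List.eq_nil_or_concat' s with rfl | ⟨s', x, rfl⟩
    · exact (hs0 rfl).elim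
    have h3 := last_unique hnf (i := ⟨i, hi⟩) (j := ⟨j, hj⟩)
      (h1.symm.trans (List.append_assoc _ _ _).symm) (h2.symm.trans (List.append_assoc _ _ _).symm)
    obtain rfl : i = j := congrArg Fin.val h3
    exact ⟨rfl, List.append_cancel_right (h1.trans h2.symm)⟩
  -- an index of the petal
  have hidx : ∀ {v s : List (Fin n)},
      ((∃ i, i + 1 < n ∧ v ++ s = it H i b0) ∨ (v ++ s = it H (n - 1) b0 ∧ v <+: U0 ++ [β])) →
      ∃ i, i < n ∧ v ++ s = it H i b0 := by
    rintro v s (⟨i, hi, he⟩ | ⟨he, -⟩)
    · exact ⟨i, by omega, he⟩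
    · exact ⟨n - 1, by omega, he⟩
  have hD : HDat (rst (rQ H b0 n)) [] (c :: V) (o :: q1') c
      (fun p x => ∃ j, 1 ≤ j ∧ p.head? = some (a (i0 + j)) ∧
        (∃ s, IsSt (rQ H b0 n) s ∧ step (rQ H b0 n) s (b (k0 + j)) = some p) ∧ x = a (i1 + j))
      H fi tl (Phi H b0 (U0 ++ [β])) := by
    have own : ∀ p t x p', Phi H b0 (U0 ++ [β]) p t → p ≠ c :: V →
        step (rQ H b0 n) p x = some p' → ∃ t', Phi H b0 (U0 ++ [β]) p' t' ∧
          run (rQ H b0 n) t (H x) = some t' := by
      intro p t x p' hp hpU hx
      rcases hp with ⟨rfl, rfl⟩ | ⟨v, hv0, hp0, hk, ht⟩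
      · -- the base
        obtain ⟨i, hi, he⟩ := (rQ_some hnf le_rfl).1 (show rQ H b0 n x = some p' from hx)
        have happ : run (rQ H b0 n) [] (app H [x]) = run (rQ H b0 n) [] (H x) := by
          rw [app_singleton]
        by_cases hi' : i + 1 < n
        · have hpre : it H (i + 1) b0 = app H [x] ++ app H p' := by
            rw [it_succ, he, ← app_append]; rfl
          have hr := run_W_pre hnf hi' hpre (app_ne hnf (by simp))
          rw [app_singleton] at hr
          by_cases hp' : p' = []
          · subst hp'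
            exact ⟨[], Or.inl ⟨rfl, rfl⟩, by rw [app_nil] at hr; exact hr⟩
          · refine ⟨_, Or.inr ⟨[x], by simp, hp', Or.inl ⟨i, hi', he.symm⟩, ?_⟩, hr⟩
            rw [app_singleton]
            exact hr
        · have hin : i = n - 1 := by omega
          subst hin
          -- `x` is the first letter of `U`
          have hxU : ∃ U', U0 ++ [β] = x :: U' := by
            rw [he] at hw
            cases U0 with
            | nil => exact ⟨[], by rw [(List.cons.inj hw).1]; rfl⟩
            | cons y U0 => exact ⟨U0 ++ [β], by rw [(List.cons.inj hw).1]; rfl⟩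
          obtain ⟨U', hU'⟩ := hxU
          have hp' : p' ≠ [] := by
            rintro rfl
            rw [he, hU'] at hw
            have := congrArg List.length hw
            simp at this
          have hq' := hq
          rw [hU', app_cons, run_append, Option.bind_eq_some_iff] at hq'
          obtain ⟨t', ht', -⟩ := hq'
          refine ⟨t', Or.inr ⟨[x], by simp, hp', Or.inr ⟨he.symm, ?_⟩, ?_⟩, ht'⟩
          · rw [hU']
            exact ⟨U', rfl⟩
          · rw [app_singleton]
            exact ht'
      · -- the second kind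
        obtain ⟨y, r, rfl⟩ := List.exists_cons_of_ne_nil hp0
        obtain ⟨rfl, rfl⟩ := step_unique hx
        have hgo : ∀ {t' : List (Fin n)}, run (rQ H b0 n) [] (app H (v ++ [x])) = some t' →
            run (rQ H b0 n) t (H x) = some t' := by
          intro t' h1
          rw [app_append, app_singleton, run_append, ht] at h1
          simpa using h1
        rcases hk with ⟨i, hi, he⟩ | ⟨he, hvU⟩
        · have he' : (v ++ [x]) ++ p' = it H i b0 := by rw [← he]; simp
          have hpre : it H (i + 1) b0 = app H (v ++ [x]) ++ app H p' := by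
            rw [it_succ, ← he', app_append]
          have hr := run_W_pre hnf hi hpre (app_ne hnf (by simp))
          by_cases hp' : p' = []
          · subst hp'
            exact ⟨[], Or.inl ⟨rfl, rfl⟩, hgo (by rw [app_nil] at hr; exact hr)⟩
          · exact ⟨_, Or.inr ⟨v ++ [x], by simp, hp', Or.inl ⟨i, hi, he'⟩, hr⟩, hgo hr⟩
        · have he' : (v ++ [x]) ++ p' = it H (n - 1) b0 := by rw [← he]; simp
          -- `v ≠ U`
          have hvne : v ≠ U0 ++ [β] := by
            rintro rfl
            rw [hw] at he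
            exact hpU (List.append_cancel_left he)
          have hlt : v.length < (U0 ++ [β]).length := by
            rcases Nat.lt_or_ge v.length (U0 ++ [β]).length with h1 | h1
            · exact h1
            · exact (hvne (hvU.eq_of_length (le_antisymm hvU.length_le h1))).elim
          have hvU' : (v ++ [x]) <+: U0 ++ [β] := by
            refine List.prefix_of_prefix_length_le ⟨p', he'⟩ hUlen ?_
            rw [List.length_append]
            exact hlt
          have hp' : p' ≠ [] := by
            rintro rfl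
            have h1 := hvU'.length_le
            have h2 := congrArg List.length (he'.trans hw)
            simp only [List.length_append, List.length_cons, List.length_nil] at h1 h2
            omega
          obtain ⟨z, hz⟩ := hvU'
          have hq' := hq
          rw [← hz, app_append, run_append, Option.bind_eq_some_iff] at hq'
          obtain ⟨t', ht', -⟩ := hq'
          exact ⟨t', Or.inr ⟨v ++ [x], by simp, hp', Or.inr ⟨he', ⟨z, hz⟩⟩, ht'⟩, hgo ht'⟩
    refine ⟨?_, hh, hfinj, ?_, ?_, Or.inl ⟨rfl, rfl⟩, ?_, ?_, ?_, ?_, ?_, ?_, ?_⟩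
    · intro s x t t' h1 h2
      exact Option.some.inj (h1.symm.trans h2)
    · -- functional
      intro p t t' h1 h2
      rcases h1 with ⟨rfl, rfl⟩ | ⟨v, hv0, hp0, hk, ht⟩
      · rcases h2 with ⟨-, rfl⟩ | ⟨v, hv0, hp0, -⟩
        · rfl
        · exact (hp0 rfl).elim
      · rcases h2 with ⟨rfl, -⟩ | ⟨v', hv0', -, hk', ht'⟩
        · exact (hp0 rfl).elim
        · obtain ⟨i, hi, he⟩ := hidx hk
          obtain ⟨j, hj, he'⟩ := hidx hk'
          obtain ⟨-, rfl⟩ := hplace hi hj hp0 he he'
          exact Option.some.inj (ht.symm.trans ht')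
    · -- injective
      intro p p' t h1 h2
      rcases h1 with ⟨rfl, rfl⟩ | ⟨v, hv0, hp0, hk, ht⟩
      · rcases h2 with ⟨rfl, -⟩ | ⟨v, hv0, hp0, hk, ht⟩
        · rfl
        · obtain ⟨t, ht0, ht1⟩ := hkind hv0 hp0 hk v hv0 (List.prefix_refl _)
          exact (ht0 (Option.some.inj (ht1.symm.trans ht))).elim
      · obtain ⟨t1, ht0, ht1⟩ := hkind hv0 hp0 hk v hv0 (List.prefix_refl _)
        obtain rfl : t1 = t := Option.some.inj (ht1.symm.trans ht)
        rcases h2 with ⟨rfl, rfl⟩ | ⟨v', hv0', hp0', hk', ht'⟩
        · exact (ht0 rfl).elim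
        · have hvv : v = v' := by
            refine back_inj hnf hb ht0 ht ht' ?_ ?_
            · intro u hu0 hu _
              obtain ⟨t2, h3, h4⟩ := hkind hv0 hp0 hk u hu0 hu
              rw [h4]
              exact fun h => h3 (Option.some.inj h)
            · intro u hu0 hu _
              obtain ⟨t2, h3, h4⟩ := hkind hv0' hp0' hk' u hu0 hu
              rw [h4]
              exact fun h => h3 (Option.some.inj h)
          subst hvv
          obtain ⟨i, hi, he⟩ := hidx hk
          obtain ⟨j, hj, he'⟩ := hidx hk'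
          obtain ⟨y, v, rfl⟩ := List.exists_cons_of_ne_nil hv0
          have h3 := first_unique hnf (i := ⟨i, hi⟩) (j := ⟨j, hj⟩) he.symm he'.symm
          obtain rfl : i = j := congrArg Fin.val h3
          exact List.append_cancel_left (he.trans he'.symm)
    · exact Or.inr ⟨U0 ++ [β], hU, by simp, Or.inr ⟨hw.symm, List.prefix_refl _⟩, hq⟩
    · intro p t x p' h1 h2 h3
      obtain ⟨t', h4, h5⟩ := own p t x p' h1 h2 h3
      exact ⟨t', h4, rn_run.2 h5⟩
    · intro x p h
      exact (step_unique h).1
    · intro t h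
      have h1 := hd _ _ (hh c)
      rw [show step (rQ H b0 n) (o :: q1') (fi c) = some t from h] at h1
      cases h1
    · refine ⟨1, le_rfl, ?_, ?_, ?_⟩
      · rw [← hfa, hi0, hb']
        rfl
      · obtain ⟨s, hs⟩ := hla k0
        rw [hk0] at hs
        rw [app_append, app_singleton, hs, ← List.append_assoc] at hq
        exact in_of_run hq
      · rw [← hfa, hi1]
    · -- the extra letters are transported
      rintro p x t ⟨j, hj, hhd, ⟨s, hs, hs'⟩, rfl⟩ hp
      have hp0 : p ≠ [] := by
        rintro rfl
        cases hhd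
      obtain ⟨y, r, rfl⟩ := List.exists_cons_of_ne_nil hp0
      obtain rfl : y = a (i0 + j) := by simpa using hhd
      rcases hp with ⟨h1, -⟩ | ⟨v, hv0, -, hk, ht⟩
      · cases h1
      rcases List.eq_nil_or_concat' v with rfl | ⟨v0, z, rfl⟩
      · exact (hv0 rfl).elim
      -- the in-letter
      obtain ⟨i, hi, he⟩ := hidx hk
      have hin : z = b (k0 + j) := by
        obtain ⟨s1, h2, h3⟩ := in_of_run (hpet hi he hv0)
        exact in_unique hbq h2 hs h3 hs' (by simp)
      have hnU : (a (i0 + j) :: r) ≠ c :: V := by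
        intro h1
        have h2 := (List.cons.inj h1).1
        obtain ⟨-, h3⟩ := hplace hi (show n - 1 < n by omega) (by simp) he
          (by rw [h1]; exact hw.symm)
        have h4 : z = β := by
          have := (List.append_inj' h3 rfl).2
          simpa using this
        have h5 : n ∣ j := dvd_of_seq hn hbper hbinj (by rw [← hin, h4, hk0])
        rw [seq_of_dvd haper h5, hi0] at h2
        exact hne h2
      obtain ⟨t', h5, h6⟩ := own _ t (a (i0 + j)) r (Or.inr ⟨v0 ++ [z], hv0, by simp, hk, ht⟩) hnU
        (step_cons_self _ _ _)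
      refine ⟨j + 1, by omega, ?_, ?_, ?_⟩
      · -- the out-letter
        obtain ⟨t2, h7, h8⟩ := hkind hv0 (by simp) hk _ hv0 (List.prefix_refl _)
        obtain rfl : t2 = t := Option.some.inj (h8.symm.trans ht)
        obtain ⟨y, r', rfl⟩ := List.exists_cons_of_ne_nil h7
        rw [hh, run_cons, Option.bind_eq_some_iff] at h6
        obtain ⟨m, h9, -⟩ := h6
        rw [hfa] at h9
        rw [← (step_unique h9).1]
        rfl
      · obtain ⟨s1, hs1⟩ := hla (k0 + j)
        rw [app_append, app_singleton, hin, hs1, ← List.append_assoc] at ht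
        exact in_of_run ht
      · rw [hfa]
        rfl
    · -- the extra letters are not own letters
      rintro p x p' ⟨j, hj, hhd, -, rfl⟩ h
      cases p with
      | nil => cases hhd
      | cons y r =>
        obtain rfl : y = a (i0 + j) := by simpa using hhd
        have h1 := (step_unique (show step (rQ H b0 n) (a (i0 + j) :: r) (a (i1 + j)) = some p'
          from h)).1
        -- go back to `a i0 = a i1`
        have h2 : ∀ j, a (i1 + j) = a (i0 + j) → a i1 = a i0 := by
          intro j
          induction j with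
          | zero => exact fun h => h
          | succ j ih =>
            intro h3
            apply ih
            apply hfinj
            rw [hfa, hfa]
            exact h3
        exact hne (by rw [← hi0, ← hi1, h2 j h1])
  -- the end
  obtain ⟨x, U', hxU⟩ := List.exists_cons_of_ne_nil (it_ne hnf (n - 1))
  have hstep : step (rQ H b0 n) [] x = some U' := (rQ_some hnf le_rfl).2 ⟨n - 1, by omega, hxU⟩
  have hw0 : run (rQ H b0 n) [] b0 = some [] :=
    (rQ_iff hnf le_rfl).2 ⟨[0], by simpa using hn, by simp [it_zero]⟩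
  refine hull_abs hD (w0 := b0) (rn_run.2 hw0) (N := N) ?_ hstep ?_
  · intro G h0 hm hu hw
    exact hnf.hull G h0 hm (fun x y z hx _ hxz _ => hu x z hx hxz) hw
  · rintro rfl
    rw [hxU] at hw
    have := congrArg List.length hw
    simp at this
    omega

end D0L.Bim
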