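import Pool.Agent.H.MP_374efc_lc.Bim.Perron

/-!
# Lemma R, the counting part ((4.5) of h67_374efc_BIMFULL, after helper34)

`lemR`: in a normal form whose words `w_0, ..., w_(n-1)` are not all letters there is no `j ≥ n` with
`[w_j] ≤ 2 (A 1 - 1)` (componentwise).  Hence (`lemR_infix`) a word `w_j`, `j ≥ n`, is not a factor of a word `z` with
`[z] ≤ 2 (A 1 - 1)` (Lemma Z). No hypothesis on the first letters of the images.
-/

set_option autoImplicit false

namespace D0L.Bim

variable {n N : ℕ} {H : Fin n → List (Fin n)} {b0 : List (Fin n)}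

/-- The number of letters among the first words. -/
theorem exists_p (hnf : NF H b0 N) (hnl : ¬ ∀ i < n, (it H i b0).length = 1) :
    ∃ p < n, (∀ i < p, (it H i b0).length = 1) ∧ ∀ i, p ≤ i → 2 ≤ (it H i b0).length := by
  classical
  push Not at hnl
  have hex : ∃ i, i < n ∧ (it H i b0).length ≠ 1 := hnl
  refine ⟨Nat.find hex, (Nat.find_spec hex).1, ?_, ?_⟩
  · intro i hi
    have h1 := Nat.find_min hex hi
    have h2 := (Nat.find_spec hex).1
    by_contra h3
    exact h1 ⟨by omega, h3⟩
  · intro i hi
    have h1 := nf_mono hnf hi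
    have h2 := (Nat.find_spec hex).2
    have h3 := List.length_pos_of_ne_nil (nf_it_ne hnf (Nat.find hex))
    omega

theorem two_count_of_ends {α : Type} [DecidableEq α] {u s t : List α} {c : α}
    (h1 : u = c :: s) (h2 : u = t ++ [c]) (h3 : 2 ≤ u.length) : 2 ≤ u.count c := by
  cases t with
  | nil =>
    rw [h2] at h3
    simp at h3
  | cons d t =>
    have h4 : c = d := by
      rw [h1] at h2
      exact (List.cons.inj h2).1
    subst h4
    rw [h2, List.cons_append, List.count_cons_self, List.count_append, List.count_singleton_self]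
    omega

theorem one_le_count {α : Type} [DecidableEq α] {u : List α} {c : α} (h : c ∈ u) :
    1 ≤ u.count c := List.count_pos_iff.2 h

/-- `[W] + [L] ≥ 2`. -/
theorem two_le_sum (hnf : NF H b0 N) {p : ℕ} (hp : p < n)
    (h2 : ∀ i, p ≤ i → 2 ≤ (it H i b0).length) (c : Fin n) :
    2 ≤ (∑ i ∈ Finset.range n, (it H i b0).count c) +
      ∑ i ∈ Finset.range p, (it H i b0).count c := by
  obtain ⟨i, s, hs⟩ := exists_first hnf c
  obtain ⟨i', t, ht⟩ := exists_last hnf c
  have hi : 1 ≤ (it H i b0).count c := one_le_count (by rw [hs]; simp)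
  have hi' : 1 ≤ (it H i' b0).count c := one_le_count (by rw [ht]; simp)
  by_cases hii : (i : ℕ) = i'
  · by_cases hip : (i : ℕ) < p
    · have h3 := Finset.single_le_sum (f := fun i => (it H i b0).count c)
        (fun _ _ => Nat.zero_le _) (Finset.mem_range.2 i.2)
      have h4 := Finset.single_le_sum (f := fun i => (it H i b0).count c)
        (fun _ _ => Nat.zero_le _) (Finset.mem_range.2 hip)
      omega
    · have h3 := Finset.single_le_sum (f := fun i => (it H i b0).count c)
        (fun _ _ => Nat.zero_le _) (Finset.mem_range.2 i.2)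
      have h4 := two_count_of_ends hs (by rw [hii]; exact ht) (h2 i (by omega))
      omega
  · have h3 : ∑ k ∈ ({(i : ℕ), (i' : ℕ)} : Finset ℕ), (it H k b0).count c ≤
        ∑ k ∈ Finset.range n, (it H k b0).count c := by
      apply Finset.sum_le_sum_of_subset
      intro k hk
      rw [Finset.mem_insert, Finset.mem_singleton] at hk
      rw [Finset.mem_range]
      rcases hk with rfl | rfl
      · exact i.2
      · exact i'.2
    rw [Finset.sum_pair hii] at h3
    omega

/-- **Lemma R, counting part.** -/
theorem lemR (hnf : NF H b0 N) (hnl : ¬ ∀ i < n, (it H i b0).length = 1) {j : ℕ} (hj : n ≤ j)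
    (hz : ∀ c, (it H j b0).count c + 2 ≤ 2 * ∑ a, (H a).count c) : False := by
  classical
  obtain ⟨p, hpn, hp1, hp2⟩ := exists_p hnf hnl
  obtain ⟨lam, l, hP⟩ := perron hnf
  set w : ℕ → Fin n → ℤ := fun i c => ((it H i b0).count c : ℤ) with hw
  have hw0 : ∀ i c, 0 ≤ w i c := fun i c => Int.natCast_nonneg _
  set R : Fin n → ℤ := fun c => ∑ a, ((H a).count c : ℤ) with hR
  set D : Fin n → ℤ := fun c => (∑ i ∈ Finset.range j, w i c) - 2 + ∑ i ∈ Finset.range p, w i c
    with hD
  have hwA : ∀ i, (inc H).mulVec (w i) = w (i + 1) := by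
    intro i
    have h1 := cnt_app H (it H i b0)
    rw [← it_succ] at h1
    exact h1.symm
  have hsumA : ∀ m, (inc H).mulVec (fun c => ∑ i ∈ Finset.range m, w i c) =
      fun c => ∑ i ∈ Finset.range m, w (i + 1) c := by
    intro m
    have h1 : (fun c => ∑ i ∈ Finset.range m, w i c) = ∑ i ∈ Finset.range m, w i := by
      funext c
      rw [Finset.sum_apply]
    rw [h1, Matrix.mulVec_sum]
    funext c
    rw [Finset.sum_apply]
    exact Finset.sum_congr rfl fun i _ => by rw [hwA]
  have hone : (inc H).mulVec (fun _ => (1 : ℤ)) = R := by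
    funext c
    simp [Matrix.mulVec, dotProduct, inc, hR]
  have tel : ∀ m c, ∑ i ∈ Finset.range m, w (i + 1) c =
      ∑ i ∈ Finset.range m, w i c + w m c - w 0 c := by
    intro m c
    induction m with
    | zero => simp
    | succ m ih => rw [Finset.sum_range_succ, ih, Finset.sum_range_succ]; ring
  have hAD : ∀ c, (inc H).mulVec D c =
      ∑ i ∈ Finset.range j, w (i + 1) c - 2 * R c + ∑ i ∈ Finset.range p, w (i + 1) c := by
    intro c
    have h1 : D = (fun c => ∑ i ∈ Finset.range j, w i c) - (2 : ℤ) • (fun _ => (1 : ℤ)) +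
        fun c => ∑ i ∈ Finset.range p, w i c := by
      funext c
      simp [hD]
    rw [h1, Matrix.mulVec_add, Matrix.mulVec_sub, Matrix.mulVec_smul, hsumA, hsumA, hone]
    simp
  -- the main inequality
  have key : ∀ c, (inc H).mulVec D c - D c ≤ w p c - 2 * w 0 c := by
    intro c
    rw [hAD, tel, tel]
    have h1 : w j c + 2 ≤ 2 * R c := by
      have := hz c
      simp only [hw, hR]
      exact_mod_cast this
    simp only [hD]
    linarith
  -- `D ≥ 0`
  have hjn : ∀ c, ∑ i ∈ Finset.range n, w i c ≤ ∑ i ∈ Finset.range j, w i c := by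
    intro c
    apply Finset.sum_le_sum_of_subset_of_nonneg (Finset.range_mono hj)
    intro i _ _
    exact hw0 i c
  have hD0 : ∀ c, 0 ≤ D c := by
    intro c
    have h1 := two_le_sum hnf hpn hp2 c
    have h2 : (2 : ℤ) ≤ (∑ i ∈ Finset.range n, w i c) + ∑ i ∈ Finset.range p, w i c := by
      simp only [hw]
      exact_mod_cast h1
    have h3 := hjn c
    simp only [hD]
    linarith
  -- weights
  have hW : ∀ i, ∑ c, (w i c : ℝ) * l c = lam ^ i := by
    intro i
    rw [← hP.lw_w i, lw_count]
    refine Finset.sum_congr rfl fun c _ => ?_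
    simp [hw]
  set LD : ℝ := ∑ c, (D c : ℝ) * l c with hLD
  have hLD0 : 0 ≤ LD := by
    rw [hLD]
    apply Finset.sum_nonneg
    intro c _
    exact mul_nonneg (by exact_mod_cast hD0 c) (hP.pos c).le
  have hLw : (lam - 1) * LD ≤ lam ^ p - 2 := by
    have h1 : ∑ c, (((inc H).mulVec D c - D c : ℤ) : ℝ) * l c ≤
        ∑ c, ((w p c - 2 * w 0 c : ℤ) : ℝ) * l c := by
      apply Finset.sum_le_sum
      intro c _
      apply mul_le_mul_of_nonneg_right _ (hP.pos c).le
      exact_mod_cast key c
    have h2 : ∑ c, (((inc H).mulVec D c - D c : ℤ) : ℝ) * l c = (lam - 1) * LD := by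
      have h3 := hP.mulVec D
      rw [← hLD] at h3
      push_cast
      simp only [sub_mul, Finset.sum_sub_distrib]
      rw [h3, ← hLD]
      ring
    have h3 : ∑ c, ((w p c - 2 * w 0 c : ℤ) : ℝ) * l c = lam ^ p - 2 := by
      push_cast
      simp only [sub_mul, Finset.sum_sub_distrib]
      rw [hW]
      have h4 : ∑ c, 2 * (w 0 c : ℝ) * l c = 2 * ∑ c, (w 0 c : ℝ) * l c := by
        rw [Finset.mul_sum]
        exact Finset.sum_congr rfl fun c _ => by ring
      rw [h4, hW, pow_zero, mul_one]
    rw [h2, h3] at h1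
    exact h1
  have hlam1 := hP.one_lt
  rcases Nat.eq_zero_or_pos p with hp0 | hp0
  · rw [hp0, pow_zero] at hLw
    have := mul_nonneg (sub_nonneg.2 hlam1.le) hLD0
    linarith
  -- `p > 0`
  have hlet : ∀ i, i < p → ∃ a, it H i b0 = [a] := fun i hi =>
    List.length_eq_one_iff.1 (hp1 i hi)
  haveI : Nonempty (Fin n) := ⟨⟨0, by omega⟩⟩
  choose! a ha using hlet
  have hainj : ∀ i < p, ∀ k < p, a i = a k → i = k := by
    intro i hi k hk hik
    have h1 := first_unique hnf (i := ⟨i, by omega⟩) (j := ⟨k, by omega⟩) (a := a i) (s := [])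
      (t := []) (ha i hi) (by rw [hik]; exact ha k hk)
    exact congrArg Fin.val h1
  have hH : ∀ i, i < p → H (a i) = it H (i + 1) b0 := by
    intro i hi
    rw [it_succ, ha i hi, app_singleton]
  set u : ℕ → ℤ := fun i => D (a i) with hu
  set t : ℕ → ℤ := fun i => w p (a i) with ht
  set U : ℤ := u (p - 1) with hU
  have hu0 : ∀ i, 0 ≤ u i := fun i => hD0 _
  have ht0 : ∀ i, 0 ≤ t i := fun i => hw0 _ _
  have htu : ∀ i < p, t i ≤ u i := by
    intro i hi
    have h1 : w i (a i) = 1 := by
      simp only [hw]
      rw [ha i hi]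
      simp
    have h2 : ∑ k ∈ ({i, p} : Finset ℕ), w k (a i) ≤ ∑ k ∈ Finset.range n, w k (a i) := by
      apply Finset.sum_le_sum_of_subset_of_nonneg
      · intro k hk
        rw [Finset.mem_insert, Finset.mem_singleton] at hk
        rw [Finset.mem_range]
        omega
      · intro k _ _
        exact hw0 _ _
    rw [Finset.sum_pair (by omega), h1] at h2
    have h3 := Finset.single_le_sum (f := fun k => w k (a i)) (fun k _ => hw0 k _)
      (Finset.mem_range.2 hi)
    rw [h1] at h3
    have h4 := hjn (a i)
    simp only [hu, ht, hD]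
    linarith
  -- the rows
  have hmul : ∀ c, (inc H).mulVec D c = ∑ d, ((H d).count c : ℤ) * D d := fun c => rfl
  have hterm : ∀ c d, 0 ≤ ((H d).count c : ℤ) * D d := fun c d =>
    mul_nonneg (Int.natCast_nonneg _) (hD0 d)
  have hHp : H (a (p - 1)) = it H p b0 := by
    rw [hH (p - 1) (by omega)]
    congr 1
    omega
  have row0 : t 0 * U - u 0 ≤ t 0 - 2 := by
    have h1 := key (a 0)
    have h2 := Finset.single_le_sum (f := fun d => ((H d).count (a 0) : ℤ) * D d)
      (fun d _ => hterm (a 0) d) (Finset.mem_univ (a (p - 1)))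
    rw [hHp, ← hmul] at h2
    have h3 : w 0 (a 0) = 1 := by
      simp only [hw]
      rw [ha 0 hp0]
      simp
    rw [h3] at h1
    change t 0 * U ≤ _ at h2
    change _ - u 0 ≤ t 0 - 2 * 1 at h1
    linarith
  have rowi : ∀ i, i + 1 < p → u i + t (i + 1) * U - u (i + 1) ≤ t (i + 1) := by
    intro i hi
    have h1 := key (a (i + 1))
    have hne : a i ≠ a (p - 1) := by
      intro h
      have := hainj i (by omega) (p - 1) (by omega) h
      omega
    have h2 : ∑ d ∈ ({a i, a (p - 1)} : Finset (Fin n)), ((H d).count (a (i + 1)) : ℤ) * D d ≤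
        ∑ d, ((H d).count (a (i + 1)) : ℤ) * D d := by
      apply Finset.sum_le_sum_of_subset_of_nonneg (Finset.subset_univ _)
      intro d _ _
      exact hterm _ d
    rw [Finset.sum_pair hne, hHp, hH i (by omega), ha (i + 1) hi, ← hmul] at h2
    simp only [List.count_singleton_self, Nat.cast_one, one_mul] at h2
    have h3 := hw0 0 (a (i + 1))
    change u i + t (i + 1) * U ≤ _ at h2
    change _ - u (i + 1) ≤ t (i + 1) - _ at h1
    linarith
  -- the sum of the rows
  have hsum : ∀ m, m + 1 ≤ p → (∑ i ∈ Finset.range (m + 1), t i) * U - u m ≤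
      (∑ i ∈ Finset.range (m + 1), t i) - 2 := by
    intro m
    induction m with
    | zero =>
      intro _
      rw [Finset.sum_range_one]
      exact row0
    | succ m ih =>
      intro hm
      have h1 := ih (by omega)
      have h2 := rowi m (by omega)
      rw [Finset.sum_range_succ, add_mul]
      linarith
  have hfin := hsum (p - 1) (by omega)
  have hpp : p - 1 + 1 = p := by omega
  rw [hpp] at hfin
  set om : ℤ := ∑ i ∈ Finset.range p, t i with hom
  have hom0 : 0 ≤ om := Finset.sum_nonneg fun i _ => ht0 i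
  change om * U - U ≤ om - 2 at hfin
  have hU0 : 0 ≤ U := hu0 _
  have hcase : U = 0 ∨ om = 0 := by
    by_contra hcon
    push Not at hcon
    have h1 : 1 ≤ U := by have := hcon.1; omega
    have h2 : 1 ≤ om := by have := hcon.2; omega
    nlinarith
  rcases hcase with hc | hc
  · -- all `u i` vanish
    have hall : ∀ k, k < p → u (p - 1 - k) = 0 := by
      intro k
      induction k with
      | zero => intro _; exact hc
      | succ k ih =>
        intro hk
        have h1 := ih (by omega)
        have h2 := rowi (p - 1 - (k + 1)) (by omega)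
        have h3 : p - 1 - (k + 1) + 1 = p - 1 - k := by omega
        rw [h3, hc, mul_zero, h1] at h2
        have h4 := htu (p - 1 - k) (by omega)
        rw [h1] at h4
        have h5 := hu0 (p - 1 - (k + 1))
        linarith
    have h1 : om ≤ 0 := by
      apply Finset.sum_nonpos
      intro i hi
      rw [Finset.mem_range] at hi
      have h2 := hall (p - 1 - i) (by omega)
      have h3 : p - 1 - (p - 1 - i) = i := by omega
      rw [h3] at h2
      have h4 := htu i hi
      linarith
    rw [hc] at hfin
    linarith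
  · -- `om = 0`
    have htz : ∀ i < p, t i = 0 := by
      intro i hi
      have h1 := (Finset.sum_eq_zero_iff_of_nonneg fun i _ => ht0 i).1 hc i (Finset.mem_range.2 hi)
      exact h1
    have hu2 : ∀ i, i < p → 2 ≤ u i := by
      intro i
      induction i with
      | zero =>
        intro h0
        have h1 := row0
        rw [htz 0 h0, zero_mul] at h1
        linarith
      | succ i ih =>
        intro hi
        have h1 := rowi i hi
        rw [htz (i + 1) hi, zero_mul] at h1
        have h2 := ih (by omega)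
        linarith
    have hla : ∀ i < p, l (a i) = lam ^ i := by
      intro i hi
      rw [← hP.lw_w i, ha i hi, lw_cons, lw_nil, add_zero]
    have h1 : 2 * ∑ i ∈ Finset.range p, lam ^ i ≤ LD := by
      have h2 : ∑ i ∈ Finset.range p, (u i : ℝ) * l (a i) ≤ LD := by
        have h3 : ∑ c ∈ (Finset.range p).image a, (D c : ℝ) * l c =
            ∑ i ∈ Finset.range p, (u i : ℝ) * l (a i) := by
          rw [Finset.sum_image]
          intro i hi k hk hik
          exact hainj i (Finset.mem_range.1 hi) k (Finset.mem_range.1 hk) hik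
        rw [← h3]
        apply Finset.sum_le_sum_of_subset_of_nonneg (Finset.subset_univ _)
        intro c _ _
        exact mul_nonneg (by exact_mod_cast hD0 c) (hP.pos c).le
      refine le_trans ?_ h2
      rw [Finset.mul_sum]
      apply Finset.sum_le_sum
      intro i hi
      rw [Finset.mem_range] at hi
      rw [hla i hi]
      have h4 : (2 : ℝ) ≤ (u i : ℝ) := by exact_mod_cast hu2 i hi
      exact mul_le_mul_of_nonneg_right h4 (pow_pos hP.lam_pos i).le
    have h2 : (lam - 1) * ∑ i ∈ Finset.range p, lam ^ i = lam ^ p - 1 := by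
      rw [mul_comm]
      exact geom_sum_mul lam p
    have h3 := mul_le_mul_of_nonneg_left h1 (sub_nonneg.2 hlam1.le)
    have h4 := pow_pos hP.lam_pos p
    have h5 : (lam - 1) * (2 * ∑ i ∈ Finset.range p, lam ^ i) = 2 * (lam ^ p - 1) := by
      rw [← h2]; ring
    rw [h5] at h3
    linarith

/-- **Lemma R**, word form: `w_j`, `j ≥ n`, is not a factor of a word `z` with `[z] ≤ 2 (A 1 - 1)`. -/
theorem lemR_infix (hnf : NF H b0 N) (hnl : ¬ ∀ i < n, (it H i b0).length = 1)
    {z : List (Fin n)} (hz : ∀ c, z.count c + 2 ≤ 2 * ∑ a, (H a).count c) {j : ℕ} (hj : n ≤ j) :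
    ¬ it H j b0 <:+: z := by
  intro h
  refine lemR hnf hnl hj fun c => ?_
  have h1 := h.sublist.count_le c
  have h2 := hz c
  omega

end D0L.Bim
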