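import Pool.Agent.H.MP_374efc_lc.Asm.Top

/-!
# MP_374efc_lc, bimarked case: no mixing (counting)

`T = h(x)` is a product of the words `w_i`, exactness `(E)`: `[T] + 1 = [w_0] + A 1`, chain `y_1 = x`, `h(y_(i+1)) = y_i`.
The family `C_j = (w_0, .., w_(n-1-j), y_j, .., y_1)` (`cw j k`, `k < n`) has the first letters `a_0, .., a_(n-1)` and the last
letters `b_0, .., b_(n-1)`; `e_j = [C_j] - 1 ≥ 0` (`ev j`), `A e_(j+1) = e_j`. If `e_j(c) = 0` then `c` is itself an element of
`C_j` and occurs in no other element.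

`MD.step`: if `w_(n-1-j)` is not a letter (or `j = n`) then `[T] ≥ [w_0] + [w_(n-j)]` is impossible.
`MD.tok_lt`: so `T` has only tokens `w_i`, `i < n - j`, for all `j ≤ J`, `j < n - p`.
-/

set_option autoImplicit false

namespace D0L.Bim

open Finset

variable {n : ℕ} {H : Fin n → List (Fin n)} {b0 x T : List (Fin n)} {a b : ℕ → Fin n}
  {y : ℕ → List (Fin n)} {J : ℕ}

/-- The data of the counting argument. -/
structure MD (H : Fin n → List (Fin n)) (b0 x T : List (Fin n)) (a b : ℕ → Fin n)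
    (y : ℕ → List (Fin n)) (J : ℕ) : Prop where
  n_pos : 0 < n
  ne : ∀ c, H c ≠ []
  app_x : app H x = T
  E : ∀ c, T.count c + 1 = b0.count c + ∑ d, (H d).count c
  wa : ∀ i, ∃ s, it H i b0 = a i :: s
  wb : ∀ i, ∃ s, it H i b0 = s ++ [b i]
  inj_a : ∀ i j, i < n → j < n → a i = a j → i = j
  inj_b : ∀ i j, i < n → j < n → b i = b j → i = j
  sur_a : ∀ c, ∃ i < n, a i = c
  sur_b : ∀ c, ∃ i < n, b i = c
  Ha : ∀ i, ∃ s, H (a i) = a (i + 1) :: s
  Hb : ∀ i, ∃ s, H (b i) = s ++ [b (i + 1)]
  pa : a n = a 0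
  pb : b n = b 0
  y_one : y 1 = x
  y_succ : ∀ i, 1 ≤ i → i < J → app H (y (i + 1)) = y i
  ya : ∀ i, 1 ≤ i → i ≤ J → i ≤ n → ∃ s, y i = a (n - i) :: s
  yb : ∀ i, 1 ≤ i → i ≤ J → i ≤ n → ∃ s, y i = s ++ [b (n - i)]
  x_long : ∀ c, x ≠ [c]

/-- The element number `k` of the family `C_j`. -/
def cw (H : Fin n → List (Fin n)) (b0 : List (Fin n)) (y : ℕ → List (Fin n)) (j k : ℕ) :
    List (Fin n) := if k + j < n then it H k b0 else y (n - k)

theorem cw_lt {j k : ℕ} (h : k + j < n) : cw H b0 y j k = it H k b0 := by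
  rw [cw, if_pos h]

theorem cw_ge {j k : ℕ} (h : n ≤ k + j) : cw H b0 y j k = y (n - k) := by
  rw [cw, if_neg (by omega)]

/-- `e_j = [C_j] - 1`. -/
def ev (H : Fin n → List (Fin n)) (b0 : List (Fin n)) (y : ℕ → List (Fin n)) (j : ℕ) :
    Fin n → ℤ := (∑ k ∈ range n, cnt (cw H b0 y j k)) - 1

theorem cnt_nonneg (u : List (Fin n)) : 0 ≤ cnt u := fun c => by
  simp [cnt]

theorem inc_mono {v w : Fin n → ℤ} (h : v ≤ w) : (inc H).mulVec v ≤ (inc H).mulVec w := by
  intro c
  rw [Matrix.mulVec, Matrix.mulVec, dotProduct, dotProduct]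
  refine Finset.sum_le_sum fun d _ => mul_le_mul_of_nonneg_left (h d) ?_
  rw [inc, Matrix.of_apply]
  positivity

theorem pow_mono (k : ℕ) {v w : Fin n → ℤ} (h : v ≤ w) :
    ((inc H) ^ k).mulVec v ≤ ((inc H) ^ k).mulVec w := by
  induction k with
  | zero => simpa using h
  | succ k ih =>
    rw [pow_succ', ← Matrix.mulVec_mulVec, ← Matrix.mulVec_mulVec]
    exact inc_mono ih

namespace MD

theorem cw_fst (h : MD H b0 x T a b y J) {j k : ℕ} (hj : j ≤ J) (hk : k < n) :
    ∃ s, cw H b0 y j k = a k :: s := by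
  by_cases h1 : k + j < n
  · rw [cw_lt h1]
    exact h.wa k
  · rw [cw_ge (by omega)]
    have h2 := h.ya (n - k) (by omega) (by omega) (by omega)
    rwa [Nat.sub_sub_self hk.le] at h2

theorem cw_lst (h : MD H b0 x T a b y J) {j k : ℕ} (hj : j ≤ J) (hk : k < n) :
    ∃ s, cw H b0 y j k = s ++ [b k] := by
  by_cases h1 : k + j < n
  · rw [cw_lt h1]
    exact h.wb k
  · rw [cw_ge (by omega)]
    have h2 := h.yb (n - k) (by omega) (by omega) (by omega)
    rwa [Nat.sub_sub_self hk.le] at h2

/-- `h` of an element is the next element of the family before. -/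
theorem app_cw (h : MD H b0 x T a b y J) {j k : ℕ} (hj : j + 1 ≤ J) (hk : k + 1 < n) :
    app H (cw H b0 y (j + 1) k) = cw H b0 y j (k + 1) := by
  by_cases h1 : k + (j + 1) < n
  · rw [cw_lt h1, cw_lt (by omega), it_succ]
  · rw [cw_ge (by omega), cw_ge (by omega)]
    have h2 := h.y_succ (n - (k + 1)) (by omega) (by omega)
    rwa [show n - (k + 1) + 1 = n - k by omega] at h2

/-- In one family. -/
theorem app_cw' (h : MD H b0 x T a b y J) {j k : ℕ} (hj : j ≤ J) (hk : k + 1 < n)
    (hkj : k + 1 + j ≠ n) : app H (cw H b0 y j k) = cw H b0 y j (k + 1) := by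
  by_cases h1 : k + j < n
  · rw [cw_lt h1, cw_lt (by omega), it_succ]
  · rw [cw_ge (by omega), cw_ge (by omega)]
    have h2 := h.y_succ (n - (k + 1)) (by omega) (by omega)
    rwa [show n - (k + 1) + 1 = n - k by omega] at h2

theorem inc_one (h : MD H b0 x T a b y J) : (inc H).mulVec 1 = cnt T + 1 - cnt b0 := by
  funext c
  have h1 := h.E c
  have h2 : (inc H).mulVec 1 c = ((∑ d, (H d).count c : ℕ) : ℤ) := by
    rw [Matrix.mulVec, dotProduct, Nat.cast_sum]
    refine Finset.sum_congr rfl fun d _ => ?_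
    rw [inc, Matrix.of_apply, Pi.one_apply, mul_one]
  rw [h2, Pi.sub_apply, Pi.add_apply, Pi.one_apply, cnt, cnt]
  have h3 : ((T.count c + 1 : ℕ) : ℤ) = ((b0.count c + ∑ d, (H d).count c : ℕ) : ℤ) := by
    rw [h1]
  push_cast at h3 ⊢
  linarith

theorem inc_ev (h : MD H b0 x T a b y J) {j : ℕ} (hj : j + 1 ≤ J) (hjn : j < n) :
    (inc H).mulVec (ev H b0 y (j + 1)) = ev H b0 y j := by
  obtain ⟨m, rfl⟩ : ∃ m, n = m + 1 := ⟨n - 1, by have := h.n_pos; omega⟩
  rw [ev, ev, Matrix.mulVec_sub, h.inc_one, Matrix.mulVec_sum]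
  have h1 : ∀ k, (inc H).mulVec (cnt (cw H b0 y (j + 1) k)) =
      cnt (app H (cw H b0 y (j + 1) k)) := fun k => (cnt_app H _).symm
  simp only [h1]
  rw [Finset.sum_range_succ, Finset.sum_range_succ']
  have h2 : ∑ k ∈ range m, cnt (app H (cw H b0 y (j + 1) k)) =
      ∑ k ∈ range m, cnt (cw H b0 y j (k + 1)) := by
    refine Finset.sum_congr rfl fun k hk => ?_
    rw [Finset.mem_range] at hk
    rw [h.app_cw hj (by omega)]
  have h3 : app H (cw H b0 y (j + 1) m) = T := by
    rw [cw_ge (by omega), show m + 1 - m = 1 by omega, h.y_one, h.app_x]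
  have h4 : cw H b0 y j 0 = b0 := by
    rw [cw_lt (by omega), it_zero]
  rw [h2, h3, h4]
  abel

theorem pow_ev (h : MD H b0 x T a b y J) {j : ℕ} (hj : j ≤ J) (hjn : j ≤ n) :
    ((inc H) ^ j).mulVec (ev H b0 y j) = ev H b0 y 0 := by
  induction j with
  | zero => simp
  | succ j ih =>
    rw [pow_succ, ← Matrix.mulVec_mulVec, h.inc_ev hj (by omega)]
    exact ih (by omega) (by omega)

theorem inc_ev_zero (h : MD H b0 x T a b y J) :
    (inc H).mulVec (ev H b0 y 0) =
      ev H b0 y 0 + cnt (it H n b0) - cnt T := by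
  obtain ⟨m, rfl⟩ : ∃ m, n = m + 1 := ⟨n - 1, by have := h.n_pos; omega⟩
  rw [ev, Matrix.mulVec_sub, h.inc_one, Matrix.mulVec_sum]
  have h1 : ∑ k ∈ range (m + 1), (inc H).mulVec (cnt (cw H b0 y 0 k)) =
      ∑ k ∈ range (m + 1), cnt (it H (k + 1) b0) := by
    refine Finset.sum_congr rfl fun k hk => ?_
    rw [Finset.mem_range] at hk
    rw [cw_lt (by omega), ← cnt_app, it_succ]
  have h2 : ∑ k ∈ range (m + 1), cnt (cw H b0 y 0 k) =
      ∑ k ∈ range (m + 1), cnt (it H k b0) := by
    refine Finset.sum_congr rfl fun k hk => ?_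
    rw [Finset.mem_range] at hk
    rw [cw_lt (by omega)]
  rw [h1, h2, Finset.sum_range_succ, Finset.sum_range_succ' (fun k => cnt (it H k b0)), it_zero]
  abel

end MD

theorem sum_cnt (u : List (Fin n)) : ∑ c, cnt u c = (u.length : ℤ) := by
  induction u with
  | nil => simp [cnt]
  | cons d u ih =>
    have h1 : ∀ c, cnt (d :: u) c = (if c = d then 1 else 0) + cnt u c := by
      intro c
      rw [cnt, cnt, List.count_cons]
      by_cases h : c = d
      · subst h
        simp [add_comm]
      · have h' : ¬ d = c := fun e => h e.symm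
        simp [h, h']
    simp only [h1]
    rw [Finset.sum_add_distrib, ih, Finset.sum_ite_eq' Finset.univ d]
    simp [add_comm]

/-- A nonnegative vector `v` with `A v ≤ v - w_0`: impossible. -/
theorem no_dec (hne : ∀ i, it H i b0 ≠ []) {v : Fin n → ℤ} (hv : 0 ≤ v)
    (h1 : (inc H).mulVec v ≤ v - cnt b0) : False := by
  have h2 : ∀ k : ℕ, ((inc H) ^ k).mulVec v ≤ v - ∑ i ∈ range k, cnt (it H i b0) := by
    intro k
    induction k with
    | zero => simp
    | succ k ih =>
      rw [pow_succ, ← Matrix.mulVec_mulVec, Finset.sum_range_succ]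
      refine (pow_mono k h1).trans ?_
      rw [Matrix.mulVec_sub, ← cnt_it]
      intro c
      have := ih c
      simp only [Pi.sub_apply, Pi.add_apply] at this ⊢
      linarith
  have h3 : ∀ k : ℕ, 0 ≤ v - ∑ i ∈ range k, cnt (it H i b0) := by
    intro k
    refine le_trans ?_ (h2 k)
    have h4 := pow_mono (H := H) k hv
    rwa [Matrix.mulVec_zero] at h4
  have h5 : ∀ k : ℕ, (k : ℤ) ≤ ∑ c, v c := by
    intro k
    have h6 : ∑ c, (∑ i ∈ range k, cnt (it H i b0)) c ≤ ∑ c, v c := by
      refine Finset.sum_le_sum fun c _ => ?_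
      have h7 := h3 k c
      rw [Pi.sub_apply, Pi.zero_apply] at h7
      linarith
    have h8 : ∑ c, (∑ i ∈ range k, cnt (it H i b0)) c =
        ∑ i ∈ range k, ((it H i b0).length : ℤ) := by
      simp only [Finset.sum_apply]
      rw [Finset.sum_comm]
      exact Finset.sum_congr rfl fun i _ => sum_cnt _
    have h9 : (k : ℤ) ≤ ∑ i ∈ range k, ((it H i b0).length : ℤ) := by
      have h10 : ∑ i ∈ range k, (1 : ℤ) ≤ ∑ i ∈ range k, ((it H i b0).length : ℤ) := by
        refine Finset.sum_le_sum fun i _ => ?_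
        have := List.length_pos_of_ne_nil (hne i)
        omega
      simpa using h10
    linarith
  have h11 := h5 ((∑ c, v c).toNat + 1)
  have h12 : 0 ≤ ∑ c, v c := Finset.sum_nonneg fun c _ => hv c
  push_cast at h11
  rw [Int.toNat_of_nonneg h12] at h11
  linarith

theorem eq_single {u s t : List (Fin n)} {c : Fin n} (h1 : u = c :: s) (h2 : u = t ++ [c])
    (h3 : u.count c ≤ 1) : u = [c] := by
  cases t with
  | nil => exact h2
  | cons e t =>
    exfalso
    rw [h1, List.cons_append] at h2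
    obtain ⟨rfl, h4⟩ := List.cons.inj h2
    rw [h1, h4, List.count_cons_self, List.count_append, List.count_singleton_self] at h3
    omega

namespace MD

theorem it_ne (h : MD H b0 x T a b y J) (i : ℕ) : it H i b0 ≠ [] := by
  obtain ⟨s, hs⟩ := h.wa i
  rw [hs]
  simp

/-- If all coordinates of `e_j` are positive, `[T] ≥ [w_0] + [w_(n-j)]` is impossible. -/
theorem not_pos (h : MD H b0 x T a b y J) {j : ℕ} (hj : j ≤ J) (hjn : j ≤ n)
    (hT : cnt (it H (n - j) b0) ≤ cnt T - cnt b0) (he : 1 ≤ ev H b0 y j) : False := by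
  have hu : 0 ≤ cnt T - cnt b0 := le_trans (cnt_nonneg _) hT
  refine no_dec (H := H) (b0 := b0) (fun i => h.it_ne i)
    (v := ev H b0 y 0 - ((inc H) ^ j).mulVec 1) ?_ ?_
  · rw [← h.pow_ev hj hjn]
    have h1 := pow_mono (H := H) j he
    intro c
    have := h1 c
    simp only [Pi.sub_apply, Pi.zero_apply] at this ⊢
    linarith
  · rw [Matrix.mulVec_sub, h.inc_ev_zero, Matrix.mulVec_mulVec, ← pow_succ', pow_succ,
      ← Matrix.mulVec_mulVec, h.inc_one]
    have h2 : cnt T + 1 - cnt b0 = 1 + (cnt T - cnt b0) := by abel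
    rw [h2, Matrix.mulVec_add]
    have h3 := pow_mono (H := H) j hT
    rw [← cnt_it, ← it_add, Nat.add_sub_cancel' hjn] at h3
    intro c
    have h4 := h3 c
    have h5 := hu c
    simp only [Pi.sub_apply, Pi.add_apply, Pi.zero_apply] at h4 h5 ⊢
    linarith

theorem ev_apply (j : ℕ) (c : Fin n) :
    ev H b0 y j c = ((∑ k ∈ range n, (cw H b0 y j k).count c : ℕ) : ℤ) - 1 := by
  rw [ev, Pi.sub_apply, Pi.one_apply, Finset.sum_apply, Nat.cast_sum]
  rfl

theorem two_le_sum {g : ℕ → ℕ} {k l : ℕ} (hk : k < n) (hl : l < n) (hkl : k ≠ l) (h1 : 1 ≤ g k)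
    (h2 : 1 ≤ g l) : 2 ≤ ∑ i ∈ range n, g i := by
  have h3 : ∑ i ∈ {k, l}, g i ≤ ∑ i ∈ range n, g i := by
    refine Finset.sum_le_sum_of_subset fun i hi => ?_
    rw [Finset.mem_insert, Finset.mem_singleton] at hi
    rw [Finset.mem_range]
    rcases hi with rfl | rfl
    · exact hk
    · exact hl
  rw [Finset.sum_pair hkl] at h3
  omega

theorem ev_nonneg (h : MD H b0 x T a b y J) {j : ℕ} (hj : j ≤ J) : 0 ≤ ev H b0 y j := by
  intro c
  change (0 : ℤ) ≤ ev H b0 y j c
  rw [ev_apply]
  obtain ⟨k, hk, rfl⟩ := h.sur_a c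
  obtain ⟨s, hs⟩ := h.cw_fst hj hk
  have h1 : 1 ≤ (cw H b0 y j k).count (a k) := by
    rw [hs, List.count_cons_self]
    omega
  have h2 : (cw H b0 y j k).count (a k) ≤ ∑ i ∈ range n, (cw H b0 y j i).count (a k) :=
    Finset.single_le_sum (f := fun i => (cw H b0 y j i).count (a k)) (fun i _ => Nat.zero_le _)
      (Finset.mem_range.2 hk)
  omega

/-- A letter with `e_j(c) = 0` is an element of `C_j` and occurs in no other element. -/
theorem ev_zero (h : MD H b0 x T a b y J) {j : ℕ} (hj : j ≤ J) {c : Fin n}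
    (hc : ev H b0 y j c ≤ 0) :
    ∃ k < n, cw H b0 y j k = [c] ∧ ∀ l < n, c ∈ cw H b0 y j l → l = k := by
  rw [ev_apply] at hc
  have hs : ∑ k ∈ range n, (cw H b0 y j k).count c ≤ 1 := by omega
  obtain ⟨k, hk, rfl⟩ := h.sur_a c
  obtain ⟨l, hl, hlc⟩ := h.sur_b (a k)
  obtain ⟨s, hs1⟩ := h.cw_fst hj hk
  obtain ⟨t, ht1⟩ := h.cw_lst hj hl
  rw [hlc] at ht1
  have hck : 1 ≤ (cw H b0 y j k).count (a k) := by
    rw [hs1, List.count_cons_self]
    omega
  have hcl : 1 ≤ (cw H b0 y j l).count (a k) := by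
    rw [ht1, List.count_append, List.count_singleton_self]
    omega
  have huniq : ∀ l < n, a k ∈ cw H b0 y j l → l = k := by
    intro l hl hmem
    by_contra hne
    have h1 := List.count_pos_iff.2 hmem
    have := two_le_sum (g := fun i => (cw H b0 y j i).count (a k)) hk hl (Ne.symm hne) hck h1
    omega
  have hlk : l = k := huniq l hl (by rw [ht1]; simp)
  subst hlk
  refine ⟨l, hl, ?_, huniq⟩
  cases t with
  | nil => rw [ht1]; rfl
  | cons e t =>
    exfalso
    rw [ht1, List.cons_append] at hs1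
    obtain ⟨rfl, -⟩ := List.cons.inj hs1
    have h1 : 2 ≤ (cw H b0 y j l).count (a l) := by
      rw [ht1, List.count_append, List.count_cons_self, List.count_singleton_self]
      omega
    have h2 : (cw H b0 y j l).count (a l) ≤ ∑ i ∈ range n, (cw H b0 y j i).count (a l) :=
      Finset.single_le_sum (f := fun i => (cw H b0 y j i).count (a l)) (fun i _ => Nat.zero_le _)
        (Finset.mem_range.2 hl)
    omega

/-- The difference of two families. -/
theorem ev_diff {j : ℕ} (hj : 1 ≤ j) (hjn : j ≤ n) :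
    ev H b0 y (j - 1) = ev H b0 y j + cnt (it H (n - j) b0) - cnt (y j) := by
  have hm : n - j ∈ range n := Finset.mem_range.2 (by omega)
  rw [ev, ev, ← Finset.add_sum_erase _ _ hm, ← Finset.add_sum_erase _ _ hm]
  have h1 : ∑ k ∈ (range n).erase (n - j), cnt (cw H b0 y (j - 1) k) =
      ∑ k ∈ (range n).erase (n - j), cnt (cw H b0 y j k) := by
    refine Finset.sum_congr rfl fun k hk => ?_
    rw [Finset.mem_erase, Finset.mem_range] at hk
    by_cases h2 : k + j < n
    · rw [cw_lt h2, cw_lt (by omega)]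
    · rw [cw_ge (by omega), cw_ge (by omega)]
  have h2 : cw H b0 y (j - 1) (n - j) = it H (n - j) b0 := cw_lt (by omega)
  have h3 : cw H b0 y j (n - j) = y j := by
    rw [cw_ge (by omega), Nat.sub_sub_self hjn]
  rw [h1, h2, h3]
  abel

/-- A letter with `e_j(c) = 0` has a parent `d` with `e_j(d) = 0`. -/
theorem descend (h : MD H b0 x T a b y J) {j : ℕ} (hj : 1 ≤ j) (hjJ : j ≤ J) (hjn : j ≤ n)
    (hT : cnt (it H (n - j) b0) ≤ cnt T - cnt b0) {c : Fin n} (hc : ev H b0 y j c ≤ 0) :
    ∃ d, ev H b0 y j d ≤ 0 ∧ c ∈ H d := by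
  by_contra hcon
  push Not at hcon
  have h1 : (inc H).mulVec (ev H b0 y j) c = ev H b0 y (j - 1) c := by
    have h2 := h.inc_ev (j := j - 1) (by omega) (by omega)
    rw [Nat.sub_add_cancel hj] at h2
    rw [h2]
  have h3 : (inc H).mulVec 1 c ≤ (inc H).mulVec (ev H b0 y j) c := by
    rw [Matrix.mulVec, Matrix.mulVec, dotProduct, dotProduct]
    refine Finset.sum_le_sum fun d _ => ?_
    rw [inc, Matrix.of_apply]
    by_cases h4 : c ∈ H d
    · have h5 : 0 < ev H b0 y j d := by
        by_contra h6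
        exact hcon d (by omega) h4
      refine mul_le_mul_of_nonneg_left ?_ (by positivity)
      rw [Pi.one_apply]
      omega
    · rw [List.count_eq_zero_of_not_mem h4]
      simp
  rw [h1, ev_diff hj hjn, h.inc_one] at h3
  have h4 := hT c
  have h5 := cnt_nonneg (y j) c
  simp only [Pi.sub_apply, Pi.add_apply, Pi.one_apply, Pi.zero_apply] at h3 h4 h5
  omega

/-- **No mixing, one step.** -/
theorem step (h : MD H b0 x T a b y J) {j : ℕ} (hj : 1 ≤ j) (hjJ : j ≤ J) (hjn : j ≤ n)
    (hw : j < n → ∀ c, it H (n - 1 - j) b0 ≠ [c])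
    (hT : cnt (it H (n - j) b0) ≤ cnt T - cnt b0) : False := by
  have key : ∀ k < n, ∀ c, ev H b0 y j c ≤ 0 → cw H b0 y j k = [c] → False := by
    intro k
    induction k with
    | zero =>
      intro hk c hc hkc
      obtain ⟨d, hd, hcd⟩ := h.descend hj hjJ hjn hT hc
      obtain ⟨k1, hk1, hk2, -⟩ := h.ev_zero hjJ hd
      obtain ⟨k0, hk0, -, hu⟩ := h.ev_zero hjJ hc
      have e0 := hu 0 hk (by rw [hkc]; simp)
      have h1 : k1 + 1 < n := by
        by_contra h1
        have h2 : k1 = n - 1 := by omega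
        subst h2
        rw [cw_ge (by omega), show n - (n - 1) = 1 by omega, h.y_one] at hk2
        exact h.x_long d hk2
      have h2 : k1 + 1 + j ≠ n := by
        intro h2
        rw [cw_lt (by omega)] at hk2
        refine hw (by omega) d ?_
        rwa [show n - 1 - j = k1 by omega]
      have h3 := h.app_cw' hjJ h1 h2
      rw [hk2, app_singleton] at h3
      have h4 := hu (k1 + 1) h1 (by rw [← h3]; exact hcd)
      omega
    | succ k ih =>
      intro hk c hc hkc
      obtain ⟨d, hd, hcd⟩ := h.descend hj hjJ hjn hT hc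
      obtain ⟨k1, hk1, hk2, -⟩ := h.ev_zero hjJ hd
      obtain ⟨k0, hk0, -, hu⟩ := h.ev_zero hjJ hc
      have e0 := hu (k + 1) hk (by rw [hkc]; simp)
      have h1 : k1 + 1 < n := by
        by_contra h1
        have h2 : k1 = n - 1 := by omega
        subst h2
        rw [cw_ge (by omega), show n - (n - 1) = 1 by omega, h.y_one] at hk2
        exact h.x_long d hk2
      have h2 : k1 + 1 + j ≠ n := by
        intro h2
        rw [cw_lt (by omega)] at hk2
        refine hw (by omega) d ?_
        rwa [show n - 1 - j = k1 by omega]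
      have h3 := h.app_cw' hjJ h1 h2
      rw [hk2, app_singleton] at h3
      have h4 := hu (k1 + 1) h1 (by rw [← h3]; exact hcd)
      have h5 : k1 = k := by omega
      subst h5
      exact ih hk1 d hd hk2
  refine h.not_pos hjJ hjn hT ?_
  intro c
  change (1 : ℤ) ≤ ev H b0 y j c
  by_contra hc
  have hc' : ev H b0 y j c ≤ 0 := by omega
  obtain ⟨k, hk, hkc, -⟩ := h.ev_zero hjJ hc'
  exact key k hk c hc' hkc

end MD

theorem cnt_flatten_map (f : ℕ → List (Fin n)) (js : List ℕ) :
    cnt (js.map f).flatten = (js.map fun j => cnt (f j)).sum := by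
  induction js with
  | nil => simp [cnt_nil]
  | cons j js ih => rw [List.map_cons, List.flatten_cons, cnt_append, ih, List.map_cons,
      List.sum_cons]

theorem tok_ge {js : List ℕ} (htok : T = (js.map fun j => it H j b0).flatten)
    (hhead : js.head? = some 0) {i : ℕ} (hi : i ∈ js.tail) :
    cnt (it H i b0) ≤ cnt T - cnt b0 := by
  cases js with
  | nil => simp at hhead
  | cons j js =>
    obtain rfl : j = 0 := by simpa using hhead
    rw [List.tail_cons] at hi
    rw [htok, cnt_flatten_map, List.map_cons, List.sum_cons, it_zero, add_sub_cancel_left]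
    clear htok hhead
    induction js with
    | nil => simp at hi
    | cons k js ih =>
      rw [List.map_cons, List.sum_cons]
      have h0 : ∀ js : List ℕ, 0 ≤ (js.map fun j => cnt (it H j b0)).sum := by
        intro js
        apply List.sum_nonneg
        intro v hv
        obtain ⟨j, -, rfl⟩ := List.mem_map.1 hv
        exact cnt_nonneg _
      rcases List.mem_cons.1 hi with rfl | hi
      · exact le_add_of_nonneg_right (h0 js)
      · exact (ih hi).trans (le_add_of_nonneg_left (cnt_nonneg _))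

/-- **No mixing as long as `w_(n-1-j)` is not a letter**: `q` such that the words `w_i`, `q ≤ i < n`, are not letters. -/
theorem MD.tok_lt (h : MD H b0 x T a b y J) {js : List ℕ}
    (htok : T = (js.map fun j => it H j b0).flatten) (hlt : ∀ j ∈ js, j < n)
    (hhead : js.head? = some 0) {q : ℕ} (hq : ∀ i, q ≤ i → i < n → ∀ c, it H i b0 ≠ [c]) {j : ℕ}
    (hjJ : j ≤ J) (hjq : j + q < n) : ∀ i ∈ js, i < n - j := by
  induction j with
  | zero => exact hlt
  | succ j ih =>
    intro i hi
    have h1 := ih (by omega) (by omega) i hi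
    by_contra h2
    have h3 : i = n - (j + 1) := by omega
    have h4 : i ∈ js.tail := by
      cases js with
      | nil => simp at hi
      | cons k js =>
        obtain rfl : k = 0 := by simpa using hhead
        rcases List.mem_cons.1 hi with h5 | h5
        · omega
        · exact h5
    have h5 := tok_ge (H := H) (b0 := b0) htok hhead h4
    rw [h3] at h5
    exact h.step (by omega) hjJ (by omega) (fun _ => hq _ (by omega) (by omega)) h5

/-- **No mixing, `w_0` not a letter** (`p = 0`). -/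
theorem MD.no_mix_zero (h : MD H b0 x T a b y J) {js : List ℕ}
    (htok : T = (js.map fun j => it H j b0).flatten) (hlt : ∀ j ∈ js, j < n)
    (hhead : js.head? = some 0) (htwo : 0 ∈ js.tail)
    (hq : ∀ i, i < n → ∀ c, it H i b0 ≠ [c]) : J < n ∧ ∀ i ∈ js, i < n - J := by
  have hJ : J < n := by
    by_contra hJ
    have h1 := tok_ge (H := H) (b0 := b0) htok hhead htwo
    refine h.step (j := n) h.n_pos (by omega) le_rfl (fun h2 => (lt_irrefl _ h2).elim) ?_
    rwa [Nat.sub_self]
  exact ⟨hJ, h.tok_lt htok hlt hhead (q := 0) (fun i _ hi => hq i hi) le_rfl (by omega)⟩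

/-- If `x` is a letter then `w_0, …, w_(n-1)` are letters. -/
theorem letters_of_x (hne : ∀ c, H c ≠ []) (hb0 : b0 ≠ []) (hx : app H x = T)
    (hE : ∀ c, T.count c + 1 = b0.count c + ∑ d, (H d).count c)
    (hwa : ∀ i, ∃ s, it H i b0 = a i :: s) (hinj : ∀ i j, i < n → j < n → a i = a j → i = j)
    (hxa : ∃ s, x = a (n - 1) :: s) {c : Fin n} (hxc : x = [c]) :
    ∀ i < n, (it H i b0).length = 1 := by
  have hn : 0 < n := Fin.pos c
  obtain ⟨s, hs⟩ := hxa
  have hc : c = a (n - 1) := by
    rw [hxc] at hs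
    exact (List.cons.inj hs).1
  have hlen : ∀ u : List (Fin n), ∑ c, u.count c = u.length := by
    intro u
    have h1 := sum_cnt u
    have h2 : ∑ c, cnt u c = ((∑ c, u.count c : ℕ) : ℤ) := by
      rw [Nat.cast_sum]
      rfl
    rw [h2] at h1
    exact_mod_cast h1
  have h1 : T.length + n = b0.length + ∑ d, (H d).length := by
    have h2 : ∑ c, (T.count c + 1) = ∑ c, (b0.count c + ∑ d, (H d).count c) :=
      Finset.sum_congr rfl fun c _ => hE c
    rw [Finset.sum_add_distrib, Finset.sum_add_distrib, hlen, hlen, Finset.sum_comm] at h2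
    simp only [hlen] at h2
    simpa using h2
  have hTc : T.length = (H c).length := by
    rw [← hx, hxc, app_singleton]
  rw [← Finset.add_sum_erase _ _ (Finset.mem_univ c), hTc] at h1
  have h2 : b0.length + ∑ d ∈ Finset.univ.erase c, (H d).length = n := by omega
  have hb1 := List.length_pos_of_ne_nil hb0
  have h3 : ∀ d, d ≠ c → (H d).length = 1 := by
    intro d hd
    by_contra h4
    have h5 : 2 ≤ (H d).length := by
      have := List.length_pos_of_ne_nil (hne d)
      omega
    have h6 : ∑ e ∈ Finset.univ.erase c, 1 < ∑ e ∈ Finset.univ.erase c, (H e).length := by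
      refine Finset.sum_lt_sum (fun e _ => List.length_pos_of_ne_nil (hne e)) ⟨d, ?_, h5⟩
      rw [Finset.mem_erase]
      exact ⟨hd, Finset.mem_univ d⟩
    rw [Finset.sum_const, Finset.card_erase_of_mem (Finset.mem_univ c), Finset.card_univ,
      Fintype.card_fin, smul_eq_mul, mul_one] at h6
    omega
  have h4 : ∑ e ∈ Finset.univ.erase c, (H e).length = n - 1 := by
    rw [Finset.sum_congr rfl fun e he => h3 e (Finset.ne_of_mem_erase he), Finset.sum_const,
      Finset.card_erase_of_mem (Finset.mem_univ c), Finset.card_univ, Fintype.card_fin,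
      smul_eq_mul, mul_one]
  intro i
  induction i with
  | zero =>
    intro _
    rw [it_zero]
    omega
  | succ i ih =>
    intro hi
    have h5 := ih (by omega)
    obtain ⟨s, hs⟩ := hwa i
    rw [hs, List.length_cons] at h5
    have h6 : s = [] := List.length_eq_zero_iff.1 (by omega)
    rw [it_succ, hs, h6, app_singleton]
    apply h3
    rw [hc]
    intro h7
    have := hinj i (n - 1) (by omega) (by omega) h7
    omega

/-! ### the data from a normal form -/

theorem fst_pull (hne : ∀ c, H c ≠ []) (hb : ∀ c d, (H c).head? = (H d).head? → c = d)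
    (ha : ∀ i, ∃ s, H (a i) = a (i + 1) :: s) {u : List (Fin n)} {k : ℕ}
    (hu : ∃ s, app H u = a (k + 1) :: s) : ∃ t, u = a k :: t := by
  obtain ⟨s, hs⟩ := hu
  cases u with
  | nil => simp [app_nil] at hs
  | cons c u =>
    obtain ⟨e, t, ht⟩ := List.exists_cons_of_ne_nil (hne c)
    rw [app_cons, ht, List.cons_append] at hs
    obtain ⟨r, hr⟩ := ha k
    have h1 : c = a k := by
      apply hb
      rw [ht, hr, (List.cons.inj hs).1]
      rfl
    exact ⟨u, by rw [h1]⟩

theorem lst_pull (hne : ∀ c, H c ≠ []) (hb : ∀ c d, (H c).getLast? = (H d).getLast? → c = d)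
    (hbb : ∀ i, ∃ s, H (b i) = s ++ [b (i + 1)]) {u : List (Fin n)} {k : ℕ}
    (hu : ∃ s, app H u = s ++ [b (k + 1)]) : ∃ t, u = t ++ [b k] := by
  obtain ⟨s, hs⟩ := hu
  rcases List.eq_nil_or_concat' u with rfl | ⟨u, c, rfl⟩
  · simp [app_nil] at hs
  · rcases List.eq_nil_or_concat' (H c) with h0 | ⟨t, e, ht⟩
    · exact (hne c h0).elim
    rw [app_append, app_singleton, ht, ← List.append_assoc] at hs
    obtain ⟨r, hr⟩ := hbb k
    have h2 := (List.append_inj' hs rfl).2
    have h1 : c = b k := by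
      apply hb
      rw [ht, hr]
      simpa using h2
    exact ⟨u, by rw [h1]⟩

/-- The data of the counting argument from a normal form. -/
theorem exists_md {N : ℕ} (hnf : NF H b0 N) (hb : Bimk H) (hl : ¬ Lett H b0) {js : List ℕ}
    (hx : app H x = T) (htok : T = (js.map fun j => it H j b0).flatten)
    (hhead : js.head? = some 0) (hlast : js.getLast? = some 0)
    (hE : ∀ c, T.count c + 1 = b0.count c + ∑ d, (H d).count c)
    (hy1 : y 1 = x) (hys : ∀ i, 1 ≤ i → i < J → app H (y (i + 1)) = y i) :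
    ∃ a b, MD H b0 x T a b y J := by
  have hne : ∀ c, H c ≠ [] := fun c => ne_of_inj hnf.inj c
  have hn : 0 < n := pos_n hnf
  obtain ⟨a, ha1, ha2, ha3, ha4, ha5⟩ := exists_fi hnf hb.1
  obtain ⟨b, hb1, hb2, hb3, hb4, hb5⟩ := exists_la hnf hb.2
  have hTa : ∃ s, T = a 0 :: s := by
    cases js with
    | nil => simp at hhead
    | cons j js =>
      obtain rfl : j = 0 := by simpa using hhead
      obtain ⟨s, hs⟩ := ha1 0
      rw [htok, List.map_cons, List.flatten_cons, hs]
      exact ⟨_, rfl⟩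
  have hTb : ∃ s, T = s ++ [b 0] := by
    rcases List.eq_nil_or_concat' js with rfl | ⟨js, j, rfl⟩
    · simp at hlast
    · obtain rfl : j = 0 := by simpa using hlast
      obtain ⟨s, hs⟩ := hb1 0
      rw [htok, List.map_append, List.flatten_append, List.map_singleton, List.flatten_singleton, hs,
        ← List.append_assoc]
      exact ⟨_, rfl⟩
  have hxa : ∃ s, x = a (n - 1) :: s := by
    apply fst_pull hne hb.1 ha2
    rw [hx, Nat.sub_add_cancel hn]
    have := ha3 0
    rw [Nat.zero_add] at this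
    rwa [this]
  have hxb : ∃ s, x = s ++ [b (n - 1)] := by
    apply lst_pull hne hb.2 hb2
    rw [hx, Nat.sub_add_cancel hn]
    have := hb3 0
    rw [Nat.zero_add] at this
    rwa [this]
  refine ⟨a, b, hn, hne, hx, hE, ha1, hb1, ha4, hb4, ha5, hb5, ha2, hb2, ?_, ?_, hy1, hys, ?_, ?_, ?_⟩
  · have := ha3 0
    rwa [Nat.zero_add] at this
  · have := hb3 0
    rwa [Nat.zero_add] at this
  · intro i h1
    induction i, h1 using Nat.le_induction with
    | base =>
      intro _ _
      rw [hy1]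
      exact hxa
    | succ i h1 ih =>
      intro h2 h3
      apply fst_pull hne hb.1 ha2
      rw [hys i h1 (by omega), show n - (i + 1) + 1 = n - i by omega]
      exact ih (by omega) (by omega)
  · intro i h1
    induction i, h1 using Nat.le_induction with
    | base =>
      intro _ _
      rw [hy1]
      exact hxb
    | succ i h1 ih =>
      intro h2 h3
      apply lst_pull hne hb.2 hb2
      rw [hys i h1 (by omega), show n - (i + 1) + 1 = n - i by omega]
      exact ih (by omega) (by omega)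
  · intro c hc
    exact hl (letters_of_x hne hnf.ne hx hE ha1 ha4 hxa hc)

/-- The words `w_i`, `i ≥ q`, are not letters if `w_q` is not a letter. -/
theorem not_letter_mono (hne : ∀ c, H c ≠ []) {q : ℕ} (hq : 2 ≤ (it H q b0).length) {i : ℕ}
    (hi : q ≤ i) (c : Fin n) : it H i b0 ≠ [c] := by
  intro h1
  have h2 := length_it_mono hne b0 hi
  rw [h1, List.length_singleton] at h2
  omega

/-- **No mixing in a normal form, as long as `w_(n-1-j)` is not a letter.** `w_q` is not a letter. -/
theorem nf_tok_lt {N : ℕ} (hnf : NF H b0 N) (hb : Bimk H) {js : List ℕ}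
    (hx : app H x = T) (htok : T = (js.map fun j => it H j b0).flatten) (hlt : ∀ j ∈ js, j < n)
    (hhead : js.head? = some 0) (hlast : js.getLast? = some 0)
    (hE : ∀ c, T.count c + 1 = b0.count c + ∑ d, (H d).count c)
    (hy1 : y 1 = x) (hys : ∀ i, 1 ≤ i → i < J → app H (y (i + 1)) = y i)
    {q : ℕ} (hqn : q < n) (hq : 2 ≤ (it H q b0).length) {j : ℕ} (hjJ : j ≤ J) (hjq : j + q < n) :
    ∀ i ∈ js, i < n - j := by
  have hne : ∀ c, H c ≠ [] := fun c => ne_of_inj hnf.inj c
  have hl : ¬ Lett H b0 := fun hl => by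
    have := hl q hqn
    omega
  obtain ⟨a, b, h⟩ := exists_md hnf hb hl hx htok hhead hlast hE hy1 hys
  exact h.tok_lt htok hlt hhead (fun i hi _ => not_letter_mono hne hq hi) hjJ hjq

/-- **No mixing in a normal form, `w_0` not a letter.** -/
theorem nf_no_mix_zero {N : ℕ} (hnf : NF H b0 N) (hb : Bimk H) {js : List ℕ}
    (hx : app H x = T) (htok : T = (js.map fun j => it H j b0).flatten) (hlt : ∀ j ∈ js, j < n)
    (hhead : js.head? = some 0) (htwo : 0 ∈ js.tail) (hlast : js.getLast? = some 0)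
    (hE : ∀ c, T.count c + 1 = b0.count c + ∑ d, (H d).count c)
    (hy1 : y 1 = x) (hys : ∀ i, 1 ≤ i → i < J → app H (y (i + 1)) = y i)
    (hq : 2 ≤ b0.length) : J < n ∧ ∀ i ∈ js, i < n - J := by
  have hne : ∀ c, H c ≠ [] := fun c => ne_of_inj hnf.inj c
  have hl : ¬ Lett H b0 := fun hl => by
    have := hl 0 (pos_n hnf)
    rw [it_zero] at this
    omega
  obtain ⟨a, b, h⟩ := exists_md hnf hb hl hx htok hhead hlast hE hy1 hys
  exact h.no_mix_zero htok hlt hhead htwo
    fun i _ => not_letter_mono hne (q := 0) (by rwa [it_zero]) (Nat.zero_le i)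

end D0L.Bim
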