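import Pool.Agent.H.MP_374efc_lc.Bim.Mix

/-!
# MP_374efc_lc, bimarked case: no mixing, `w_0, …, w_(p-1)` letters, `p ≥ 1`, `j = n - p` is impossible

`L = {a_0, …, a_(p-1)}`. `N` = number of tokens `w_p` in `T`. `N = 0`: by `(E)` the letter `a_p` occurs once in all images, so
`w_p = h(a_(p-1))` is a letter. `N = 1`: by `(E)` every letter outside `L` occurs once in the images of the letters outside `L`;
by first and last letters each of these images has exactly one letter outside `L`, and the number of letters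
outside `L` modulo `k = |w_p|_(outside L)` vanishes on all `w_i`, which are a basis. `N ≥ 2`: zeros of `e_j`.
-/

set_option autoImplicit false

namespace D0L.Bim

open Finset

variable {n : ℕ} {H : Fin n → List (Fin n)} {b0 x T : List (Fin n)} {a b : ℕ → Fin n}
  {y : ℕ → List (Fin n)} {J p : ℕ} {js : List ℕ}

/-- The letters `a_0, …, a_(p-1)`. -/
def LL (a : ℕ → Fin n) (p : ℕ) : Finset (Fin n) := (range p).image a

theorem mem_LL {c : Fin n} : c ∈ LL a p ↔ ∃ i < p, a i = c := by
  simp [LL]

/-- The number of letters of `u` in the set `S`. -/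
def sc (S : Finset (Fin n)) (u : List (Fin n)) : ℕ := ∑ c ∈ S, u.count c

theorem sc_nil (S : Finset (Fin n)) : sc S [] = 0 := by simp [sc]

theorem sc_append (S : Finset (Fin n)) (u v : List (Fin n)) : sc S (u ++ v) = sc S u + sc S v := by
  rw [sc, sc, sc, ← Finset.sum_add_distrib]
  exact Finset.sum_congr rfl fun c _ => List.count_append

theorem sc_singleton_mem {S : Finset (Fin n)} {c : Fin n} (hc : c ∈ S) : sc S [c] = 1 := by
  rw [sc, ← Finset.add_sum_erase _ _ hc, List.count_singleton_self]
  have : ∑ d ∈ S.erase c, [c].count d = 0 := by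
    refine Finset.sum_eq_zero fun d hd => ?_
    rw [List.count_eq_zero, List.mem_singleton]
    exact Finset.ne_of_mem_erase hd
  rw [this]

theorem sc_singleton_not {S : Finset (Fin n)} {c : Fin n} (hc : c ∉ S) : sc S [c] = 0 := by
  refine Finset.sum_eq_zero fun d hd => ?_
  rw [List.count_eq_zero, List.mem_singleton]
  rintro rfl
  exact hc hd

theorem sc_cons (S : Finset (Fin n)) (c : Fin n) (u : List (Fin n)) :
    sc S (c :: u) = sc S [c] + sc S u := by
  rw [← sc_append]
  rfl

theorem sc_pos {S : Finset (Fin n)} {c : Fin n} (hc : c ∈ S) {u : List (Fin n)} (hu : c ∈ u) :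
    1 ≤ sc S u := by
  have h1 : u.count c ≤ sc S u :=
    Finset.single_le_sum (f := fun d => u.count d) (fun d _ => Nat.zero_le _) hc
  have h2 := List.count_pos_iff.2 hu
  omega

/-- The data for `w_0, …, w_(p-1)` letters. -/
structure M2 (H : Fin n → List (Fin n)) (b0 x T : List (Fin n)) (a b : ℕ → Fin n)
    (y : ℕ → List (Fin n)) (J p : ℕ) (js : List ℕ) : Prop extends MD H b0 x T a b y J where
  p1 : 1 ≤ p
  pn : p < n
  lett : ∀ i < p, it H i b0 = [a i]
  nl : ∀ c, it H p b0 ≠ [c]
  tok : T = (js.map fun j => it H j b0).flatten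
  le : ∀ j ∈ js, j ≤ p
  head : js.head? = some 0
  two : 0 ∈ js.tail

namespace M2

theorem b0_eq (h : M2 H b0 x T a b y J p js) : b0 = [a 0] := by
  have := h.lett 0 (by have := h.p1; omega)
  rwa [it_zero] at this

theorem b_eq (h : M2 H b0 x T a b y J p js) {i : ℕ} (hi : i < p) : b i = a i := by
  obtain ⟨s, hs⟩ := h.wb i
  rw [h.lett i hi] at hs
  have h1 : [] ++ [a i] = s ++ [b i] := hs
  have h2 := (List.append_inj' h1 rfl).2
  simpa using h2.symm

theorem H_let (h : M2 H b0 x T a b y J p js) {i : ℕ} (hi : i + 1 < p) :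
    H (a i) = [a (i + 1)] := by
  rw [← h.lett (i + 1) hi, it_succ, h.lett i (by omega), app_singleton]

theorem H_last (h : M2 H b0 x T a b y J p js) : H (a (p - 1)) = it H p b0 := by
  have h1 := h.p1
  obtain ⟨q, rfl⟩ : ∃ q, p = q + 1 := ⟨p - 1, by omega⟩
  rw [it_succ, h.lett q (by omega), app_singleton]
  rfl

theorem a_not (h : M2 H b0 x T a b y J p js) {i : ℕ} (hi : p ≤ i) (hin : i < n) :
    a i ∉ LL a p := by
  rw [mem_LL]
  rintro ⟨k, hk, hki⟩
  have := h.inj_a k i (by omega) hin hki
  omega

theorem b_not (h : M2 H b0 x T a b y J p js) {i : ℕ} (hi : p ≤ i) (hin : i < n) :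
    b i ∉ LL a p := by
  rw [mem_LL]
  rintro ⟨k, hk, hki⟩
  rw [← h.b_eq hk] at hki
  have := h.inj_b k i (by omega) hin hki
  omega

theorem exists_a (h : M2 H b0 x T a b y J p js) {c : Fin n} (hc : c ∉ LL a p) :
    ∃ i, p ≤ i ∧ i < n ∧ a i = c := by
  obtain ⟨i, hi, rfl⟩ := h.sur_a c
  refine ⟨i, ?_, hi, rfl⟩
  by_contra h1
  exact hc (mem_LL.2 ⟨i, by omega, rfl⟩)

theorem exists_b (h : M2 H b0 x T a b y J p js) {c : Fin n} (hc : c ∉ LL a p) :
    ∃ i, p ≤ i ∧ i < n ∧ b i = c := by
  obtain ⟨i, hi, rfl⟩ := h.sur_b c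
  refine ⟨i, ?_, hi, rfl⟩
  by_contra h1
  exact hc (mem_LL.2 ⟨i, by omega, (h.b_eq (by omega)).symm⟩)

theorem count_T (h : M2 H b0 x T a b y J p js) {c : Fin n} (hc : c ∉ LL a p) :
    T.count c = js.count p * (it H p b0).count c := by
  rw [h.tok, List.count_flatten, List.map_map]
  have hle := h.le
  have key : ∀ js : List ℕ, (∀ j ∈ js, j ≤ p) →
      (js.map (List.count c ∘ fun j => it H j b0)).sum = js.count p * (it H p b0).count c := by
    intro js
    induction js with
    | nil => simp
    | cons j js ih =>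
      intro hj
      rw [List.map_cons, List.sum_cons, ih fun i hi => hj i (List.mem_cons_of_mem _ hi),
        List.count_cons, Function.comp_apply]
      by_cases h1 : j = p
      · subst h1
        simp
        ring
      · have h2 : j < p := lt_of_le_of_ne (hj j List.mem_cons_self) h1
        have h3 : (it H j b0).count c = 0 := by
          rw [h.lett j h2, List.count_eq_zero, List.mem_singleton]
          rintro rfl
          exact hc (mem_LL.2 ⟨j, h2, rfl⟩)
        rw [h3]
        simp [h1]
  exact key js hle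

/-- `(E)` outside `L`. -/
theorem E_out (h : M2 H b0 x T a b y J p js) {c : Fin n} (hc : c ∉ LL a p) :
    js.count p * (it H p b0).count c + 1 =
      (it H p b0).count c + ∑ d ∈ univ.erase (a (p - 1)), (H d).count c := by
  have h1 := h.E c
  rw [h.count_T hc] at h1
  have h2 : b0.count c = 0 := by
    rw [h.b0_eq, List.count_eq_zero, List.mem_singleton]
    rintro rfl
    exact hc (mem_LL.2 ⟨0, by have := h.p1; omega, rfl⟩)
  rw [h2, zero_add, ← Finset.add_sum_erase _ _ (Finset.mem_univ (a (p - 1))), h.H_last] at h1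
  exact h1

theorem E_out' (h : M2 H b0 x T a b y J p js) {c : Fin n} (hc : c ∉ LL a p) :
    js.count p * (it H p b0).count c + 1 =
      (it H p b0).count c + ∑ d ∈ (LL a p)ᶜ, (H d).count c := by
  rw [h.E_out hc]
  congr 1
  symm
  refine Finset.sum_subset ?_ ?_
  · intro d hd
    rw [Finset.mem_compl] at hd
    rw [Finset.mem_erase]
    refine ⟨?_, Finset.mem_univ d⟩
    rintro rfl
    exact hd (mem_LL.2 ⟨p - 1, by have := h.p1; omega, rfl⟩)
  · intro d hd1 hd2
    rw [Finset.mem_compl, not_not, mem_LL] at hd2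
    obtain ⟨i, hi, rfl⟩ := hd2
    rw [Finset.mem_erase] at hd1
    have h1 : i ≠ p - 1 := by
      rintro rfl
      exact hd1.1 rfl
    rw [h.H_let (by omega), List.count_eq_zero, List.mem_singleton]
    rintro rfl
    exact hc (mem_LL.2 ⟨i + 1, by omega, rfl⟩)

/-! ### no token `w_p` -/

theorem case_zero (h : M2 H b0 x T a b y J p js) (hN : js.count p = 0) : False := by
  have hp1 := h.p1
  have hpn := h.pn
  have hc := h.a_not le_rfl hpn
  have h1 := h.E_out hc
  rw [hN, zero_mul, zero_add, ← h.H_last] at h1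
  have h2 : ∑ d, (H d).count (a p) = 1 := by
    rw [← Finset.add_sum_erase _ _ (Finset.mem_univ (a (p - 1)))]
    exact h1.symm
  obtain ⟨s, hs⟩ := h.wa p
  rw [← h.H_last] at hs
  obtain ⟨k, hk, hkn, hka⟩ := h.exists_b hc
  obtain ⟨t, ht⟩ := h.Hb (k - 1)
  rw [Nat.sub_add_cancel (by omega), hka] at ht
  have h3 : 1 ≤ (H (a (p - 1))).count (a p) := by
    rw [hs, List.count_cons_self]
    omega
  have h4 : 1 ≤ (H (b (k - 1))).count (a p) := by
    rw [ht, List.count_append, List.count_singleton_self]
    omega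
  have h5 : b (k - 1) = a (p - 1) := by
    by_contra hne
    have h6 : ∑ d ∈ {b (k - 1), a (p - 1)}, (H d).count (a p) ≤ ∑ d, (H d).count (a p) :=
      Finset.sum_le_sum_of_subset (Finset.subset_univ _)
    rw [Finset.sum_pair hne] at h6
    omega
  rw [h5] at ht
  have h6 : (H (a (p - 1))).count (a p) ≤ ∑ d, (H d).count (a p) :=
    Finset.single_le_sum (f := fun d => (H d).count (a p)) (fun d _ => Nat.zero_le _)
      (Finset.mem_univ _)
  have h7 := eq_single hs ht (by omega)
  rw [h.H_last] at h7
  exact h.nl _ h7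

/-! ### at least two tokens `w_p` -/

theorem case_two (h : M2 H b0 x T a b y J p js) (hJ : n - p ≤ J) (hN : 2 ≤ js.count p) :
    False := by
  have hp1 := h.p1
  have hpn := h.pn
  have hj1 : 1 ≤ n - p := by omega
  have hjn : n - p ≤ n := by omega
  have hnj : n - (n - p) = p := by omega
  have hpjs : p ∈ js.tail := by
    have h1 : p ∈ js := List.count_pos_iff.1 (by omega)
    have h2 := h.head
    revert h1 h2
    cases js with
    | nil => simp
    | cons k js =>
      intro h1 h2
      obtain rfl : k = 0 := by simpa using h2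
      rcases List.mem_cons.1 h1 with h3 | h3
      · omega
      · exact h3
  have hT : cnt (it H (n - (n - p)) b0) ≤ cnt T - cnt b0 := by
    rw [hnj]
    exact tok_ge (H := H) (b0 := b0) h.tok h.head hpjs
  -- the letter with index `p - 1`
  have hidx : ∀ k1 d, cw H b0 y (n - p) k1 = [d] → k1 + 1 + (n - p) = n → d = a (p - 1) := by
    intro k1 d h1 h2
    have h3 : k1 = p - 1 := by omega
    subst h3
    rw [cw_lt (by omega), h.lett (p - 1) (by omega)] at h1
    simpa using h1.symm
  have hlast : ∀ k1 d, cw H b0 y (n - p) k1 = [d] → k1 < n → k1 + 1 < n := by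
    intro k1 d hk2 hk1
    by_contra h1
    have h2 : k1 = n - 1 := by omega
    subst h2
    rw [cw_ge (by omega), show n - (n - 1) = 1 by omega, h.y_one] at hk2
    exact h.x_long d hk2
  have hE0 : ev H b0 y (n - p) (a (p - 1)) ≤ 0 := by
    have key : ∀ k < n, ∀ c, ev H b0 y (n - p) c ≤ 0 → cw H b0 y (n - p) k = [c] →
        ev H b0 y (n - p) (a (p - 1)) ≤ 0 := by
      intro k
      induction k with
      | zero =>
        intro hk c hc hkc
        obtain ⟨d, hd, hcd⟩ := h.descend hj1 hJ hjn hT hc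
        obtain ⟨k1, hk1, hk2, -⟩ := h.ev_zero hJ hd
        obtain ⟨k0, hk0, -, hu⟩ := h.ev_zero hJ hc
        have e0 := hu 0 hk (by rw [hkc]; simp)
        by_cases h2 : k1 + 1 + (n - p) = n
        · rw [← hidx k1 d hk2 h2]
          exact hd
        have h1 := hlast k1 d hk2 hk1
        have h3 := h.app_cw' hJ h1 h2
        rw [hk2, app_singleton] at h3
        have h4 := hu (k1 + 1) h1 (by rw [← h3]; exact hcd)
        omega
      | succ k ih =>
        intro hk c hc hkc
        obtain ⟨d, hd, hcd⟩ := h.descend hj1 hJ hjn hT hc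
        obtain ⟨k1, hk1, hk2, -⟩ := h.ev_zero hJ hd
        obtain ⟨k0, hk0, -, hu⟩ := h.ev_zero hJ hc
        have e0 := hu (k + 1) hk (by rw [hkc]; simp)
        by_cases h2 : k1 + 1 + (n - p) = n
        · rw [← hidx k1 d hk2 h2]
          exact hd
        have h1 := hlast k1 d hk2 hk1
        have h3 := h.app_cw' hJ h1 h2
        rw [hk2, app_singleton] at h3
        have h4 := hu (k1 + 1) h1 (by rw [← h3]; exact hcd)
        have h5 : k1 = k := by omega
        subst h5
        exact ih hk1 d hd hk2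
    have h1 : ∃ c, ev H b0 y (n - p) c ≤ 0 := by
      by_contra hcon
      push Not at hcon
      refine h.not_pos hJ hjn hT fun c => ?_
      have := hcon c
      change (1 : ℤ) ≤ ev H b0 y (n - p) c
      omega
    obtain ⟨c, hc⟩ := h1
    obtain ⟨k, hk, hkc, -⟩ := h.ev_zero hJ hc
    exact key k hk c hc hkc
  have hnn := h.ev_nonneg hJ
  have hA : (inc H).mulVec (ev H b0 y (n - p)) =
      ev H b0 y (n - p) + cnt (it H p b0) - cnt (y (n - p)) := by
    have h2 := h.inc_ev (j := n - p - 1) (by omega) (by omega)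
    rw [Nat.sub_add_cancel hj1] at h2
    rw [h2, MD.ev_diff hj1 hjn, hnj]
  -- the refined descent
  have hdesc : ∀ c, c ∉ LL a p → ev H b0 y (n - p) c ≤ 0 →
      ∃ d, d ≠ a (p - 1) ∧ ev H b0 y (n - p) d ≤ 0 ∧ c ∈ H d := by
    intro c hcL hc
    by_contra hcon
    push Not at hcon
    have h1 := congrFun hA c
    rw [Matrix.mulVec, dotProduct, ← Finset.add_sum_erase _ _ (Finset.mem_univ (a (p - 1)))] at h1
    have h2 : ∑ d ∈ univ.erase (a (p - 1)), ((H d).count c : ℤ) ≤
        ∑ d ∈ univ.erase (a (p - 1)), inc H c d * ev H b0 y (n - p) d := by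
      refine Finset.sum_le_sum fun d hd => ?_
      rw [inc, Matrix.of_apply]
      by_cases h4 : c ∈ H d
      · have h5 : 0 < ev H b0 y (n - p) d := by
          by_contra h6
          exact hcon d (Finset.ne_of_mem_erase hd) (by omega) h4
        have h7 : (0 : ℤ) ≤ (H d).count c := by positivity
        nlinarith
      · rw [List.count_eq_zero_of_not_mem h4]
        simp
    have h3 : 0 ≤ inc H c (a (p - 1)) * ev H b0 y (n - p) (a (p - 1)) := by
      have h4 := hnn (a (p - 1))
      rw [Pi.zero_apply] at h4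
      refine mul_nonneg ?_ h4
      rw [inc, Matrix.of_apply]
      positivity
    have h4 := h.E_out hcL
    have h5 : ((js.count p * (it H p b0).count c + 1 : ℕ) : ℤ) =
        (((it H p b0).count c + ∑ d ∈ univ.erase (a (p - 1)), (H d).count c : ℕ) : ℤ) := by
      rw [h4]
    push_cast at h5
    have h6 := cnt_nonneg (y (n - p)) c
    simp only [Pi.sub_apply, Pi.add_apply, Pi.zero_apply] at h1 h6
    have h7 : cnt (it H p b0) c = ((it H p b0).count c : ℤ) := rfl
    rw [h7] at h1
    have h8 : (0 : ℤ) ≤ (it H p b0).count c := by positivity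
    have h9 : (2 : ℤ) ≤ js.count p := by exact_mod_cast hN
    nlinarith
  have hout : ∀ c, c ∉ LL a p → 1 ≤ ev H b0 y (n - p) c := by
    have key : ∀ k, p ≤ k → k < n → ∀ c, ev H b0 y (n - p) c ≤ 0 →
        cw H b0 y (n - p) k = [c] → False := by
      intro k hpk
      induction k, hpk using Nat.le_induction with
      | base =>
        intro hk c hc hkc
        have hcL : c ∉ LL a p := by
          obtain ⟨s, hs⟩ := h.cw_fst hJ hk
          rw [hkc] at hs
          rw [(List.cons.inj hs).1]
          exact h.a_not le_rfl hpn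
        obtain ⟨d, hda, hd, hcd⟩ := hdesc c hcL hc
        obtain ⟨k1, hk1, hk2, -⟩ := h.ev_zero hJ hd
        obtain ⟨k0, hk0, -, hu⟩ := h.ev_zero hJ hc
        have e0 := hu p hk (by rw [hkc]; simp)
        have h2 : k1 + 1 + (n - p) ≠ n := fun h2 => hda (hidx k1 d hk2 h2)
        have h1 := hlast k1 d hk2 hk1
        have h3 := h.app_cw' hJ h1 h2
        rw [hk2, app_singleton] at h3
        have h4 := hu (k1 + 1) h1 (by rw [← h3]; exact hcd)
        omega
      | succ k hpk ih =>
        intro hk c hc hkc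
        have hcL : c ∉ LL a p := by
          obtain ⟨s, hs⟩ := h.cw_fst hJ hk
          rw [hkc] at hs
          rw [(List.cons.inj hs).1]
          exact h.a_not (by omega) hk
        obtain ⟨d, hda, hd, hcd⟩ := hdesc c hcL hc
        obtain ⟨k1, hk1, hk2, -⟩ := h.ev_zero hJ hd
        obtain ⟨k0, hk0, -, hu⟩ := h.ev_zero hJ hc
        have e0 := hu (k + 1) hk (by rw [hkc]; simp)
        have h2 : k1 + 1 + (n - p) ≠ n := fun h2 => hda (hidx k1 d hk2 h2)
        have h1 := hlast k1 d hk2 hk1
        have h3 := h.app_cw' hJ h1 h2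
        rw [hk2, app_singleton] at h3
        have h4 := hu (k1 + 1) h1 (by rw [← h3]; exact hcd)
        have h5 : k1 = k := by omega
        subst h5
        exact ih hk1 d hd hk2
    intro c hcL
    by_contra hc
    have hc' : ev H b0 y (n - p) c ≤ 0 := by omega
    obtain ⟨k, hk, hkc, -⟩ := h.ev_zero hJ hc'
    refine key k ?_ hk c hc' hkc
    by_contra hkp
    obtain ⟨s, hs⟩ := h.cw_fst hJ hk
    rw [hkc] at hs
    exact hcL (mem_LL.2 ⟨k, by omega, (List.cons.inj hs).1.symm⟩)
  -- the sum over `L`
  have hL1 : ∑ c ∈ LL a p, (inc H).mulVec (ev H b0 y (n - p)) c =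
      ∑ d, (sc (LL a p) (H d) : ℤ) * ev H b0 y (n - p) d := by
    simp only [Matrix.mulVec, dotProduct]
    rw [Finset.sum_comm]
    refine Finset.sum_congr rfl fun d _ => ?_
    rw [sc, Nat.cast_sum, Finset.sum_mul]
    rfl
  have hL2 : ∑ c ∈ LL a p, (inc H).mulVec (ev H b0 y (n - p)) c =
      ∑ c ∈ LL a p, ev H b0 y (n - p) c + sc (LL a p) (it H p b0) -
        sc (LL a p) (y (n - p)) := by
    rw [hA]
    simp only [Pi.sub_apply, Pi.add_apply, Finset.sum_add_distrib, Finset.sum_sub_distrib]
    rw [sc, sc, Nat.cast_sum, Nat.cast_sum]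
    rfl
  have hL3 : ∑ d, (sc (LL a p) (H d) : ℤ) * ev H b0 y (n - p) d =
      ∑ d ∈ LL a p, (sc (LL a p) (H d) : ℤ) * ev H b0 y (n - p) d +
        ∑ d ∈ (LL a p)ᶜ, (sc (LL a p) (H d) : ℤ) * ev H b0 y (n - p) d :=
    (Finset.sum_add_sum_compl _ _).symm
  have hsL : ∀ i, i + 1 < p → sc (LL a p) (H (a i)) = 1 := by
    intro i hi
    rw [h.H_let hi]
    exact sc_singleton_mem (mem_LL.2 ⟨i + 1, hi, rfl⟩)
  have hL4 : ∑ d ∈ LL a p, ev H b0 y (n - p) d ≤
      ∑ d ∈ LL a p, (sc (LL a p) (H d) : ℤ) * ev H b0 y (n - p) d := by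
    refine Finset.sum_le_sum fun d hd => ?_
    obtain ⟨i, hi, rfl⟩ := mem_LL.1 hd
    by_cases h1 : i + 1 < p
    · rw [hsL i h1, Nat.cast_one, one_mul]
    · have h2 : i = p - 1 := by omega
      subst h2
      have h3 := hnn (a (p - 1))
      rw [Pi.zero_apply] at h3
      have h4 : ev H b0 y (n - p) (a (p - 1)) = 0 := le_antisymm hE0 h3
      rw [h4, mul_zero]
  have hL5 : ∑ d ∈ (LL a p)ᶜ, (sc (LL a p) (H d) : ℤ) ≤
      ∑ d ∈ (LL a p)ᶜ, (sc (LL a p) (H d) : ℤ) * ev H b0 y (n - p) d := by
    refine Finset.sum_le_sum fun d hd => ?_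
    rw [Finset.mem_compl] at hd
    have h1 := hout d hd
    have h2 : (0 : ℤ) ≤ sc (LL a p) (H d) := by positivity
    nlinarith
  have hle : ∑ d ∈ (LL a p)ᶜ, (sc (LL a p) (H d) : ℤ) ≤ sc (LL a p) (it H p b0) := by
    have h1 : (0 : ℤ) ≤ sc (LL a p) (y (n - p)) := by positivity
    linarith
  -- `(E)` over `L`
  have hE1 : sc (LL a p) T + p = sc (LL a p) b0 + ∑ d, sc (LL a p) (H d) := by
    have h1 : ∑ c ∈ LL a p, (T.count c + 1) =
        ∑ c ∈ LL a p, (b0.count c + ∑ d, (H d).count c) :=
      Finset.sum_congr rfl fun c _ => h.E c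
    rw [Finset.sum_add_distrib, Finset.sum_add_distrib, Finset.sum_comm, Finset.sum_const,
      smul_eq_mul, mul_one] at h1
    have h2 : (LL a p).card = p := by
      rw [LL, Finset.card_image_of_injOn, Finset.card_range]
      intro i hi j hj hij
      rw [Finset.mem_coe, Finset.mem_range] at hi hj
      exact h.inj_a i j (by omega) (by omega) hij
    rw [h2] at h1
    exact h1
  have hE2 : sc (LL a p) b0 = 1 := by
    rw [h.b0_eq]
    exact sc_singleton_mem (mem_LL.2 ⟨0, by omega, rfl⟩)
  have hE3 : ∑ d ∈ LL a p, sc (LL a p) (H d) = p - 1 + sc (LL a p) (it H p b0) := by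
    rw [show LL a p = (range p).image a from rfl, Finset.sum_image]
    · change ∑ i ∈ range p, sc (LL a p) (H (a i)) = p - 1 + sc (LL a p) (it H p b0)
      obtain ⟨q, rfl⟩ : ∃ q, p = q + 1 := ⟨p - 1, by omega⟩
      rw [Finset.sum_range_succ]
      have h1 : ∑ i ∈ range q, sc (LL a (q + 1)) (H (a i)) = q := by
        rw [Finset.sum_congr rfl fun i hi => hsL i (by rw [Finset.mem_range] at hi; omega)]
        simp
      rw [h1]
      have h2 := h.H_last
      rw [Nat.add_sub_cancel] at h2
      rw [h2, Nat.add_sub_cancel]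
    · intro i hi j hj hij
      rw [Finset.mem_coe, Finset.mem_range] at hi hj
      exact h.inj_a i j (by omega) (by omega) hij
  have hE4 : ∑ d, sc (LL a p) (H d) = ∑ d ∈ LL a p, sc (LL a p) (H d) +
      ∑ d ∈ (LL a p)ᶜ, sc (LL a p) (H d) := (Finset.sum_add_sum_compl _ _).symm
  have hE5 : js.count 0 + js.count p * sc (LL a p) (it H p b0) ≤ sc (LL a p) T := by
    have h1 : ∀ js : List ℕ, js.count 0 + js.count p * sc (LL a p) (it H p b0) ≤
        sc (LL a p) (js.map fun j => it H j b0).flatten := by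
      intro js
      induction js with
      | nil => simp
      | cons j js ih =>
        rw [List.map_cons, List.flatten_cons, sc_append, List.count_cons, List.count_cons]
        by_cases h1 : j = 0
        · subst h1
          have h2 : ¬ (0 : ℕ) = p := by omega
          rw [it_zero, hE2]
          simp only [beq_self_eq_true, if_true, beq_iff_eq, h2, if_false, add_zero]
          omega
        · by_cases h2 : j = p
          · subst h2
            simp only [beq_iff_eq, h1, if_false, add_zero, if_true]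
            rw [Nat.add_mul, one_mul]
            omega
          · simp only [beq_iff_eq, h1, h2, if_false, add_zero]
            omega
    rw [h.tok]
    exact h1 js
  have hE6 : 2 ≤ js.count 0 := by
    have h1 := h.two
    have h2 := h.head
    revert h1 h2
    cases js with
    | nil => simp
    | cons k js =>
      intro h1 h2
      obtain rfl : k = 0 := by simpa using h2
      rw [List.tail_cons] at h1
      have h3 := List.count_pos_iff.2 h1
      rw [List.count_cons_self]
      omega
  have hle' : ∑ d ∈ (LL a p)ᶜ, sc (LL a p) (H d) ≤ sc (LL a p) (it H p b0) := by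
    exact_mod_cast hle
  have hE7 : 2 * sc (LL a p) (it H p b0) ≤ js.count p * sc (LL a p) (it H p b0) :=
    Nat.mul_le_mul_right _ hN
  omega

end M2

end D0L.Bim
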