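import Pool.Agent.H.MP_374efc_lc.Base

/-!
# MP_374efc_lc, BIM 9.2: no big token on a token line

Paper proof: /team-store/h67_374efc_BIMFULL.md, 9.2.  `flw w E` is the product of the tokens `w e`, `e` in `E`.
The line is `om om om ...` (token words over `0, ..., n - 1`), a cut of the line is `om = p ++ s` with `s` not empty, the
ray at the cut is `s om om ...`.  `noP`: if `T = flw w tT` (`tT` begins with `om`) is a left factor and a suffix of `w n`,
the word of `om` is primitive, `w n` is no product of tokens with index `< n`, then `w (c + n)` is not a left factor of a ray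
whose first token is `c`.  Everything is stated for a sequence of words `w` with `n` different first letters, periodic
first letters and the shift property `hsh`, so that the mirror image is the same theorem for the reversed words.
-/

set_option autoImplicit false

namespace D0L.Bim

variable {α : Type*}

/-- The product of the tokens of `E`. -/
def flw (w : ℕ → List α) (E : List ℕ) : List α := (E.map w).flatten

theorem flw_nil (w : ℕ → List α) : flw w [] = [] := rfl

theorem flw_cons (w : ℕ → List α) (e : ℕ) (E : List ℕ) : flw w (e :: E) = w e ++ flw w E := rfl

theorem flw_append (w : ℕ → List α) (E E' : List ℕ) : flw w (E ++ E') = flw w E ++ flw w E' := by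
  simp [flw]

/-- The power `x x ... x`. -/
def pw {β : Type*} (M : ℕ) (x : List β) : List β := (List.replicate M x).flatten

theorem pw_zero {β : Type*} (x : List β) : pw 0 x = [] := rfl

theorem pw_succ {β : Type*} (M : ℕ) (x : List β) : pw (M + 1) x = x ++ pw M x := by
  simp [pw, List.replicate_succ]

theorem flw_pw (w : ℕ → List α) (M : ℕ) (E : List ℕ) : flw w (pw M E) = pw M (flw w E) := by
  induction M with
  | zero => rfl
  | succ M ih => rw [pw_succ, flw_append, ih, pw_succ]

theorem flw_ne {w : ℕ → List α} (hne : ∀ i, w i ≠ []) {E : List ℕ} (hE : E ≠ []) :
    flw w E ≠ [] := by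
  cases E with
  | nil => exact absurd rfl hE
  | cons e E =>
    rw [flw_cons]
    intro h
    exact hne e (List.append_eq_nil_iff.1 h).1

theorem nil_of_flw {w : ℕ → List α} (hne : ∀ i, w i ≠ []) {E : List ℕ} (h : flw w E = []) :
    E = [] := by
  by_contra h1
  exact flw_ne hne h1 h

/-- Two nonempty words, the second a left factor of the first: the same first letter. -/
theorem head_of_prefix {x y : List α} (h : x <+: y) (hx : x ≠ []) : y.head? = x.head? := by
  obtain ⟨t, rfl⟩ := h
  cases x with
  | nil => exact absurd rfl hx
  | cons a x => rfl

theorem head_append {x y : List α} (hx : x ≠ []) : (x ++ y).head? = x.head? := by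
  cases x with
  | nil => exact absurd rfl hx
  | cons a x => rfl

/-- Comparison of the shifted token word `E + c` with a token word `R`: either all shifted tokens are small and
`E + c` is a left factor of `R`, or the first big shifted token `e + c` is read at a cut of `R`, the next token of `R` being
`e + c - n`. -/
theorem cmp_shift {w : ℕ → List α} {n : ℕ} (hne : ∀ i, w i ≠ [])
    (hinj : ∀ i < n, ∀ j < n, (w i).head? = (w j).head? → i = j)
    (hper : ∀ i, (w (i + n)).head? = (w i).head?) {c : ℕ} (hc : c < n) :
    ∀ (E R : List ℕ), (∀ e ∈ E, e < n) → (∀ r ∈ R, r < n) →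
      flw w (E.map (· + c)) <+: flw w R →
      E.map (· + c) <+: R ∨
        ∃ (X R2 : List ℕ) (e : ℕ), e ∈ E ∧ n ≤ e + c ∧ R = X ++ R2 ∧
          R2.head? = some (e + c - n) ∧ w (e + c) <+: flw w R2 := by
  intro E
  induction E with
  | nil => intro R _ _ _; exact Or.inl (List.nil_prefix)
  | cons e E ih =>
    intro R hE hR hp
    have he : e < n := hE e List.mem_cons_self
    rw [List.map_cons, flw_cons] at hp
    have hp1 : w (e + c) <+: flw w R := (List.prefix_append _ _).trans hp
    cases R with
    | nil =>
      exfalso
      rw [flw_nil] at hp1
      exact hne _ (List.prefix_nil.1 hp1)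
    | cons r R =>
      have hr : r < n := hR r List.mem_cons_self
      have h1 : (w r).head? = (w (e + c)).head? := by
        have h2 := head_of_prefix hp1 (hne _)
        rw [flw_cons, head_append (hne r)] at h2
        exact h2
      rcases Nat.lt_or_ge (e + c) n with h3 | h3
      · have h4 : r = e + c := hinj r hr _ h3 h1
        subst h4
        rw [flw_cons] at hp
        have h5 : flw w (E.map (· + c)) <+: flw w R := (List.prefix_append_right_inj _).1 hp
        rcases ih R (fun x hx => hE x (List.mem_cons_of_mem _ hx))
          (fun x hx => hR x (List.mem_cons_of_mem _ hx)) h5 with h6 | ⟨X, R2, e', h7, h8, h9, h10, h11⟩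
        · left
          rw [List.map_cons]
          exact (List.prefix_cons_inj _).2 h6
        · right
          exact ⟨(e + c) :: X, R2, e', List.mem_cons_of_mem _ h7, h8, by rw [h9]; rfl, h10, h11⟩
      · right
        refine ⟨[], r :: R, e, List.mem_cons_self, h3, rfl, ?_, hp1⟩
        have h4 : e + c - n + n = e + c := by omega
        have h5 : (w r).head? = (w (e + c - n)).head? := by
          rw [h1, ← hper (e + c - n), h4]
        have h6 : r = e + c - n := hinj r hr _ (by omega) h5
        rw [h6]
        rfl

/-- The nonempty suffixes of a ray are rays. -/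
theorem ray_suffix {om : List ℕ} (hom : om ≠ []) :
    ∀ (M : ℕ) (p s X R2 : List ℕ), om = p ++ s → s ≠ [] → R2 ≠ [] → X ++ R2 = s ++ pw M om →
      ∃ (p' s' : List ℕ) (M' : ℕ), om = p' ++ s' ∧ s' ≠ [] ∧ R2 = s' ++ pw M' om := by
  intro M
  induction M with
  | zero =>
    intro p s X R2 hps hs hR2 h
    rw [pw_zero, List.append_nil] at h
    exact ⟨p ++ X, R2, 0, by rw [hps, ← h, List.append_assoc], hR2, by rw [pw_zero, List.append_nil]⟩
  | succ M ih =>
    intro p s X R2 hps hs hR2 h
    rcases List.append_eq_append_iff.1 h with ⟨s2, h1, h2⟩ | ⟨X2, h1, h2⟩
    · -- `s = X ++ s2`, `R2 = s2 ++ pw (M+1) om`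
      by_cases h3 : s2 = []
      · subst h3
        rw [List.nil_append, pw_succ] at h2
        exact ⟨[], om, M, rfl, hom, h2⟩
      · exact ⟨p ++ X, s2, M + 1, by rw [hps, h1, List.append_assoc], h3, h2⟩
    · -- `X = s ++ X2`, `pw (M+1) om = X2 ++ R2`
      rw [pw_succ] at h2
      exact ih [] om X2 R2 rfl hom hR2 h2.symm

/-- `X ++ x` is a left factor of a power of the primitive word `x`: `X` is a power of `x`. -/
theorem pw_of_prefix {x : List α} (hx : x ≠ [])
    (hprim : ∀ u v, x = u ++ v → v ++ u = u ++ v → u = [] ∨ v = []) :
    ∀ (M : ℕ) (X : List α), X ++ x <+: pw M x → ∃ r, X = pw r x := by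
  intro M
  induction M with
  | zero =>
    intro X h
    rw [pw_zero] at h
    have h1 := List.prefix_nil.1 h
    exact absurd (List.append_eq_nil_iff.1 h1).2 hx
  | succ M ih =>
    intro X h
    rw [pw_succ] at h
    have hX : X <+: x ++ pw M x := (List.prefix_append _ _).trans h
    obtain ⟨t, ht⟩ := hX
    rcases List.append_eq_append_iff.1 ht with ⟨v, hv', -⟩ | ⟨X', h1, -⟩
    · -- `X` is a left factor of `x`
      have hv : X ++ v = x := hv'.symm
      by_cases hX0 : X = []
      · exact ⟨0, by rw [hX0, pw_zero]⟩
      by_cases hv0 : v = []
      · exact ⟨1, by rw [pw_succ, pw_zero, List.append_nil, ← hv, hv0, List.append_nil]⟩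
      exfalso
      have h3 : x <+: v ++ pw M x := by
        have h4 : X ++ x <+: X ++ (v ++ pw M x) := by
          rw [← List.append_assoc, hv]
          exact h
        exact (List.prefix_append_right_inj _).1 h4
      cases M with
      | zero =>
        rw [pw_zero, List.append_nil] at h3
        have h4 := h3.length_le
        have h5 := congrArg List.length hv
        rw [List.length_append] at h5
        have h6 := List.length_pos_of_ne_nil hX0
        omega
      | succ M =>
        rw [pw_succ] at h3
        have h4 : v ++ X <+: v ++ (x ++ pw M x) := by
          refine (List.prefix_append_right_inj _).2 ?_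
          have h40 : X <+: x := ⟨v, hv⟩
          exact h40.trans (List.prefix_append _ _)
        have h5 : x = v ++ X := by
          refine List.IsPrefix.eq_of_length (List.prefix_of_prefix_length_le h3 h4 ?_) ?_
          · rw [← hv, List.length_append, List.length_append]
            omega
          · rw [← hv, List.length_append, List.length_append]
            omega
        rcases hprim X v hv.symm (by rw [← h5, hv]) with h6 | h6
        · exact hX0 h6
        · exact hv0 h6
    · -- `X = x ++ X'`
      rw [h1, List.append_assoc] at h
      obtain ⟨r, hr⟩ := ih X' ((List.prefix_append_right_inj _).1 h)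
      exact ⟨r + 1, by rw [h1, hr, pw_succ]⟩

theorem sum_map_add (c : ℕ) (E : List ℕ) : (E.map (· + c)).sum = E.sum + c * E.length := by
  induction E with
  | nil => simp
  | cons e E ih =>
    rw [List.map_cons, List.sum_cons, ih, List.sum_cons, List.length_cons]
    ring

/-- **9.2 (P).** -/
theorem noP {w : ℕ → List α} {n : ℕ} (hne : ∀ i, w i ≠ [])
    (hinj : ∀ i < n, ∀ j < n, (w i).head? = (w j).head? → i = j)
    (hper : ∀ i, (w (i + n)).head? = (w i).head?)
    (hsh : ∀ (E : List ℕ) (c j : ℕ), flw w E <+: w j → flw w (E.map (· + c)) <+: w (j + c))
    {tT om t' : List ℕ} (htT : ∀ e ∈ tT, e < n) (hom : om ≠ []) (hTom : tT = om ++ t')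
    (hprim : ∀ u v, flw w om = u ++ v → v ++ u = u ++ v → u = [] ∨ v = [])
    (hpre : flw w tT <+: w n) (hsuf : flw w tT <:+ w n)
    (hn : ∀ E : List ℕ, (∀ e ∈ E, e < n) → w n ≠ flw w E) :
    ∀ (c : ℕ) (p s : List ℕ) (M : ℕ), c < n → om = p ++ s → s.head? = some c →
      ¬ w (c + n) <+: flw w (s ++ pw M om) := by
  have homn : ∀ e ∈ om, e < n := fun e he => htT e (by rw [hTom]; exact List.mem_append_left _ he)
  have hpwn : ∀ M, ∀ e ∈ pw M om, e < n := by
    intro M
    induction M with
    | zero =>
      intro e he
      rw [pw_zero] at he
      simp at he
    | succ M ih =>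
      intro e he
      rw [pw_succ] at he
      rcases List.mem_append.1 he with h | h
      · exact homn e h
      · exact ih e h
  intro c
  induction c using Nat.strong_induction_on with
  | _ c IH =>
    intro p s M hc hps hs hpr
    have hs0 : s ≠ [] := by
      intro h
      rw [h] at hs
      simp at hs
    have hRn : ∀ r ∈ s ++ pw M om, r < n := by
      intro r hr
      rcases List.mem_append.1 hr with h | h
      · exact homn r (by rw [hps]; exact List.mem_append_right _ h)
      · exact hpwn M r h
    have h1 : flw w (tT.map (· + c)) <+: flw w (s ++ pw M om) := by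
      have h2 := hsh tT c n hpre
      rw [Nat.add_comm n c] at h2
      exact h2.trans hpr
    rcases cmp_shift hne hinj hper hc tT (s ++ pw M om) htT hRn h1 with h2 | h2
    · -- all shifted tokens are small
      have h3 : om.map (· + c) <+: s ++ pw M om := by
        rw [hTom, List.map_append] at h2
        exact (List.prefix_append _ _).trans h2
      have h4 : om.map (· + c) = s ++ p := by
        by_cases hp0 : p = []
        · subst hp0
          rw [List.nil_append] at hps
          subst hps
          rw [List.append_nil]
          exact List.IsPrefix.eq_of_length (List.prefix_of_prefix_length_le h3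
            (List.prefix_append _ _) (by rw [List.length_map])) (by rw [List.length_map])
        · cases M with
          | zero =>
            exfalso
            rw [pw_zero, List.append_nil] at h3
            have h5 := h3.length_le
            rw [List.length_map, hps, List.length_append] at h5
            have h6 := List.length_pos_of_ne_nil hp0
            omega
          | succ M =>
            have h5 : s ++ p <+: s ++ pw (M + 1) om := by
              refine (List.prefix_append_right_inj _).2 ?_
              rw [pw_succ]
              have h50 : p <+: om := ⟨s, hps.symm⟩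
              exact h50.trans (List.prefix_append _ _)
            have h6 : (om.map (· + c)).length = (s ++ p).length := by
              rw [List.length_map, hps, List.length_append, List.length_append]
              omega
            exact List.IsPrefix.eq_of_length (List.prefix_of_prefix_length_le h3 h5 h6.le) h6
      have h5 : c = 0 := by
        have h6 := congrArg List.sum h4
        rw [sum_map_add, List.sum_append] at h6
        have h7 := congrArg List.sum hps
        rw [List.sum_append] at h7
        have h8 : c * om.length = 0 := by omega
        rcases Nat.mul_eq_zero.1 h8 with h9 | h9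
        · exact h9
        · exact absurd (List.length_eq_zero_iff.1 h9) hom
      subst h5
      have h6 : om = s ++ p := by
        rw [← h4]
        simp
      have hp0 : p = [] := by
        rcases hprim (flw w p) (flw w s) (by rw [← flw_append, ← hps])
          (by rw [← flw_append, ← flw_append, ← h6, ← hps]) with h7 | h7
        · exact nil_of_flw hne h7
        · exact absurd (nil_of_flw hne h7) hs0
      subst hp0
      rw [List.nil_append] at hps
      subst hps
      have h7 : w n <+: pw (M + 1) (flw w om) := by
        rw [← flw_pw, pw_succ]
        rw [Nat.zero_add] at hpr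
        exact hpr
      obtain ⟨X, hX⟩ := hsuf
      have h8 : X ++ flw w om <+: pw (M + 1) (flw w om) := by
        refine List.IsPrefix.trans ?_ h7
        rw [← hX, hTom, flw_append, ← List.append_assoc]
        exact List.prefix_append _ _
      obtain ⟨r, hr⟩ := pw_of_prefix (flw_ne hne hom) hprim (M + 1) X h8
      refine hn (pw r om ++ tT) ?_ ?_
      · intro e he
        rcases List.mem_append.1 he with h | h
        · exact hpwn r e h
        · exact htT e h
      · rw [flw_append, flw_pw, ← hr, hX]
    · -- a big token is read at a later cut
      obtain ⟨X, R2, e, h3, h4, h5, h6, h7⟩ := h2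
      have hR2 : R2 ≠ [] := by
        intro h
        rw [h] at h6
        simp at h6
      obtain ⟨p', s', M', h8, h9, h10⟩ := ray_suffix hom M p s X R2 hps hs0 hR2 h5.symm
      have he : e < n := htT e h3
      have h11 : s'.head? = some (e + c - n) := by
        rw [h10, head_append h9] at h6
        exact h6
      refine IH (e + c - n) (by omega) p' s' M' (by omega) h8 h11 ?_
      have h12 : e + c - n + n = e + c := by omega
      rw [h12, ← h10]
      exact h7

end D0L.Bim
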