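import Pool.Agent.H.MP_374efc_lc.Bim.HullL
import Pool.Agent.H.MP_374efc_lc.Tr.HullB
import Pool.Agent.H.MP_374efc_lc.Asm.Rev

/-!
# The orbit method (h18_374efc_ORBIT.md, Theorem O)

Normal forms whose first letter map is injective (`e = n`), any last letter map, any image group.
`w_n` is read in the rose of `w_0, …, w_(n-1)` up to `E = h(U) g`, where `w_(n-1) = U c V`,
`H c = g d1 r`, and `d1` is not an out-letter of `q0`, the end of `E`. `orbO`: the orbit of `q0` under
`Phi` does not leave the domain of `Phi` before it meets the base; `orb_inf`: there is an infinite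
orbit; `exists_E`: existence of the decomposition when `w_n` is not readable.
-/

set_option autoImplicit false

namespace D0L.Bim

open Tr

variable {n N : ℕ} {H : Fin n → List (Fin n)} {b0 : List (Fin n)}

/-- The images of the letters have different first letters. -/
def Fmk (H : Fin n → List (Fin n)) : Prop :=
  ∀ x y d s t, H x = d :: s → H y = d :: t → x = y

/-- An index of the petal. -/
theorem phi_idx (hn : 0 < n) {U v s : List (Fin n)}
    (hk : (∃ i, i + 1 < n ∧ v ++ s = it H i b0) ∨ (v ++ s = it H (n - 1) b0 ∧ v <+: U)) :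
    ∃ i, i < n ∧ v ++ s = it H i b0 := by
  rcases hk with ⟨i, hi, he⟩ | ⟨he, -⟩
  · exact ⟨i, by omega, he⟩
  · exact ⟨n - 1, by omega, he⟩

/-- The place of a state is unique. -/
theorem place_unique (hnf : NF H b0 N) {v v' s : List (Fin n)} {i j : ℕ} (hi : i < n) (hj : j < n)
    (hs0 : s ≠ []) (h1 : v ++ s = it H i b0) (h2 : v' ++ s = it H j b0) : i = j ∧ v = v' := by
  rcases List.eq_nil_or_concat' s with rfl | ⟨s', x, rfl⟩
  · exact (hs0 rfl).elim
  have h3 := last_unique hnf (i := ⟨i, hi⟩) (j := ⟨j, hj⟩)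
    (h1.symm.trans (List.append_assoc _ _ _).symm) (h2.symm.trans (List.append_assoc _ _ _).symm)
  obtain rfl : i = j := congrArg Fin.val h3
  exact ⟨rfl, List.append_cancel_right (h1.trans h2.symm)⟩

theorem Phi.det (hnf : NF H b0 N) {U p t t' : List (Fin n)} (h1 : Phi H b0 U p t)
    (h2 : Phi H b0 U p t') : t = t' := by
  rcases h1 with ⟨rfl, rfl⟩ | ⟨v, hv0, hp0, hk, ht⟩
  · rcases h2 with ⟨-, rfl⟩ | ⟨v, hv0, hp0, -⟩
    · rfl
    · exact (hp0 rfl).elim
  · rcases h2 with ⟨rfl, -⟩ | ⟨v', hv0', -, hk', ht'⟩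
    · exact (hp0 rfl).elim
    · obtain ⟨i, hi, he⟩ := phi_idx (pos_n hnf) hk
      obtain ⟨j, hj, he'⟩ := phi_idx (pos_n hnf) hk'
      obtain ⟨-, rfl⟩ := place_unique hnf hi hj hp0 he he'
      exact Option.some.inj (ht.symm.trans ht')

/-- The transitions at a state of the domain, except the one which is not completely read. -/
theorem Phi.own (hnf : NF H b0 N) {U V : List (Fin n)} {c : Fin n}
    (hw : it H (n - 1) b0 = U ++ c :: V) {tU : List (Fin n)}
    (hq : run (rQ H b0 n) [] (app H U) = some tU) {p t p' : List (Fin n)} {x : Fin n}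
    (hp : Phi H b0 U p t)
    (hpU : ¬ ((p = if U = [] then [] else c :: V) ∧ x = c))
    (hx : step (rQ H b0 n) p x = some p') :
    ∃ t', Phi H b0 U p' t' ∧ run (rQ H b0 n) t (H x) = some t' := by
  have hn := pos_n hnf
  have hUlen : U <+: it H (n - 1) b0 := ⟨c :: V, hw.symm⟩
  rcases hp with ⟨rfl, rfl⟩ | ⟨v, hv0, hp0, hk, ht⟩
  · -- the base
    obtain ⟨i, hi, he⟩ := (rQ_some hnf le_rfl).1 (show rQ H b0 n x = some p' from hx)
    by_cases hi' : i + 1 < n
    · have hpre : it H (i + 1) b0 = app H [x] ++ app H p' := by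
        rw [it_succ, he, ← app_append]; rfl
      have hr := run_W_pre hnf hi' hpre (app_ne hnf (by simp))
      rw [app_singleton] at hr
      by_cases hp' : p' = []
      · subst hp'
        exact ⟨[], Or.inl ⟨rfl, rfl⟩, by rw [app_nil] at hr; exact hr⟩
      · refine ⟨_, Or.inr ⟨[x], by simp, hp', Or.inl ⟨i, hi', he.symm⟩, ?_⟩, hr⟩
        rw [app_singleton]
        exact hr
    · have hin : i = n - 1 := by omega
      subst hin
      cases U with
      | nil =>
        rw [he] at hw
        exact (hpU ⟨by simp, (List.cons.inj hw).1⟩).elim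
      | cons y U' =>
        have hxy : x = y := by
          rw [he] at hw
          exact (List.cons.inj hw).1
        subst hxy
        have hp' : p' ≠ [] := by
          rintro rfl
          rw [he] at hw
          have := congrArg List.length hw
          simp at this
        have hq' := hq
        rw [app_cons, run_append, Option.bind_eq_some_iff] at hq'
        obtain ⟨t', ht', -⟩ := hq'
        refine ⟨t', Or.inr ⟨[x], by simp, hp', Or.inr ⟨he.symm, ⟨U', rfl⟩⟩, ?_⟩, ht'⟩
        rw [app_singleton]
        exact ht'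
  · -- the second kind
    obtain ⟨y, r, rfl⟩ := List.exists_cons_of_ne_nil hp0
    obtain ⟨rfl, rfl⟩ := step_unique hx
    have hgo : ∀ {t' : List (Fin n)}, run (rQ H b0 n) [] (app H (v ++ [x])) = some t' →
        run (rQ H b0 n) t (H x) = some t' := by
      intro t' h1
      rw [app_append, app_singleton, run_append, ht] at h1
      simpa using h1
    rcases hk with ⟨i, hi, he⟩ | ⟨he, hvU⟩
    · have he' : (v ++ [x]) ++ p' = it H i b0 := by rw [← he]; simp
      have hpre : it H (i + 1) b0 = app H (v ++ [x]) ++ app H p' := by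
        rw [it_succ, ← he', app_append]
      have hr := run_W_pre hnf hi hpre (app_ne hnf (by simp))
      by_cases hp' : p' = []
      · subst hp'
        exact ⟨[], Or.inl ⟨rfl, rfl⟩, hgo (by rw [app_nil] at hr; exact hr)⟩
      · exact ⟨_, Or.inr ⟨v ++ [x], by simp, hp', Or.inl ⟨i, hi, he'⟩, hr⟩, hgo hr⟩
    · have he' : (v ++ [x]) ++ p' = it H (n - 1) b0 := by rw [← he]; simp
      -- `v ≠ U`
      have hvne : v ≠ U := by
        rintro rfl
        rw [hw] at he
        have h1 := List.append_cancel_left he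
        rw [if_neg hv0] at hpU
        exact hpU ⟨h1, (List.cons.inj h1).1⟩
      have hlt : v.length < U.length := by
        rcases Nat.lt_or_ge v.length U.length with h1 | h1
        · exact h1
        · exact (hvne (hvU.eq_of_length (le_antisymm hvU.length_le h1))).elim
      have hvU' : (v ++ [x]) <+: U := by
        refine List.prefix_of_prefix_length_le ⟨p', he'⟩ hUlen ?_
        rw [List.length_append]
        exact hlt
      have hp' : p' ≠ [] := by
        rintro rfl
        have h1 := hvU'.length_le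
        have h2 := congrArg List.length (he'.trans hw)
        simp only [List.length_append, List.length_cons, List.length_nil] at h1 h2
        omega
      obtain ⟨z, hz⟩ := hvU'
      have hq' := hq
      rw [← hz, app_append, run_append, Option.bind_eq_some_iff] at hq'
      obtain ⟨t', ht', -⟩ := hq'
      exact ⟨t', Or.inr ⟨v ++ [x], by simp, hp', Or.inr ⟨he', ⟨z, hz⟩⟩, ht'⟩, hgo ht'⟩

/-- **THEOREM O.** The orbit does not leave the domain without meeting the base. -/
theorem orbO (hnf : NF H b0 N) (hf : Fmk H) (hl : ¬ Lett H b0) {U V g r : List (Fin n)}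
    {c d1 : Fin n} (hw : it H (n - 1) b0 = U ++ c :: V) (hg : H c = g ++ d1 :: r)
    {qs : ℕ → List (Fin n)} {R : ℕ}
    (hq : run (rQ H b0 n) [] (app H U ++ g) = some (qs 0))
    (hd : step (rQ H b0 n) (qs 0) d1 = none)
    (hs : ∀ j < R, Phi H b0 U (qs j) (qs (j + 1)))
    (he : ∀ t, ¬ Phi H b0 U (qs R) t) (hne : ∀ j ≤ R, qs j ≠ []) : False := by
  classical
  have hn := pos_n hnf
  have hfi : ∃ fi : Fin n → Fin n, ∃ tl : Fin n → List (Fin n), ∀ x, H x = fi x :: tl x := by
    choose fi hfi using fun x => List.exists_cons_of_ne_nil (H_ne hnf x)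
    choose tl htl using hfi
    exact ⟨fi, tl, htl⟩
  obtain ⟨fi, tl, hh⟩ := hfi
  have hfinj : Function.Injective fi := by
    intro x y hxy
    have h1 := hh x
    rw [hxy] at h1
    exact hf x y _ _ _ h1 (hh y)
  -- the state after `U`
  rw [run_append, Option.bind_eq_some_iff] at hq
  obtain ⟨tU, htU, hgq⟩ := hq
  -- the states of the orbit are different
  have hdist : ∀ i j, i < j → j ≤ R → qs i ≠ qs j := by
    intro i j hij hj heq
    have h1 : ∀ k, j + k ≤ R → qs (i + k) = qs (j + k) := by
      intro k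
      induction k with
      | zero => intro _; exact heq
      | succ k ih =>
        intro hk
        have h2 := ih (by omega)
        have h3 := hs (i + k) (by omega)
        have h4 := hs (j + k) (by omega)
        rw [h2] at h3
        exact Phi.det hnf h3 h4
    have h2 := h1 (R - j) (by omega)
    rw [show j + (R - j) = R by omega] at h2
    have h3 := hs (i + (R - j)) (by omega)
    rw [h2] at h3
    exact he _ h3
  have hinjq : ∀ i j, i ≤ R → j ≤ R → qs i = qs j → i = j := by
    intro i j hi hj h
    rcases Nat.lt_trichotomy i j with h1 | h1 | h1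
    · exact (hdist i j h1 hj h).elim
    · exact h1
    · exact (hdist j i h1 hi h.symm).elim
  set Us : List (Fin n) := if U = [] then [] else c :: V with hUs
  have hPU : Phi H b0 U Us tU := by
    by_cases h1 : U = []
    · rw [hUs, if_pos h1]
      subst h1
      rw [app_nil, run_nil] at htU
      exact Or.inl ⟨rfl, (Option.some.inj htU).symm⟩
    · rw [hUs, if_neg h1]
      exact Or.inr ⟨U, h1, by simp, Or.inr ⟨hw.symm, List.prefix_refl _⟩, htU⟩
  have own : ∀ p t x p', Phi H b0 U p t → ¬ (p = Us ∧ x = c) →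
      step (rQ H b0 n) p x = some p' → ∃ t', Phi H b0 U p' t' ∧
        run (rQ H b0 n) t (H x) = some t' := fun p t x p' h1 h2 h3 =>
    Phi.own hnf hw htU h1 h2 h3
  -- own letters along the orbit
  obtain ⟨o, q0', ho⟩ := List.exists_cons_of_ne_nil (hne 0 (Nat.zero_le _))
  have hod : o ≠ d1 := by
    rintro rfl
    rw [ho, step_cons_self] at hd
    cases hd
  have hown : ∀ j ≤ R, ∃ s, qs j = fi^[j] o :: s := by
    intro j
    induction j with
    | zero => intro _; exact ⟨q0', ho⟩
    | succ j ih =>
      intro hj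
      obtain ⟨s, hs1⟩ := ih (by omega)
      obtain ⟨y, s', hy⟩ := List.exists_cons_of_ne_nil (hne (j + 1) hj)
      have h1 := hs j (by omega)
      have hstep : step (rQ H b0 n) (qs j) (fi^[j] o) = some s := by
        rw [hs1]
        exact step_cons_self _ _ _
      have hfirst : ∃ m, step (rQ H b0 n) (qs (j + 1)) (fi (fi^[j] o)) = some m := by
        by_cases hU : qs j = Us ∧ fi^[j] o = c
        · have h2 : qs (j + 1) = tU := by
            rw [hU.1] at h1
            exact Phi.det hnf h1 hPU
          cases g with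
          | nil =>
            rw [run_nil] at hgq
            have h3 : tU = qs 0 := Option.some.inj hgq
            exact (hdist 0 (j + 1) (by omega) hj (h3.symm.trans h2.symm)).elim
          | cons z g' =>
            rw [run_cons, Option.bind_eq_some_iff] at hgq
            obtain ⟨m, hm, -⟩ := hgq
            refine ⟨m, ?_⟩
            rw [h2, hU.2]
            have h3 := hh c
            rw [hg] at h3
            rw [← (List.cons.inj h3).1]
            exact hm
        · obtain ⟨t', -, h3⟩ := own _ _ _ _ h1 hU hstep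
          rw [hh, run_cons, Option.bind_eq_some_iff] at h3
          obtain ⟨m, hm, -⟩ := h3
          exact ⟨m, hm⟩
      obtain ⟨m, hm⟩ := hfirst
      rw [hy] at hm ⊢
      refine ⟨s', ?_⟩
      rw [Function.iterate_succ_apply']
      rw [(step_unique hm).1]
  have hD : HDatB (rst (rQ H b0 n)) [] Us tU (qs 0) c d1 g r
      (fun p x => ∃ j ≤ R, p = qs j ∧ x = fi^[j] d1) H fi tl (Phi H b0 U) := by
    refine ⟨?_, hh, hfinj, fun p t t' h1 h2 => Phi.det hnf h1 h2, Or.inl ⟨rfl, rfl⟩, hPU, hg,
      rn_run.2 hgq, ?_, ?_, ⟨0, Nat.zero_le _, rfl, rfl⟩, ?_, ?_, ?_, ?_⟩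
    · intro s x t t' h1 h2
      exact Option.some.inj (h1.symm.trans h2)
    · intro t h
      rw [show step (rQ H b0 n) (qs 0) d1 = some t from h] at hd
      cases hd
    · intro p t x p' h1 h2 h3
      obtain ⟨t', h4, h5⟩ := own p t x p' h1 h2 h3
      exact ⟨t', h4, rn_run.2 h5⟩
    · rintro p x t ⟨j, hj, rfl, rfl⟩ h
      rcases Nat.lt_or_ge j R with h1 | h1
      · refine ⟨j + 1, h1, Phi.det hnf h (hs j h1), ?_⟩
        rw [Function.iterate_succ_apply']
      · obtain rfl : j = R := by omega
        exact (he _ h).elim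
    · rintro p x p' ⟨j, hj, rfl, rfl⟩ h
      obtain ⟨s, hs1⟩ := hown j hj
      have h1 : step (rQ H b0 n) (qs j) (fi^[j] d1) = some p' := h
      rw [hs1] at h1
      exact hod (hfinj.iterate j (step_unique h1).1.symm)
    · rintro p p' x t ⟨i, hi, rfl, -⟩ ⟨j, hj, rfl, -⟩ h1 h2
      rcases Nat.lt_or_ge i R with h3 | h3
      · rcases Nat.lt_or_ge j R with h4 | h4
        · have h5 := Phi.det hnf h1 (hs i h3)
          have h6 := Phi.det hnf h2 (hs j h4)
          have h7 := hinjq (i + 1) (j + 1) h3 h4 (h5.symm.trans h6)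
          rw [show i = j by omega]
        · obtain rfl : j = R := by omega
          exact (he _ h2).elim
      · obtain rfl : i = R := by omega
        exact (he _ h1).elim
    · rintro p x ⟨j, hj, rfl, -⟩ h
      rcases Nat.lt_or_ge j R with h1 | h1
      · have h2 := Phi.det hnf h (hs j h1)
        exact hdist 0 (j + 1) (by omega) h1 h2
      · obtain rfl : j = R := by omega
        exact he _ h
  -- the end
  have hw0 : run (rQ H b0 n) [] b0 = some [] :=
    (rQ_iff hnf le_rfl).2 ⟨[0], by simpa using hn, by simp [it_zero]⟩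
  have hpl : ∃ i < n, (it H i b0).length ≠ 1 := by
    by_contra h1
    push Not at h1
    exact hl h1
  obtain ⟨i, hi, hilen⟩ := hpl
  obtain ⟨x, s, hxs⟩ := List.exists_cons_of_ne_nil (it_ne hnf i)
  have hstep : step (rQ H b0 n) [] x = some s := (rQ_some hnf le_rfl).2 ⟨i, hi, hxs⟩
  refine hull_absB hD (w0 := b0) (rn_run.2 hw0) (N := N) ?_ hstep ?_
  · intro G h0 hm hu hw
    exact hnf.hull G h0 hm (fun x y z hx _ hxz _ => hu x z hx hxz) hw
  · rintro rfl
    rw [hxs] at hilen
    exact hilen rfl

/-- There is an infinite orbit (it may end at the base). -/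
theorem orb_inf (hnf : NF H b0 N) (hf : Fmk H) (hl : ¬ Lett H b0) {U V g r : List (Fin n)}
    {c d1 : Fin n} (hw : it H (n - 1) b0 = U ++ c :: V) (hg : H c = g ++ d1 :: r)
    {q0 : List (Fin n)} (hq : run (rQ H b0 n) [] (app H U ++ g) = some q0)
    (hd : step (rQ H b0 n) q0 d1 = none) :
    ∃ qs : ℕ → List (Fin n), qs 0 = q0 ∧ ∀ j, Phi H b0 U (qs j) (qs (j + 1)) := by
  classical
  let F : List (Fin n) → List (Fin n) := fun p => if h : ∃ t, Phi H b0 U p t then h.choose else p
  have hF : ∀ p, (∃ t, Phi H b0 U p t) → Phi H b0 U p (F p) := by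
    intro p h
    simp only [F, dif_pos h]
    exact h.choose_spec
  let qs : ℕ → List (Fin n) := fun j => F^[j] q0
  have hqs : ∀ j, qs (j + 1) = F (qs j) := fun j => Function.iterate_succ_apply' F j q0
  by_contra hcon
  have h1 : ∃ j, ¬ Phi H b0 U (qs j) (qs (j + 1)) := by
    by_contra h2
    push Not at h2
    exact hcon ⟨qs, rfl, h2⟩
  have hmin := Nat.find_spec h1
  have hlt : ∀ j < Nat.find h1, Phi H b0 U (qs j) (qs (j + 1)) := fun j hj => by
    have := Nat.find_min h1 hj
    rwa [not_not] at this
  set R := Nat.find h1 with hR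
  have hend : ∀ t, ¬ Phi H b0 U (qs R) t := by
    intro t ht
    apply hmin
    rw [hqs]
    exact hF _ ⟨t, ht⟩
  refine orbO hnf hf hl hw hg (qs := qs) (R := R) hq hd hlt hend ?_
  intro j hj h0
  have h2 : ∀ k, j + k ≤ R → qs (j + k) = [] := by
    intro k
    induction k with
    | zero => intro _; exact h0
    | succ k ih =>
      intro hk
      have h3 := hlt (j + k) (by omega)
      rw [ih (by omega)] at h3
      exact (Phi.det hnf h3 (Or.inl ⟨rfl, rfl⟩)).symm ▸ rfl
  have h3 := h2 (R - j) (by omega)
  rw [show j + (R - j) = R by omega] at h3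
  exact hend [] (by rw [h3]; exact Or.inl ⟨rfl, rfl⟩)

/-- A word that is not readable has a longest readable prefix. -/
theorem exists_stop {R : Rose (Fin n)} {s u : List (Fin n)} (h : run R s u = none) :
    ∃ v d w t, u = v ++ d :: w ∧ run R s v = some t ∧ step R t d = none := by
  induction u generalizing s with
  | nil => rw [run_nil] at h; cases h
  | cons a u ih =>
    cases h1 : step R s a with
    | none => exact ⟨[], a, u, s, rfl, rfl, h1⟩
    | some m =>
      rw [run_cons, h1] at h
      obtain ⟨v, d, w, t, rfl, h2, h3⟩ := ih (s := m) h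
      exact ⟨a :: v, d, w, t, rfl, by rw [run_cons, h1]; exact h2, h3⟩

/-- A place in an image. -/
theorem app_place {v w : List (Fin n)} {d : Fin n} {x : List (Fin n)}
    (h : app H x = v ++ d :: w) :
    ∃ U c V g r, x = U ++ c :: V ∧ H c = g ++ d :: r ∧ v = app H U ++ g ∧ w = r ++ app H V := by
  induction x generalizing v with
  | nil =>
    rw [app_nil] at h
    cases v <;> cases h
  | cons a x ih =>
    rw [app_cons] at h
    rcases List.append_eq_append_iff.1 h with ⟨z, h1, h2⟩ | ⟨z, h1, h2⟩
    · obtain ⟨U, c, V, g, r, rfl, h3, h4, h5⟩ := ih h2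
      exact ⟨a :: U, c, V, g, r, rfl, h3, by rw [app_cons, List.append_assoc, ← h4, h1], h5⟩
    · cases z with
      | nil =>
        rw [List.append_nil] at h1
        rw [List.nil_append] at h2
        obtain ⟨U, c, V, g, r, rfl, h3, h4, h5⟩ := ih (v := []) (by rw [List.nil_append]; exact h2.symm)
        exact ⟨a :: U, c, V, g, r, rfl, h3,
          by rw [app_cons, List.append_assoc, ← h4, h1, List.append_nil], h5⟩
      | cons y z =>
        obtain ⟨rfl, rfl⟩ := List.cons.inj h2
        exact ⟨[], a, x, v, z, rfl, h1, by rw [app_nil, List.nil_append], rfl⟩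

/-- **The decomposition of `w_n`** when it is not readable. -/
theorem exists_E (hnf : NF H b0 N) (h : run (rQ H b0 n) [] (it H n b0) = none) :
    ∃ (U V g r : List (Fin n)) (c d1 : Fin n) (q0 : List (Fin n)),
      it H (n - 1) b0 = U ++ c :: V ∧ H c = g ++ d1 :: r ∧
      run (rQ H b0 n) [] (app H U ++ g) = some q0 ∧ step (rQ H b0 n) q0 d1 = none := by
  have hn := pos_n hnf
  obtain ⟨v, d, w, t, h1, h2, h3⟩ := exists_stop h
  have h4 : it H n b0 = app H (it H (n - 1) b0) := by
    rw [← it_succ, Nat.sub_add_cancel hn]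
  rw [h4] at h1
  obtain ⟨U, c, V, g, r, h5, h6, rfl, -⟩ := app_place h1
  exact ⟨U, V, g, r, c, d, t, h5, h6, h2, h3⟩

/-- **Orbit theorem**: if `w_n` is not readable, the place where the reading stops has an infinite
orbit. -/
theorem orb_main (hnf : NF H b0 N) (hf : Fmk H) (hl : ¬ Lett H b0)
    (h : run (rQ H b0 n) [] (it H n b0) = none) :
    ∃ (U V g r : List (Fin n)) (c d1 : Fin n) (qs : ℕ → List (Fin n)),
      it H (n - 1) b0 = U ++ c :: V ∧ H c = g ++ d1 :: r ∧
      run (rQ H b0 n) [] (app H U ++ g) = some (qs 0) ∧ step (rQ H b0 n) (qs 0) d1 = none ∧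
      ∀ j, Phi H b0 U (qs j) (qs (j + 1)) := by
  obtain ⟨U, V, g, r, c, d1, q0, h1, h2, h3, h4⟩ := exists_E hnf h
  obtain ⟨qs, rfl, h5⟩ := orb_inf hnf hf hl h1 h2 h3 h4
  exact ⟨U, V, g, r, c, d1, qs, h1, h2, h3, h4, h5⟩

/-- The images of the letters have different last letters. -/
def Lmk (H : Fin n → List (Fin n)) : Prop :=
  ∀ x y d s t, H x = s ++ [d] → H y = t ++ [d] → x = y

theorem Lmk.fmk (h : Lmk H) : Fmk (rev H) := by
  intro x y d s t hx hy
  apply h x y d s.reverse t.reverse
  · have h1 : (rev H x).reverse = H x := List.reverse_reverse _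
    rw [← h1, hx, List.reverse_cons]
  · have h1 : (rev H y).reverse = H y := List.reverse_reverse _
    rw [← h1, hy, List.reverse_cons]

/-- **The mirror image.** -/
theorem orb_main_rev (hnf : NF H b0 N) (hf : Lmk H) (hl : ¬ Lett H b0)
    (h : run (rQ (rev H) b0.reverse n) [] (it (rev H) n b0.reverse) = none) :
    ∃ (U V g r : List (Fin n)) (c d1 : Fin n) (qs : ℕ → List (Fin n)),
      it (rev H) (n - 1) b0.reverse = U ++ c :: V ∧ rev H c = g ++ d1 :: r ∧
      run (rQ (rev H) b0.reverse n) [] (app (rev H) U ++ g) = some (qs 0) ∧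
      step (rQ (rev H) b0.reverse n) (qs 0) d1 = none ∧
      ∀ j, Phi (rev H) b0.reverse U (qs j) (qs (j + 1)) :=
  orb_main hnf.reverse hf.fmk (fun h1 => hl (lett_rev_iff.1 h1)) h

end D0L.Bim
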