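import Pool.Agent.H.MP_374efc_lc.Bim.Fun
import Pool.Agent.H.MP_345fd7_an.PFEig

/-!
# Perron weights ((0.5) and (6.3) of h67_374efc_BIMFULL)

`perron hnf`: real `lam > 1` and weights `l a > 0` with `l (h (a)) = lam * l a`, `l (w_0) = 1` (structure `PW`).
`lw l u` is the weight of the word `u`; `lw_w`: `l (w_j) = lam ^ j`; `PW.S = ∑ l a`.
`lw_T`: `l (T) = 1 + (lam - 1) S` from the identity (E); `lw_T_lt`: (6.3).
-/

set_option autoImplicit false

namespace D0L.Bim

variable {n N : ℕ} {H : Fin n → List (Fin n)} {b0 : List (Fin n)}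

/-- The weight of a word. -/
def lw (l : Fin n → ℝ) (u : List (Fin n)) : ℝ := (u.map l).sum

theorem lw_nil (l : Fin n → ℝ) : lw l [] = 0 := rfl

theorem lw_cons (l : Fin n → ℝ) (a : Fin n) (u : List (Fin n)) : lw l (a :: u) = l a + lw l u := by
  simp [lw]

theorem lw_append (l : Fin n → ℝ) (u v : List (Fin n)) : lw l (u ++ v) = lw l u + lw l v := by
  simp [lw]

theorem lw_flatten (l : Fin n → ℝ) (L : List (List (Fin n))) :
    lw l L.flatten = (L.map (lw l)).sum := by
  induction L with
  | nil => rfl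
  | cons u L ih => rw [List.flatten_cons, lw_append, ih, List.map_cons, List.sum_cons]

theorem lw_count (l : Fin n → ℝ) (u : List (Fin n)) :
    lw l u = ∑ c, (u.count c : ℝ) * l c := by
  induction u with
  | nil => simp [lw_nil]
  | cons a u ih =>
    rw [lw_cons, ih]
    have h1 : ∀ c, ((a :: u).count c : ℝ) * l c = (u.count c : ℝ) * l c + if c = a then l a else 0 := by
      intro c
      rw [List.count_cons]
      by_cases hca : c = a
      · subst hca
        simp
        ring
      · have : ¬ a = c := fun h => hca h.symm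
        simp [hca, this]
    rw [Finset.sum_congr rfl fun c _ => h1 c, Finset.sum_add_distrib,
      Finset.sum_ite_eq' Finset.univ a, if_pos (Finset.mem_univ a), add_comm]

theorem lw_nonneg {l : Fin n → ℝ} (hl : ∀ a, 0 < l a) (u : List (Fin n)) : 0 ≤ lw l u := by
  unfold lw
  apply List.sum_nonneg
  intro x hx
  rw [List.mem_map] at hx
  obtain ⟨a, -, rfl⟩ := hx
  exact (hl a).le

theorem lw_pos {l : Fin n → ℝ} (hl : ∀ a, 0 < l a) {u : List (Fin n)} (hu : u ≠ []) :
    0 < lw l u := by
  obtain ⟨a, v, rfl⟩ := List.exists_cons_of_ne_nil hu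
  rw [lw_cons]
  exact add_pos_of_pos_of_nonneg (hl a) (lw_nonneg hl v)

theorem lw_infix {l : Fin n → ℝ} (hl : ∀ a, 0 < l a) {u v : List (Fin n)} (h : u <:+: v) :
    lw l u ≤ lw l v := by
  obtain ⟨s, t, rfl⟩ := h
  rw [lw_append, lw_append]
  have h1 := lw_nonneg hl s
  have h2 := lw_nonneg hl t
  linarith

theorem lw_div (l : Fin n → ℝ) (t : ℝ) (u : List (Fin n)) :
    lw (fun a => l a / t) u = lw l u / t := by
  induction u with
  | nil => rw [lw_nil, lw_nil, zero_div]
  | cons a u ih => rw [lw_cons, ih, lw_cons, add_div]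

/-- Perron weights. -/
structure PW (H : Fin n → List (Fin n)) (b0 : List (Fin n)) (lam : ℝ) (l : Fin n → ℝ) : Prop where
  /-- growth -/
  one_lt : 1 < lam
  /-- positivity -/
  pos : ∀ a, 0 < l a
  /-- eigenvector -/
  eig : ∀ a, lw l (H a) = lam * l a
  /-- normalisation -/
  ax : lw l b0 = 1

theorem PW.lw_app {lam : ℝ} {l : Fin n → ℝ} (h : PW H b0 lam l) (u : List (Fin n)) :
    lw l (app H u) = lam * lw l u := by
  induction u with
  | nil => rw [app_nil, lw_nil, mul_zero]
  | cons a u ih => rw [app_cons, lw_append, ih, h.eig, lw_cons, mul_add]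

theorem PW.lw_it {lam : ℝ} {l : Fin n → ℝ} (h : PW H b0 lam l) (k : ℕ) (u : List (Fin n)) :
    lw l (it H k u) = lam ^ k * lw l u := by
  induction k with
  | zero => rw [it_zero, pow_zero, one_mul]
  | succ k ih => rw [it_succ, h.lw_app, ih, pow_succ]; ring

theorem PW.lw_w {lam : ℝ} {l : Fin n → ℝ} (h : PW H b0 lam l) (k : ℕ) :
    lw l (it H k b0) = lam ^ k := by
  rw [h.lw_it, h.ax, mul_one]

theorem PW.lw_prod {lam : ℝ} {l : Fin n → ℝ} (h : PW H b0 lam l) (js : List ℕ) :
    lw l ((js.map fun j => it H j b0).flatten) = (js.map fun j => lam ^ j).sum := by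
  rw [lw_flatten, List.map_map]
  congr 1
  apply List.map_congr_left
  intro j _
  exact h.lw_w j

theorem PW.lam_pos {lam : ℝ} {l : Fin n → ℝ} (h : PW H b0 lam l) : 0 < lam :=
  lt_trans one_pos h.one_lt

/-- A product of tokens which contains a token `w_k`, `k ≠ 0`, and two tokens `w_0`. -/
theorem PW.two_add_le {lam : ℝ} {l : Fin n → ℝ} (h : PW H b0 lam l) {js : List ℕ} {k : ℕ}
    (h0 : 2 ≤ js.count 0) (hk : k ∈ js) (hk0 : k ≠ 0) :
    2 + lam ^ k ≤ lw l ((js.map fun j => it H j b0).flatten) := by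
  rw [h.lw_prod]
  have hp := h.lam_pos
  have key : ∀ js : List ℕ, (js.count 0 : ℝ) + (if k ∈ js then lam ^ k else 0) ≤
      (js.map fun j => lam ^ j).sum := by
    intro js
    induction js with
    | nil => simp
    | cons j js ih =>
      rw [List.map_cons, List.sum_cons, List.count_cons]
      have hj := pow_pos hp j
      by_cases hjk : j = k
      · subst hjk
        have h1 : ¬ (j == 0) = true := by simpa using hk0
        rw [if_pos (List.mem_cons_self ..), if_neg h1, Nat.add_zero]
        split_ifs at ih with h2 <;> linarith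
      · have h2 : (k ∈ j :: js) ↔ k ∈ js := by
          rw [List.mem_cons]
          constructor
          · rintro (h3 | h3)
            · exact absurd h3.symm hjk
            · exact h3
          · exact Or.inr
        rw [if_congr h2 rfl rfl]
        by_cases hj0 : j = 0
        · subst hj0
          simp only [beq_self_eq_true, if_true, Nat.cast_add, Nat.cast_one, pow_zero]
          linarith
        · have h1 : ¬ (j == 0) = true := by simpa using hj0
          rw [if_neg h1, Nat.add_zero]
          linarith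
  have h1 := key js
  rw [if_pos hk] at h1
  have h2 : (2 : ℝ) ≤ (js.count 0 : ℝ) := by exact_mod_cast h0
  linarith

/-! ### existence -/

/-- (0.5): Perron weights exist. -/
theorem perron (hnf : NF H b0 N) : ∃ (lam : ℝ) (l : Fin n → ℝ), PW H b0 lam l := by
  classical
  have hn := pos_n hnf
  haveI : Nonempty (Fin n) := ⟨⟨0, hn⟩⟩
  set A : Matrix (Fin n) (Fin n) ℝ := Matrix.of fun a b => ((H a).count b : ℝ) with hA
  have hAnn : ∀ a b, 0 ≤ A a b := fun a b => by
    rw [hA, Matrix.of_apply]
    exact Nat.cast_nonneg _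
  -- entries of powers
  have hpw : ∀ (k : ℕ) a b, (A ^ k) a b = ((it H k [a]).count b : ℝ) := by
    intro k
    induction k with
    | zero =>
      intro a b
      rw [pow_zero, it_zero, Matrix.one_apply, List.count_singleton]
      by_cases hab : a = b
      · subst hab; simp
      · simp [hab]
    | succ k ih =>
      intro a b
      rw [pow_succ', Matrix.mul_apply]
      have h1 : it H (k + 1) [a] = it H k (H a) := by rw [it_succ', app_singleton]
      have h2 : ∀ u : List (Fin n), ((it H k u).count b : ℝ) =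
          ∑ c, (u.count c : ℝ) * ((it H k [c]).count b : ℝ) := by
        intro u
        induction u with
        | nil => simp [it_nil]
        | cons c u ihu =>
          have h3 : it H k (c :: u) = it H k [c] ++ it H k u := by
            rw [← it_append]
            rfl
          rw [h3, List.count_append, Nat.cast_add, ihu]
          have h4 : ∀ d, ((c :: u).count d : ℝ) * ((it H k [d]).count b : ℝ) =
              (u.count d : ℝ) * ((it H k [d]).count b : ℝ) +
                if d = c then ((it H k [c]).count b : ℝ) else 0 := by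
            intro d
            rw [List.count_cons]
            by_cases hdc : d = c
            · subst hdc
              simp
              ring
            · have : ¬ c = d := fun h => hdc h.symm
              simp [hdc, this]
          rw [Finset.sum_congr rfl fun d _ => h4 d, Finset.sum_add_distrib,
            Finset.sum_ite_eq' Finset.univ c, if_pos (Finset.mem_univ c), add_comm]
      rw [h1, h2]
      refine Finset.sum_congr rfl fun c _ => ?_
      rw [ih, hA, Matrix.of_apply]
  have hpnn : ∀ (k : ℕ) a b, 0 ≤ (A ^ k) a b := fun k a b => by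
    rw [hpw]
    exact Nat.cast_nonneg _
  -- a power of `1 + A` is positive
  choose q hq0 hq using hnf.irr
  set K : ℕ := 1 + ∑ a, ∑ b, q a b with hK
  have hqK : ∀ a b, q a b ≤ K := by
    intro a b
    have h1 : q a b ≤ ∑ b, q a b :=
      Finset.single_le_sum (f := fun b => q a b) (fun _ _ => Nat.zero_le _) (Finset.mem_univ b)
    have h2 : ∑ b, q a b ≤ ∑ a, ∑ b, q a b :=
      Finset.single_le_sum (f := fun a => ∑ b, q a b) (fun _ _ => Nat.zero_le _)
        (Finset.mem_univ a)
    omega
  have hpos : ∀ a b, 0 < ((1 + A) ^ K) a b := by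
    intro a b
    have h1 : (1 + A) ^ K = ∑ m ∈ Finset.range (K + 1), A ^ m * ((K.choose m : ℕ) : Matrix (Fin n) (Fin n) ℝ) := by
      rw [add_comm, (Commute.one_right A).add_pow]
      refine Finset.sum_congr rfl fun m _ => ?_
      rw [one_pow, mul_one]
    rw [h1, Matrix.sum_apply]
    have h2 : ∀ m, (A ^ m * ((K.choose m : ℕ) : Matrix (Fin n) (Fin n) ℝ)) a b =
        (A ^ m) a b * (K.choose m : ℝ) := by
      intro m
      rw [← nsmul_eq_mul', Matrix.smul_apply, nsmul_eq_mul, mul_comm]
    refine Finset.sum_pos' (fun m _ => ?_) ⟨q a b, ?_, ?_⟩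
    · rw [h2]
      exact mul_nonneg (hpnn m a b) (Nat.cast_nonneg _)
    · rw [Finset.mem_range]
      have := hqK a b
      omega
    · rw [h2, hpw]
      refine mul_pos ?_ ?_
      · exact_mod_cast List.count_pos_iff.2 (hq a b)
      · exact_mod_cast Nat.choose_pos (hqK a b)
  obtain ⟨mu, hmu, u, hu, hue⟩ := Pool.Agent.H.MP_345fd7_an.pf_eigen (1 + A) (fun a b => by
    rw [Matrix.add_apply]
    refine add_nonneg ?_ (hAnn a b)
    rw [Matrix.one_apply]
    split_ifs <;> norm_num) ⟨K, by omega, hpos⟩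
  have heig : ∀ a, ∑ b, A a b * u b = (mu - 1) * u a := by
    intro a
    have h1 := hue a
    simp only [Matrix.add_apply, add_mul, Finset.sum_add_distrib] at h1
    have h2 : ∑ b, (1 : Matrix (Fin n) (Fin n) ℝ) a b * u b = u a := by
      simp [Matrix.one_apply]
    rw [h2] at h1
    linarith
  have hlwe : ∀ a, lw u (H a) = (mu - 1) * u a := by
    intro a
    rw [lw_count, ← heig a]
    rfl
  have hlit : ∀ k (v : List (Fin n)), lw u (it H k v) = (mu - 1) ^ k * lw u v := by
    have happ : ∀ v, lw u (app H v) = (mu - 1) * lw u v := by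
      intro v
      induction v with
      | nil => rw [app_nil, lw_nil, mul_zero]
      | cons a v ih => rw [app_cons, lw_append, ih, hlwe, lw_cons, mul_add]
    intro k v
    induction k with
    | zero => rw [it_zero, pow_zero, one_mul]
    | succ k ih => rw [it_succ, happ, ih, pow_succ]; ring
  have hmu1 : 1 < mu - 1 := by
    -- minimal weight
    obtain ⟨a0, -, ha0⟩ := Finset.exists_min_image Finset.univ u Finset.univ_nonempty
    have hm := hu a0
    have hlen : ∀ v : List (Fin n), (v.length : ℝ) * u a0 ≤ lw u v := by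
      intro v
      induction v with
      | nil => simp [lw_nil]
      | cons a v ih =>
        rw [lw_cons, List.length_cons, Nat.cast_add, Nat.cast_one, add_mul, one_mul]
        have := ha0 a (Finset.mem_univ a)
        linarith
    have hgr := hnf.gr a0
    obtain ⟨k, hk⟩ := hgr 2
    have h1 := hlen (it H k [a0])
    rw [hlit, lw_cons, lw_nil, add_zero] at h1
    have h2 : (2 : ℝ) ≤ ((it H k [a0]).length : ℝ) := by exact_mod_cast hk
    have h3 : 2 * u a0 ≤ (mu - 1) ^ k * u a0 :=
      (mul_le_mul_of_nonneg_right h2 hm.le).trans h1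
    have h4 : (2 : ℝ) ≤ (mu - 1) ^ k := le_of_mul_le_mul_right h3 hm
    have hmpos : 0 ≤ mu - 1 := by
      have h5 := hlwe a0
      have h6 := lw_nonneg hu (H a0)
      rw [h5] at h6
      by_contra h7
      push Not at h7
      nlinarith
    by_contra h5
    push Not at h5
    have h6 := pow_le_one₀ (n := k) hmpos h5
    linarith
  have hb : 0 < lw u b0 := lw_pos hu hnf.ne
  refine ⟨mu - 1, fun a => u a / lw u b0, hmu1, fun a => div_pos (hu a) hb, ?_, ?_⟩
  · intro a
    rw [lw_div, hlwe]
    ring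
  · rw [lw_div, div_self hb.ne']

/-! ### the weight of `T` -/

/-- `l (1)`: the sum of the weights of the letters. -/
def Sw (l : Fin n → ℝ) : ℝ := ∑ a, l a

/-- `l (A 1) = lam S`. -/
theorem PW.sum_images {lam : ℝ} {l : Fin n → ℝ} (h : PW H b0 lam l) :
    ∑ c, ((∑ a, (H a).count c : ℕ) : ℝ) * l c = lam * Sw l := by
  have h1 : ∀ c, ((∑ a, (H a).count c : ℕ) : ℝ) * l c = ∑ a, ((H a).count c : ℝ) * l c := by
    intro c
    rw [Nat.cast_sum, Finset.sum_mul]
  rw [Finset.sum_congr rfl fun c _ => h1 c, Finset.sum_comm, Sw, Finset.mul_sum]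
  refine Finset.sum_congr rfl fun a _ => ?_
  rw [← h.eig, lw_count]

/-- `l (T) = 1 + (lam - 1) S`, from (E). -/
theorem PW.T_eq {lam : ℝ} {l : Fin n → ℝ} (h : PW H b0 lam l) {T : List (Fin n)}
    (hE : ∀ c, T.count c + 1 = b0.count c + ∑ a, (H a).count c) :
    lw l T = 1 + (lam - 1) * Sw l := by
  have h1 : ∑ c, ((T.count c : ℝ) + 1) * l c =
      ∑ c, ((b0.count c : ℝ) + ((∑ a, (H a).count c : ℕ) : ℝ)) * l c := by
    refine Finset.sum_congr rfl fun c _ => ?_
    have h2 := hE c
    have h3 : (T.count c : ℝ) + 1 = (b0.count c : ℝ) + ((∑ a, (H a).count c : ℕ) : ℝ) := by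
      exact_mod_cast h2
    rw [h3]
  simp only [add_mul, one_mul, Finset.sum_add_distrib] at h1
  rw [h.sum_images, ← lw_count, ← lw_count, h.ax] at h1
  have h2 : ∑ c, l c = Sw l := rfl
  rw [h2] at h1
  linarith

/-- Weight of a vector. -/
theorem PW.mulVec {lam : ℝ} {l : Fin n → ℝ} (h : PW H b0 lam l) (v : Fin n → ℤ) :
    ∑ c, (((inc H).mulVec v c : ℤ) : ℝ) * l c = lam * ∑ c, (v c : ℝ) * l c := by
  have h1 : ∀ c, (((inc H).mulVec v c : ℤ) : ℝ) * l c =
      ∑ a, ((H a).count c : ℝ) * (v a : ℝ) * l c := by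
    intro c
    rw [Matrix.mulVec, dotProduct, Int.cast_sum, Finset.sum_mul]
    refine Finset.sum_congr rfl fun a _ => ?_
    rw [inc, Matrix.of_apply]
    push_cast
    rfl
  rw [Finset.sum_congr rfl fun c _ => h1 c, Finset.sum_comm, Finset.mul_sum]
  refine Finset.sum_congr rfl fun a _ => ?_
  have h2 : ∀ c, ((H a).count c : ℝ) * (v a : ℝ) * l c =
      (v a : ℝ) * (((H a).count c : ℝ) * l c) := fun c => by ring
  rw [Finset.sum_congr rfl fun c _ => h2 c, ← Finset.mul_sum, ← lw_count, h.eig]
  ring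

theorem PW.mulVec_pow {lam : ℝ} {l : Fin n → ℝ} (h : PW H b0 lam l) (k : ℕ) (v : Fin n → ℤ) :
    ∑ c, ((((inc H) ^ k).mulVec v c : ℤ) : ℝ) * l c = lam ^ k * ∑ c, (v c : ℝ) * l c := by
  induction k generalizing v with
  | zero => simp
  | succ k ih =>
    rw [pow_succ, ← Matrix.mulVec_mulVec, ih, h.mulVec, pow_succ]
    ring

/-- (6.3). `A^j e = [W] - 1` and `e ≥ 1` imply `l (T) < lam^(n-j) + 1`. -/
theorem PW.T_lt {lam : ℝ} {l : Fin n → ℝ} (h : PW H b0 lam l) {T : List (Fin n)}
    (hE : ∀ c, T.count c + 1 = b0.count c + ∑ a, (H a).count c) {j : ℕ} (hj : j ≤ n)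
    {e : Fin n → ℤ} (he : ∀ c, 1 ≤ e c)
    (hA : ∀ c, ((inc H) ^ j).mulVec e c = (∑ i ∈ Finset.range n, ((it H i b0).count c : ℤ)) - 1) :
    lw l T < lam ^ (n - j) + 1 := by
  have hp := h.lam_pos
  have h1 := h.one_lt
  rw [h.T_eq hE]
  have hS : Sw l ≤ ∑ c, (e c : ℝ) * l c := by
    unfold Sw
    refine Finset.sum_le_sum fun c _ => ?_
    have h2 : (1 : ℝ) ≤ (e c : ℝ) := by exact_mod_cast he c
    have h3 := h.pos c
    nlinarith
  have h2 := h.mulVec_pow j e
  have h3 : ∑ c, ((((inc H) ^ j).mulVec e c : ℤ) : ℝ) * l c =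
      ∑ i ∈ Finset.range n, lam ^ i - Sw l := by
    have h4 : ∀ c, ((((inc H) ^ j).mulVec e c : ℤ) : ℝ) * l c =
        (∑ i ∈ Finset.range n, ((it H i b0).count c : ℝ) * l c) - l c := by
      intro c
      rw [hA c]
      push_cast
      rw [sub_mul, one_mul, Finset.sum_mul]
    rw [Finset.sum_congr rfl fun c _ => h4 c, Finset.sum_sub_distrib, Finset.sum_comm]
    congr 1
    refine Finset.sum_congr rfl fun i _ => ?_
    rw [← lw_count, h.lw_w]
  rw [h3] at h2
  have hg : (lam - 1) * ∑ i ∈ Finset.range n, lam ^ i = lam ^ n - 1 := by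
    rw [mul_comm]
    exact geom_sum_mul lam n
  have hj0 := pow_pos hp j
  -- `lam^j S ≤ V - S`
  have h5 : lam ^ j * Sw l ≤ ∑ i ∈ Finset.range n, lam ^ i - Sw l := by
    rw [h2]
    exact mul_le_mul_of_nonneg_left hS hj0.le
  have h6 : (lam - 1) * (lam ^ j * Sw l) ≤ lam ^ n - 1 - (lam - 1) * Sw l := by
    have h7 := mul_le_mul_of_nonneg_left h5 (sub_nonneg.2 h1.le)
    rw [mul_sub, hg] at h7
    exact h7
  have h8 : lam ^ n = lam ^ (n - j) * lam ^ j := by
    rw [← pow_add]
    congr 1
    omega
  have h9 := pow_pos hp (n - j)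
  set x := (lam - 1) * Sw l with hx
  have h10 : x * (lam ^ j + 1) ≤ lam ^ (n - j) * lam ^ j - 1 := by
    rw [← h8]
    have : (lam - 1) * (lam ^ j * Sw l) = x * lam ^ j := by rw [hx]; ring
    rw [this] at h6
    linarith
  by_contra hcon
  push Not at hcon
  have h11 : lam ^ (n - j) ≤ x := by linarith
  have h12 : lam ^ (n - j) * (lam ^ j + 1) ≤ x * (lam ^ j + 1) :=
    mul_le_mul_of_nonneg_right h11 (by linarith)
  nlinarith

end D0L.Bim
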