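import Pool.Agent.H.MP_374efc_lc.Tr.Height3
import Pool.Agent.H.MP_374efc_lc.Tr.Ch1
import Pool.Agent.H.MP_374efc_lc.Bim.End

/-!
# From the normal form to roses

`BM H`: the maps first letter of `H a` and last letter of `H a` are injective.
`WR H b0 m`: the rose with the petals `w_0, …, w_(m-1)`; `DR H`: the rose with the petals `H a`.
-/

set_option autoImplicit false

namespace D0L.Tr

variable {α : Type*} [DecidableEq α]

/-- A path to the base first reads the rest of the petal. -/
theorem run_rest {R : Rose α} : ∀ {s u : List α}, run R s u = some [] →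
    ∃ u', u = s ++ u' ∧ run R [] u' = some [] := by
  intro s
  induction s with
  | nil => intro u h; exact ⟨u, rfl, h⟩
  | cons b r ih =>
    intro u h
    cases u with
    | nil => simp at h
    | cons c u =>
      rw [run_cons, step_cons] at h
      by_cases hc : c = b
      · subst hc
        rw [if_pos rfl] at h
        obtain ⟨u', rfl, hu'⟩ := ih (by simpa using h)
        exact ⟨u', rfl, hu'⟩
      · rw [if_neg hc] at h
        simp at h

/-- **The language of a rose.** -/
theorem run_iff_prod {R : Rose α} {v : List α} : run R [] v = some [] ↔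
    ∃ L : List (List α), v = L.flatten ∧ ∀ x ∈ L, ∃ a l, R a = some l ∧ x = a :: l := by
  constructor
  · induction hn : v.length using Nat.strong_induction_on generalizing v with
    | _ n ih =>
    intro h
    cases v with
    | nil => exact ⟨[], rfl, by simp⟩
    | cons a u =>
      rw [run_cons, step_nil] at h
      cases hl : R a with
      | none => rw [hl] at h; simp at h
      | some l =>
        rw [hl] at h
        obtain ⟨u', rfl, hu'⟩ := run_rest (by simpa using h)
        obtain ⟨L, hL, hL'⟩ := ih u'.length (by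
          rw [← hn]
          simp only [List.length_cons, List.length_append]
          omega) rfl hu'
        refine ⟨(a :: l) :: L, by rw [hL]; simp, ?_⟩
        intro x hx
        rcases List.mem_cons.1 hx with rfl | hx
        · exact ⟨a, l, hl, rfl⟩
        · exact hL' x hx
  · rintro ⟨L, rfl, hL⟩
    induction L with
    | nil => rfl
    | cons x L ih =>
      obtain ⟨a, l, h, rfl⟩ := hL x List.mem_cons_self
      rw [List.flatten_cons]
      exact run_append_some (run_petal h) (ih fun y hy => hL y (List.mem_cons_of_mem _ hy))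

/-- Left unitary. -/
theorem run_cancel {R : Rose α} {u v : List α} (h1 : run R [] u = some [])
    (h2 : run R [] (u ++ v) = some []) : run R [] v = some [] := by
  rw [run_append, h1] at h2
  simpa using h2

/-- Right unitary. -/
theorem run_cancel_right {R : Rose α} (hR : Bim R) {u v : List α} (h1 : run R [] v = some [])
    (h2 : run R [] (u ++ v) = some []) : run R [] u = some [] := by
  rw [run_append] at h2
  cases h : run R [] u with
  | none => rw [h] at h2; simp at h2
  | some s =>
    rw [h] at h2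
    have := run_inj hR (run_isSt (isSt_nil R) h) (isSt_nil R) (by simpa using h2) h1
    rw [this]

end D0L.Tr

namespace D0L.Bim

open D0L.Tr

variable {n N : ℕ} {H : Fin n → List (Fin n)} {b0 : List (Fin n)}

theorem gw_eq_wel (x : List (Fin n)) : gw x = wel x := gw_eq_mk x

/-- The first letter map and the last letter map of `H` are injective. -/
structure BM (H : Fin n → List (Fin n)) : Prop where
  fi : ∀ a b : Fin n, (H a).head? = (H b).head? → a = b
  la : ∀ a b : Fin n, (H a).getLast? = (H b).getLast? → a = b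

/-- The rose with the petals `w_0, …, w_(m-1)`. -/
noncomputable def WR (H : Fin n → List (Fin n)) (b0 : List (Fin n)) (m : ℕ) : Rose (Fin n) :=
  fun c => by
    classical
    exact if h : ∃ l, ∃ i < m, it H i b0 = c :: l then some h.choose else none

/-- The rose with the petals `H a`. -/
noncomputable def DR (H : Fin n → List (Fin n)) : Rose (Fin n) := fun c => by
  classical
  exact if h : ∃ l, ∃ a, H a = c :: l then some h.choose else none

theorem first_unique' (hnf : NF H b0 N) {i j : ℕ} (hi : i < n) (hj : j < n) {a : Fin n}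
    {s t : List (Fin n)} (h1 : it H i b0 = a :: s) (h2 : it H j b0 = a :: t) : i = j := by
  have := first_unique hnf (i := ⟨i, hi⟩) (j := ⟨j, hj⟩) h1 h2
  simpa using this

theorem last_unique' (hnf : NF H b0 N) {i j : ℕ} (hi : i < n) (hj : j < n) {a : Fin n}
    {s t : List (Fin n)} (h1 : it H i b0 = s ++ [a]) (h2 : it H j b0 = t ++ [a]) : i = j := by
  have := last_unique hnf (i := ⟨i, hi⟩) (j := ⟨j, hj⟩) h1 h2
  simpa using this

theorem WR_some (hnf : NF H b0 N) {m : ℕ} (hm : m ≤ n) {c : Fin n} {l : List (Fin n)} :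
    WR H b0 m c = some l ↔ ∃ i < m, it H i b0 = c :: l := by
  classical
  unfold WR
  constructor
  · intro h
    split_ifs at h with h0
    simp only [Option.some.injEq] at h
    rw [← h]
    exact h0.choose_spec
  · rintro ⟨i, hi, h⟩
    have h0 : ∃ l, ∃ i < m, it H i b0 = c :: l := ⟨l, i, hi, h⟩
    rw [dif_pos h0]
    obtain ⟨j, hj, h'⟩ := h0.choose_spec
    obtain rfl := first_unique' hnf (by omega) (by omega) h h'
    rw [h] at h'
    simp only [List.cons.injEq, true_and] at h'
    rw [← h']

theorem WR_none {m : ℕ} {c : Fin n} :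
    WR H b0 m c = none ↔ ∀ l, ∀ i < m, it H i b0 ≠ c :: l := by
  classical
  unfold WR
  constructor
  · intro h l i hi he
    split_ifs at h with h0
    exact h0 ⟨l, i, hi, he⟩
  · intro h
    rw [dif_neg]
    rintro ⟨l, i, hi, he⟩
    exact h l i hi he

theorem DR_some (hB : BM H) {c : Fin n} {l : List (Fin n)} :
    DR H c = some l ↔ ∃ a, H a = c :: l := by
  classical
  unfold DR
  constructor
  · intro h
    split_ifs at h with h0
    simp only [Option.some.injEq] at h
    rw [← h]
    exact h0.choose_spec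
  · rintro ⟨a, h⟩
    have h0 : ∃ l, ∃ a, H a = c :: l := ⟨l, a, h⟩
    rw [dif_pos h0]
    obtain ⟨b, h'⟩ := h0.choose_spec
    obtain rfl := hB.fi a b (by rw [h, h']; rfl)
    rw [h] at h'
    simp only [List.cons.injEq, true_and] at h'
    rw [← h']

theorem WR_bim (hnf : NF H b0 N) {m : ℕ} (hm : m ≤ n) : Bim (WR H b0 m) := by
  intro a a' l l' h h' hl
  rw [WR_some hnf hm] at h h'
  obtain ⟨i, hi, h⟩ := h
  obtain ⟨j, hj, h'⟩ := h'
  have h1 : ∃ s b, a :: l = s ++ [b] := by
    rcases List.eq_nil_or_concat' (a :: l) with h0 | ⟨s, b, h0⟩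
    · simp at h0
    · exact ⟨s, b, h0⟩
  have h2 : ∃ s b, a' :: l' = s ++ [b] := by
    rcases List.eq_nil_or_concat' (a' :: l') with h0 | ⟨s, b, h0⟩
    · simp at h0
    · exact ⟨s, b, h0⟩
  obtain ⟨s, b, e1⟩ := h1
  obtain ⟨s', b', e2⟩ := h2
  rw [e1, e2] at hl
  simp only [List.getLast?_append, List.getLast?_singleton, Option.some_or,
    Option.some.injEq] at hl
  subst hl
  obtain rfl := last_unique' hnf (by omega) (by omega) (h.trans e1) (h'.trans e2)
  rw [h] at h'
  simp only [List.cons.injEq] at h'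
  exact h'.1

theorem DR_bim (hB : BM H) : Bim (DR H) := by
  intro a a' l l' h h' hl
  rw [DR_some hB] at h h'
  obtain ⟨b, h⟩ := h
  obtain ⟨b', h'⟩ := h'
  obtain rfl := hB.la b b' (by rw [h, h']; exact hl)
  rw [h] at h'
  simp only [List.cons.injEq] at h'
  exact h'.1

theorem DR_full (hnf : NF H b0 N) (hB : BM H) (c : Fin n) : ∃ l, DR H c = some l := by
  have hne : ∀ a, H a ≠ [] := nf_ne hnf
  let f : Fin n → Fin n := fun a => (H a).head (hne a)
  have hinj : Function.Injective f := by
    intro a b h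
    apply hB.fi
    rw [List.head?_eq_some_head (hne a), List.head?_eq_some_head (hne b)]
    exact congrArg some h
  obtain ⟨a, ha⟩ := (Finite.injective_iff_surjective.1 hinj) c
  have h1 : H a = f a :: (H a).tail := (List.cons_head_tail (hne a)).symm
  exact ⟨(H a).tail, (DR_some hB).2 ⟨a, by rw [← ha]; exact h1⟩⟩

/-- Products of the words `w_i`, `i < m`. -/
def PrW (H : Fin n → List (Fin n)) (b0 : List (Fin n)) (m : ℕ) (v : List (Fin n)) : Prop :=
  ∃ js : List ℕ, (∀ j ∈ js, j < m) ∧ v = (js.map fun j => it H j b0).flatten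

theorem PrW.nil (H : Fin n → List (Fin n)) (b0 : List (Fin n)) (m : ℕ) : PrW H b0 m [] :=
  ⟨[], by simp, rfl⟩

theorem PrW.append {m : ℕ} {u v : List (Fin n)} (hu : PrW H b0 m u) (hv : PrW H b0 m v) :
    PrW H b0 m (u ++ v) := by
  obtain ⟨js, h1, rfl⟩ := hu
  obtain ⟨ks, h2, rfl⟩ := hv
  refine ⟨js ++ ks, ?_, by simp⟩
  intro j hj
  rcases List.mem_append.1 hj with hj | hj
  · exact h1 j hj
  · exact h2 j hj

theorem PrW.tok {m i : ℕ} (hi : i < m) : PrW H b0 m (it H i b0) :=
  ⟨[i], by simpa using hi, by simp⟩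

theorem PrW.mono {m m' : ℕ} (h : m ≤ m') {v : List (Fin n)} (hv : PrW H b0 m v) :
    PrW H b0 m' v := by
  obtain ⟨js, h1, rfl⟩ := hv
  exact ⟨js, fun j hj => (h1 j hj).trans_le h, rfl⟩

theorem PrW.tkm {m : ℕ} {v : List (Fin n)} (hv : PrW H b0 m v) : TkM H b0 v := by
  obtain ⟨js, _, rfl⟩ := hv
  apply TkM.flatten
  intro z hz
  obtain ⟨j, _, rfl⟩ := List.mem_map.1 hz
  exact TkM.tok H b0 j

/-- **The language of `WR`.** -/
theorem run_WR (hnf : NF H b0 N) {m : ℕ} (hm : m ≤ n) {v : List (Fin n)} :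
    run (WR H b0 m) [] v = some [] ↔ PrW H b0 m v := by
  rw [run_iff_prod]
  constructor
  · rintro ⟨L, rfl, hL⟩
    induction L with
    | nil => exact PrW.nil H b0 m
    | cons x L ih =>
      obtain ⟨a, l, h, rfl⟩ := hL x List.mem_cons_self
      rw [WR_some hnf hm] at h
      obtain ⟨i, hi, h⟩ := h
      rw [List.flatten_cons, ← h]
      exact (PrW.tok hi).append (ih fun y hy => hL y (List.mem_cons_of_mem _ hy))
  · rintro ⟨js, hjs, rfl⟩
    refine ⟨_, rfl, ?_⟩
    intro x hx
    obtain ⟨j, hj, rfl⟩ := List.mem_map.1 hx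
    obtain ⟨a, l, hl⟩ := List.exists_cons_of_ne_nil (nf_it_ne hnf j)
    exact ⟨a, l, (WR_some hnf hm).2 ⟨j, hjs j hj, hl⟩, hl⟩

/-- **The language of `DR`.** -/
theorem run_DR (hnf : NF H b0 N) (hB : BM H) {v : List (Fin n)} :
    run (DR H) [] v = some [] ↔ ∃ u, v = app H u := by
  rw [run_iff_prod]
  constructor
  · rintro ⟨L, rfl, hL⟩
    induction L with
    | nil => exact ⟨[], rfl⟩
    | cons x L ih =>
      obtain ⟨a, l, h, rfl⟩ := hL x List.mem_cons_self
      rw [DR_some hB] at h
      obtain ⟨b, h⟩ := h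
      obtain ⟨u, hu⟩ := ih fun y hy => hL y (List.mem_cons_of_mem _ hy)
      exact ⟨b :: u, by rw [List.flatten_cons, hu, app_cons, h]⟩
  · rintro ⟨u, rfl⟩
    induction u with
    | nil => exact ⟨[], rfl, by simp⟩
    | cons b u ih =>
      obtain ⟨L, h1, h2⟩ := ih
      obtain ⟨a, l, hl⟩ := List.exists_cons_of_ne_nil (nf_ne hnf b)
      refine ⟨H b :: L, by rw [app_cons, h1]; rfl, ?_⟩
      intro x hx
      rcases List.mem_cons.1 hx with rfl | hx
      · exact ⟨a, l, (DR_some hB).2 ⟨b, hl⟩, hl⟩
      · exact h2 x hx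

theorem run_DR_app (hnf : NF H b0 N) (hB : BM H) (u : List (Fin n)) :
    run (DR H) [] (app H u) = some [] := (run_DR hnf hB).2 ⟨u, rfl⟩

/-- Left unitary, on the level of the preimages. -/
theorem app_cancel (hnf : NF H b0 N) (hB : BM H) {u v : List (Fin n)} {w : List (Fin n)}
    (h : app H w = app H u ++ v) : ∃ z, v = app H z ∧ w = u ++ z := by
  have h1 : run (DR H) [] v = some [] := by
    apply run_cancel (run_DR_app hnf hB u)
    rw [← h]
    exact run_DR_app hnf hB w
  obtain ⟨z, rfl⟩ := (run_DR hnf hB).1 h1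
  refine ⟨z, rfl, ?_⟩
  apply hnf.inj
  rw [h, app_append]

/-- Right unitary, on the level of the preimages. -/
theorem app_cancel_right (hnf : NF H b0 N) (hB : BM H) {u v : List (Fin n)} {w : List (Fin n)}
    (h : app H w = v ++ app H u) : ∃ z, v = app H z ∧ w = z ++ u := by
  have h1 : run (DR H) [] v = some [] := by
    apply run_cancel_right (DR_bim hB) (run_DR_app hnf hB u)
    rw [← h]
    exact run_DR_app hnf hB w
  obtain ⟨z, rfl⟩ := (run_DR hnf hB).1 h1
  refine ⟨z, rfl, ?_⟩
  apply hnf.inj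
  rw [h, app_append]

/-- **The hull condition.** -/
theorem hull_WR (hnf : NF H b0 N) (hB : BM H) {m : ℕ} (hm : m ≤ n) (h1 : 1 ≤ m) :
    Hull (WR H b0 m) (DR H) := by
  intro G h0 hmul hu hQ hD
  obtain ⟨a, l, hl⟩ := List.exists_cons_of_ne_nil hnf.ne
  apply hull_left hnf h0 hmul hu
  · have := hQ a l ((WR_some hnf hm).2 ⟨0, by omega, hl⟩)
    rw [hl]
    exact this
  · intro c
    obtain ⟨b, l', hl'⟩ := List.exists_cons_of_ne_nil (nf_ne hnf c)
    have := hD b l' ((DR_some hB).2 ⟨c, hl'⟩)
    rw [hl']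
    exact this

theorem it_succ_mem_DR (hnf : NF H b0 N) (hB : BM H) (i : ℕ) :
    run (DR H) [] (it H (i + 1) b0) = some [] := by
  rw [it_succ]
  exact run_DR_app hnf hB _

theorem it_pos_mem_DR (hnf : NF H b0 N) (hB : BM H) {i : ℕ} (hi : 1 ≤ i) :
    run (DR H) [] (it H i b0) = some [] := by
  obtain ⟨k, rfl⟩ : ∃ k, i = k + 1 := ⟨i - 1, by omega⟩
  exact it_succ_mem_DR hnf hB k

/-- **The pure pair.** `T = b_0 …` is a product of `w_i`, `i < m`, and in `H(Σ^*)`. -/
theorem pr_WR (hnf : NF H b0 N) (hB : BM H) {m : ℕ} (hm : m ≤ n) {a₀ : Fin n}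
    {v s : List (Fin n)} (hs : b0 = a₀ :: s) (h1 : PrW H b0 m (a₀ :: v))
    (h2 : ∃ u, a₀ :: v = app H u) : Pr (WR H b0 m) (DR H) where
  q := WR_bim hnf hm
  h := DR_bim hB
  full := DR_full hnf hB
  pure := by
    intro a l h
    rw [WR_some hnf hm] at h
    obtain ⟨i, hi, h⟩ := h
    rcases Nat.eq_zero_or_pos i with rfl | hi0
    · rw [it_zero, hs] at h
      simp only [List.cons.injEq] at h
      obtain ⟨rfl, rfl⟩ := h
      exact ⟨v, (run_WR hnf hm).2 h1, (run_DR hnf hB).2 h2⟩
    · refine ⟨l, ?_, ?_⟩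
      · rw [← h]
        exact (run_WR hnf hm).2 (PrW.tok hi)
      · rw [← h]
        exact it_pos_mem_DR hnf hB hi0

end D0L.Bim
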