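import Pool.Agent.H.MP_374efc_lc.Base

/-!
# BIM, step A (helper18, BIMPROOF): the support argument

`h` has first letter map `f`, an `n`-cycle, `n = card α`. If
`A 1 = 1 + m w_0 + ∑_(1 ≤ i ≤ n-1) μ_i w_i` (exactness) and `μ_(n-1) ≠ 0` then `w_0` is a power of
one letter.
-/

namespace D0L.Bim

open Finset

variable {α : Type*} [Fintype α] [DecidableEq α]

/-- There is a path of length `m` inside `Y` starting at `c`. -/
def Pth (h : α → List α) (Y : α → Prop) : ℕ → α → Prop
  | 0, c => Y c
  | m + 1, c => Y c ∧ ∃ c' ∈ h c, Pth h Y m c'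

omit [Fintype α] [DecidableEq α] in
theorem Pth.anti {h : α → List α} {Y : α → Prop} {m : ℕ} : ∀ {c : α},
    Pth h Y (m + 1) c → Pth h Y m c := by
  induction m with
  | zero => exact fun hc => hc.1
  | succ m ih =>
    rintro c ⟨h1, c', h2, h3⟩
    exact ⟨h1, c', h2, ih h3⟩

omit [Fintype α] [DecidableEq α] in
theorem Pth.anti' {h : α → List α} {Y : α → Prop} {m k : ℕ} (hk : k ≤ m) {c : α}
    (hc : Pth h Y m c) : Pth h Y k c := by
  induction m, hk using Nat.le_induction with
  | base => exact hc
  | succ m _ ih => exact ih hc.anti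

omit [Fintype α] [DecidableEq α] in
theorem Pth.reach {h : α → List α} {Y : α → Prop} {w : List α} {m : ℕ} : ∀ {j : ℕ} {c : α},
    Pth h Y m c → c ∈ it h j w → ∃ c', Y c' ∧ c' ∈ it h (j + m) w := by
  induction m with
  | zero => exact fun {j c} hc hm => ⟨c, hc, hm⟩
  | succ m ih =>
    rintro j c ⟨-, c', h2, h3⟩ hm
    obtain ⟨c'', h4, h5⟩ := ih (j := j + 1) h3 (by
      rw [it_succ]
      exact mem_app.2 ⟨c, hm, h2⟩)
    refine ⟨c'', h4, ?_⟩
    have : j + 1 + m = j + (m + 1) := by omega
    rwa [this] at h5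

omit [Fintype α] [DecidableEq α] in
theorem Pth.exists_of {h : α → List α} {Y : α → Prop} (hY : ∀ a, ∃ d, Y d ∧ a ∈ h d) [Nonempty α]
    (m : ℕ) : ∃ c, Pth h Y m c := by
  induction m with
  | zero =>
    obtain ⟨d, hd, -⟩ := hY (Classical.arbitrary α)
    exact ⟨d, hd⟩
  | succ m ih =>
    obtain ⟨c, hc⟩ := ih
    obtain ⟨d, hd, h2⟩ := hY c
    exact ⟨d, hd, c, h2, hc⟩

theorem count_app (h : α → List α) (w : List α) (a : α) :
    (app h w).count a = ∑ d, w.count d * (h d).count a := by
  induction w with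
  | nil => simp [app_nil]
  | cons b w ih =>
    rw [app_cons, List.count_append, ih]
    have h1 : ∀ d, (b :: w).count d * (h d).count a =
        w.count d * (h d).count a + if d = b then (h d).count a else 0 := by
      intro d
      rw [List.count_cons]
      by_cases hd : d = b
      · subst hd
        simp [Nat.add_mul]
      · have h2 : ¬ (b == d) = true := by
          simpa using fun h => hd h.symm
        simp [hd, h2]
    rw [Finset.sum_congr rfl fun d _ => h1 d, Finset.sum_add_distrib,
      Finset.sum_ite_eq' Finset.univ b fun d => (h d).count a, if_pos (Finset.mem_univ b),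
      Nat.add_comm]

/-- Every letter occurs in the image of a letter which is in none of the words `w_(i-1)`, `i ∈ U`. -/
theorem stepA_cover {h : α → List α} {w : List α} {m n : ℕ} {μ : ℕ → ℕ}
    (hex : ∀ a, ∑ d, (h d).count a = 1 + m * w.count a +
      ∑ i ∈ Finset.range n, μ i * (it h (i + 1) w).count a) (a : α) :
    ∃ d, (∀ i < n, μ i ≠ 0 → d ∉ it h i w) ∧ a ∈ h d := by
  by_contra hcon
  push_neg at hcon
  have h1 : ∀ d, (h d).count a ≤
      ∑ i ∈ Finset.range n, μ i * ((it h i w).count d * (h d).count a) := by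
    intro d
    by_cases hd : a ∈ h d
    · have h2 : ∃ i < n, μ i ≠ 0 ∧ d ∈ it h i w := by
        by_contra h3
        push_neg at h3
        exact hcon d h3 hd
      obtain ⟨i, hi, h3, h4⟩ := h2
      have h5 : 1 ≤ (it h i w).count d := List.one_le_count_iff.2 h4
      have h6 : (h d).count a ≤ μ i * ((it h i w).count d * (h d).count a) := by
        have h7 : 1 ≤ μ i := Nat.one_le_iff_ne_zero.2 h3
        calc (h d).count a = 1 * (1 * (h d).count a) := by rw [one_mul, one_mul]
          _ ≤ _ := Nat.mul_le_mul h7 (Nat.mul_le_mul_right _ h5)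
      exact h6.trans (Finset.single_le_sum
        (f := fun i => μ i * ((it h i w).count d * (h d).count a)) (fun _ _ => Nat.zero_le _)
        (Finset.mem_range.2 hi))
    · rw [List.count_eq_zero.2 hd]
      exact Nat.zero_le _
  have h2 : ∑ d, (h d).count a ≤ ∑ i ∈ Finset.range n, μ i * (it h (i + 1) w).count a := by
    refine (Finset.sum_le_sum fun d _ => h1 d).trans ?_
    rw [Finset.sum_comm]
    refine Finset.sum_le_sum fun i _ => ?_
    rw [it_succ, count_app, ← Finset.mul_sum]
  have h3 := hex a
  omega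

/-- **Step A.** -/
theorem stepA {h : α → List α} {w : List α} {f : α → α} (hf : ∀ a, f a ∈ h a)
    (hcyc : ∀ a b, ∃ k < Fintype.card α, f^[k] a = b) {m : ℕ} {μ : ℕ → ℕ}
    (hex : ∀ a, ∑ d, (h d).count a = 1 + m * w.count a +
      ∑ i ∈ Finset.range (Fintype.card α - 1), μ i * (it h (i + 1) w).count a)
    (hn : 2 ≤ Fintype.card α) (hμ : μ (Fintype.card α - 2) ≠ 0) : ∃ e, ∀ b ∈ w, b = e := by
  classical
  haveI : Nonempty α := Fintype.card_pos_iff.1 (by omega)
  obtain ⟨c, hc⟩ := Pth.exists_of (h := h) (stepA_cover hex) (Fintype.card α - 2)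
  have hsurj : Function.Surjective f := by
    intro b
    obtain ⟨k, -, hk⟩ := hcyc (f b) b
    exact ⟨f^[k] b, by rw [← Function.iterate_succ_apply' f, Function.iterate_succ_apply, hk]⟩
  have hinj : Function.Injective f := Finite.injective_iff_surjective.2 hsurj
  have hmem : ∀ e ∈ w, ∀ j, f^[j] e ∈ it h j w := by
    intro e he j
    induction j with
    | zero => exact he
    | succ j ih =>
      rw [Function.iterate_succ_apply', it_succ]
      exact mem_app.2 ⟨_, ih, hf _⟩
  have key : ∀ e ∈ w, f^[Fintype.card α - 1] e = c := by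
    intro e he
    obtain ⟨k, hk, hk2⟩ := hcyc e c
    by_cases h1 : k = Fintype.card α - 1
    · rw [← h1]
      exact hk2
    · exfalso
      have h2 : k ≤ Fintype.card α - 2 := by omega
      have h3 := hmem e he k
      rw [hk2] at h3
      obtain ⟨c', h4, h5⟩ := (hc.anti' (Nat.sub_le (Fintype.card α - 2) k)).reach h3
      have h6 : k + (Fintype.card α - 2 - k) = Fintype.card α - 2 := by omega
      rw [h6] at h5
      exact h4 _ (by omega) hμ h5
  rcases w with _ | ⟨e, t⟩
  · exact ⟨Classical.arbitrary α, fun b hb => absurd hb List.not_mem_nil⟩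
  · refine ⟨e, fun b hb => ?_⟩
    exact hinj.iterate _ ((key b hb).trans (key e List.mem_cons_self).symm)

end D0L.Bim
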