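import Pool.Agent.H.MP_374efc_lc.Bim.StepA

/-!
# Step A for irreducible `h` (no hypothesis on the first letters)

If `1 + ∑_(1 ≤ i ≤ n-1) μ_i w_i ≤ A 1` componentwise, `n = card α`, `h` irreducible and `w_0` contains
two different letters, then `μ_(n-1) = 0`. (The general form of helper18's step A, after helper25.)
-/

namespace D0L.Bim

open Finset

variable {α : Type*} [Fintype α] [DecidableEq α]

/-- Every letter occurs in the image of a letter which is in none of the words `w_(i-1)`, `i ∈ U`. -/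
theorem stepA2_cover {h : α → List α} {w : List α} {n : ℕ} {μ : ℕ → ℕ}
    (hex : ∀ a, 1 + ∑ i ∈ Finset.range n, μ i * (it h (i + 1) w).count a ≤
      ∑ d, (h d).count a) (a : α) :
    ∃ d, (∀ i < n, μ i ≠ 0 → d ∉ it h i w) ∧ a ∈ h d := by
  by_contra hcon
  push_neg at hcon
  have h1 : ∀ d, (h d).count a ≤
      ∑ i ∈ Finset.range n, μ i * ((it h i w).count d * (h d).count a) := by
    intro d
    by_cases hd : a ∈ h d
    · have h2 : ∃ i < n, μ i ≠ 0 ∧ d ∈ it h i w := by
        by_contra h3
        push_neg at h3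
        exact hcon d h3 hd
      obtain ⟨i, hi, h3, h4⟩ := h2
      have h5 : 1 ≤ (it h i w).count d := List.one_le_count_iff.2 h4
      have h6 : (h d).count a ≤ μ i * ((it h i w).count d * (h d).count a) := by
        have h7 : 1 ≤ μ i := Nat.one_le_iff_ne_zero.2 h3
        calc (h d).count a = 1 * (1 * (h d).count a) := by rw [one_mul, one_mul]
          _ ≤ _ := Nat.mul_le_mul h7 (Nat.mul_le_mul_right _ h5)
      exact h6.trans (Finset.single_le_sum
        (f := fun i => μ i * ((it h i w).count d * (h d).count a)) (fun _ _ => Nat.zero_le _)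
        (Finset.mem_range.2 hi))
    · rw [List.count_eq_zero.2 hd]
      exact Nat.zero_le _
  have h2 : ∑ d, (h d).count a ≤ ∑ i ∈ Finset.range n, μ i * (it h (i + 1) w).count a := by
    refine (Finset.sum_le_sum fun d _ => h1 d).trans ?_
    rw [Finset.sum_comm]
    refine Finset.sum_le_sum fun i _ => ?_
    rw [it_succ, count_app, ← Finset.mul_sum]
  have h3 := hex a
  omega

/-- The letters of `w, h(w), …, h^j(w)`. -/
def ball (h : α → List α) (w : List α) (j : ℕ) : Finset α :=
  (Finset.range (j + 1)).biUnion fun i => (it h i w).toFinset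

omit [Fintype α] in
theorem mem_ball {h : α → List α} {w : List α} {j : ℕ} {c : α} :
    c ∈ ball h w j ↔ ∃ i ≤ j, c ∈ it h i w := by
  simp only [ball, Finset.mem_biUnion, Finset.mem_range, List.mem_toFinset, Nat.lt_succ_iff]

omit [Fintype α] in
theorem ball_mono {h : α → List α} {w : List α} {i j : ℕ} (hij : i ≤ j) :
    ball h w i ⊆ ball h w j := by
  intro c hc
  obtain ⟨k, hk, hc⟩ := mem_ball.1 hc
  exact mem_ball.2 ⟨k, hk.trans hij, hc⟩

omit [Fintype α] in
theorem ball_step {h : α → List α} {w : List α} {j : ℕ} {c d : α} (hc : c ∈ ball h w j)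
    (hd : d ∈ h c) : d ∈ ball h w (j + 1) := by
  obtain ⟨k, hk, hc⟩ := mem_ball.1 hc
  exact mem_ball.2 ⟨k + 1, by omega, by rw [it_succ]; exact mem_app.2 ⟨c, hc, hd⟩⟩

omit [Fintype α] in
theorem ball_succ_sub {h : α → List α} {w : List α} {j : ℕ}
    (hs : ∀ c ∈ ball h w j, ∀ d ∈ h c, d ∈ ball h w j) : ball h w (j + 1) ⊆ ball h w j := by
  intro d hd
  obtain ⟨k, hk, hd⟩ := mem_ball.1 hd
  cases k with
  | zero => exact mem_ball.2 ⟨0, Nat.zero_le _, hd⟩
  | succ k =>
    rw [it_succ] at hd
    obtain ⟨c, hc, hcd⟩ := mem_app.1 hd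
    exact hs c (mem_ball.2 ⟨k, by omega, hc⟩) d hcd

omit [Fintype α] in
theorem ball_closed {h : α → List α} {w : List α} {j : ℕ}
    (hs : ∀ c ∈ ball h w j, ∀ d ∈ h c, d ∈ ball h w j) {c : α} (hc : c ∈ ball h w j) :
    ∀ k, ∀ d ∈ it h k [c], d ∈ ball h w j := by
  intro k
  induction k with
  | zero =>
    intro d hd
    rw [it_zero, List.mem_singleton] at hd
    rwa [hd]
  | succ k ih =>
    intro d hd
    rw [it_succ] at hd
    obtain ⟨e, he, hed⟩ := mem_app.1 hd
    exact hs e (ih e he) d hed

theorem ball_card {h : α → List α} {w : List α} (hirr : ∀ a b, ∃ k, b ∈ it h k [a])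
    (h2 : ∃ d ∈ w, ∃ e ∈ w, d ≠ e) (j : ℕ) :
    ball h w j = Finset.univ ∨ j + 2 ≤ (ball h w j).card := by
  induction j with
  | zero =>
    right
    obtain ⟨d, hd, e, he, hde⟩ := h2
    have h3 : ({d, e} : Finset α) ⊆ ball h w 0 := by
      intro c hc
      rw [Finset.mem_insert, Finset.mem_singleton] at hc
      rcases hc with rfl | rfl
      · exact mem_ball.2 ⟨0, le_refl _, hd⟩
      · exact mem_ball.2 ⟨0, le_refl _, he⟩
    have h4 := Finset.card_le_card h3
    rwa [Finset.card_pair hde] at h4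
  | succ j ih =>
    rcases ih with ih | ih
    · left
      refine Finset.eq_univ_iff_forall.2 fun c => ball_mono (Nat.le_succ j) ?_
      rw [ih]
      exact Finset.mem_univ c
    · by_cases hs : ∀ c ∈ ball h w j, ∀ d ∈ h c, d ∈ ball h w j
      · left
        obtain ⟨d, hd, -⟩ := h2
        refine Finset.eq_univ_iff_forall.2 fun c => ball_mono (Nat.le_succ j) ?_
        obtain ⟨k, hk⟩ := hirr d c
        exact ball_closed hs (mem_ball.2 ⟨0, Nat.zero_le _, hd⟩) k c hk
      · right
        push_neg at hs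
        obtain ⟨c, hc, d, hcd, hd⟩ := hs
        have h3 : insert d (ball h w j) ⊆ ball h w (j + 1) := by
          intro e he
          rcases Finset.mem_insert.1 he with rfl | he
          · exact ball_step hc hcd
          · exact ball_mono (Nat.le_succ j) he
        have h4 := Finset.card_le_card h3
        rw [Finset.card_insert_of_notMem hd] at h4
        omega

/-- **Step A**, irreducible `h`. -/
theorem stepA_irr {h : α → List α} {w : List α} (hirr : ∀ a b, ∃ k, b ∈ it h k [a])
    (h2 : ∃ d ∈ w, ∃ e ∈ w, d ≠ e) {μ : ℕ → ℕ}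
    (hex : ∀ a, 1 + ∑ i ∈ Finset.range (Fintype.card α - 1), μ i * (it h (i + 1) w).count a ≤
      ∑ d, (h d).count a) : μ (Fintype.card α - 2) = 0 := by
  by_contra hμ
  obtain ⟨d, hd, e, he, hde⟩ := h2
  have hn : 2 ≤ Fintype.card α := by
    have h3 := Finset.card_le_univ ({d, e} : Finset α)
    rwa [Finset.card_pair hde] at h3
  haveI : Nonempty α := ⟨d⟩
  obtain ⟨c, hc⟩ := Pth.exists_of (h := h) (stepA2_cover hex) (Fintype.card α - 2)
  have hball : c ∈ ball h w (Fintype.card α - 2) := by
    rcases ball_card hirr ⟨d, hd, e, he, hde⟩ (Fintype.card α - 2) with h3 | h3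
    · rw [h3]
      exact Finset.mem_univ c
    · have h4 : Fintype.card α ≤ (ball h w (Fintype.card α - 2)).card := by omega
      have h5 := Finset.eq_univ_of_card _ (le_antisymm (Finset.card_le_univ _) h4)
      rw [h5]
      exact Finset.mem_univ c
  obtain ⟨j, hj, hcj⟩ := mem_ball.1 hball
  obtain ⟨c', h3, h4⟩ := Pth.reach (hc.anti' (Nat.sub_le (Fintype.card α - 2) j)) hcj
  have h5 : j + (Fintype.card α - 2 - j) = Fintype.card α - 2 := by omega
  rw [h5] at h4
  exact h3 (Fintype.card α - 2) (by omega) hμ h4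

end D0L.Bim
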