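import Pool.Agent.H.MP_374efc_lc.Bim.Roses

/-!
# The data `x`, `T = h(x)` from hypothesis (X); exactness `[T] + 1 = [w_0] + A 1`
-/

set_option autoImplicit false

namespace D0L.Bim

open Tr

variable {n N m : ℕ} {H : Fin n → List (Fin n)} {b0 : List (Fin n)}

/-- A bimarked family. -/
theorem li_of_bim {α ι : Type*} [DecidableEq α] {p : ι → List α} (hp : FI p)
    (hb : Bim (mkR p)) : LI p := by
  intro i j a s s' h1 h2
  have e1 : p i ≠ [] := by rw [h1]; simp
  have e2 : p j ≠ [] := by rw [h2]; simp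
  obtain ⟨c, l, hc⟩ := List.exists_cons_of_ne_nil e1
  obtain ⟨c', l', hc'⟩ := List.exists_cons_of_ne_nil e2
  have h3 := hb c c' l l' ((mkR_iff hp).2 ⟨i, hc⟩) ((mkR_iff hp).2 ⟨j, hc'⟩)
    (by rw [← hc, ← hc', h1, h2]; simp)
  subst h3
  exact hp i j c l l' hc hc'

theorem mn_word (hnf : NF H b0 N) (hb : Bmk H) {i : ℕ} {a : Fin n}
    {l l' : List (Fin n)} (hw : it H (i + 1) b0 = a :: l) (hl : rH H a = some l') :
    Mn (rQ H b0 m) (rH H) l l' l := by
  refine ⟨run_self _ _, ?_, fun r' hr' e1 _ => ?_⟩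
  · have h1 : run (rH H) [] (a :: l) = some [] :=
      (rH_iff hnf hb).2 ⟨it H i b0, by rw [← hw, it_succ]⟩
    rw [run_cons, step_nil, hl] at h1
    simpa using h1
  · exact hr'.eq_of_length_le (run_st e1).length_le

theorem fi_pP (hnf : NF H b0 N) (hm : m ≤ n) {a : Fin n} {l v : List (Fin n)}
    (h0 : b0 = a :: l) : FI (pP H b0 (a :: v) m) := by
  intro i j c s s' h1 h2
  unfold pP at h1 h2
  have key : ∀ j : Fin m, (j : ℕ) ≠ 0 → ∀ s, it H j b0 = a :: s → False := by
    intro j hj s hs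
    have h3 := first_unique hnf (i := ⟨j, by omega⟩) (j := ⟨0, by omega⟩) (a := a) hs h0
    exact hj (by simpa using h3)
  split_ifs at h1 h2 with h3 h4 h4
  · exact Fin.ext (by omega)
  · obtain ⟨rfl, -⟩ := List.cons.inj h1
    exact (key j h4 _ h2).elim
  · obtain ⟨rfl, -⟩ := List.cons.inj h2
    exact (key i h3 _ h1).elim
  · exact fi_w hnf hm i j c s s' h1 h2

/-- The data exist. -/
theorem exists_xd (hnf : NF H b0 N) (hb : Bmk H) (h1 : 1 ≤ m) (hm : m ≤ n) (hX : XH H b0 m) :
    ∃ x T js, XD H b0 m x T js := by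
  have hp := pr_rose hnf hb h1 hm hX
  obtain ⟨a0, l0, h0⟩ := List.exists_cons_of_ne_nil hnf.ne
  have hQ0 : rQ H b0 m a0 = some l0 := (rQ_some hnf hm).2 ⟨0, h1, h0⟩
  obtain ⟨l', v, hl', hmn⟩ := hp.mn hQ0
  have hrQ : run (rQ H b0 m) [] (a0 :: v) = some [] := by
    rw [run_cons, step_nil, hQ0]
    simpa using hmn.1
  have hrH : run (rH H) [] (a0 :: v) = some [] := by
    rw [run_cons, step_nil, hl']
    simpa using hmn.2.1
  obtain ⟨js, hjs, htok⟩ := (rQ_iff hnf hm).1 hrQ
  obtain ⟨x, hx⟩ := (rH_iff hnf hb).1 hrH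
  have hfi := fi_pP (v := v) hnf hm h0
  have hps : Ps (rQ H b0 m) (rH H) = mkR (pP H b0 (a0 :: v) m) := by
    funext a
    have key : ∀ v', Ps (rQ H b0 m) (rH H) a = some v' ↔ mkR (pP H b0 (a0 :: v) m) a = some v' := by
      intro v'
      rw [mkR_iff hfi]
      constructor
      · intro h
        obtain ⟨l, l1, e1, e2, e3⟩ := ps_some h
        obtain ⟨i, hi, hw⟩ := (rQ_some hnf hm).1 e1
        refine ⟨⟨i, hi⟩, ?_⟩
        unfold pP
        cases i with
        | zero =>
          rw [it_zero, h0] at hw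
          obtain ⟨rfl, rfl⟩ := List.cons.inj hw
          rw [hl'] at e2
          obtain rfl : l' = l1 := by simpa using e2
          rw [if_pos rfl, hmn.unique e3]
        | succ i =>
          rw [if_neg (Nat.succ_ne_zero i)]
          rw [e3.unique (mn_word hnf hb hw e2)]
          exact hw
      · rintro ⟨i, hi⟩
        unfold pP at hi
        split_ifs at hi with h3
        · obtain ⟨rfl, rfl⟩ := List.cons.inj hi
          exact ps_of hQ0 hl' hmn
        · obtain ⟨k, hk⟩ : ∃ k, (i : ℕ) = k + 1 := ⟨i - 1, by omega⟩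
          rw [hk] at hi
          obtain ⟨l1, hl1⟩ := rH_full hnf hb a
          exact ps_of ((rQ_some hnf hm).2 ⟨k + 1, by omega, hi⟩) hl1 (mn_word hnf hb hi hl1)
    cases h2 : mkR (pP H b0 (a0 :: v) m) a with
    | some v' => exact (key v').2 h2
    | none =>
      cases h3 : Ps (rQ H b0 m) (rH H) a with
      | none => rfl
      | some v' =>
        rw [(key v').1 h3] at h2
        simp at h2
  have hbim : Bim (mkR (pP H b0 (a0 :: v) m)) := by
    rw [← hps, ← fst_eq_ps hp]
    exact fst_bim hp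
  refine ⟨x, a0 :: v, js, hx.symm, htok, hjs, ?_, hfi, li_of_bim hfi hbim, hps, ?_⟩
  · cases js with
    | nil => simp at htok
    | cons j js =>
      obtain ⟨c, l, hcl⟩ := List.exists_cons_of_ne_nil (it_ne hnf j)
      rw [List.map_cons, List.flatten_cons, hcl] at htok
      obtain ⟨rfl, -⟩ := List.cons.inj htok
      have h3 := first_unique hnf (i := ⟨j, by have := hjs j List.mem_cons_self; omega⟩)
        (j := ⟨0, by omega⟩) (a := a0) hcl h0
      have h4 : j = 0 := by simpa using h3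
      rw [h4]
      rfl
  · intro y ks hy0 hyT hks hy
    obtain ⟨c, u, hcu⟩ := List.exists_cons_of_ne_nil hy0
    rw [hcu] at hyT ⊢
    obtain ⟨rfl, hu⟩ := List.cons_prefix_cons.1 hyT
    have e1 : run (rQ H b0 m) [] (c :: u) = some [] := (rQ_iff hnf hm).2 ⟨ks, hks, by rw [← hcu, hy]⟩
    have e2 : run (rH H) [] (c :: u) = some [] := (rH_iff hnf hb).2 ⟨y, hcu.symm⟩
    rw [run_cons, step_nil, hQ0] at e1
    rw [run_cons, step_nil, hl'] at e2
    rw [hmn.2.2 u hu (by simpa using e1) (by simpa using e2)]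

/-- **Exactness** `(E)`. -/
theorem exact_E (hnf : NF H b0 N) (hb : Bmk H) {x T : List (Fin n)} {js : List ℕ} (h1 : 1 ≤ m)
    (hm : m ≤ n) (hx : XD H b0 m x T js) (hac : (KK (rQ H b0 m) (rH H)).IsAcyclic)
    (hX : XH H b0 m) (a : Fin n) : T.count a + 1 = b0.count a + ∑ c, (H c).count a := by
  have hp := pr_rose hnf hb h1 hm hX
  have hP : Bim (Ps (rQ H b0 m) (rH H)) := by
    rw [← fst_eq_ps hp]
    exact fst_bim hp
  have h2 := exact_count hp (hull_rose hnf hb h1 hm) hac hP a
  have hTne : T ≠ [] := by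
    intro h0
    obtain ⟨j, js', rfl⟩ : ∃ j js', js = j :: js' := by
      cases js with
      | nil => have := hx.head; simp at this
      | cons j js' => exact ⟨j, js', rfl⟩
    have h3 := hx.tok
    rw [h0, List.map_cons, List.flatten_cons] at h3
    have h4 := congrArg List.length h3
    rw [List.length_nil, List.length_append] at h4
    have h5 := List.length_pos_of_ne_nil (it_ne hnf j)
    omega
  have hne : ∀ i, pP H b0 T m i ≠ [] := by
    intro i
    unfold pP
    split_ifs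
    · exact hTne
    · exact it_ne hnf i
  rw [hx.ps, occ_mkR hx.fi hne] at h2
  unfold rQ rH at h2
  rw [occ_mkR (fi_w hnf hm) fun i => it_ne hnf i, occ_mkR hb.fst (H_ne hnf)] at h2
  obtain ⟨k, rfl⟩ : ∃ k, m = k + 1 := ⟨m - 1, by omega⟩
  rw [Fin.sum_univ_succ, Fin.sum_univ_succ] at h2
  have h3 : ∀ i : Fin k, pP H b0 T (k + 1) i.succ = it H (i.succ : Fin (k + 1)) b0 := by
    intro i
    unfold pP
    rw [if_neg]
    simp
  have h4 : pP H b0 T (k + 1) 0 = T := by
    unfold pP
    rw [if_pos]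
    simp
  have h5 : it H ((0 : Fin (k + 1)) : ℕ) b0 = b0 := rfl
  have h6 : ∑ i : Fin k, (pP H b0 T (k + 1) i.succ).count a =
      ∑ i : Fin k, (it H (i.succ : Fin (k + 1)) b0).count a :=
    Finset.sum_congr rfl fun i _ => by rw [h3 i]
  rw [h4, h5, h6] at h2
  omega

end D0L.Bim
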